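import Mathlib

set_option autoImplicit false
set_option linter.unusedSectionVars false
set_option linter.unusedVariables false

namespace Pool.Agent.Lib.MP_16ef92_ag.GF

open Polynomial
open scoped Classical

noncomputable section

variable {F : Type} [Field F]

/-- Monic irreducible polynomials. -/
def Prm (p : F[X]) : Prop := p.Monic ∧ Irreducible p

theorem Prm.ne {p : F[X]} (h : Prm p) : p ≠ 0 := h.1.ne_zero

theorem Prm.pos {p : F[X]} (h : Prm p) : 0 < p.natDegree := h.2.natDegree_pos

theorem Prm.eq_of_dvd {p r : F[X]} (h : Prm p) (h' : Prm r) (hd : p ∣ r) : p = r :=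
  eq_of_monic_of_associated h.1 h'.1 (h.2.associated_of_dvd h'.2 hd)

variable [Fintype F]

theorem finite_deg (n : ℕ) : {p : F[X] | p.natDegree = n}.Finite := by
  have : Finite (Polynomial.degreeLT F (n + 1)) :=
    Finite.of_equiv _ (degreeLTEquiv F (n + 1)).toEquiv.symm
  refine (Set.toFinite (Polynomial.degreeLT F (n + 1) : Set F[X])).subset fun p hp => ?_
  rw [SetLike.mem_coe, mem_degreeLT]
  exact degree_le_natDegree.trans_lt (by rw [show p.natDegree = n from hp]; exact_mod_cast n.lt_succ_self)

variable (F) in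
/-- The primes of degree `n`. -/
def Pn (n : ℕ) : Finset F[X] := (finite_deg (F := F) n).toFinset.filter Prm

theorem mem_Pn {n : ℕ} {p : F[X]} : p ∈ Pn F n ↔ Prm p ∧ p.natDegree = n := by
  simp [Pn, and_comm]

end

end Pool.Agent.Lib.MP_16ef92_ag.GF
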