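import Mathlib
import Pool.Agent.Lib.MP_16ef92_ag.GF.Prm

set_option autoImplicit false
set_option linter.unusedSectionVars false
set_option linter.unusedVariables false

namespace Pool.Agent.Lib.MP_16ef92_ag.GF

open Polynomial
open scoped Classical

noncomputable section

variable (F : Type) [Field F] [Fintype F]

/-- Gauss' formula, from the factorisation of `X ^ q ^ n - X`. -/
theorem sum_Pn {n : ℕ} (hn : 0 < n) :
    ∑ d ∈ n.divisors, d * (Pn F d).card = Fintype.card F ^ n := by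
  obtain ⟨p, hp, k, hpp, hk⟩ := FiniteField.card' F
  have h0 : (X ^ Fintype.card F ^ n - X : F[X]) ≠ 0 :=
    FiniteField.X_pow_card_pow_sub_X_ne_zero F hn.ne' Fintype.one_lt_card
  have h1 := (UniqueFactorizationMonoid.squarefree_iff_nodup_normalizedFactors h0).1
    (galois_poly_separable p (Fintype.card F ^ n)
      (dvd_pow (by rw [hk]; exact dvd_pow_self p k.ne_zero) hn.ne')).squarefree
  have h2 := natDegree_eq_of_degree_eq (degree_eq_degree_of_associated
    (UniqueFactorizationMonoid.prod_normalizedFactors h0))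
  rw [FiniteField.X_pow_card_pow_sub_X_natDegree_eq F hn.ne' Fintype.one_lt_card,
    natDegree_multiset_prod _ (UniqueFactorizationMonoid.zero_notMem_normalizedFactors _)] at h2
  have h3 : (⟨_, h1⟩ : Finset F[X]) = n.divisors.biUnion (Pn F) := by
    ext r
    rw [Finset.mem_mk, Polynomial.mem_normalizedFactors_iff h0, ← Nat.card_eq_fintype_card]
    simp only [Finset.mem_biUnion, mem_Pn, Nat.mem_divisors]
    exact ⟨fun h => ⟨_, ⟨h.1.natDegree_dvd_iff_dvd_X_pow_card_pow_sub_X.2 h.2.2, hn.ne'⟩,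
      ⟨h.2.1, h.1⟩, rfl⟩, fun ⟨d, h4, h5, h6⟩ => ⟨h5.2, h5.1,
        h5.2.natDegree_dvd_iff_dvd_X_pow_card_pow_sub_X.1 (h6 ▸ h4.1)⟩⟩
  rw [← h2]
  change _ = ∑ r ∈ (⟨_, h1⟩ : Finset F[X]), r.natDegree
  rw [h3, Finset.sum_biUnion fun a _ b _ hab => Finset.disjoint_left.2 fun r ha hb =>
    hab ((mem_Pn.1 ha).2.symm.trans (mem_Pn.1 hb).2)]
  refine Finset.sum_congr rfl fun d _ => ?_
  rw [Finset.sum_congr rfl fun r hr => (mem_Pn.1 hr).2, Finset.sum_const, smul_eq_mul, mul_comm]

theorem Pn_le (n : ℕ) : n * (Pn F n).card ≤ Fintype.card F ^ n := by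
  rcases n.eq_zero_or_pos with rfl | hn
  · simp
  rw [← sum_Pn F hn]
  exact Finset.single_le_sum (f := fun d => d * (Pn F d).card) (fun _ _ => Nat.zero_le _)
    (Nat.mem_divisors_self n hn.ne')

theorem le_Pn {n : ℕ} (hn : 0 < n) :
    Fintype.card F ^ n ≤ n * (Pn F n).card + 2 * Fintype.card F ^ (n / 2) := by
  have h1 : ∀ k, ∑ d ∈ Finset.range (k + 1), Fintype.card F ^ d ≤ 2 * Fintype.card F ^ k := by
    intro k
    induction k with
    | zero => simp
    | succ k ih =>
      have := Nat.mul_le_mul_left (Fintype.card F ^ k) (Fintype.one_lt_card (α := F))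
      rw [Finset.sum_range_succ, pow_succ]
      omega
  rw [← sum_Pn F hn, ← Nat.insert_self_properDivisors hn.ne',
    Finset.sum_insert Nat.self_notMem_properDivisors]
  refine Nat.add_le_add_left (((Finset.sum_le_sum fun d _ => Pn_le F d).trans
    (Finset.sum_le_sum_of_subset fun d hd => ?_)).trans (h1 _)) _
  obtain ⟨⟨c, rfl⟩, h2⟩ := Nat.mem_properDivisors.1 hd
  have h3 : 2 ≤ c := by
    by_contra h4
    have := Nat.mul_le_mul_left d (show c ≤ 1 by omega)
    omega
  have := Nat.mul_le_mul_left d h3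
  rw [Finset.mem_range]
  omega

/-- a crude lower bound -/
theorem two_pow_le_Pn {n : ℕ} (hn : 16 ≤ n) : 2 ^ (n / 2) ≤ (Pn F n).card := by
  by_contra h
  have hq : 2 ≤ Fintype.card F := Fintype.one_lt_card
  have h1 := le_Pn F (show 0 < n by omega)
  have h2 := Nat.mul_le_mul_left n ((not_le.1 h).le.trans (Nat.pow_le_pow_left hq (n / 2)))
  have h3 : Fintype.card F ^ (n / 2) * 2 ^ (n / 2) ≤ Fintype.card F ^ n := by
    refine (Nat.mul_le_mul_left _ (Nat.pow_le_pow_left hq _)).trans ?_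
    rw [← pow_add]
    exact Nat.pow_le_pow_right (by omega) (by omega)
  have h4 : 2 ^ (n / 2) ≤ n + 2 := Nat.le_of_mul_le_mul_left (by
    rw [mul_add, mul_comm _ n]
    omega) (pow_pos (show 0 < Fintype.card F by omega) (n / 2))
  obtain ⟨k, hk⟩ : ∃ k, n / 2 = k + 4 := ⟨n / 2 - 4, by omega⟩
  have h5 := k.lt_two_pow_self
  rw [hk, pow_add] at h4
  omega

end

end Pool.Agent.Lib.MP_16ef92_ag.GF
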