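import Mathlib
import Pool.Agent.Lib.MP_16ef92_ag.GF.Count

set_option autoImplicit false
set_option linter.unusedSectionVars false
set_option linter.unusedVariables false

namespace Pool.Agent.Lib.MP_16ef92_ag.GF

open Polynomial
open scoped Classical

noncomputable section

variable {F : Type} [Field F] [Fintype F]

variable (F) in
/-- The nonzero polynomials of degree `d`. -/
def anO (d : ℕ) : Finset F[X] := (finite_deg (F := F) d).toFinset.filter (· ≠ 0)

theorem an_mem {d : ℕ} {D : F[X]} : D ∈ anO F d ↔ D.natDegree = d ∧ D ≠ 0 := by simp [anO]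

theorem an_card (d : ℕ) : ((anO F d).card : ℝ) =
    (Fintype.card F - 1) * (Fintype.card F : ℝ) ^ d := by
  have h1 : ∀ n : ℕ, ∃ T : Finset F[X], T.card = Fintype.card F ^ n ∧
      ∀ p, p ∈ T ↔ p.degree < n := fun n => by
    refine ⟨Finset.univ.image fun v : Fin n → F => ((degreeLTEquiv F n).symm v : F[X]), ?_,
      fun p => ?_⟩
    · rw [Finset.card_image_of_injective _
        fun a b e => (degreeLTEquiv F n).symm.injective (Subtype.ext e)]
      simp
    · rw [Finset.mem_image, ← mem_degreeLT]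
      exact ⟨fun ⟨v, _, e⟩ => e ▸ ((degreeLTEquiv F n).symm v).2,
        fun h => ⟨degreeLTEquiv F n ⟨p, h⟩, Finset.mem_univ _, by simp⟩⟩
  obtain ⟨T, h2, h3⟩ := h1 d
  obtain ⟨U, h4, h5⟩ := h1 (d + 1)
  have h6 : T ⊆ U := fun p hp => (h5 p).2 (((h3 p).1 hp).trans (by exact_mod_cast d.lt_succ_self))
  have h7 : anO F d = U \ T := by
    ext p
    rw [an_mem, Finset.mem_sdiff, h3, h5]
    by_cases hp : p = 0
    · simp [hp]
    · rw [degree_eq_natDegree hp, Nat.cast_lt, Nat.cast_lt]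
      simp only [ne_eq, hp, not_false_eq_true, and_true]
      omega
  rw [h7, Finset.card_sdiff_of_subset h6, Nat.cast_sub (Finset.card_le_card h6), h2, h4]
  push_cast
  ring

/-- The probability of being divisible by `p`. -/
def anW (p : F[X]) : ℝ := ((Fintype.card F : ℝ) ^ p.natDegree)⁻¹

theorem anW_nonneg (p : F[X]) : 0 ≤ anW p := by
  unfold anW
  positivity

theorem anW_mul {p r : F[X]} (hp : p ≠ 0) (hr : r ≠ 0) : anW (p * r) = anW p * anW r := by
  rw [anW, natDegree_mul hp hr, pow_add, mul_inv, anW, anW]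

theorem an_cnt_eq {d : ℕ} {G : F[X]} (hG : G ≠ 0) (h : G.natDegree ≤ d) :
    (((anO F d).filter (G ∣ ·)).card : ℝ) = (anO F d).card * anW G := by
  obtain ⟨k, rfl⟩ := Nat.exists_eq_add_of_le h
  have h1 : (anO F (G.natDegree + k)).filter (G ∣ ·) = (anO F k).image (G * ·) := by
    ext D
    rw [Finset.mem_filter, Finset.mem_image, an_mem]
    constructor
    · rintro ⟨⟨h2, h3⟩, E, rfl⟩
      have hE := right_ne_zero_of_mul h3
      rw [natDegree_mul hG hE] at h2
      exact ⟨E, an_mem.2 ⟨by omega, hE⟩, rfl⟩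
    · rintro ⟨E, hE, rfl⟩
      rw [an_mem] at hE
      exact ⟨⟨by rw [natDegree_mul hG hE.2, hE.1], mul_ne_zero hG hE.2⟩, dvd_mul_right _ _⟩
  have hq : (Fintype.card F : ℝ) ≠ 0 := by exact_mod_cast Fintype.card_ne_zero
  rw [h1, Finset.card_image_of_injective _ (mul_right_injective₀ hG), an_card, an_card, anW]
  field_simp
  ring

theorem an_cnt_le (d : ℕ) {G : F[X]} (hG : G ≠ 0) :
    (((anO F d).filter (G ∣ ·)).card : ℝ) ≤ (anO F d).card * anW G := by
  by_cases h : G.natDegree ≤ d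
  · exact (an_cnt_eq hG h).le
  · rw [Finset.filter_false_of_mem fun D hD e => h
      ((natDegree_le_of_dvd e (an_mem.1 hD).2).trans (an_mem.1 hD).1.le)]
    simpa using mul_nonneg (Nat.cast_nonneg _) (anW_nonneg G)

theorem an_swap {ι : Type} (d : ℕ) (Q : Finset ι) (G : ι → F[X]) :
    ∑ D ∈ anO F d, ((Q.filter fun i => G i ∣ D).card : ℝ) =
      ∑ i ∈ Q, (((anO F d).filter (G i ∣ ·)).card : ℝ) := by
  simp only [Finset.card_filter]
  push_cast
  exact Finset.sum_comm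

theorem an_mom {ι : Type} (d : ℕ) (Q : Finset ι) (G : ι → F[X]) (hG : ∀ i ∈ Q, G i ≠ 0) :
    ∑ D ∈ anO F d, ((Q.filter fun i => G i ∣ D).card : ℝ) ≤
      (anO F d).card * ∑ i ∈ Q, anW (G i) := by
  rw [an_swap, Finset.mul_sum]
  exact Finset.sum_le_sum fun i hi => an_cnt_le d (hG i hi)

theorem an_pair (d : ℕ) {S : Finset F[X]} (hS : ∀ p ∈ S, Prm p) :
    ∑ D ∈ anO F d, ((S.offDiag.filter fun y => y.1 * y.2 ∣ D).card : ℝ) ≤
      (anO F d).card * (∑ p ∈ S, anW p) ^ 2 := by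
  have h0 : ∀ y ∈ S.offDiag, y.1 ≠ 0 ∧ y.2 ≠ 0 := fun y hy =>
    ⟨(hS _ (Finset.mem_offDiag.1 hy).1).ne, (hS _ (Finset.mem_offDiag.1 hy).2.1).ne⟩
  refine (an_mom d _ _ fun y hy => mul_ne_zero (h0 y hy).1 (h0 y hy).2).trans
    (mul_le_mul_of_nonneg_left ?_ (Nat.cast_nonneg _))
  rw [Finset.sum_congr rfl fun y hy => anW_mul (h0 y hy).1 (h0 y hy).2, pow_two,
    Finset.sum_mul_sum, ← Finset.sum_product']
  exact Finset.sum_le_sum_of_subset_of_nonneg (fun y hy => Finset.mem_product.2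
    ⟨(Finset.mem_offDiag.1 hy).1, (Finset.mem_offDiag.1 hy).2.1⟩)
    fun y _ _ => mul_nonneg (anW_nonneg _) (anW_nonneg _)

theorem an_mul_dvd {p r D : F[X]} (hp : Prm p) (hr : Prm r) (h : p ≠ r) (h1 : p ∣ D)
    (h2 : r ∣ D) : p * r ∣ D :=
  (hp.2.coprime_iff_not_dvd.2 fun e => h (hp.eq_of_dvd hr e)).mul_dvd h1 h2

/-- The variance of the number of prime factors in `S`. -/
theorem an_var (d : ℕ) {S : Finset F[X]} (hS : ∀ p ∈ S, Prm p ∧ p.natDegree ≤ d) :
    ∑ D ∈ anO F d, (((S.filter (· ∣ D)).card : ℝ) - ∑ p ∈ S, anW p) ^ 2 ≤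
      (anO F d).card * ∑ p ∈ S, anW p := by
  have h1 : ∑ D ∈ anO F d, ((S.filter (· ∣ D)).card : ℝ) = (anO F d).card * ∑ p ∈ S, anW p := by
    rw [an_swap d S fun p => p, Finset.mul_sum]
    exact Finset.sum_congr rfl fun p hp => an_cnt_eq (hS p hp).1.ne (hS p hp).2
  have h2 := an_pair d fun p hp => (hS p hp).1
  have h3 : ∀ D ∈ anO F d, ((S.filter (· ∣ D)).card : ℝ) ^ 2 ≤ (S.filter (· ∣ D)).card +
      (S.offDiag.filter fun y => y.1 * y.2 ∣ D).card := fun D _ => by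
    have h4 := Finset.card_le_card (s := (S.filter (· ∣ D)).offDiag)
      (t := S.offDiag.filter fun y => y.1 * y.2 ∣ D) fun y hy => by
        simp only [Finset.mem_offDiag, Finset.mem_filter] at hy ⊢
        exact ⟨⟨hy.1.1, hy.2.1.1, hy.2.2⟩,
          an_mul_dvd (hS _ hy.1.1).1 (hS _ hy.2.1.1).1 hy.2.2 hy.1.2 hy.2.1.2⟩
    rw [Finset.offDiag_card, tsub_le_iff_left, ← pow_two] at h4
    exact_mod_cast h4
  have h5 := Finset.sum_le_sum h3
  simp only [sub_sq, Finset.sum_add_distrib, Finset.sum_sub_distrib, ← Finset.sum_mul,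
    ← Finset.mul_sum, Finset.sum_const, nsmul_eq_mul] at h5 ⊢
  rw [h1] at h5 ⊢
  nlinarith

variable (F) in
/-- The primes with degree in `J`. -/
def anP (J : Finset ℕ) : Finset F[X] := J.biUnion (Pn F)

theorem an_memP {J : Finset ℕ} {p : F[X]} : p ∈ anP F J ↔ Prm p ∧ p.natDegree ∈ J := by
  simp [anP, mem_Pn, and_comm]

theorem an_sumP (J : Finset ℕ) : ∑ p ∈ anP F J, anW p = ∑ n ∈ J, ∑ p ∈ Pn F n, anW p :=
  Finset.sum_biUnion fun a _ b _ hab => Finset.disjoint_left.2 fun r ha hb =>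
    hab ((mem_Pn.1 ha).2.symm.trans (mem_Pn.1 hb).2)

theorem an_one (n : ℕ) :
    ∑ p ∈ Pn F n, anW p = (Pn F n).card * ((Fintype.card F : ℝ) ^ n)⁻¹ := by
  rw [Finset.sum_congr rfl (g := fun _ => ((Fintype.card F : ℝ) ^ n)⁻¹) fun p hp => by
    rw [anW, (mem_Pn.1 hp).2], Finset.sum_const, nsmul_eq_mul]

theorem an_le {n : ℕ} (hn : 0 < n) : ∑ p ∈ Pn F n, anW p ≤ (n : ℝ)⁻¹ := by
  have hq : (0 : ℝ) < Fintype.card F := by exact_mod_cast Fintype.card_pos
  rw [an_one, mul_inv_le_iff₀ (by positivity), le_inv_mul_iff₀ (by exact_mod_cast hn)]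
  exact_mod_cast Pn_le F n

theorem an_ge {n : ℕ} (hn : 3 ≤ n) : (n : ℝ)⁻¹ / 2 ≤ ∑ p ∈ Pn F n, anW p := by
  have hq : 2 ≤ Fintype.card F := Fintype.one_lt_card
  have h1 := le_Pn F (show 0 < n by omega)
  have h2 : Fintype.card F ^ (n / 2) * 2 ^ 2 ≤ Fintype.card F ^ n := by
    refine (Nat.mul_le_mul_left _ (Nat.pow_le_pow_left hq _)).trans ?_
    rw [← pow_add]
    exact Nat.pow_le_pow_right (by omega) (by omega)
  have h3 : Fintype.card F ^ n ≤ n * ((Pn F n).card * 2) := by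
    rw [← mul_assoc]
    omega
  have hq' : (0 : ℝ) < Fintype.card F := by exact_mod_cast Fintype.card_pos
  rw [an_one, le_mul_inv_iff₀ (by positivity), div_mul_eq_mul_div, div_le_iff₀ two_pos,
    inv_mul_le_iff₀ (by exact_mod_cast (show 0 < n by omega))]
  exact_mod_cast h3

theorem an_harm (n : ℕ) : ∑ i ∈ Finset.Icc 1 n, (i : ℝ)⁻¹ = harmonic n := by
  simp only [harmonic_eq_sum_Icc, Rat.cast_sum, Rat.cast_inv, Rat.cast_natCast]

theorem an_all (d n : ℕ) : ∑ D ∈ anO F d, (((anP F (Finset.Icc 1 n)).filter (· ∣ D)).card : ℝ) ≤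
    (anO F d).card * (1 + Real.log n) := by
  refine (an_mom d _ (fun p => p) fun p hp => (an_memP.1 hp).1.ne).trans
    (mul_le_mul_of_nonneg_left ?_ (Nat.cast_nonneg _))
  rw [an_sumP]
  exact (Finset.sum_le_sum fun i hi => an_le (Finset.mem_Icc.1 hi).1).trans
    ((an_harm n).le.trans (harmonic_le_one_add_log n))

theorem an_odd (k : ℕ) : ∑ i ∈ Finset.Icc 1 k, (i : ℝ)⁻¹ + (if Odd k then ((k : ℝ) + 1)⁻¹ else 0) ≤
    2 * ∑ i ∈ (Finset.Icc 1 k).filter Odd, (i : ℝ)⁻¹ := by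
  induction k with
  | zero => simp
  | succ k ih =>
    rw [Finset.sum_filter] at ih ⊢
    rw [Finset.sum_Icc_succ_top (by omega), Finset.sum_Icc_succ_top (by omega)]
    by_cases hk : Odd k
    · have h1 : ¬ Odd (k + 1) := by rw [Nat.odd_add_one]; exact not_not.2 hk
      rw [if_pos hk] at ih
      simp only [if_neg h1]
      push_cast
      linarith
    · have h1 : Odd (k + 1) := Nat.odd_add_one.2 hk
      have h2 : ((k : ℝ) + 1 + 1)⁻¹ ≤ ((k : ℝ) + 1)⁻¹ := inv_anti₀ (by positivity) (by linarith)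
      rw [if_neg hk] at ih
      simp only [if_pos h1]
      push_cast
      linarith

/-- The odd degrees in `[L, d]`. -/
def anJ (L d : ℕ) : Finset ℕ := ((Finset.Icc 1 d).filter Odd).filter (L ≤ ·)

theorem an_mu {L : ℕ} (hL : 3 ≤ L) (d : ℕ) :
    (Real.log (d + 1 : ℕ) / 2 - 1 - Real.log L) / 2 ≤ ∑ p ∈ anP F (anJ L d), anW p := by
  have h1 := an_odd d
  have h2 : 0 ≤ (if Odd d then ((d : ℝ) + 1)⁻¹ else 0) := by split_ifs <;> positivity
  have h3 := log_add_one_le_harmonic d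
  have h4 := harmonic_le_one_add_log L
  rw [← an_harm] at h3 h4
  have h5 := Finset.sum_filter_add_sum_filter_not ((Finset.Icc 1 d).filter Odd) (L ≤ ·)
    fun i : ℕ => (i : ℝ)⁻¹
  have h6 := Finset.sum_le_sum_of_subset_of_nonneg (f := fun i : ℕ => (i : ℝ)⁻¹)
    (s := ((Finset.Icc 1 d).filter Odd).filter (¬ L ≤ ·)) (t := Finset.Icc 1 L) (fun i hi => by
      simp only [Finset.mem_filter, Finset.mem_Icc] at hi ⊢
      omega) fun i _ _ => by positivity
  have h7 := Finset.sum_le_sum (s := anJ L d) fun i hi =>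
    an_ge (F := F) (hL.trans (Finset.mem_filter.1 hi).2)
  rw [← an_sumP, ← Finset.sum_div, anJ] at h7
  rw [anJ]
  linarith

/-- The prime factors. -/
def anF (D : F[X]) : Finset F[X] := (UniqueFactorizationMonoid.normalizedFactors D).toFinset

theorem an_memF {D p : F[X]} (h : D ≠ 0) : p ∈ anF D ↔ Prm p ∧ p ∣ D := by
  rw [anF, Multiset.mem_toFinset, Polynomial.mem_normalizedFactors_iff h, Prm]
  tauto

/-- The small prime factors. -/
def anS (L : ℕ) (D : F[X]) : Finset F[X] := (anF D).filter (·.natDegree < L)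

/-- The large prime factors. -/
def anL (L : ℕ) (D : F[X]) : Finset F[X] := (anF D).filter (¬ ·.natDegree < L)

/-- Typical polynomials. -/
def anT (L K M : ℕ) (D : F[X]) : Prop := Set.InjOn natDegree (anL L D : Set F[X]) ∧
  (anF D).card ≤ K ∧ M * ((anS L D).card + 1) ≤ ((anL L D).filter (Odd ·.natDegree)).card

theorem an_rare {L K : ℕ} (M d : ℕ) (hL : 0 < L) (hK : 0 < K) {m : ℝ} (hm : 0 < m)
    (h : m ≤ ∑ p ∈ anP F (anJ L d), anW p) :
    (((anO F d).filter (¬ anT L K M ·)).card : ℝ) ≤ (anO F d).card *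
      (2 / L + (1 + Real.log d) / K + (4 + 2 * M * (2 + Real.log L)) / m) := by
  set μ := ∑ p ∈ anP F (anJ L d), anW p with hμ
  have hμ0 : 0 < μ := hm.trans_le h
  have hK' : (0 : ℝ) < K := by exact_mod_cast hK
  let A : F[X] → ℝ := fun D => ∑ n ∈ Finset.Ioo (L - 1) (d + 1),
    (((Pn F n).offDiag.filter fun y => y.1 * y.2 ∣ D).card : ℝ)
  let W : ℕ → F[X] → ℝ := fun n D => ((anP F (Finset.Icc 1 n)).filter (· ∣ D)).card
  let Z : F[X] → ℝ := fun D => ((anP F (anJ L d)).filter (· ∣ D)).card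
  have h1 : ∀ D ∈ anO F d, (if ¬ anT L K M D then (1 : ℝ) else 0) ≤
      A D + W d D / K + (Z D - μ) ^ 2 * (4 / μ ^ 2) + (W L D + 1) * (2 * M / μ) := by
    intro D hD
    obtain ⟨hd, h0⟩ := an_mem.1 hD
    have hA : 0 ≤ A D := Finset.sum_nonneg fun _ _ => Nat.cast_nonneg _
    have hW : 0 ≤ W d D / K := by positivity
    have hZ : 0 ≤ (Z D - μ) ^ 2 * (4 / μ ^ 2) := by positivity
    have hR : 0 ≤ (W L D + 1) * (2 * M / μ) := by positivity
    split_ifs with hT
    · linarith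
    have hdeg : ∀ p, p ∣ D → p.natDegree ≤ d := fun p hp => hd ▸ natDegree_le_of_dvd hp h0
    rcases not_and_or.1 hT with hT | hT
    · simp only [Set.InjOn, not_forall, Finset.mem_coe, anL, Finset.mem_filter, an_memF h0] at hT
      obtain ⟨p, hp, r, hr, e, hne⟩ := hT
      have h2 := Finset.single_le_sum (f := fun n => (((Pn F n).offDiag.filter
        fun y => y.1 * y.2 ∣ D).card : ℝ)) (fun _ _ => Nat.cast_nonneg _)
        (show p.natDegree ∈ Finset.Ioo (L - 1) (d + 1) by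
          have := hdeg p hp.1.2
          rw [Finset.mem_Ioo]
          omega)
      have h3 : (1 : ℝ) ≤ ((Pn F p.natDegree).offDiag.filter fun y => y.1 * y.2 ∣ D).card := by
        exact_mod_cast Finset.card_pos.2 ⟨(p, r), Finset.mem_filter.2 ⟨Finset.mem_offDiag.2
          ⟨mem_Pn.2 ⟨hp.1.1, rfl⟩, mem_Pn.2 ⟨hr.1.1, e.symm⟩, hne⟩,
          an_mul_dvd hp.1.1 hr.1.1 hne hp.1.2 hr.1.2⟩⟩
      have h4 : 1 ≤ A D := h3.trans h2
      linarith
    rcases not_and_or.1 hT with hT | hT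
    · have h2 := Finset.card_le_card (s := anF D) (t := (anP F (Finset.Icc 1 d)).filter (· ∣ D))
        fun p hp => by
          rw [an_memF h0] at hp
          exact Finset.mem_filter.2
            ⟨an_memP.2 ⟨hp.1, Finset.mem_Icc.2 ⟨hp.1.pos, hdeg p hp.2⟩⟩, hp.2⟩
      have h3 : 1 ≤ W d D / K := by
        rw [le_div_iff₀ hK', one_mul]
        exact Nat.cast_le.2 ((not_le.1 hT).le.trans h2)
      linarith
    have h2 := Finset.card_le_card (s := anS L D) (t := (anP F (Finset.Icc 1 L)).filter (· ∣ D))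
      fun p hp => by
        rw [anS, Finset.mem_filter, an_memF h0] at hp
        exact Finset.mem_filter.2
          ⟨an_memP.2 ⟨hp.1.1, Finset.mem_Icc.2 ⟨hp.1.1.pos, hp.2.le⟩⟩, hp.1.2⟩
    have h3 := Finset.card_le_card (s := (anP F (anJ L d)).filter (· ∣ D))
      (t := (anL L D).filter (Odd ·.natDegree)) fun p hp => by
        simp only [Finset.mem_filter, an_memP, anJ, anL, an_memF h0] at hp ⊢
        exact ⟨⟨⟨hp.1.1, hp.2⟩, not_lt.2 hp.1.2.2⟩, hp.1.2.1.2⟩
    have h4 : Z D ≤ M * (W L D + 1) := by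
      simp only [Z, W]
      exact_mod_cast (h3.trans (not_le.1 hT).le).trans
        (Nat.mul_le_mul_left M (Nat.add_le_add_right h2 1))
    by_cases h5 : μ / 2 ≤ Z D
    · have h6 : 1 ≤ (W L D + 1) * (2 * M / μ) := by
        rw [← mul_div_assoc, le_div_iff₀ hμ0]
        linarith
      linarith
    · have h6 : 1 ≤ (Z D - μ) ^ 2 * (4 / μ ^ 2) := by
        rw [← mul_div_assoc, le_div_iff₀ (pow_pos hμ0 2)]
        nlinarith
      linarith
  have h2 := Finset.sum_le_sum h1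
  have hN : (0 : ℝ) ≤ (anO F d).card := Nat.cast_nonneg _
  have h3 : ∑ D ∈ anO F d, A D ≤ (anO F d).card * (2 / L) := by
    rw [Finset.sum_comm]
    refine (Finset.sum_le_sum fun n _ => an_pair d fun p hp => (mem_Pn.1 hp).1).trans ?_
    rw [← Finset.mul_sum]
    refine mul_le_mul_of_nonneg_left ?_ hN
    have h4 := sum_Ioo_inv_sq_le (α := ℝ) (L - 1) (d + 1)
    rw [Nat.cast_pred hL, sub_add_cancel] at h4
    refine le_trans (Finset.sum_le_sum fun n hn => ?_) h4
    rw [← inv_pow]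
    exact pow_le_pow_left₀ (Finset.sum_nonneg fun p _ => anW_nonneg p)
      (an_le ((Nat.zero_le _).trans_lt (Finset.mem_Ioo.1 hn).1)) 2
  have h4 : ∑ D ∈ anO F d, W d D / K ≤ (anO F d).card * ((1 + Real.log d) / K) := by
    rw [← Finset.sum_div, ← mul_div_assoc]
    exact div_le_div_of_nonneg_right (an_all d d) hK'.le
  have h5 : ∑ D ∈ anO F d, (Z D - μ) ^ 2 * (4 / μ ^ 2) ≤ (anO F d).card * (4 / μ) := by
    rw [← Finset.sum_mul]
    refine (mul_le_mul_of_nonneg_right (an_var d fun p hp => ⟨(an_memP.1 hp).1, ?_⟩)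
      (by positivity)).trans (le_of_eq ?_)
    · exact (Finset.mem_Icc.1 (Finset.mem_filter.1 (Finset.mem_filter.1 (an_memP.1 hp).2).1).1).2
    · rw [← hμ]
      field_simp
  have h6 : ∑ D ∈ anO F d, (W L D + 1) * (2 * M / μ) ≤
      (anO F d).card * (2 * M * (2 + Real.log L) / μ) := by
    rw [← Finset.sum_mul, Finset.sum_add_distrib, Finset.sum_const, nsmul_eq_mul]
    refine (mul_le_mul_of_nonneg_right (add_le_add_left (an_all d L) _) (by positivity)).trans
      (le_of_eq ?_)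
    ring
  have h7 : (4 + 2 * M * (2 + Real.log L)) / μ ≤ (4 + 2 * M * (2 + Real.log L)) / m :=
    div_le_div_of_nonneg_left (by have := Real.log_natCast_nonneg L; positivity) hm h
  have h8 := mul_le_mul_of_nonneg_left h7 hN
  rw [Finset.sum_boole, Finset.sum_add_distrib, Finset.sum_add_distrib,
    Finset.sum_add_distrib] at h2
  rw [add_div, mul_add] at h8
  rw [mul_add, mul_add]
  linarith

end

end Pool.Agent.Lib.MP_16ef92_ag.GF
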