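import Mathlib
import Pool.Agent.Lib.MP_16ef92_ag.Mult

set_option autoImplicit false
set_option linter.unusedSectionVars false
set_option linter.unusedVariables false

namespace Pool.Agent.Lib.MP_16ef92_ag.GF

open WeierstrassCurve WeierstrassCurve.Affine
open scoped Classical

noncomputable section

section line

variable {L : Type} [Field L] [DecidableEq L] {W : Affine L} {e₁ e₂ e₃ : L}

/-- The tangent of slope `d` at the node, evaluated at a point. -/
def um (e d : L) : W.Point → L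
  | .zero => 1
  | .some x y _ => y - d * (x - e)

theorem det_line (h : Cub W e₁ e₂ e₃) {x₁ x₂ y₁ y₂ : L} (h₁ : W.Nonsingular x₁ y₁)
    (h₂ : W.Nonsingular x₂ y₂) (hxy : ¬(x₁ = x₂ ∧ y₁ = W.negY x₂ y₂)) :
    ∃ (l m x₃ : L) (h₃ : W.Nonsingular x₃ (-(l * (x₃ - e₁) + m))),
      Point.some _ _ h₁ + Point.some _ _ h₂ = Point.some _ _ h₃ ∧
      y₁ = l * (x₁ - e₁) + m ∧ y₂ = l * (x₂ - e₁) + m ∧
      (x₁ - e₁) + (x₂ - e₁) + (x₃ - e₁) = l ^ 2 + (e₂ - e₁) - (e₁ - e₃) ∧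
      (x₁ - e₁) * (x₂ - e₁) + (x₁ - e₁) * (x₃ - e₁) + (x₂ - e₁) * (x₃ - e₁) =
        -((e₂ - e₁) * (e₁ - e₃) + 2 * l * m) ∧
      (x₁ - e₁) * (x₂ - e₁) * (x₃ - e₁) = m ^ 2 := by
  have hp := addPolynomial_slope h₁.1 h₂.1 hxy
  rw [addPolynomial_eq, neg_inj, Cubic.prod_X_sub_C_eq, Cubic.toPoly_injective] at hp
  have hb := congrArg Cubic.b hp
  have hc := congrArg Cubic.c hp
  have hd := congrArg Cubic.d hp
  have hy : y₂ = W.slope x₁ x₂ y₁ y₂ * (x₂ - x₁) + y₁ := by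
    by_cases hx : x₁ = x₂
    · rw [← Y_eq_of_Y_ne h₁.1 h₂.1 hx fun e => hxy ⟨hx, e⟩, hx]
      ring
    · rw [slope_of_X_ne hx]
      have := sub_ne_zero.2 hx
      field_simp
      ring
  have hs : ∃ hn, Point.some _ _ h₁ + Point.some _ _ h₂ = Point.some _ _ hn :=
    ⟨_, Point.add_some hxy (h₁ := h₁) (h₂ := h₂)⟩
  have hY : W.addY x₁ x₂ y₁ (W.slope x₁ x₂ y₁ y₂) =
      -(W.slope x₁ x₂ y₁ y₂ * (W.addX x₁ x₂ (W.slope x₁ x₂ y₁ y₂) - e₁) +
        (y₁ - W.slope x₁ x₂ y₁ y₂ * (x₁ - e₁))) := by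
    rw [addY, h.negY, negAddY]
    ring
  generalize W.slope x₁ x₂ y₁ y₂ = l at *
  generalize W.addY x₁ x₂ y₁ l = y₃ at *
  generalize W.addX x₁ x₂ l = x₃ at *
  subst hY
  obtain ⟨hn, hs⟩ := hs
  simp only [h.a1, h.a2, h.a3, h.a4, h.a6] at hb hc hd
  refine ⟨l, y₁ - l * (x₁ - e₁), x₃, hn, hs, by ring, by rw [hy]; ring, ?_, ?_, ?_⟩
  · linear_combination hb
  · linear_combination -hc - 2 * e₁ * hb
  · linear_combination hd + e₁ * hc + e₁ ^ 2 * hb

theorem det_prod {X₁ X₂ X₃ l m n d : L} (h1 : X₁ + X₂ + X₃ = l ^ 2 + n - d ^ 2)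
    (h2 : X₁ * X₂ + X₁ * X₃ + X₂ * X₃ = -(n * d ^ 2 + 2 * l * m)) (h3 : X₁ * X₂ * X₃ = m ^ 2) :
    (l * X₁ + m - d * X₁) * (l * X₂ + m - d * X₂) * (l * X₃ + m - d * X₃) - m ^ 3 =
      (l - d) * m * (m - (l - d) * d ^ 2) * n := by
  linear_combination (l - d) ^ 3 * h3 + (l - d) ^ 2 * m * h2 + (l - d) * m ^ 2 * h1

end line

variable {F : Type} [Field F] [Clos F] [Fintype F] [hq : Fact (Odd (Fintype.card F))]
variable {W : Affine (Om F)} {e₁ e₂ e₃ d : Om F} {O : ValuationSubring (Om F)}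

/-- Points that reduce to a smooth point of the nodal cubic. -/
def Gd (O : ValuationSubring (Om F)) (e : Om F) (P : W.Point) : Prop :=
  P = 0 ∨ O.valuation (xx P - e) = 1

theorem val_le_of_sq {a : Om F} (h : O.valuation (a ^ 2) ≤ 1) : O.valuation a ≤ 1 := by
  rw [map_pow] at h
  exact (pow_le_one_iff_of_nonneg zero_le two_ne_zero).1 h

section node

variable (h : Cub W e₁ e₂ e₃) (h12 : O.valuation (e₁ - e₂) < 1) (h13 : O.valuation (e₁ - e₃) = 1)
  (hd : d ^ 2 = e₁ - e₃)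
include h h12 h13 hd

theorem um_unit {P : W.Point} (hP : Gd O e₁ P) : O.valuation (um e₁ d P) = 1 := by
  rcases P with _ | ⟨x, y, n⟩
  · exact map_one _
  have hx : O.valuation (x - e₁) = 1 := hP.resolve_left (Point.some_ne_zero _)
  have e := (h.eqn _ _).1 n.1
  have hd1 := val_of_sq hd h13
  have h3 : O.valuation (x - e₃) ≤ 1 := by
    have := Valuation.map_add_le _ hx.le h13.le
    rwa [sub_add_sub_cancel] at this
  have h2 : O.valuation (x - e₂) ≤ 1 := by
    have := Valuation.map_add_le _ hx.le h12.le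
    rwa [sub_add_sub_cancel] at this
  have hy : O.valuation y ≤ 1 := val_le_of_sq (by
    rw [e]
    exact val_mul_le O (val_mul_le O hx.le h2) h3)
  have h4 := val_mul_le O hd1.le hx.le
  simp only [um]
  refine val_factor (Valuation.map_sub_le _ hy h4) (Valuation.map_add_le _ hy h4) ?_
  refine val_one_of_sub O (c := (x - e₁) ^ 3) (by rw [map_pow, hx, one_pow]) ?_
  have : (y - d * (x - e₁)) * (y + d * (x - e₁)) - (x - e₁) ^ 3 =
      (x - e₁) * (x - e₃) * (e₁ - e₂) := by linear_combination e - (x - e₁) ^ 2 * hd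
  rw [this]
  exact val_mul_lt O (val_mul_le O hx.le h3) h12

theorem um_add {P Q : W.Point} (hP : Gd O e₁ P) (hQ : Gd O e₁ Q) (hR : Gd O e₁ (P + Q)) :
    O.valuation (um e₁ d P * um e₁ d Q * um e₁ (-d) (P + Q) -
      um e₁ (-d) P * um e₁ (-d) Q * um e₁ d (P + Q)) < 1 := by
  have hz : ∀ z : Om F, z = 0 → O.valuation z < 1 := fun z e => by simp [e]
  rcases P with _ | ⟨x₁, y₁, h₁⟩
  · refine hz _ ?_
    rw [← Point.zero_def, zero_add, Point.zero_def]
    simp only [um]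
    ring
  rcases Q with _ | ⟨x₂, y₂, h₂⟩
  · refine hz _ ?_
    rw [← Point.zero_def, add_zero, Point.zero_def]
    simp only [um]
    ring
  by_cases hxy : x₁ = x₂ ∧ y₁ = W.negY x₂ y₂
  · refine hz _ ?_
    rw [Point.add_of_Y_eq hxy.1 hxy.2, Point.zero_def]
    simp only [um]
    rw [hxy.1, hxy.2, h.negY]
    ring
  obtain ⟨l, m, x₃, h₃, hs, e1, e2, s1, s2, s3⟩ := det_line h h₁ h₂ hxy
  rw [hs] at hR ⊢
  have v1 : O.valuation (x₁ - e₁) = 1 := hP.resolve_left (Point.some_ne_zero _)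
  have v2 : O.valuation (x₂ - e₁) = 1 := hQ.resolve_left (Point.some_ne_zero _)
  have v3 : O.valuation (x₃ - e₁) = 1 := hR.resolve_left (Point.some_ne_zero _)
  have hn : O.valuation (e₂ - e₁) < 1 := by rwa [Valuation.map_sub_swap]
  have hm : O.valuation m = 1 := val_of_sq s3.symm (by rw [map_mul, map_mul, v1, v2, v3]; simp)
  have hl : O.valuation l ≤ 1 := val_le_of_sq (by
    rw [show l ^ 2 = (x₁ - e₁) + (x₂ - e₁) + (x₃ - e₁) - (e₂ - e₁) + (e₁ - e₃) by
      linear_combination -s1]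
    exact Valuation.map_add_le _ (Valuation.map_sub_le _
      (Valuation.map_add_le _ (Valuation.map_add_le _ v1.le v2.le) v3.le) hn.le) h13.le)
  have key : ∀ c : Om F, c ^ 2 = e₁ - e₃ → O.valuation ((l * (x₁ - e₁) + m - c * (x₁ - e₁)) *
      (l * (x₂ - e₁) + m - c * (x₂ - e₁)) * (l * (x₃ - e₁) + m - c * (x₃ - e₁)) - m ^ 3) < 1 := by
    intro c hc
    rw [det_prod (n := e₂ - e₁) (by rw [hc, s1]) (by rw [hc, s2]) s3, hc]
    have h5 := Valuation.map_sub_le _ hl (val_of_sq hc h13).le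
    exact val_mul_lt O (val_mul_le O (val_mul_le O h5 hm.le)
      (Valuation.map_sub_le _ hm.le (val_mul_le O h5 h13.le))) hn
  have := Valuation.map_sub_lt _ (key (-d) (by rw [neg_sq, hd])) (key d hd)
  convert this using 2
  simp only [um]
  rw [e1, e2]
  ring

/-- The reduction to the multiplicative group. -/
theorem um_nsmul {R : W.Point} (hR : ∀ m : ℕ, Gd O e₁ (m • R)) (m : ℕ) :
    O.valuation (um e₁ d (m • R) / um e₁ (-d) (m • R) - (um e₁ d R / um e₁ (-d) R) ^ m) < 1 := by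
  have hd' : (-d) ^ 2 = e₁ - e₃ := by rw [neg_sq, hd]
  have u1 := fun m => um_unit h h12 h13 hd (hR m)
  have u2 := fun m => um_unit h h12 h13 hd' (hR m)
  have u3 := u1 1
  have u4 := u2 1
  rw [one_nsmul] at u3 u4
  have hne : ∀ z : Om F, O.valuation z = 1 → z ≠ 0 := fun z hz e => by simp [e] at hz
  induction m with
  | zero =>
    rw [zero_nsmul, Point.zero_def]
    simp [um]
  | succ m ih =>
    have h1 := um_add h h12 h13 hd (hR m) (by simpa using hR 1) (by rw [← succ_nsmul]; exact hR _)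
    rw [← succ_nsmul] at h1
    have a1 := hne _ (u2 m)
    have a2 := hne _ (u2 (m + 1))
    have a3 := hne _ u4
    have : um e₁ d ((m + 1) • R) / um e₁ (-d) ((m + 1) • R) - (um e₁ d R / um e₁ (-d) R) ^ (m + 1) =
        um e₁ d R / um e₁ (-d) R * (um e₁ d (m • R) / um e₁ (-d) (m • R) -
          (um e₁ d R / um e₁ (-d) R) ^ m) -
        (um e₁ (-d) (m • R) * um e₁ (-d) R * um e₁ (-d) ((m + 1) • R))⁻¹ *
          (um e₁ d (m • R) * um e₁ d R * um e₁ (-d) ((m + 1) • R) -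
            um e₁ (-d) (m • R) * um e₁ (-d) R * um e₁ d ((m + 1) • R)) := by
      rw [pow_succ]
      generalize (um e₁ d R / um e₁ (-d) R) ^ m = t
      field_simp
      ring
    rw [this]
    refine Valuation.map_sub_lt _ (val_mul_lt O ?_ ih) (val_mul_lt O ?_ h1)
    · rw [map_div₀, u3, u4, div_one]
    · rw [map_inv₀, map_mul, map_mul, u2, u2, u4]
      simp

end node

end

end Pool.Agent.Lib.MP_16ef92_ag.GF
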