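import Mathlib
import Pool.Agent.Lib.MP_16ef92_ag.GF.Det1

set_option autoImplicit false
set_option linter.unusedSectionVars false
set_option linter.unusedVariables false

namespace Pool.Agent.Lib.MP_16ef92_ag.GF

open WeierstrassCurve WeierstrassCurve.Affine
open scoped Classical

noncomputable section

variable {F : Type} [Field F] [Clos F] [Fintype F] [hq : Fact (Odd (Fintype.card F))]
variable {W : WeierstrassCurve (RatFunc F)} {e : Fin 3 → Om F} {O : ValuationSubring (Om F)}
  {x : Option (kk F)} {i j k : Fin 3}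

theorem det_not_fixed (hO : Over O x) {w : Om F} (hv : O.valuation (w ^ 2) = O.valuation (pl x))
    (hw : ∀ g ∈ Ine O, g w = w) : False := by
  obtain ⟨g, hg, h1⟩ := hO.exists_sg
  have h0 : w ^ 2 ≠ 0 := fun e => hO.val_ne (by rw [← hv, e, map_zero])
  have h2 := hO.kap_val prim_one hg (z := w ^ 2) (by rw [map_pow, hw g hg]) (j := 1)
    (by rw [zpow_one, hv])
  change sg _ _ = _ * sg _ _ at h2
  rw [sg_of_fix h0 rfl (hw g hg), h1] at h2
  exact absurd h2 (by decide)

theorem um_pm (g : Gam F) {a : Om F} (ha : g a = a) (d : Om F) (P : Pt W) :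
    g (um a d P) = um a (g d) (pm g P) := by
  rcases P with _ | ⟨x, y, n⟩
  · exact map_one g
  · obtain ⟨n', e'⟩ := pm_some g n
    rw [e']
    simp only [um, map_sub, map_mul, ha]

theorem val_pow_sub {a b : Om F} (ha : O.valuation a ≤ 1) (hb : O.valuation b ≤ 1)
    (h : O.valuation (a - b) < 1) (m : ℕ) : O.valuation (a ^ m - b ^ m) < 1 := by
  induction m with
  | zero => simp
  | succ m ih =>
    rw [show a ^ (m + 1) - b ^ (m + 1) = a * (a ^ m - b ^ m) + b ^ m * (a - b) by ring]
    exact Valuation.map_add_lt _ (val_mul_lt O ha ih)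
      (val_mul_lt O (by rw [map_pow]; exact pow_le_one₀ zero_le hb) h)

section

variable (hW : Cub (W.baseChange (Om F)).toAffine (e 0) (e 1) (e 2)) {T : TD e}
  {ev : V →+ ℕ → Pt W} (hin : ∀ x, InTate (ev x)) (hker : ∀ n x, ev x n = 0 ↔ x ∈ Dv n)
  (hro : ∀ g x, ev (T.ro g x) = act g (ev x)) (hm : MP e O x i j k)
include hW hin hker hro hm

theorem det_unit {y : V} (hy : ∀ g ∈ Ine O, T.ro g y = y) (hp : y ∉ Dv 1) (n : ℕ) :
    O.valuation (xx (ev y (n + 1)) - e i) = 1 := by
  have hc := cub_perm hW hm.ij hm.ik hm.jk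
  have h2 : ∀ n, ev y (n + 1) + ev y (n + 1) = ev y n := fun n => by rw [← two_nsmul, (hin y).2]
  have hne : ∀ n, ev y (n + 2) + ev y (n + 2) ≠ 0 := fun n h =>
    hp (Dv_mono (by omega) ((hker (n + 1) y).1 (by rw [← h2, h])))
  have hfix : ∀ n l, ∀ g ∈ Ine O, g (aa (e l) (ev y n)) = aa (e l) (ev y n) := fun n l g hg => by
    rw [← aa_pm g (T.efix g l), ← act_apply, ← hro, hy g hg]
  have si : ∀ n, aa (e i) (ev y (n + 2)) ^ 2 = xx (ev y (n + 1)) - e i := fun n => by
    rw [hc.dbl (hne n), h2]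
  have sj : ∀ n, aa (e j) (ev y (n + 2)) ^ 2 = xx (ev y (n + 1)) - e j := fun n => by
    rw [hc.swap.dbl (hne n), h2]
  have sk : ∀ n, aa (e k) (ev y (n + 2)) ^ 2 = xx (ev y (n + 1)) - e k := fun n => by
    rw [hc.swap'.swap.dbl (hne n), h2]
  induction n with
  | zero =>
    rcases hc.two_tors (Q := ev y 1) (by rw [h2, (hin y).1]) with h | h | h | h
    · exact (hp ((hker 1 y).1 h)).elim
    · refine (det_not_fixed hm.ov ?_ (hfix 2 j)).elim
      rw [sj 0, h]
      exact hm.vij
    · refine (det_not_fixed hm.ov ?_ (hfix 2 i)).elim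
      rw [si 0, h]
      exact hm.swap.vij
    · rw [zero_add, h, Valuation.map_sub_swap]
      exact hm.vik
  | succ n hv =>
    have hi := val_of_sq (si n) hv
    have hj := val_of_sq (sj n)
      (val_one_of_sub O hv (by rw [sub_sub_sub_cancel_left]; exact hm.lt))
    have hk1 : O.valuation (aa (e k) (ev y (n + 2))) ≤ 1 := val_le_of_sq (by
      have h1 := Valuation.map_add_le _ hv.le hm.vik.le
      rwa [sub_add_sub_cancel, ← sk] at h1)
    have hst := hc.step (hne n)
    have si' := si (n + 1)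
    have hf := hfix (n + 1 + 2) i
    have s1 := si n
    have s2 := sj n
    have s3 := sk n
    generalize aa (e i) (ev y (n + 2)) = a at *
    generalize aa (e j) (ev y (n + 2)) = b at *
    generalize aa (e k) (ev y (n + 2)) = c at *
    have hpr : O.valuation ((a + c) * (a - c)) = 1 := by
      rw [← sq_sub_sq, s1, s3, sub_sub_sub_cancel_left, Valuation.map_sub_swap, hm.vik]
    have hac := val_factor (Valuation.map_add_le _ hi.le hk1) (Valuation.map_sub_le _ hi.le hk1) hpr
    by_cases hab : O.valuation (a + b) = 1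
    · rw [hst, map_mul, hab, hac, one_mul]
    refine (det_not_fixed hm.ov ?_ hf).elim
    have h5 : O.valuation (a - b) = 1 := by
      refine val_one_of_sub O (c := 2 * a) (by rw [map_mul, val_two, hi, one_mul]) ?_
      rw [show a - b - 2 * a = -(a + b) by ring, Valuation.map_neg]
      exact lt_of_le_of_ne (Valuation.map_add_le _ hi.le hj.le) hab
    have h6 : O.valuation ((a + b) * (a - b)) = O.valuation (pl x) := by
      rw [← sq_sub_sq, s1, s2, sub_sub_sub_cancel_left]
      exact hm.swap.vij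
    rw [map_mul, h5, mul_one] at h6
    rw [si', hst, map_mul, hac, mul_one, h6]

theorem det_gd (n : ℕ) {y : V} (hy : ∀ g ∈ Ine O, T.ro g y = y) : Gd O (e i) (ev y n) := by
  induction n generalizing y with
  | zero => exact Or.inl (hin y).1
  | succ n ih =>
    by_cases hp : y ∈ Dv 1
    · obtain ⟨z, rfl⟩ := mem_Dv_iff.1 hp
      have h1 : ev ((2 : ℤ_[2]) ^ 1 • z) (n + 1) = ev z n := by
        rw [pow_one, two_smul, map_add, Pi.add_apply, ← two_nsmul, (hin z).2]
      rw [h1]
      exact ih fun g hg => two_pow_smul_inj (n := 1) (by rw [← map_smul, hy g hg])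
    · exact Or.inr (det_unit hW hin hker hro hm hy hp n)

theorem det_eigen {r : V} (hr : ∀ g ∈ Ine O, T.ro g r = r) (hp : r ∉ Dv 1) {f : Gam F} {Q : ℕ}
    (hf : Fr f Q) (hst : f ∈ St O) {l : ℤ_[2]} (hl : T.ro f r = l • r) : l ^ 2 = (Q : ℤ_[2]) ^ 2 := by
  have hc := cub_perm hW hm.ij hm.ik hm.jk
  obtain ⟨d, hd⟩ := exists_sq (e i - e k)
  have hd' : (-d) ^ 2 = e i - e k := by rw [neg_sq, hd]
  have hne : ∀ z : Om F, O.valuation z = 1 → z ≠ 0 := fun z hz e => by simp [e] at hz
  have hfd : f d = d ∨ f d = -d :=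
    sq_eq_sq_iff_eq_or_eq_neg.1 (by rw [← map_pow, hd, map_sub, T.efix, T.efix])
  have hns : ∀ (m n : ℕ), m • ev r n = ev ((m : ℤ_[2]) • r) n := fun m n => by
    rw [Nat.cast_smul_eq_nsmul, map_nsmul, Pi.smul_apply]
  have hgd : ∀ n m : ℕ, Gd O (e i) (m • ev r n) := fun n m => by
    rw [hns]
    exact det_gd hW hin hker hro hm n fun g hg => by rw [map_smul, hr g hg]
  have key : ∀ n, (f d = d → red (n + 1) l = Q) ∧ (f d = -d → red (n + 1) l = -Q) := by
    intro n
    have hmul := um_nsmul hc hm.lt hm.vik hd (hgd (n + 1))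
    have u1 := fun m => um_unit hc hm.lt hm.vik hd (hgd (n + 1) m)
    have u2 := fun m => um_unit hc hm.lt hm.vik hd' (hgd (n + 1) m)
    have u3 := u1 1
    have u4 := u2 1
    rw [one_nsmul] at u3 u4
    have hv : O.valuation (um (e i) d (ev r (n + 1)) / um (e i) (-d) (ev r (n + 1))) = 1 := by
      rw [map_div₀, u3, u4, div_one]
    obtain ⟨t, ht⟩ := hm.ov.res ((O.valuation_le_one_iff _).1 hv.le)
    have hmul' : ∀ m : ℕ, O.valuation (um (e i) d (m • ev r (n + 1)) /
        um (e i) (-d) (m • ev r (n + 1)) - (t : Om F) ^ m) < 1 := fun m => by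
      have := Valuation.map_add_lt _ (hmul m) (val_pow_sub hv.le (val_const_le O t) ht m)
      rwa [sub_add_sub_cancel] at this
    have h1 : t ^ 2 ^ n = -1 := by
      have h2 := hmul' (2 ^ n)
      have h3 : ∀ a, 2 ^ a • ev r (a + 1) = ev r 1 := fun a => by
        induction a with
        | zero => simp
        | succ a ih => rw [pow_succ, mul_smul, (hin r).2, ih]
      have h4 := u2 (2 ^ n)
      rw [h3] at h2 h4
      have h5 : ev r 1 + ev r 1 = 0 := by rw [← two_nsmul, (hin r).2, (hin r).1]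
      have h6 : ev r 1 ≠ 0 := fun h => hp ((hker 1 r).1 h)
      generalize ev r 1 = P at h2 h4 h5 h6
      rcases P with _ | ⟨a, b, hn⟩
      · exact (h6 rfl).elim
      have hb : b = 0 := by
        by_contra hb
        rw [Point.add_self_of_Y_ne (hc.ne_negY a hb)] at h5
        exact Point.some_ne_zero _ h5
      subst hb
      have h7 := hne _ h4
      simp only [um] at h2 h7
      refine (const_eq O ?_).symm
      convert h2 using 2
      push_cast
      congr 1
      rw [eq_div_iff h7]
      ring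
    have hprim : IsPrimitiveRoot (t : Om F) (2 ^ (n + 1)) := by
      have h2 : (t : Om F) ^ 2 ^ n = -1 := by simpa using congrArg Subtype.val h1
      have h3 : orderOf (t : Om F) = 2 ^ (n + 1) := orderOf_eq_prime_pow
        (by rw [h2]; exact (ne_neg_self one_ne_zero).symm) (by rw [pow_succ, pow_mul, h2]; simp)
      rw [← h3]
      exact IsPrimitiveRoot.orderOf _
    obtain ⟨m, hm'⟩ := exists_nat (n + 1) l
    have h8 : pm f (ev r (n + 1)) = m • ev r (n + 1) := by
      rw [← act_apply, ← hro, hl, hns, ← sub_eq_zero, ← Pi.sub_apply, ← map_sub, hker, ← sub_smul]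
      obtain ⟨c, hc⟩ := hm'
      rw [hc, mul_smul]
      exact smul_mem_Dv _ _
    have h9 := st_lt hst ht
    rw [map_sub, hf t, map_div₀, um_pm f (T.efix f i), um_pm f (T.efix f i), map_neg, h8] at h9
    have h10 := hmul' m
    rw [red_eq.2 hm', map_natCast]
    constructor
    · intro h
      rw [h] at h9
      have := Valuation.map_sub_lt _ h9 h10
      rw [sub_sub_sub_cancel_left] at this
      have h11 : t ^ m = t ^ Q := const_eq O (by simpa using this)
      refine ch_inj hprim ?_
      rw [ch_nat hprim, ch_nat hprim]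
      simpa using congrArg Subtype.val h11
    · intro h
      rw [h, neg_neg] at h9
      have a1 := hne _ (u1 m)
      have a2 := hne _ (u2 m)
      have h11 : (1 : kk F) = t ^ (m + Q) := const_eq O (by
        have h12 : O.valuation (um (e i) (-d) (m • ev r (n + 1)) /
            um (e i) d (m • ev r (n + 1))) ≤ 1 := by rw [map_div₀, u1, u2, div_one]
        have := Valuation.map_add_lt _ (val_mul_lt O h12 h10)
          (val_mul_lt O (val_const_le O (t ^ m)) h9)
        convert this using 2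
        push_cast
        rw [pow_add]
        field_simp
        ring)
      rw [eq_neg_iff_add_eq_zero, ← Nat.cast_add]
      refine ch_inj hprim ?_
      rw [ch_nat hprim, ch_zero]
      simpa using (congrArg Subtype.val h11).symm
  rcases hfd with h | h
  · rw [show l = Q from sub_eq_zero.1 (eq_zero_of_dvd fun n => (pow_dvd_pow 2 n.le_succ).trans
      (red_eq.1 (by rw [(key n).1 h, map_natCast])))]
  · rw [show l = -Q from sub_eq_zero.1 (eq_zero_of_dvd fun n => (pow_dvd_pow 2 n.le_succ).trans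
      (red_eq.1 (by rw [(key n).2 h, map_neg, map_natCast]))), neg_sq]

end

theorem det_four (T : TD e) {s : Gam F} {Q : ℕ} (hs : Fr s Q) (hQ : Odd Q) :
    4 ∣ dt (T.ro s) - Q := by
  have h1 := T.cc_nn s (i := 1) (j := 0) (by decide) (x := (1, 0)) (by simp [tv])
  have h2 := T.cc_nn s (i := 0) (j := 1) (by decide) (x := (0, 1)) (by simp [tv])
  obtain ⟨u, rfl⟩ := hQ
  have h3 : sg (-1 : Om F) s = red 1 u := by
    obtain ⟨w, hw⟩ := exists_sq (-1 : Om F)
    refine sg_eq (by simp) hw ?_
    rw [hs.root (m := 4) (by norm_num) (by rw [show 4 = 2 * 2 by rfl, pow_mul, hw]; simp),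
      map_natCast, ch_nat prim_one, pow_succ, pow_mul, hw]
  rw [← neg_sub, ← neg_one_mul, sg_mul_left (fix_neg_one s) (by simp)
    (by rw [map_sub, T.efix, T.efix]) (T.ene 0 1 (by decide)), ← h1, h3,
    cc0, cc1, ← map_add, red_eq, pow_one] at h2
  obtain ⟨c, hc⟩ := h2
  rw [dt, T.nn_spec, T.nn_spec]
  generalize T.nn s (1, 0) = a at *
  generalize T.nn s (0, 1) = b at *
  refine ⟨a.1 + c + a.1 * b.2 - a.2 * b.1, ?_⟩
  simp only [om, Prod.fst_add, Prod.snd_add, Prod.smul_fst, Prod.smul_snd, smul_eq_mul]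
  push_cast
  linear_combination 2 * hc

/-- The determinant of a Frobenius element on the Tate module is `q`. -/
theorem det_frob (hW : Cub (W.baseChange (Om F)).toAffine (e 0) (e 1) (e 2)) {T : TD e}
    {ev : V →+ ℕ → Pt W} (hin : ∀ x, InTate (ev x)) (hker : ∀ n x, ev x n = 0 ↔ x ∈ Dv n)
    (hro : ∀ g x, ev (T.ro g x) = act g (ev x)) {c : kk F} (hm : MP e O (some c) i j k)
    {s : Gam F} (hs : Fr s (Fintype.card F)) : dt (T.ro s) = Fintype.card F := by
  have hgeo : ∀ g ∈ Geo F, dt (T.ro g) = 1 := fun g hg => T.dt_geo hs hg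
  obtain ⟨r, b, htv⟩ := hm.exists_tv hgeo (T := T)
  have hp := tv_prim htv.hr
  obtain ⟨d, hd, hc⟩ := kk_frob c
  obtain ⟨g₀, hg₀, hst⟩ := (hs.pow d).exists_st hc hm.ov
  have hf := (hs.pow d).geo_mul hg₀
  obtain ⟨g, hg, hg1⟩ := hm.ov.exists_sg
  have hb : IsUnit (b g) := unit_of_red ((htv.par hm hg).trans hg1)
  obtain ⟨r', hr'⟩ := exists_dual hp
  have hdf : dt (T.ro (g₀ * s ^ d)) = dt (T.ro s) ^ d := by
    rw [map_mul, dt_mul, hgeo g₀ hg₀, one_mul, map_pow]
    generalize T.ro s = A
    clear hd hc hst hf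
    induction d with
    | zero => simpa using dt_one
    | succ d ih => rw [pow_succ, pow_succ, dt_mul, ih]
  generalize g₀ * s ^ d = f at hst hf hdf
  have hcj := st_conj hst hg
  have hl : T.ro f r = om (T.ro f r) r' • r := by
    have h1 : T.ro g (T.ro f r) = T.ro f r := by
      have := htv.fix (st_conj (inv_mem hst) hg)
      rw [inv_inv] at this
      rw [← ro_mul, show g * f = f * (f⁻¹ * g * f) by group, ro_mul, this]
    rw [htv.hb g hg, add_eq_left, smul_eq_zero, mul_eq_zero, mul_eq_zero] at h1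
    have h2 : om r (T.ro f r) = 0 := by
      rcases h1 with ((h1 | h1) | h1) | h1
      · exact absurd h1 two_ne_zero
      · exact absurd h1 hb.ne_zero
      · exact h1
      · exact (hp (h1 ▸ zero_mem _)).elim
    conv_lhs => rw [dual_expand hr' (T.ro f r), h2, zero_smul, add_zero]
  generalize om (T.ro f r) r' = l at hl
  have h1 := det_eigen hW hin hker hro hm (fun g hg => htv.fix hg) hp hf hst hl
  have h2 : b (f * g * f⁻¹) = (Fintype.card F ^ d : ℕ) * b g := by
    refine sub_eq_zero.1 (eq_zero_of_dvd fun n => red_eq.1 ?_)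
    obtain ⟨z, hz⟩ := exists_prim (F := F) n
    obtain ⟨u, hu⟩ := htv.exists_u hm.ov hz
    have h6 := kap_conj hz (hf.root (by positivity) hz.pow_eq_one) hg.1 (geo_pl hg.1 (some c))
      (pl_ne _)
    rw [hf.pl hc] at h6
    rw [map_mul, map_natCast, hu _ hcj, hu g hg, h6]
    ring
  have h3 : b (f * g * f⁻¹) * dt (T.ro f) = b g * l ^ 2 := by
    have h4 := htv.hb _ hcj (T.ro f r')
    rw [← ro_mul, inv_mul_cancel_right, ro_mul, htv.hb g hg, map_add, map_smul, add_right_inj,
      hr', hl] at h4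
    have h5 := om_map (T.ro f) r r'
    rw [hl, om_smul_left, hr'] at h5
    have h6 := congrArg (fun y => om y r') h4
    simp only [om_smul_left, hr'] at h6
    refine mul_left_cancel₀ two_ne_zero ?_
    linear_combination -l * h6 - 2 * b (f * g * f⁻¹) * h5
  have hq0 : IsUnit (Fintype.card F : ℤ_[2]) := by
    obtain ⟨u, hu⟩ := hq.out
    refine unit_of_red ?_
    rw [hu]
    push_cast
    exact red_odd _
  have h4 : dt (T.ro s) ^ d = (Fintype.card F : ℤ_[2]) ^ d := by
    rw [h2, h1, hdf] at h3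
    push_cast at h3
    refine mul_left_cancel₀ (mul_ne_zero (pow_ne_zero d hq0.ne_zero) hb.ne_zero) ?_
    linear_combination h3
  obtain ⟨v, hv⟩ := hq0.exists_right_inv
  obtain ⟨w, hw⟩ := det_four T hs hq.out
  have h5 := eq_one_of_pow hd (y := dt (T.ro s) * v) ⟨w * v, by linear_combination v * hw + hv⟩
    (by rw [mul_pow, h4, ← mul_pow, hv, one_pow])
  linear_combination (Fintype.card F : ℤ_[2]) * h5 - dt (T.ro s) * hv

end

end Pool.Agent.Lib.MP_16ef92_ag.GF
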