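import Mathlib

set_option autoImplicit false
set_option linter.unusedSectionVars false
set_option linter.unusedVariables false

namespace Pool.Agent.Lib.MP_16ef92_ag.GF

open scoped Classical

variable {B : Type} [Group B] [Finite B]

/-- A nontrivial normal subgroup of a finite 2-group contains a central involution. -/
theorem exists_central (hB : IsPGroup 2 B) (K : Subgroup B) [K.Normal] (hK : K ≠ ⊥) :
    ∃ z ∈ K, z ≠ 1 ∧ z * z = 1 ∧ ∀ g, g * z = z * g := by
  haveI : Fact (Nat.Prime 2) := ⟨Nat.prime_two⟩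
  have hc : IsPGroup 2 (ConjAct B) := hB.of_equiv ConjAct.toConjAct
  have hK2 : IsPGroup 2 K := hB.to_subgroup K
  have hdvd : 2 ∣ Nat.card K := by
    obtain ⟨n, hn⟩ := IsPGroup.iff_card.1 hK2
    rcases n with _ | n
    · exact (hK (Subgroup.card_eq_one.1 (by simpa using hn))).elim
    · exact ⟨2 ^ n, by rw [hn]; ring⟩
  obtain ⟨z, hz, hz1⟩ := hc.exists_fixed_point_of_prime_dvd_card_of_fixed_point K hdvd
    (a := 1) (fun g => Subtype.ext (by simp [ConjAct.smul_def]))
  have hcen : ∀ g, g * (z : B) = z * g := fun g => by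
    have := congrArg Subtype.val (hz (ConjAct.toConjAct g))
    change g * z * g⁻¹ = z at this
    exact mul_inv_eq_iff_eq_mul.1 this
  have hz1' : (z : B) ≠ 1 := fun e => hz1 (Subtype.ext e.symm)
  obtain ⟨k, hk⟩ := hB (z : B)
  have hex : ∃ k, (z : B) ^ 2 ^ k = 1 := ⟨k, hk⟩
  obtain ⟨j, hj⟩ : ∃ j, Nat.find hex = j + 1 := by
    refine Nat.exists_eq_succ_of_ne_zero fun e => hz1' ?_
    have := Nat.find_spec hex
    rwa [e, pow_zero, pow_one] at this
  refine ⟨z ^ 2 ^ j, pow_mem z.2 _, Nat.find_min hex (by omega), ?_, fun g => ?_⟩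
  · rw [← pow_add, ← two_mul, ← pow_succ', ← hj]
    exact Nat.find_spec hex
  · exact (Commute.pow_right (hcen g) _ : Commute g _)

/-- A proper subgroup of a finite 2-group lies in a subgroup with index two over it. -/
theorem exists_step (hB : IsPGroup 2 B) (H : Subgroup B) (hH : H ≠ ⊤) :
    ∃ H' : Subgroup B, H < H' ∧ ∀ g ∈ H', ∀ h ∈ H', g ∉ H → h ∉ H → g * h ∈ H := by
  haveI : Fact (Nat.Prime 2) := ⟨Nat.prime_two⟩
  haveI := hB.isNilpotent
  obtain ⟨g, hg, hgH⟩ := SetLike.exists_of_lt (normalizerCondition_of_isNilpotent H hH.lt_top)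
  obtain ⟨k, hk⟩ := hB g
  have hex : ∃ k, g ^ 2 ^ k ∈ H := ⟨k, by rw [hk]; exact one_mem _⟩
  obtain ⟨j, hj⟩ : ∃ j, Nat.find hex = j + 1 := by
    refine Nat.exists_eq_succ_of_ne_zero fun e => hgH ?_
    have := Nat.find_spec hex
    rwa [e, pow_zero, pow_one] at this
  set u := g ^ 2 ^ j with hu
  have hu1 : u ∉ H := Nat.find_min hex (by omega)
  have hu2 : u * u ∈ H := by
    rw [hu, ← pow_add, ← two_mul, ← pow_succ', ← hj]
    exact Nat.find_spec hex
  have hun : ∀ h, h ∈ H ↔ u * h * u⁻¹ ∈ H := Subgroup.mem_normalizer_iff.1 (pow_mem hg _)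
  have hodd : ∀ a b, u * a ∈ H → u * b ∈ H → a * b ∈ H := fun a b ha hb => by
    rw [hun]
    have := mul_mem (mul_mem ha (inv_mem hu2)) ((hun _).1 hb)
    convert this using 1
    group
  refine ⟨{ carrier := {a | a ∈ H ∨ u * a ∈ H}, mul_mem' := ?_, one_mem' := Or.inl (one_mem _),
            inv_mem' := ?_ }, ?_, ?_⟩
  · rintro a b (ha | ha) (hb | hb)
    · exact Or.inl (mul_mem ha hb)
    · refine Or.inr ?_
      have := mul_mem ((hun _).1 ha) hb
      convert this using 1
      group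
    · exact Or.inr (by rw [← mul_assoc]; exact mul_mem ha hb)
    · exact Or.inl (hodd a b ha hb)
  · rintro a (ha | ha)
    · exact Or.inl (inv_mem ha)
    · refine Or.inr ?_
      have := mul_mem ((hun _).1 (inv_mem ha)) hu2
      have h2 := mul_mem this (inv_mem hu2)
      have h3 := mul_mem ((hun _).1 (inv_mem ha)) hu2
      convert h3 using 1
      group
  · refine lt_of_le_of_ne (fun a ha => Or.inl ha) fun e => hu1 ?_
    rw [e]
    exact Or.inr hu2
  · rintro a (ha | ha) b (hb | hb) h1 h2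
    · exact (h1 ha).elim
    · exact (h1 ha).elim
    · exact (h2 hb).elim
    · exact hodd a b ha hb

/-- Induction along steps of index two. -/
theorem chain_ind (hB : IsPGroup 2 B) (P : Subgroup B → Prop) (H : Subgroup B) (h0 : P H)
    (hs : ∀ K K' : Subgroup B, K ≤ K' → (∀ g ∈ K', ∀ h ∈ K', g ∉ K → h ∉ K → g * h ∈ K) →
      P K → P K') : P ⊤ := by
  induction H using WellFoundedGT.induction with
  | _ H ih =>
    by_cases hH : H = ⊤
    · rwa [← hH]
    · obtain ⟨H', h1, h2⟩ := exists_step hB H hH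
      exact ih H' h1 (hs H H' h1.le h2 h0)

/-- A proper subgroup of a finite 2-group is killed by a nonzero character. -/
theorem exists_char (hB : IsPGroup 2 B) (H : Subgroup B) (hH : H ≠ ⊤) :
    ∃ u : B → ZMod (2 ^ 1), (∀ g h, u (g * h) = u g + u h) ∧ (∀ h ∈ H, u h = 0) ∧
      ∃ g, u g ≠ 0 := by
  obtain ⟨M, hM, hle⟩ := (eq_top_or_exists_le_coatom H).resolve_left hH
  obtain ⟨M', h1, h2⟩ := exists_step hB M hM.1
  have h3 : M' = ⊤ := hM.2 M' h1
  subst h3
  refine ⟨fun g => if g ∈ M then 0 else 1, fun g h => ?_, fun h hh => if_pos (hle hh), ?_⟩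
  · by_cases hg : g ∈ M <;> by_cases hh : h ∈ M
    · simp [hg, hh, mul_mem hg hh]
    · have : g * h ∉ M := fun e => hh ((M.mul_mem_cancel_left hg).1 e)
      simp [hg, hh, this]
    · have : g * h ∉ M := fun e => hg ((M.mul_mem_cancel_right hh).1 e)
      simp [hg, hh, this]
    · simp only [hg, hh, h2 g trivial h trivial hg hh, if_true, if_false]
      decide
  · obtain ⟨g, _, hg⟩ := SetLike.exists_of_lt h1
    exact ⟨g, by simp only [hg, if_false]; decide⟩

end Pool.Agent.Lib.MP_16ef92_ag.GF
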