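import Mathlib
import Pool.Agent.Lib.MP_16ef92_ag.Main
import Pool.Agent.Lib.MP_16ef92_ag.GF.Prm
import Pool.Agent.Lib.MP_16ef92_ag.GF.Grp

set_option autoImplicit false
set_option linter.unusedSectionVars false
set_option linter.unusedVariables false

namespace Pool.Agent.Lib.MP_16ef92_ag.GF

open Polynomial IntermediateField
open scoped Classical

noncomputable section

/-- A Frobenius element that fixes a place over infinity, and a generator of inertia there. -/
class Fro (F : Type) [Field F] [Clos F] [Fintype F] [Fact (Odd (Fintype.card F))] where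
  s : Gam F
  O : ValuationSubring (Om F)
  si : Gam F
  fr : Fr s (Fintype.card F)
  ov : Over O none
  st : s ∈ St O
  ine : si ∈ Ine O
  sg1 : sg (pl none) si = 1

variable {F : Type} [Field F] [Clos F] [Fintype F] [hq : Fact (Odd (Fintype.card F))]

theorem exists_fro {s : Gam F} (hs : Fr s (Fintype.card F)) :
    ∃ Z : Fro F, ∃ g ∈ Geo F, Z.s = g * s := by
  obtain ⟨O, hO⟩ := exists_over (F := F) none
  obtain ⟨g, hg, h2⟩ := over_trans (O := cm s⁻¹ O) (x := none) (over_cm (by simpa using hO)) hO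
  obtain ⟨si, h3, h4⟩ := hO.exists_sg
  exact ⟨⟨g * s, O, si, hs.geo_mul hg, hO,
    fun z => by rw [AlgEquiv.mul_apply, ← h2, mem_cm, inv_apply_self], h3, h4⟩, g, hg, rfl⟩

instance geo_normal : (Geo F).Normal := ⟨fun g hg s => geo_conj' hg s⟩

/-- Continuous homomorphisms on the subgroup `H`. -/
structure Hm {B : Type} [Group B] (H : Subgroup (Gam F)) (φ : Gam F → B) : Prop where
  mul : ∀ g ∈ H, ∀ h ∈ H, φ (g * h) = φ g * φ h
  near : Near fun g => g ∈ Geo F → g ∈ H → φ g = 1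

/-- Continuous additive characters on the subgroup `H`. -/
structure Ch {A : Type} [AddCommGroup A] (H : Subgroup (Gam F)) (u : Gam F → A) : Prop where
  mul : ∀ g ∈ H, ∀ h ∈ H, u (g * h) = u g + u h
  near : Near fun g => g ∈ Geo F → g ∈ H → u g = 0

section
variable {B C : Type} [Group B] [Group C] {H H' : Subgroup (Gam F)} {φ : Gam F → B}

theorem Hm.one (h : Hm H φ) : φ 1 = 1 := by
  have := h.mul 1 (one_mem _) 1 (one_mem _)
  rwa [mul_one, left_eq_mul] at this

theorem Hm.inv (h : Hm H φ) {g : Gam F} (hg : g ∈ H) : φ g⁻¹ = (φ g)⁻¹ := by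
  have := h.mul g⁻¹ (inv_mem hg) g hg
  rw [inv_mul_cancel, h.one] at this
  exact eq_inv_of_mul_eq_one_left this.symm

/-- The bundled homomorphism. -/
def Hm.hom (h : Hm H φ) : H →* B := MonoidHom.mk' (fun g => φ g) fun a b => h.mul _ a.2 _ b.2

theorem Hm.zpow (h : Hm H φ) {g : Gam F} (hg : g ∈ H) (i : ℤ) : φ (g ^ i) = φ g ^ i :=
  map_zpow h.hom ⟨g, hg⟩ i

theorem Hm.pow (h : Hm H φ) {g : Gam F} (hg : g ∈ H) (i : ℕ) : φ (g ^ i) = φ g ^ i :=
  map_pow h.hom ⟨g, hg⟩ i

theorem Hm.conj (h : Hm H φ) {g l : Gam F} (hg : g ∈ H) (hl : l ∈ H) :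
    φ (g * l * g⁻¹) = φ g * φ l * (φ g)⁻¹ := by
  rw [h.mul _ (mul_mem hg hl) _ (inv_mem hg), h.mul _ hg _ hl, h.inv hg]

theorem Hm.mono (h : Hm H φ) (hle : H' ≤ H) : Hm H' φ :=
  ⟨fun g hg l hl => h.mul g (hle hg) l (hle hl), h.near.mono fun g hg h1 h2 => hg h1 (hle h2)⟩

theorem Hm.comp (h : Hm H φ) (π : B →* C) : Hm H fun g => π (φ g) :=
  ⟨fun g hg l hl => by rw [h.mul g hg l hl, map_mul],
    h.near.mono fun g hg h1 h2 => by rw [hg h1 h2, map_one]⟩

theorem Hm.prod {ψ : Gam F → C} (h : Hm H φ) (h' : Hm H ψ) : Hm H fun g => (φ g, ψ g) :=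
  ⟨fun g hg l hl => by rw [h.mul g hg l hl, h'.mul g hg l hl]; rfl,
    (h.near.and h'.near).mono fun g hg h1 h2 => by rw [hg.1 h1 h2, hg.2 h1 h2]; rfl⟩

variable {A : Type} [AddCommGroup A] {u : Gam F → A}

theorem Ch.hm (h : Ch H u) : Hm H fun g => Multiplicative.ofAdd (u g) :=
  ⟨fun g hg l hl => by rw [h.mul g hg l hl, ofAdd_add],
    h.near.mono fun g hg h1 h2 => by rw [hg h1 h2, ofAdd_zero]⟩

theorem Ch.one (h : Ch H u) : u 1 = 0 := h.hm.one

theorem Ch.inv (h : Ch H u) {g : Gam F} (hg : g ∈ H) : u g⁻¹ = -u g := h.hm.inv hg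

theorem Ch.conj (h : Ch H u) {g l : Gam F} (hg : g ∈ H) (hl : l ∈ H) : u (g * l * g⁻¹) = u l := by
  rw [h.mul _ (mul_mem hg hl) _ (inv_mem hg), h.mul _ hg _ hl, h.inv hg]
  abel

theorem Ch.mono (h : Ch H u) (hle : H' ≤ H) : Ch H' u :=
  ⟨fun g hg l hl => h.mul g (hle hg) l (hle hl), h.near.mono fun g hg h1 h2 => hg h1 (hle h2)⟩

theorem Ch.add {w : Gam F → A} (h : Ch H u) (h' : Ch H w) : Ch H fun g => u g + w g :=
  ⟨fun g hg l hl => by rw [h.mul g hg l hl, h'.mul g hg l hl]; abel,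
    (h.near.and h'.near).mono fun g hg h1 h2 => by rw [hg.1 h1 h2, hg.2 h1 h2, add_zero]⟩

theorem Ch.map {A' : Type} [AddCommGroup A'] (h : Ch H u) (π : A →+ A') : Ch H fun g => π (u g) :=
  ⟨fun g hg l hl => by rw [h.mul g hg l hl, map_add],
    h.near.mono fun g hg h1 h2 => by rw [hg h1 h2, map_zero]⟩

theorem Ch.zero : Ch H fun _ => (0 : A) := ⟨fun _ _ _ _ => (add_zero _).symm, .of_forall fun _ _ _ => rfl⟩

theorem Ch.sum {ι : Type} (t : Finset ι) {w : ι → Gam F → A} (h : ∀ i ∈ t, Ch H (w i)) :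
    Ch H fun g => ∑ i ∈ t, w i g := by
  induction t using Finset.induction_on with
  | empty => simpa using Ch.zero
  | insert a t ha ih =>
    simp only [Finset.sum_insert ha]
    exact (h a (Finset.mem_insert_self _ _)).add (ih fun i hi => h i (Finset.mem_insert_of_mem hi))

end

theorem near_sg {z : Om F} (h0 : z ≠ 0) : Near fun g : Gam F => sg z g = 0 := near_kap prim_one h0

theorem ch_sg {H : Subgroup (Gam F)} {z : Om F} (h0 : z ≠ 0) (hz : ∀ g ∈ H, g z = z) :
    Ch H (sg z) :=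
  ⟨fun g hg h hh => sg_mul (hz g hg) (hz h hh) h0, (near_sg h0).mono fun g hg _ _ => hg⟩

theorem ch_ev {H : Subgroup (Gam F)} {p : F[X]} (hp : p ≠ 0) : Ch H (sg (ev p)) :=
  ch_sg (ev_ne hp) fun g _ => gam_ev g p

/-- `g` generates the tame inertia at a place over `x`. -/
def Gen (x : Option (kk F)) (g : Gam F) : Prop :=
  ∃ O, Over O x ∧ g ∈ Ine O ∧ sg (pl x) g = 1

theorem Gen.geo {x : Option (kk F)} {g : Gam F} (h : Gen x g) : g ∈ Geo F := by
  obtain ⟨O, _, h2, _⟩ := h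
  exact h2.1

theorem exists_gen (x : Option (kk F)) : ∃ g, Gen x g := by
  obtain ⟨O, hO⟩ := exists_over x
  obtain ⟨g, h1, h2⟩ := hO.exists_sg
  exact ⟨g, O, hO, h1, h2⟩

theorem over_conj {O : ValuationSubring (Om F)} {x : Option (kk F)} (h : Over O x) (w : Gam F) :
    Over (cm w⁻¹ O) (x.map (ck w)) :=
  over_cm (by have := ck_inv w⁻¹ x; rw [inv_inv] at this; rwa [this])

theorem ine_conj {O : ValuationSubring (Om F)} {g : Gam F} (h : g ∈ Ine O) (w : Gam F) :
    w * g * w⁻¹ ∈ Ine (cm w⁻¹ O) := by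
  have := conj_ine (g := w⁻¹) (O := cm w⁻¹ O) (O' := O) (fun z => mem_cm) h
  rwa [inv_inv] at this

theorem st_conj' {O : ValuationSubring (Om F)} {g : Gam F} (h : g ∈ St O) (w : Gam F) :
    w * g * w⁻¹ ∈ St (cm w⁻¹ O) := fun z => by
  rw [mem_cm, mem_cm, AlgEquiv.mul_apply, AlgEquiv.mul_apply, inv_apply_self, h]

theorem sg_conj {g : Gam F} (hg : g ∈ Geo F) (w : Gam F) (x : Option (kk F)) :
    sg (pl (x.map (ck w))) (w * g * w⁻¹) = sg (pl x) g := by
  have := kap_conj (prim_one (F := F)) (s := w) (Q := 1) (by simp) hg (geo_pl hg x) (pl_ne x)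
  rw [gam_pl] at this
  simpa [sg] using this

theorem Gen.conj {x : Option (kk F)} {g : Gam F} (h : Gen x g) (w : Gam F) :
    Gen (x.map (ck w)) (w * g * w⁻¹) := by
  obtain ⟨O, h1, h2, h3⟩ := h
  exact ⟨_, over_conj h1 w, ine_conj h2 w, by rw [sg_conj h2.1, h3]⟩

theorem aeval_ck (w : Gam F) (c : kk F) (p : F[X]) : aeval (ck w c) p = ck w (aeval c p) := by
  apply Subtype.ext
  have h1 : ∀ d : kk F, ((aeval d p : kk F) : Om F) = aeval (d : Om F) p := fun d =>
    (aeval_algebraMap_apply (Om F) d p).symm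
  rw [ck_val, h1, h1, ck_val]
  exact aeval_algHom_apply (w.restrictScalars F).toAlgHom (c : Om F) p

theorem ck_zero (w : Gam F) : ck w 0 = 0 := Subtype.ext (by simp [ck_val])

theorem root_ck {w : Gam F} {c : kk F} {p : F[X]} : aeval (ck w c) p = 0 ↔ aeval c p = 0 := by
  rw [aeval_ck, Subtype.ext_iff, Subtype.ext_iff, ck_val]
  simp

/-- `φ` is unramified at the finite places away from the roots of the members of `Z`. -/
def Unr {B : Type} [One B] (φ : Gam F → B) (Z : Set F[X]) : Prop :=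
  ∀ c O, Over O (some c) → (∀ p ∈ Z, aeval c p ≠ 0) → ∀ g ∈ Ine O, φ g = 1

variable [Fro F]

variable (F) in
/-- The chosen Frobenius element. -/
abbrev ss : Gam F := Fro.s

variable (F) in
/-- The chosen generator of inertia at infinity. -/
abbrev sI : Gam F := Fro.si

theorem gen_sI : Gen none (sI F) := ⟨Fro.O, Fro.ov, Fro.ine, Fro.sg1⟩

variable (F) in
/-- The Weil group. -/
def WW : Subgroup (Gam F) where
  carrier := {g | ∃ i : ℤ, g * ss F ^ (-i) ∈ Geo F}
  mul_mem' := by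
    rintro a b ⟨i, hi⟩ ⟨j, hj⟩
    refine ⟨i + j, ?_⟩
    have := mul_mem hi (geo_conj' hj (ss F ^ i))
    convert this using 1
    group
  one_mem' := ⟨0, by simp⟩
  inv_mem' := by
    rintro a ⟨i, hi⟩
    refine ⟨-i, ?_⟩
    have := geo_conj (inv_mem hi) (ss F ^ i)
    convert this using 1
    group

theorem geo_le : Geo F ≤ WW F := fun g hg => ⟨0, by simpa using hg⟩

theorem ss_mem : ss F ∈ WW F := ⟨1, by simp⟩

theorem ine_le (O : ValuationSubring (Om F)) : Ine O ≤ WW F := inf_le_left.trans geo_le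

theorem fr_pow (i : ℕ) : Fr (ss F ^ i) (Fintype.card F ^ i) := Fro.fr.pow i

theorem ss_pow_geo {i : ℤ} (h : ss F ^ i ∈ Geo F) : i = 0 := by
  have key : ∀ n : ℕ, ss F ^ n ∈ Geo F → n = 0 := fun n hn => by
    by_contra h0
    have h1 : 1 < Fintype.card F ^ n := Nat.one_lt_pow h0 Fintype.one_lt_card
    have h2 : (X ^ Fintype.card F ^ n - X : (kk F)[X]) ≠ 0 :=
      FiniteField.X_pow_card_sub_X_ne_zero _ h1
    refine h2 (eq_zero_of_infinite_isRoot _ ?_)
    convert Set.infinite_univ (α := kk F)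
    refine Set.eq_univ_of_forall fun c => ?_
    have := (fr_pow n c).symm.trans (geo_fix hn c)
    simp only [Set.mem_setOf_eq, IsRoot, eval_sub, eval_pow, eval_X, sub_eq_zero]
    exact Subtype.ext this
  obtain ⟨n, rfl | rfl⟩ := Int.eq_nat_or_neg i
  · rw [zpow_natCast] at h
    simp [key n h]
  · rw [zpow_neg, zpow_natCast, inv_mem_iff] at h
    simp [key n h]

/-- The degree of an element of the Weil group. -/
def dg (g : Gam F) : ℤ := if h : g ∈ WW F then h.choose else 0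

theorem dg_spec {g : Gam F} (h : g ∈ WW F) : g * ss F ^ (-dg g) ∈ Geo F := by
  rw [dg, dif_pos h]
  exact h.choose_spec

theorem dg_eq {g : Gam F} {i : ℤ} (h : g * ss F ^ (-i) ∈ Geo F) : dg g = i := by
  have h1 := mul_mem (inv_mem h) (dg_spec ⟨i, h⟩)
  have h2 : (g * ss F ^ (-i))⁻¹ * (g * ss F ^ (-dg g)) = ss F ^ (i - dg g) := by group
  rw [h2] at h1
  have := ss_pow_geo h1
  omega

theorem dg_geo {g : Gam F} (h : g ∈ Geo F) : dg g = 0 := dg_eq (by simpa using h)

theorem dg_ss : dg (ss F) = 1 := dg_eq (by simp)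

theorem geo_of_dg {g : Gam F} (h : g ∈ WW F) (h0 : dg g = 0) : g ∈ Geo F := by
  simpa [h0] using dg_spec h

theorem ch_dg : Ch (WW F) (dg (F := F)) :=
  ⟨fun a ha b hb => dg_eq (by
    have := mul_mem (dg_spec ha) (geo_conj' (dg_spec hb) (ss F ^ dg a))
    convert this using 1
    group), .of_forall fun g hg _ => dg_geo hg⟩

/-- `(σ, f)` are a generator of inertia and a Frobenius element at a place over the prime `p`. -/
def Dec (p : F[X]) (σ f : Gam F) : Prop :=
  ∃ c O, aeval c p = 0 ∧ Over O (some c) ∧ σ ∈ Ine O ∧ sg (pl (some c)) σ = 1 ∧ f ∈ St O ∧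
    f * ss F ^ (-(p.natDegree : ℤ)) ∈ Geo F

section
variable {p : F[X]} {σ f : Gam F}

theorem Dec.geo (h : Dec p σ f) : σ ∈ Geo F := by
  obtain ⟨c, O, _, _, h3, _⟩ := h
  exact h3.1

theorem Dec.memS (h : Dec p σ f) : σ ∈ WW F := geo_le h.geo

theorem Dec.memF (h : Dec p σ f) : f ∈ WW F := by
  obtain ⟨c, O, _, _, _, _, _, h6⟩ := h
  exact ⟨_, h6⟩

theorem Dec.dg (h : Dec p σ f) : dg f = p.natDegree := by
  obtain ⟨c, O, _, _, _, _, _, h6⟩ := h
  exact dg_eq h6

theorem fr_of {f : Gam F} {n : ℕ} (h : f * ss F ^ (-(n : ℤ)) ∈ Geo F) :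
    Fr f (Fintype.card F ^ n) := by
  have := (fr_pow (F := F) n).geo_mul h
  rwa [zpow_neg, zpow_natCast, inv_mul_cancel_right] at this

theorem Dec.conj (h : Dec p σ f) {w : Gam F} (hw : w ∈ WW F) :
    Dec p (w * σ * w⁻¹) (w * f * w⁻¹) := by
  have hf := h.memF
  have hd := h.dg
  obtain ⟨c, O, h1, h2, h3, h4, h5, h6⟩ := h
  refine ⟨ck w c, _, root_ck.2 h1, over_conj h2 w, ine_conj h3 w,
    (sg_conj h3.1 w (some c)).trans h4, st_conj' h5 w, ?_⟩
  rw [← hd, ← ch_dg.conj hw hf]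
  exact dg_spec (mul_mem (mul_mem hw hf) (inv_mem hw))

end

section orbit
variable {p : F[X]} {c : kk F}

theorem Prm.minpoly (hp : Prm p) (hc : aeval c p = 0) : minpoly F c = p :=
  (minpoly.eq_of_irreducible_of_monic hp.2 hc hp.1).symm

theorem prm_minpoly (c : kk F) : Prm (minpoly F c) :=
  ⟨minpoly.monic (Algebra.IsIntegral.isIntegral c),
    minpoly.irreducible (Algebra.IsIntegral.isIntegral c)⟩

theorem Prm.root_unique {r : F[X]} (hp : Prm p) (hr : Prm r) (hc : aeval c p = 0)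
    (hc' : aeval c r = 0) : p = r := (hp.minpoly hc).symm.trans (hr.minpoly hc')

theorem Prm.exists_root (hp : Prm p) : ∃ c : kk F, aeval c p = 0 :=
  IsAlgClosed.exists_aeval_eq_zero _ p (degree_pos_of_irreducible hp.2).ne'

theorem ck_pow (c : kk F) (i : ℕ) : ck (ss F ^ i) c = c ^ Fintype.card F ^ i :=
  Subtype.ext (by rw [ck_val, fr_pow i c]; rfl)

theorem Prm.pow_iff (hp : Prm p) (hc : aeval c p = 0) (i : ℕ) :
    c ^ Fintype.card F ^ i = c ↔ p.natDegree ∣ i := by
  have hi : IsIntegral F c := Algebra.IsIntegral.isIntegral c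
  have : FiniteDimensional F F⟮c⟯ := adjoin.finiteDimensional hi
  have : Finite F⟮c⟯ := Module.finite_of_finite F
  have hr : Module.finrank F F⟮c⟯ = p.natDegree := by rw [adjoin.finrank hi, hp.minpoly hc]
  rw [← hr, ← FiniteField.orderOf_frobeniusAlgHom F F⟮c⟯, orderOf_dvd_iff_pow_eq_one]
  have h1 : ∀ y : F⟮c⟯, (FiniteField.frobeniusAlgHom F F⟮c⟯ ^ i) y = y ^ Fintype.card F ^ i :=
    fun y => by rw [AlgHom.coe_pow, FiniteField.coe_frobeniusAlgHom, pow_iterate]
  constructor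
  · intro h
    refine (adjoin.powerBasis hi).algHom_ext ?_
    rw [h1, adjoin.powerBasis_gen]
    exact Subtype.ext h
  · intro h
    have := h1 (AdjoinSimple.gen F c)
    rw [h] at this
    exact (congrArg Subtype.val this).symm

theorem Prm.fix (hp : Prm p) (hc : aeval c p = 0) : c ^ Fintype.card F ^ p.natDegree = c :=
  (hp.pow_iff hc _).2 dvd_rfl

theorem ck_mul (g h : Gam F) (c : kk F) : ck (g * h) c = ck g (ck h c) := rfl

theorem ck_inj (g : Gam F) : Function.Injective (ck g) := fun a b h =>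
  Subtype.ext (g.injective (congrArg Subtype.val h))

theorem Prm.orb_inj (hp : Prm p) (hc : aeval c p = 0) {i j : ℕ} (hi : i < p.natDegree)
    (hj : j < p.natDegree) (h : ck (ss F ^ i) c = ck (ss F ^ j) c) : i = j := by
  wlog hij : i ≤ j generalizing i j
  · exact (this hj hi h.symm (by omega)).symm
  obtain ⟨k, rfl⟩ := Nat.exists_eq_add_of_le hij
  rw [pow_add, ck_mul] at h
  have h1 := ck_inj _ h
  rw [ck_pow] at h1
  have := Nat.eq_zero_of_dvd_of_lt ((hp.pow_iff hc k).1 h1.symm) (by omega)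
  omega

theorem Prm.orb_surj (hp : Prm p) (hc : aeval c p = 0) {d : kk F} (hd : aeval d p = 0) :
    ∃ i < p.natDegree, d = ck (ss F ^ i) c := by
  let Z : Finset (kk F) := (Finset.range p.natDegree).image fun i => ck (ss F ^ i) c
  have h1 : Z.card = p.natDegree := by
    rw [Finset.card_image_of_injOn, Finset.card_range]
    intro i hi j hj h
    exact hp.orb_inj hc (Finset.mem_range.1 hi) (Finset.mem_range.1 hj) h
  have h0 : p.map (algebraMap F (kk F)) ≠ 0 := Polynomial.map_ne_zero hp.ne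
  have h2 : insert d Z ⊆ (p.map (algebraMap F (kk F))).roots.toFinset := fun y hy => by
    rw [Multiset.mem_toFinset, mem_roots h0, IsRoot, eval_map_algebraMap]
    rcases Finset.mem_insert.1 hy with rfl | hy
    · exact hd
    · obtain ⟨i, _, rfl⟩ := Finset.mem_image.1 hy
      exact root_ck.2 hc
  have h3 := (Finset.card_le_card h2).trans ((Multiset.toFinset_card_le _).trans (card_roots' _))
  rw [natDegree_map] at h3
  by_contra hne
  have : d ∉ Z := fun e => by
    obtain ⟨i, hi, rfl⟩ := Finset.mem_image.1 e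
    exact hne ⟨i, Finset.mem_range.1 hi, rfl⟩
  rw [Finset.card_insert_of_notMem this] at h3
  omega

theorem Prm.exists_dec (hp : Prm p) : ∃ σ f : Gam F, Dec p σ f := by
  obtain ⟨c, hc⟩ := hp.exists_root
  obtain ⟨O, hO⟩ := exists_over (some c)
  obtain ⟨σ, h1, h2⟩ := hO.exists_sg
  obtain ⟨g, hg, h3⟩ := (fr_pow p.natDegree).exists_st (congrArg Subtype.val (hp.fix hc)) hO
  exact ⟨σ, _, c, O, hc, hO, h1, h2, h3, by simpa using hg⟩

end orbit

end

end Pool.Agent.Lib.MP_16ef92_ag.GF
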