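import Mathlib

set_option autoImplicit false
set_option linter.unusedSectionVars false
set_option linter.unusedVariables false

namespace Pool.Agent.Lib.MP_16ef92_ag.GF

open Finset
open scoped Classical

noncomputable section

/-- The field with two elements. -/
abbrev Z2 : Type := ZMod (2 ^ 1)

/-- The points of order two. -/
abbrev Vb : Type := Z2 × Z2

/-- The Weil pairing on the points of order two. -/
def eb (x y : Vb) : Z2 := x.1 * y.2 - x.2 * y.1

/-- The nilpotent part of a transvection. -/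
def nu (t x : Vb) : Vb := eb t x • t

variable {Λ I₀ : Type} [Fintype Λ] [Fintype I₀] {m j : ℕ}

/-- Type assignments: `j` vectors at the Frobenius element, at each multiplicative prime, at each
small prime and at each large prime. -/
abbrev Ty (Λ I₀ : Type) (m j : ℕ) : Type := Option (Λ ⊕ I₀ ⊕ Fin m) → Fin j → Vb

/-- No nontrivial combination is the class of a torsion point. -/
def Indep (t : Λ → Vb) (v : Ty Λ I₀ m j) : Prop :=
  ∀ α : Fin j → Z2, α ≠ 0 → ¬ ∃ r : Vb, (∀ i, ∑ c, α c • v (some (.inr i)) c = r) ∧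
    ∀ l, ∑ c, α c • v (some (.inl l)) c = nu (t l) r

/-- Every type occurs at least `K` times in `O`. -/
def Gnr (O : Finset (Fin m)) (K : ℕ) (v : Ty Λ I₀ m j) : Prop :=
  ∀ τ : Fin j → Vb, K ≤ (O.filter fun i => v (some (.inr (.inr i))) = τ).card

/-- The row of the descent matrix at the prime `i`. -/
def row (t : Λ → Vb) (a : I₀ ⊕ Fin m → I₀ ⊕ Fin m → Z2) (b : I₀ ⊕ Fin m → Λ → Z2)
    (v : Ty Λ I₀ m j) (i : I₀ ⊕ Fin m) (c : Fin j) : Vb :=
  ∑ i', a i i' • (v (some (.inr i')) c + v (some (.inr i)) c) +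
    ∑ l, b i l • (v (some (.inl l)) c + nu (t l) (v (some (.inr i)) c))

/-- A finite family of symbol arrays that obey reciprocity and are almost equidistributed. -/
structure Sym {Ω : Type} (𝒳 : Finset Ω) (a : Ω → I₀ ⊕ Fin m → I₀ ⊕ Fin m → Z2)
    (b : Ω → I₀ ⊕ Fin m → Λ → Z2) : Prop where
  small : ∀ x ∈ 𝒳, ∀ y ∈ 𝒳, ∀ i i', a x (.inl i) (.inl i') = a y (.inl i) (.inl i')
  smallb : ∀ x ∈ 𝒳, ∀ y ∈ 𝒳, ∀ i l, b x (.inl i) l = b y (.inl i) l
  recip : ∀ x ∈ 𝒳, ∀ y ∈ 𝒳, ∀ i i', i ≠ i' → a x i i' + a x i' i = a y i i' + a y i' i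
  dist : ∀ (κ₀ : Fin m → Λ ⊕ I₀ → Z2) (κ : Fin m → Fin m → Z2),
    ((𝒳.filter fun x => ∀ i, ((∀ l, b x (.inr i) l = κ₀ i (.inl l)) ∧
        ∀ i', a x (.inr i) (.inl i') = κ₀ i (.inr i')) ∧
        ∀ i', i' < i → a x (.inr i) (.inr i') = κ i i').card : ℝ) *
      2 ^ (∑ i : Fin m, (Fintype.card (Λ ⊕ I₀) + i.val)) ≤ 2 * 𝒳.card

/-- The pair `(v, w)` is unlinked. -/
def Unl (t : Λ → Vb) (v : Ty Λ I₀ m j) (w : I₀ ⊕ Fin m → Fin j → Vb) : Prop :=
  (∀ (i : Fin m) (i' : I₀ ⊕ Fin m), ∑ c, eb (w (.inr i) c + w i' c)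
    (v (some (.inr (.inr i))) c + v (some (.inr i')) c) = 0) ∧
  ∀ (i : Fin m) (l : Λ), ∑ c, eb (w (.inr i) c)
    (v (some (.inl l)) c + nu (t l) (v (some (.inr (.inr i))) c)) = 0

end

end Pool.Agent.Lib.MP_16ef92_ag.GF
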