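import Mathlib
import Pool.Agent.Lib.MP_16ef92_ag.GF.Base
import Pool.Agent.Lib.MP_16ef92_ag.GF.HBd

set_option autoImplicit false
set_option linter.unusedSectionVars false
set_option linter.unusedVariables false

namespace Pool.Agent.Lib.MP_16ef92_ag.GF

open Polynomial
open scoped Classical

noncomputable section

variable {F : Type} [Field F] [Clos F] [Fintype F] [hq : Fact (Odd (Fintype.card F))]

theorem pg_prod {B C : Type} [Group B] [Group C] (hB : IsPGroup 2 B) (hC : IsPGroup 2 C) :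
    IsPGroup 2 (B × C) := fun x => by
  obtain ⟨k, hk⟩ := hB x.1
  obtain ⟨l, hl⟩ := hC x.2
  refine ⟨k + l, Prod.ext ?_ ?_⟩
  · rw [Prod.pow_fst, pow_add, pow_mul, hk, one_pow, Prod.fst_one]
  · rw [Prod.pow_snd, add_comm, pow_add, pow_mul, hl, one_pow, Prod.snd_one]

section gen
variable {B : Type} [Group B] [Finite B] {H : Subgroup (Gam F)} {φ ψ : Gam F → B}

/-- `S` detects the quadratic characters of `H` that are trivial where `φ` is. -/
theorem gen_closure (hB : IsPGroup 2 B) (hφ : Hm H φ) (S : Set (Gam F)) (hS : ∀ g ∈ S, g ∈ H)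
    (hch : ∀ u : Gam F → Z2, Ch H u → (∀ g ∈ H, φ g = 1 → u g = 0) → (∀ g ∈ S, u g = 0) →
      ∀ g ∈ H, u g = 0) {g : Gam F} (hg : g ∈ H) : φ g ∈ Subgroup.closure (φ '' S) := by
  let P := hφ.hom.range
  have hm : ∀ g ∈ H, φ g ∈ P := fun g hg => ⟨⟨g, hg⟩, rfl⟩
  by_contra hne
  obtain ⟨u, h1, h2, ⟨_, ⟨l, rfl⟩⟩, h3⟩ := exists_char (hB.to_subgroup P)
    ((Subgroup.closure (φ '' S)).subgroupOf P) fun e => hne (by
      have : (⟨φ g, hm g hg⟩ : P) ∈ (Subgroup.closure (φ '' S)).subgroupOf P := by rw [e]; trivial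
      exact this)
  have h0 : ∀ g (hg : g ∈ H), φ g = 1 → u ⟨φ g, hm g hg⟩ = 0 := fun g hg e => h2 _ (by
    change φ g ∈ Subgroup.closure (φ '' S)
    rw [e]
    exact one_mem _)
  have := hch (fun g => if h : g ∈ H then u ⟨φ g, hm g h⟩ else 0)
    ⟨fun a ha b hb => by
      rw [dif_pos ha, dif_pos hb, dif_pos (mul_mem ha hb), ← h1]
      exact congrArg u (Subtype.ext (hφ.mul a ha b hb)),
    hφ.near.mono fun a ha h4 h5 => by rw [dif_pos h5]; exact h0 a h5 (ha h4 h5)⟩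
    (fun a ha e => by rw [dif_pos ha]; exact h0 a ha e)
    (fun a ha => by
      rw [dif_pos (hS a ha)]
      exact h2 _ (Subgroup.subset_closure ⟨a, ha, rfl⟩)) l l.2
  rw [dif_pos l.2] at this
  exact h3 this

theorem hm_ext (hB : IsPGroup 2 B) (hφ : Hm H φ) (hψ : Hm H ψ) (S : Set (Gam F))
    (hS : ∀ g ∈ S, g ∈ H) (hch : ∀ u : Gam F → Z2, Ch H u →
      (∀ g ∈ H, φ g = 1 → ψ g = 1 → u g = 0) → (∀ g ∈ S, u g = 0) → ∀ g ∈ H, u g = 0)
    (e : ∀ g ∈ S, φ g = ψ g) {g : Gam F} (hg : g ∈ H) : φ g = ψ g := by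
  have := gen_closure (pg_prod hB hB) (hφ.prod hψ) S hS (fun u hu h0 => hch u hu fun g hg h1 h2 =>
    h0 g hg (Prod.ext h1 h2)) hg
  refine (Subgroup.closure_le (K := (MonoidHom.fst B B).eqLocus (MonoidHom.snd B B))).2 ?_ this
  rintro _ ⟨a, ha, rfl⟩
  exact e a ha

end gen

section chars
variable {O : ValuationSubring (Om F)} {x : Option (kk F)} {u : Gam F → Z2}

theorem ine_zero (hO : Over O x) (hu : Ch (Ine O) u) {γ : Gam F} (hγ : γ ∈ Ine O)
    (h1 : sg (pl x) γ = 1) (h0 : u γ = 0) : ∀ g ∈ Ine O, u g = 0 := by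
  obtain ⟨j, hj⟩ := hO.local_char prim_one u hu.mul (hu.near.mono fun g hg h => hg h.1 h)
  have := hj γ hγ
  rw [h0, show kap (-1) 1 (pl x) γ = 1 from h1, mul_one] at this
  intro g hg
  rw [hj g hg, ← this, zero_mul]

theorem geo_char (hu : Ch (Geo F) u) : ∃ v : kk F →₀ Z2,
    (∀ c γ, Gen (some c) γ → u γ = v c) ∧ ∀ γ, Gen none γ → u γ = v.sum fun _ a => a := by
  obtain ⟨v, hv⟩ := global_char prim_one u hu.mul (hu.near.mono fun g hg h => hg h h)
  refine ⟨v, ?_, ?_⟩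
  · rintro c γ ⟨O, h1, h2, h3⟩
    rw [hv γ h2.1, h1.sum_fin prim_one h2, show kap (-1) 1 (pl (some c)) γ = 1 from h3, mul_one]
  · rintro γ ⟨O, h1, h2, h3⟩
    rw [hv γ h2.1, h1.sum_inf prim_one h2, show kap (-1) 1 (pl none) γ = 1 from h3, mul_one, neg_z2]

theorem Ch.gen_eq (hu : Ch (Geo F) u) {γ γ' : Gam F} (h : Gen x γ) (h' : Gen x γ') :
    u γ = u γ' := by
  obtain ⟨v, h1, h2⟩ := geo_char hu
  cases x with
  | none => rw [h2 γ h, h2 γ' h']
  | some c => rw [h1 c γ h, h1 c γ' h']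

theorem geo_zero (hu : Ch (Geo F) u) (h : ∀ c, ∃ γ, Gen (some c) γ ∧ u γ = 0) :
    ∀ g ∈ Geo F, u g = 0 := by
  refine global_zero prim_one u hu.mul (hu.near.mono fun g hg h => hg h h) fun c O hO => ?_
  obtain ⟨γ, h1, h2⟩ := h c
  obtain ⟨g, h3, h4⟩ := hO.exists_sg
  exact ine_zero hO (hu.mono inf_le_left) h3 h4 ((hu.gen_eq ⟨O, hO, h3, h4⟩ h1).trans h2)

theorem sg_gen {c : kk F} {γ : Gam F} (h : Gen x γ) :
    sg (pl (some c)) γ = if x = some c ∨ x = none then 1 else 0 := by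
  obtain ⟨O, h1, h2, h3⟩ := h
  cases x with
  | none =>
    rw [if_pos (Or.inr rfl), sg, h1.kap_val prim_one h2 (geo_pl h2.1 _) (h1.val_inf prim_one c),
      show kap (-1) 1 (pl none) γ = 1 from h3]
    decide
  | some d =>
    by_cases e : d = c
    · rw [if_pos (Or.inl (by rw [e])), ← e, h3]
    · rw [if_neg (by simpa using e), sg,
        h1.kap_unit prim_one h2 (geo_pl h2.1 _) (h1.val_other prim_one (Ne.symm e))]

theorem exists_geo_char (a : Option (kk F) → Z2) (ha : {x | a x ≠ 0}.Finite) (y : Option (kk F)) :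
    ∃ w : Gam F → Z2, Ch (Geo F) w ∧ ∀ x γ, x ≠ y → Gen x γ → w γ = a x := by
  have hf : {c | a (some c) ≠ 0}.Finite := ha.preimage (Option.some_injective _).injOn
  have hw : ∀ c, Ch (Geo F) (sg (pl (some c))) := fun c => ch_sg (pl_ne _) fun g hg => geo_pl hg _
  have hw0 : Ch (Geo F) fun g => ∑ c ∈ hf.toFinset, sg (pl (some c)) g := Ch.sum _ fun c _ => hw c
  have h0 : ∀ d γ, Gen (some d) γ → ∑ c ∈ hf.toFinset, sg (pl (some c)) γ = a (some d) := by
    intro d γ h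
    simp only [sg_gen h, Option.some.injEq, reduceCtorEq, or_false, Finset.sum_ite_eq,
      Set.Finite.mem_toFinset, Set.mem_setOf_eq]
    have e' : (1 : Z2) ≠ 0 := by decide
    rcases z2_cases (a (some d)) with e | e <;> simp [e, e']
  cases y with
  | none =>
    refine ⟨_, hw0, fun x γ hx h => ?_⟩
    obtain ⟨d, rfl⟩ := Option.ne_none_iff_exists'.1 hx
    exact h0 d γ h
  | some c₀ =>
    refine ⟨_, hw0.add ((hw c₀).map (AddMonoidHom.mulLeft (a none - hf.toFinset.card))),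
      fun x γ hx h => ?_⟩
    cases x with
    | none => simp [sg_gen h]
    | some d => simp [h0 d γ h, sg_gen (c := c₀) h, hx]

end chars

section tame
variable {B : Type} [Group B] [Finite B] {φ ψ : Gam F → B} {O : ValuationSubring (Om F)}
  {x : Option (kk F)} {γ : Gam F}

theorem ine_ext (hB : IsPGroup 2 B) (hO : Over O x) (hφ : Hm (Ine O) φ) (hψ : Hm (Ine O) ψ)
    (hγ : γ ∈ Ine O) (h1 : sg (pl x) γ = 1) (e : φ γ = ψ γ) {g : Gam F} (hg : g ∈ Ine O) :
    φ g = ψ g :=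
  hm_ext hB hφ hψ {γ} (by simpa using hγ)
    (fun u hu _ h => ine_zero hO hu hγ h1 (h γ rfl)) (by simpa using e) hg

theorem hm_one {H : Subgroup (Gam F)} : Hm H fun _ => (1 : B) :=
  ⟨fun _ _ _ _ => (mul_one _).symm, .of_forall fun _ _ _ => rfl⟩

theorem ine_of_over {O O' : ValuationSubring (Om F)} (h : Over O x) (h' : Over O' x) :
    ∃ w ∈ Geo F, ∀ g ∈ Ine O', w⁻¹ * g * w ∈ Ine O := by
  obtain ⟨w, h1, h2⟩ := over_trans h h'
  exact ⟨w, h1, fun g hg => conj_ine h2 hg⟩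

theorem unr_of_gen (hB : IsPGroup 2 B) (hφ : Hm (Geo F) φ) (h : Gen x γ) (e : φ γ = 1)
    (hO : Over O x) {g : Gam F} (hg : g ∈ Ine O) : φ g = 1 := by
  obtain ⟨O', h1, h2, h3⟩ := h
  obtain ⟨w, h4, h5⟩ := ine_of_over h1 hO
  have := ine_ext hB h1 (hφ.mono inf_le_left) hm_one h2 h3 e (h5 g hg)
  have h6 := hφ.conj h4 (h5 g hg).1
  rw [this] at h6
  simpa [mul_assoc] using h6

/-- The tame relation. -/
theorem tame_rel (hB : IsPGroup 2 B) (hO : Over O x) (hφ : Hm (Ine O) φ) {f : Gam F} {Q : ℕ}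
    (hf : f ∈ St O) (hQ : Fr f Q) (hp : f (pl x) = pl x) {g : Gam F} (hg : g ∈ Ine O) :
    φ (f * g * f⁻¹) = φ g ^ Q := by
  obtain ⟨γ, hγ, h1⟩ := hO.exists_sg
  obtain ⟨n, hn⟩ := (IsPGroup.iff_orderOf.1 hB) (φ γ)
  have h2 : ∀ g, ∃ i : ℤ, g ∈ Ine O → φ γ ^ i = φ g := fun g => by
    by_cases hg : g ∈ Ine O
    · have := gen_closure hB hφ {γ} (by simpa using hγ)
        (fun u hu _ h => ine_zero hO hu hγ h1 (h γ rfl)) hg
      rw [Set.image_singleton, Subgroup.mem_closure_singleton] at this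
      exact this.imp fun i hi _ => hi
    · exact ⟨0, fun h => (hg h).elim⟩
  choose i hi using h2
  have h3 : ∀ a b : ℤ, φ γ ^ a = φ γ ^ b ↔ (a : ZMod (2 ^ n)) = b := fun a b => by
    rw [zpow_eq_zpow_iff_modEq, hn, ZMod.intCast_eq_intCast_iff]
  obtain ⟨r, hr⟩ := exists_prim (F := F) n
  obtain ⟨j, hj⟩ := hO.local_char hr (fun g => (i g : ZMod (2 ^ n)))
    (fun a ha b hb => by
      rw [← Int.cast_add, ← h3, zpow_add, hi a ha, hi b hb, hi _ (mul_mem ha hb), hφ.mul a ha b hb])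
    (hφ.near.mono fun a ha h => by
      rw [← Int.cast_zero, ← h3, hi a h, ha h.1 h, zpow_zero])
  have h4 := kap_conj hr (hQ.root (by positivity) hr.pow_eq_one) hg.1 (geo_pl hg.1 x) (pl_ne x)
  rw [hp] at h4
  rw [← hi _ (st_conj hf hg), ← hi g hg, ← zpow_natCast, ← zpow_mul, h3, Int.cast_mul,
    hj _ (st_conj hf hg), hj g hg, h4]
  push_cast
  ring

end tame

section lift
variable {B B' : Type} [Group B] [Group B']

/-- A central extension with kernel of order two. -/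
structure CE (π : B' →* B) (z : B') : Prop where
  surj : Function.Surjective π
  ker : ∀ b, π b = 1 ↔ b = 1 ∨ b = z
  ne : z ≠ 1
  sq : z * z = 1
  cen : ∀ g, g * z = z * g

/-- The embedding of the kernel. -/
def zz (z : B') (a : Z2) : B' := if a = 0 then 1 else z

/-- The coordinate on the kernel. -/
def lg (b : B') : Z2 := if b = 1 then 0 else 1

variable {π : B' →* B} {z : B'}

theorem zz_zero : zz z 0 = 1 := if_pos rfl

theorem lg_one : lg (1 : B') = 0 := if_pos rfl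

theorem CE.zz_add (h : CE π z) (a b : Z2) : zz z (a + b) = zz z a * zz z b := by
  have e : (1 + 1 : Z2) = 0 := by decide
  have e' : (1 : Z2) ≠ 0 := by decide
  rcases z2_cases a with rfl | rfl <;> rcases z2_cases b with rfl | rfl <;> simp [zz, h.sq, e, e']

theorem CE.zz_cen (h : CE π z) (a : Z2) (g : B') : g * zz z a = zz z a * g := by
  unfold zz
  split_ifs
  · simp
  · exact h.cen g

theorem CE.pi_zz (h : CE π z) (a : Z2) : π (zz z a) = 1 := by
  unfold zz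
  split_ifs
  · simp
  · exact (h.ker z).2 (Or.inr rfl)

theorem CE.zz_lg (h : CE π z) {b : B'} (hb : π b = 1) : zz z (lg b) = b := by
  have e' : (1 : Z2) ≠ 0 := by decide
  rcases (h.ker b).1 hb with rfl | rfl
  · simp [zz, lg]
  · simp [zz, lg, h.ne, e']

theorem CE.lg_zz (h : CE π z) (a : Z2) : lg (zz z a) = a := by
  have e' : (1 : Z2) ≠ 0 := by decide
  rcases z2_cases a with rfl | rfl
  · simp [zz, lg]
  · simp [zz, lg, h.ne, e']

theorem CE.zz_inj (h : CE π z) {a b : Z2} (e : zz z a = zz z b) : a = b := by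
  rw [← h.lg_zz a, e, h.lg_zz]

theorem CE.zz_sq (h : CE π z) (a : Z2) : zz z a * zz z a = 1 := by
  rw [← h.zz_add, ← zz_zero (z := z)]
  congr 1
  revert a
  decide

theorem ce_quot {z : B'} (h1 : z ≠ 1) (h2 : z * z = 1) (h3 : ∀ g, g * z = z * g) :
    ∃ _ : (Subgroup.zpowers z).Normal, CE (QuotientGroup.mk' (Subgroup.zpowers z)) z := by
  have hn : (Subgroup.zpowers z).Normal := ⟨by
    rintro _ ⟨i, rfl⟩ g
    have : Commute g (z ^ i) := Commute.zpow_right (h3 g) i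
    exact ⟨i, by simp [this.eq]⟩⟩
  refine ⟨hn, QuotientGroup.mk'_surjective _, fun b => ?_, h1, h2, h3⟩
  rw [QuotientGroup.mk'_apply, QuotientGroup.eq_one_iff]
  constructor
  · rintro ⟨i, rfl⟩
    have h4 : z ^ (2 : ℤ) = 1 := by rw [zpow_two, h2]
    obtain ⟨l, rfl | rfl⟩ := Int.even_or_odd' i
    · exact Or.inl (by simp [zpow_mul, h4])
    · exact Or.inr (by simp [zpow_add, zpow_mul, h4])
  · rintro (rfl | rfl)
    · exact one_mem _
    · exact Subgroup.mem_zpowers _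

theorem card_quot_lt [Finite B'] (h : CE π z) : Nat.card B < Nat.card B' := by
  have : Finite B := Finite.of_surjective π h.surj
  refine lt_of_le_of_ne (Nat.card_le_card_of_surjective π h.surj) fun e => h.ne ?_
  exact ((Nat.bijective_iff_surjective_and_card π).2 ⟨h.surj, e.symm⟩).1
    (by rw [map_one]; exact (h.ker z).2 (Or.inr rfl))

theorem CE.lift [Finite B] (h : CE π z) (hB : IsPGroup 2 B) {φ : Gam F → B} (hφ : Hm (Geo F) φ) :
    ∃ ψ : Gam F → B', Hm (Geo F) ψ ∧ ∀ g, π (ψ g) = φ g := by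
  obtain ⟨sec, hs, hs1⟩ : ∃ sec : B → B', (∀ b, π (sec b) = b) ∧ sec 1 = 1 := by
    choose sec hs using h.surj
    exact ⟨fun b => if b = 1 then 1 else sec b, fun b => by by_cases e : b = 1 <;> simp [e, hs],
      if_pos rfl⟩
  let c : Gam F → Gam F → Z2 := fun g l => lg (sec (φ g) * sec (φ l) * (sec (φ (g * l)))⁻¹)
  have hc : ∀ g ∈ Geo F, ∀ l ∈ Geo F, sec (φ g) * sec (φ l) = zz z (c g l) * sec (φ (g * l)) :=
    fun g hg l hl => by
      rw [h.zz_lg (by simp [hs, hφ.mul g hg l hl]), inv_mul_cancel_right]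
  have hc1 : ∀ g ∈ Geo F, ∀ l ∈ Geo F, φ l = 1 → c g l = 0 ∧ c l g = 0 := fun g hg l hl e => by
    simp [c, hφ.mul g hg l hl, hφ.mul l hl g hg, e, hs1, lg_one]
  let C : Coc F 1 :=
    { c := c
      assoc := fun g hg l hl k hk => by
        refine h.zz_inj (mul_right_cancel (b := sec (φ (g * l * k))) ?_)
        rw [h.zz_add, h.zz_add, mul_assoc, ← hc _ (mul_mem hg hl) k hk, ← mul_assoc, ← hc g hg l hl,
          mul_assoc (zz z _), mul_assoc g, ← hc g hg _ (mul_mem hl hk), ← mul_assoc, ← h.zz_cen,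
          mul_assoc, mul_assoc, ← hc l hl k hk]
      one := fun g hg => hc1 g hg 1 (one_mem _) hφ.one
      near := hφ.near.mono fun l hl h1 g hg => hc1 g hg l h1 (hl h1 h1) }
  let HK : Subgroup B → Subgroup (Gam F) := fun K => (K.comap hφ.hom).map (Geo F).subtype
  have hK : ∀ K g, g ∈ HK K ↔ g ∈ Geo F ∧ φ g ∈ K := fun K g =>
    ⟨fun ⟨a, h1, h2⟩ => h2 ▸ ⟨a.2, h1⟩, fun ⟨h1, h2⟩ => ⟨⟨g, h1⟩, h2, rfl⟩⟩
  have hS : Sec (-1) C (HK ⊤) := by
    refine chain_ind hB (fun K => Sec (-1) C (HK K)) ⊥ ⟨fun _ => 1, fun _ _ => one_ne_zero,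
      fun g hg l hl => ?_, .of_forall fun _ _ => rfl⟩ fun K K' h1 h2 => ?_
    · rw [show C.c g l = 0 from (hc1 g ((hK _ _).1 hg).1 l ((hK _ _).1 hl).1 ((hK _ _).1 hl).2).1,
        ch_zero]
      simp
    · refine sec_step prim_one C _ _ (fun g hg => ?_) (fun g hg => ((hK _ _).1 hg).1)
        (hφ.near.mono fun g hg h3 => (hK _ _).2 ⟨h3, by rw [hg h3 h3]; exact one_mem _⟩)
        fun g hg l hl h3 h4 => ?_
      · exact (hK _ _).2 ⟨((hK _ _).1 hg).1, h1 ((hK _ _).1 hg).2⟩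
      · rw [hK] at hg hl h3 h4 ⊢
        refine ⟨mul_mem hg.1 hl.1, ?_⟩
        rw [hφ.mul g hg.1 l hl.1]
        exact h2 _ hg.2 _ hl.2 (fun e => h3 ⟨hg.1, e⟩) fun e => h4 ⟨hl.1, e⟩
  have hT : HK ⊤ = Geo F := by
    ext g
    simp [hK]
  rw [hT] at hS
  obtain ⟨f, hf, hn⟩ := phi_of_sec prim_one C hS
  refine ⟨fun g => zz z (f g) * sec (φ g), ⟨fun g hg l hl => ?_, (hn.and hφ.near).mono
    fun g hg h1 _ => by rw [hg.1 h1, hg.2 h1 h1, hs1, zz_zero, mul_one]⟩,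
    fun g => by rw [map_mul, h.pi_zz, hs, one_mul]⟩
  rw [hf g hg l hl, h.zz_add, h.zz_add, mul_assoc, show C.c g l = c g l from rfl, ← hc g hg l hl,
    mul_assoc, mul_assoc, ← mul_assoc (sec _), h.zz_cen, mul_assoc]

theorem CE.twist (h : CE π z) {H : Subgroup (Gam F)} {ψ : Gam F → B'} {w : Gam F → Z2}
    (hψ : Hm H ψ) (hw : Ch H w) : Hm H fun g => zz z (w g) * ψ g :=
  ⟨fun g hg l hl => by
    rw [hw.mul g hg l hl, hψ.mul g hg l hl, h.zz_add, mul_assoc, mul_assoc, ← mul_assoc (ψ g),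
      h.zz_cen, mul_assoc],
    (hw.near.and hψ.near).mono fun g hg h1 h2 => by rw [hg.1 h1 h2, hg.2 h1 h2, zz_zero, mul_one]⟩

theorem CE.lift_at [Finite B] (h : CE π z) (hB : IsPGroup 2 B) {φ : Gam F → B} (hφ : Hm (Geo F) φ)
    (y : Option (kk F)) {γ : Option (kk F) → Gam F} (hγ : ∀ x, Gen x (γ x))
    (b : Option (kk F) → B') (hb : ∀ x, x ≠ y → π (b x) = φ (γ x)) (hf : {x | b x ≠ 1}.Finite) :
    ∃ ψ : Gam F → B', Hm (Geo F) ψ ∧ (∀ g, π (ψ g) = φ g) ∧ ∀ x, x ≠ y → ψ (γ x) = b x := by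
  obtain ⟨ψ, h1, h2⟩ := h.lift hB hφ
  obtain ⟨w, h3, h4⟩ := exists_geo_char (fun x => lg (b x * (ψ (γ x))⁻¹))
    ((hf.union h1.near.finite_ram).subset fun x hx => by
      by_contra hne
      simp only [Set.mem_union, Set.mem_setOf_eq, not_or, not_not, not_exists, not_and] at hne
      obtain ⟨O, h5, h6, _⟩ := hγ x
      exact hx (by simp only [hne.1, hne.2 O h5 _ h6 h6.1 h6.1, inv_one, mul_one, lg_one])) y
  refine ⟨_, h.twist h1 h3, fun g => by rw [map_mul, h.pi_zz, h2, one_mul], fun x hx => ?_⟩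
  rw [h4 x _ hx (hγ x), h.zz_lg (by simp [hb x hx, h2]), inv_mul_cancel_right]

/-- Geometric freeness. -/
theorem geo_lift [Finite B'] (hB : IsPGroup 2 B') (π : B' →* B) (hπ : Function.Surjective π)
    {φ : Gam F → B} (hφ : Hm (Geo F) φ) (y : Option (kk F)) {γ : Option (kk F) → Gam F}
    (hγ : ∀ x, Gen x (γ x)) (b : Option (kk F) → B') (hb : ∀ x, x ≠ y → π (b x) = φ (γ x))
    (hf : {x | b x ≠ 1}.Finite) :
    ∃ ψ : Gam F → B', Hm (Geo F) ψ ∧ (∀ g, π (ψ g) = φ g) ∧ ∀ x, x ≠ y → ψ (γ x) = b x := by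
  induction hn : Nat.card B' using Nat.strong_induction_on generalizing B' with
  | _ n ih =>
    by_cases hk : π.ker = ⊥
    · let e := MulEquiv.ofBijective π ⟨(MonoidHom.ker_eq_bot_iff π).1 hk, hπ⟩
      exact ⟨_, hφ.comp e.symm.toMonoidHom, fun g => e.apply_symm_apply _,
        fun x hx => e.symm_apply_eq.2 (hb x hx).symm⟩
    · obtain ⟨z, h1, h2, h3, h4⟩ := exists_central hB π.ker hk
      obtain ⟨_, h5⟩ := ce_quot h2 h3 h4
      have h6 := hB.to_quotient (Subgroup.zpowers z)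
      obtain ⟨ψ, h7, h8, h9⟩ := ih _ (hn ▸ card_quot_lt h5) h6
        (QuotientGroup.lift _ π (Subgroup.zpowers_le.2 h1))
        (fun a => by obtain ⟨a, rfl⟩ := hπ a; exact ⟨a, rfl⟩) (fun x => b x) hb
        (hf.subset fun x hx e => hx (by simp [e])) rfl
      obtain ⟨ψ', h10, h11, h12⟩ := h5.lift_at h6 h7 y hγ b (fun x hx => (h9 x hx).symm) hf
      exact ⟨ψ', h10, fun g => by rw [← h8, ← h11]; rfl, h12⟩

end lift

end

end Pool.Agent.Lib.MP_16ef92_ag.GF
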