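import Mathlib
import Pool.Agent.Lib.MP_16ef92_ag.GF.Tame

set_option autoImplicit false
set_option linter.unusedSectionVars false
set_option linter.unusedVariables false

namespace Pool.Agent.Lib.MP_16ef92_ag.GF

open Polynomial
open scoped Classical

noncomputable section

variable {F : Type} [Field F] [Clos F] [Fintype F] [hq : Fact (Odd (Fintype.card F))] [Fro F]

/-- The conjugates of `σ` by the powers of the Frobenius element. -/
def og (σ : Gam F) (i : ℕ) : Gam F := ss F ^ i * σ * (ss F ^ i)⁻¹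

theorem og_zero (σ : Gam F) : og σ 0 = σ := by simp [og]

theorem og_succ (σ : Gam F) (i : ℕ) : og σ (i + 1) = ss F * og σ i * (ss F)⁻¹ := by
  unfold og
  group

theorem og_geo {σ : Gam F} (h : σ ∈ Geo F) (i : ℕ) : og σ i ∈ Geo F := geo_conj' h _

/-- `u` vanishes on inertia at the finite places away from the roots of the members of `Z`. -/
def Unr0 {A : Type} [Zero A] (u : Gam F → A) (Z : Set F[X]) : Prop :=
  ∀ c O, Over O (some c) → (∀ p ∈ Z, aeval c p ≠ 0) → ∀ g ∈ Ine O, u g = 0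

/-- Local pairs at the primes of `Z`. -/
structure Lp (Z : Finset F[X]) (σ f : F[X] → Gam F) : Prop where
  prm : ∀ p ∈ Z, Prm p
  dec : ∀ p ∈ Z, Dec p (σ p) (f p)

theorem Dec.root {p : F[X]} {σ f : Gam F} (h : Dec p σ f) :
    ∃ c : kk F, aeval c p = 0 ∧ ∀ i, Gen (some (ck (ss F ^ i) c)) (og σ i) := by
  obtain ⟨c, O, h1, h2, h3, h4, _⟩ := h
  exact ⟨c, h1, fun i => Gen.conj (x := some c) ⟨O, h2, h3, h4⟩ _⟩

theorem Dec.gen {p : F[X]} {σ f : Gam F} (h : Dec p σ f) :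
    ∃ c : kk F, aeval c p = 0 ∧ Gen (some c) σ := by
  obtain ⟨c, O, h1, h2, h3, h4, _⟩ := h
  exact ⟨c, h1, O, h2, h3, h4⟩

section
variable {B B' : Type} [Group B] [Group B'] {φ ψ : Gam F → B} {Z : Finset F[X]}
  {σ f : F[X] → Gam F}

theorem Dec.tame [Finite B] (hB : IsPGroup 2 B) (hφ : Hm (Geo F) φ) {p : F[X]} {σ f : Gam F}
    (hp : Prm p) (h : Dec p σ f) :
    φ (f * σ * f⁻¹) = φ σ ^ Fintype.card F ^ p.natDegree := by
  obtain ⟨c, O, h1, h2, h3, h4, h5, h6⟩ := h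
  exact tame_rel hB h2 (hφ.mono inf_le_left) h5 (fr_of h6)
    ((fr_of h6).pl (congrArg Subtype.val (hp.fix h1))) h3

theorem tame_inf [Finite B] (hB : IsPGroup 2 B) (hφ : Hm (Geo F) φ) {g : Gam F}
    (hg : g ∈ Ine (Fro.O (F := F))) : φ (ss F * g * (ss F)⁻¹) = φ g ^ Fintype.card F :=
  tame_rel hB Fro.ov (hφ.mono inf_le_left) Fro.st Fro.fr (gam_pl _ _) hg

theorem unr_of [Finite B] (hB : IsPGroup 2 B) (hφ : Hm (Geo F) φ) {Y : Set F[X]}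
    (h : ∀ c : kk F, (∀ p ∈ Y, aeval c p ≠ 0) → ∃ γ, Gen (some c) γ ∧ φ γ = 1) : Unr φ Y :=
  fun c O hO hc g hg => by
    obtain ⟨γ, h1, h2⟩ := h c hc
    exact unr_of_gen hB hφ h1 h2 hO hg

theorem Unr.gen {Y : Set F[X]} {C : Type} [One C] {φ : Gam F → C} (hu : Unr φ Y) {c : kk F}
    (hc : ∀ p ∈ Y, aeval c p ≠ 0) {γ : Gam F} (h : Gen (some c) γ) : φ γ = 1 := by
  obtain ⟨O, h1, h2, _⟩ := h
  exact hu c O h1 hc γ h2

theorem Unr.mono {Y Y' : Set F[X]} {C : Type} [One C] {φ : Gam F → C} (hu : Unr φ Y)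
    (h : Y ⊆ Y') : Unr φ Y' := fun c O hO hc => hu c O hO fun p hp => hc p (h hp)

theorem Lp.pts (h : Lp Z σ f) : ∃ pt : F[X] → ℕ → kk F,
    (∀ p ∈ Z, ∀ i, aeval (pt p i) p = 0 ∧ Gen (some (pt p i)) (og (σ p) i)) ∧
    (∀ p ∈ Z, ∀ i < p.natDegree, ∀ r ∈ Z, ∀ j < r.natDegree, pt p i = pt r j → p = r ∧ i = j) ∧
    (∀ p ∈ Z, ∀ c : kk F, aeval c p = 0 → ∃ i < p.natDegree, c = pt p i) ∧
    ∀ p ∈ Z, pt p p.natDegree = pt p 0 := by
  have : ∀ p, ∃ c : kk F, p ∈ Z → aeval c p = 0 ∧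
      ∀ i, Gen (some (ck (ss F ^ i) c)) (og (σ p) i) := fun p => by
    by_cases hp : p ∈ Z
    · exact (h.dec p hp).root.imp fun c hc _ => hc
    · exact ⟨0, fun e => (hp e).elim⟩
  choose rt hrt using this
  refine ⟨fun p i => ck (ss F ^ i) (rt p), fun p hp i => ⟨root_ck.2 (hrt p hp).1, (hrt p hp).2 i⟩,
    fun p hp i hi r hr j hj e => ?_, fun p hp c hc => (h.prm p hp).orb_surj (hrt p hp).1 hc,
    fun p hp => ?_⟩
  · have h1 : p = r := (h.prm p hp).root_unique (h.prm r hr) (root_ck.2 (hrt p hp).1)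
      (by rw [show ck (ss F ^ i) (rt p) = _ from e]; exact root_ck.2 (hrt r hr).1)
    subst h1
    exact ⟨rfl, (h.prm p hp).orb_inj (hrt p hp).1 hi hj e⟩
  · simp only [ck_pow, (h.prm p hp).fix (hrt p hp).1]
    simp

theorem Lp.geo_zero (h : Lp Z σ f) {u : Gam F → Z2} (hu : Ch (Geo F) u) (h0 : Unr0 u Z)
    (h1 : ∀ p ∈ Z, ∀ i < p.natDegree, u (og (σ p) i) = 0) : ∀ g ∈ Geo F, u g = 0 := by
  obtain ⟨pt, h2, -, h3, -⟩ := h.pts
  refine GF.geo_zero hu fun c => ?_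
  by_cases hc : ∃ p ∈ Z, aeval c p = 0
  · obtain ⟨p, hp, hc⟩ := hc
    obtain ⟨i, hi, rfl⟩ := h3 p hp c hc
    exact ⟨_, (h2 p hp i).2, h1 p hp i hi⟩
  · obtain ⟨γ, O, h4, h5, h6⟩ := exists_gen (some c)
    exact ⟨γ, ⟨O, h4, h5, h6⟩, h0 c O h4 (fun p hp e => hc ⟨p, hp, e⟩) γ h5⟩

theorem Lp.w_zero (h : Lp Z σ f) {u : Gam F → Z2} (hu : Ch (WW F) u) (h0 : Unr0 u Z)
    (hs : u (ss F) = 0) (h1 : ∀ p ∈ Z, u (σ p) = 0) : ∀ g ∈ WW F, u g = 0 := fun g hg => by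
  have h2 := h.geo_zero (hu.mono geo_le) h0 (fun p hp i _ => by
    rw [og, hu.conj (pow_mem ss_mem _) (h.dec p hp).memS, h1 p hp]) _ (dg_spec hg)
  have h3 : Multiplicative.ofAdd (u (ss F ^ (-dg g))) = _ := hu.hm.zpow ss_mem (-dg g)
  rw [hs, ofAdd_zero, one_zpow, ofAdd_eq_one] at h3
  rwa [hu.mul g hg _ (zpow_mem ss_mem _), h3, add_zero] at h2

theorem Lp.geo_ext [Finite B] (h : Lp Z σ f) (hB : IsPGroup 2 B) (hφ : Hm (Geo F) φ)
    (hψ : Hm (Geo F) ψ) (h1 : Unr φ Z) (h2 : Unr ψ Z)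
    (e : ∀ p ∈ Z, ∀ i < p.natDegree, φ (og (σ p) i) = ψ (og (σ p) i)) {g : Gam F}
    (hg : g ∈ Geo F) : φ g = ψ g :=
  hm_ext hB hφ hψ {g | ∃ p ∈ Z, ∃ i < p.natDegree, g = og (σ p) i}
    (by rintro _ ⟨p, hp, i, _, rfl⟩; exact og_geo (h.dec p hp).geo i)
    (fun u hu h3 h4 => h.geo_zero hu (fun c O hO hc g hg =>
      h3 g hg.1 (h1 c O hO hc g hg) (h2 c O hO hc g hg)) fun p hp i hi => h4 _ ⟨p, hp, i, hi, rfl⟩)
    (by rintro _ ⟨p, hp, i, hi, rfl⟩; exact e p hp i hi) hg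

theorem Lp.w_ext [Finite B] (h : Lp Z σ f) (hB : IsPGroup 2 B) (hφ : Hm (WW F) φ)
    (hψ : Hm (WW F) ψ) (h1 : Unr φ Z) (h2 : Unr ψ Z) (es : φ (ss F) = ψ (ss F))
    (e : ∀ p ∈ Z, φ (σ p) = ψ (σ p)) {g : Gam F} (hg : g ∈ WW F) : φ g = ψ g :=
  hm_ext hB hφ hψ {g | g = ss F ∨ ∃ p ∈ Z, g = σ p}
    (by rintro _ (rfl | ⟨p, hp, rfl⟩); exacts [ss_mem, (h.dec p hp).memS])
    (fun u hu h3 h4 => h.w_zero hu (fun c O hO hc g hg =>
      h3 g (geo_le hg.1) (h1 c O hO hc g hg) (h2 c O hO hc g hg)) (h4 _ (Or.inl rfl))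
      fun p hp => h4 _ (Or.inr ⟨p, hp, rfl⟩))
    (by rintro _ (rfl | ⟨p, hp, rfl⟩); exacts [es, e p hp]) hg

/-- The geometric image is generated by the images of the conjugates. -/
theorem Lp.geo_gen [Finite B] (h : Lp Z σ f) (hB : IsPGroup 2 B) (hφ : Hm (Geo F) φ)
    (h1 : Unr φ Z) (K : Subgroup B) (e : ∀ p ∈ Z, ∀ i < p.natDegree, φ (og (σ p) i) ∈ K)
    {g : Gam F} (hg : g ∈ Geo F) : φ g ∈ K := by
  refine (Subgroup.closure_le K).2 ?_ (gen_closure hB hφ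
    {g | ∃ p ∈ Z, ∃ i < p.natDegree, g = og (σ p) i}
    (by rintro _ ⟨p, hp, i, _, rfl⟩; exact og_geo (h.dec p hp).geo i)
    (fun u hu h3 h4 => h.geo_zero hu (fun c O hO hc g hg =>
      h3 g hg.1 (h1 c O hO hc g hg)) fun p hp i hi => h4 _ ⟨p, hp, i, hi, rfl⟩) hg)
  rintro _ ⟨_, ⟨p, hp, i, hi, rfl⟩, rfl⟩
  exact e p hp i hi

theorem Lp.w_gen [Finite B] (h : Lp Z σ f) (hB : IsPGroup 2 B) (hφ : Hm (WW F) φ)
    (h1 : Unr φ Z) (K : Subgroup B) (es : φ (ss F) ∈ K) (e : ∀ p ∈ Z, φ (σ p) ∈ K)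
    {g : Gam F} (hg : g ∈ WW F) : φ g ∈ K := by
  refine (Subgroup.closure_le K).2 ?_ (gen_closure hB hφ {g | g = ss F ∨ ∃ p ∈ Z, g = σ p}
    (by rintro _ (rfl | ⟨p, hp, rfl⟩); exacts [ss_mem, (h.dec p hp).memS])
    (fun u hu h3 h4 => h.w_zero hu (fun c O hO hc g hg =>
      h3 g (geo_le hg.1) (h1 c O hO hc g hg)) (h4 _ (Or.inl rfl))
      fun p hp => h4 _ (Or.inr ⟨p, hp, rfl⟩)) hg)
  rintro _ ⟨_, rfl | ⟨p, hp, rfl⟩, rfl⟩
  exacts [es, e p hp]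

theorem Lp.orb_shift (h : Lp Z σ f) {u : Gam F → Z2} (hu : Ch (Geo F) u) {p : F[X]}
    (hp : p ∈ Z) : ∑ i ∈ Finset.range p.natDegree, u (og (σ p) (i + 1)) =
      ∑ i ∈ Finset.range p.natDegree, u (og (σ p) i) := by
  obtain ⟨pt, h2, -, -, h3⟩ := h.pts
  have h4 := Finset.sum_range_succ' (fun i => u (og (σ p) i)) p.natDegree
  rw [Finset.sum_range_succ, hu.gen_eq (h2 p hp _).2 (h3 p hp ▸ (h2 p hp 0).2)] at h4
  exact (add_right_cancel h4).symm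

/-- The sum of the local invariants of a quadratic character vanishes. -/
theorem Lp.char_sum (h : Lp Z σ f) {u : Gam F → Z2} (hu : Ch (Geo F) u) (h0 : Unr0 u Z)
    {γ : Gam F} (hγ : Gen none γ) :
    u γ = ∑ p ∈ Z, ∑ i ∈ Finset.range p.natDegree, u (og (σ p) i) := by
  obtain ⟨pt, h2, h3, h4, -⟩ := h.pts
  obtain ⟨v, h5, h6⟩ := geo_char hu
  rw [h6 γ hγ, Finset.sum_sigma', Finsupp.sum_of_support_subset v
    (s := (Z.sigma fun p => Finset.range p.natDegree).image fun y => pt y.1 y.2) ?_ _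
    fun _ _ => rfl, Finset.sum_image]
  · exact Finset.sum_congr rfl fun y hy => (h5 _ _ (h2 _ (Finset.mem_sigma.1 hy).1 _).2).symm
  · rintro ⟨p, i⟩ hy ⟨r, j⟩ hz e
    simp only [Finset.coe_sigma, Set.mem_sigma_iff, Finset.mem_coe, Finset.mem_range] at hy hz
    obtain ⟨rfl, rfl⟩ := h3 p hy.1 i hy.2 r hz.1 j hz.2 e
    rfl
  · intro c hc
    by_contra hne
    obtain ⟨g, O, h7, h8, h9⟩ := exists_gen (some c)
    refine Finsupp.mem_support_iff.1 hc ?_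
    rw [← h5 c g ⟨O, h7, h8, h9⟩]
    refine h0 c O h7 (fun p hp e => hne ?_) g h8
    obtain ⟨i, hi, rfl⟩ := h4 p hp c e
    exact Finset.mem_image.2 ⟨⟨p, i⟩, Finset.mem_sigma.2 ⟨hp, Finset.mem_range.2 hi⟩, rfl⟩

/-- Geometric lifts with prescribed values at all points but one; the exception is infinity for
`y = none` and the point `(p, 0)` for `y = some p`. -/
theorem Lp.orb_lift [Finite B'] (h : Lp Z σ f) (hB : IsPGroup 2 B') (π : B' →* B)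
    (hπ : Function.Surjective π) (hφ : Hm (Geo F) φ) (hu : Unr φ Z) (y : Option F[X])
    (hy : ∀ p, y = some p → p ∈ Z) (b₀ : B') (b : F[X] → ℕ → B') (h0 : y ≠ none → π b₀ = φ (sI F))
    (hb : ∀ p ∈ Z, ∀ i < p.natDegree, (y = some p → i ≠ 0) → π (b p i) = φ (og (σ p) i)) :
    ∃ ψ : Gam F → B', Hm (Geo F) ψ ∧ (∀ g, π (ψ g) = φ g) ∧ Unr ψ Z ∧
      (y ≠ none → ψ (sI F) = b₀) ∧
      ∀ p ∈ Z, ∀ i < p.natDegree, (y = some p → i ≠ 0) → ψ (og (σ p) i) = b p i := by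
  obtain ⟨pt, h2, h3, h4, -⟩ := h.pts
  have key : ∀ x : Option (kk F), ∃ (γ : Gam F) (β : B'), Gen x γ ∧ (x = none → γ = sI F ∧ β = b₀) ∧
      (∀ p ∈ Z, ∀ i < p.natDegree, x = some (pt p i) → γ = og (σ p) i ∧ β = b p i) ∧
      ∀ c, x = some c → (∀ p ∈ Z, aeval c p ≠ 0) → β = 1 := by
    rintro (_ | c)
    · exact ⟨_, b₀, gen_sI, fun _ => ⟨rfl, rfl⟩, by simp, by simp⟩
    by_cases hc : ∃ p ∈ Z, aeval c p = 0
    · obtain ⟨p, hp, hc⟩ := hc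
      obtain ⟨i, hi, rfl⟩ := h4 p hp c hc
      refine ⟨_, b p i, (h2 p hp i).2, by simp, fun r hr j hj e => ?_, fun d e h5 => ?_⟩
      · obtain ⟨rfl, rfl⟩ := h3 p hp i hi r hr j hj (Option.some.inj e)
        exact ⟨rfl, rfl⟩
      · exact (h5 p hp (Option.some.inj e ▸ hc)).elim
    · obtain ⟨γ, h5⟩ := exists_gen (some c)
      exact ⟨γ, 1, h5, by simp, fun p hp i _ e =>
        (hc ⟨p, hp, Option.some.inj e ▸ (h2 p hp i).1⟩).elim, fun _ _ _ => rfl⟩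
  choose γ β k1 k2 k3 k4 using key
  have k5 : ∀ p ∈ Z, ∀ i < p.natDegree, some (pt p i) ≠ y.map (fun r => pt r 0) ↔
      (y = some p → i ≠ 0) := fun p hp i hi => by
    rcases y with _ | r
    · simp
    · refine ⟨fun e e1 e2 => e (by rw [Option.some.inj e1, e2]; rfl), fun e e1 => ?_⟩
      obtain ⟨rfl, rfl⟩ := h3 p hp i hi r (hy r rfl) 0 (h.prm r (hy r rfl)).pos (Option.some.inj e1)
      exact e rfl rfl
  have k6 : ∀ c : kk F, (∀ p ∈ Z, aeval c p ≠ 0) ∨ ∃ p ∈ Z, ∃ i < p.natDegree, c = pt p i :=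
    fun c => by
      by_contra hne
      simp only [not_or, not_forall, not_not] at hne
      obtain ⟨⟨p, hp, hc⟩, h5⟩ := hne
      exact h5 ⟨p, hp, h4 p hp c hc⟩
  obtain ⟨ψ, h5, h6, h7⟩ := geo_lift hB π hπ hφ (y.map fun r => pt r 0) k1 β (fun x hx => by
      rcases x with _ | c
      · rw [(k2 _ rfl).1, (k2 _ rfl).2, h0 fun e => hx (by rw [e]; rfl)]
      rcases k6 c with hc | ⟨p, hp, i, hi, rfl⟩
      · rw [k4 _ c rfl hc, map_one, hu.gen hc (k1 _)]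
      · rw [(k3 _ p hp i hi rfl).1, (k3 _ p hp i hi rfl).2, hb p hp i hi ((k5 p hp i hi).1 hx)])
    ((((Z.sigma fun p => Finset.range p.natDegree).image fun y =>
      some (pt y.1 y.2)).finite_toSet.insert none).subset fun x hx => by
      rcases x with _ | c
      · exact Or.inl rfl
      rcases k6 c with hc | ⟨p, hp, i, hi, rfl⟩
      · exact (hx (k4 _ c rfl hc)).elim
      · exact Or.inr (Finset.mem_coe.2 (Finset.mem_image.2
          ⟨⟨p, i⟩, Finset.mem_sigma.2 ⟨hp, Finset.mem_range.2 hi⟩, rfl⟩)))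
  refine ⟨ψ, h5, h6, unr_of hB h5 fun c hc => ⟨_, k1 _, ?_⟩, fun e => ?_, fun p hp i hi e => ?_⟩
  · rw [h7 _ fun e => ?_, k4 _ c rfl hc]
    obtain ⟨r, rfl, e1⟩ := Option.map_eq_some_iff.1 e.symm
    exact hc r (hy r rfl) (e1 ▸ (h2 r (hy r rfl) 0).1)
  · rw [← (k2 _ rfl).1, h7 _ fun e1 => e (Option.map_eq_none_iff.1 e1.symm), (k2 _ rfl).2]
  · rw [← (k3 _ p hp i hi rfl).1, h7 _ ((k5 p hp i hi).2 e), (k3 _ p hp i hi rfl).2]

/-- Extension from the geometric group to the Weil group. -/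
theorem exists_ext {Ψ : Gam F → B} (hm : ∀ g ∈ Geo F, ∀ l ∈ Geo F, Ψ (g * l) = Ψ g * Ψ l) (t : B)
    (hc : ∀ g ∈ Geo F, Ψ (ss F * g * (ss F)⁻¹) = t * Ψ g * t⁻¹) :
    ∃ φ : Gam F → B, (∀ g ∈ WW F, ∀ l ∈ WW F, φ (g * l) = φ g * φ l) ∧
      (∀ g ∈ Geo F, φ g = Ψ g) ∧ φ (ss F) = t := by
  have h1 : ∀ (i : ℤ), ∀ g ∈ Geo F, Ψ (ss F ^ i * g * (ss F ^ i)⁻¹) = t ^ i * Ψ g * (t ^ i)⁻¹ := by
    intro i
    induction i using Int.induction_on with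
    | zero => simp
    | succ i ih =>
      intro g hg
      rw [show ss F ^ ((i : ℤ) + 1) * g * (ss F ^ ((i : ℤ) + 1))⁻¹ =
        ss F ^ (i : ℤ) * (ss F * g * (ss F)⁻¹) * (ss F ^ (i : ℤ))⁻¹ by group,
        ih _ (geo_conj' hg _), hc g hg]
      group
    | pred i ih =>
      intro g hg
      have := hc _ (geo_conj hg (ss F))
      rw [show ss F * ((ss F)⁻¹ * g * ss F) * (ss F)⁻¹ = g by group] at this
      rw [show ss F ^ (-(i : ℤ) - 1) * g * (ss F ^ (-(i : ℤ) - 1))⁻¹ =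
        ss F ^ (-(i : ℤ)) * ((ss F)⁻¹ * g * ss F) * (ss F ^ (-(i : ℤ)))⁻¹ by group,
        ih _ (geo_conj hg _), this]
      group
  have h2 : Ψ 1 = 1 := by
    have := hm 1 (one_mem _) 1 (one_mem _)
    rwa [mul_one, left_eq_mul] at this
  refine ⟨fun g => Ψ (g * ss F ^ (-dg g)) * t ^ dg g, fun g hg l hl => ?_,
    fun g hg => by simp [dg_geo hg], by simp [dg_ss, h2]⟩
  simp only
  rw [ch_dg.mul g hg l hl, show g * l * ss F ^ (-(dg g + dg l)) = g * ss F ^ (-dg g) *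
    (ss F ^ dg g * (l * ss F ^ (-dg l)) * (ss F ^ dg g)⁻¹) by group,
    hm _ (dg_spec hg) _ (geo_conj' (dg_spec hl) _), h1 _ _ (dg_spec hl)]
  group

theorem Hm.ext_w {Ψ : Gam F → B} (hΨ : Hm (Geo F) Ψ) (t : B)
    (hc : ∀ g ∈ Geo F, Ψ (ss F * g * (ss F)⁻¹) = t * Ψ g * t⁻¹) :
    ∃ φ : Gam F → B, Hm (WW F) φ ∧ (∀ g ∈ Geo F, φ g = Ψ g) ∧ φ (ss F) = t := by
  obtain ⟨φ, h1, h2, h3⟩ := exists_ext hΨ.mul t hc
  exact ⟨φ, ⟨h1, hΨ.near.mono fun g hg h4 _ => (h2 g h4).trans (hg h4 h4)⟩, h2, h3⟩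

theorem conj_eq_of_central (π : B' →* B) (hc : ∀ z, π z = 1 → ∀ g, g * z = z * g) {a b : B'}
    (e : π a = π b) (x : B') : a * x * a⁻¹ = b * x * b⁻¹ := by
  have := hc (b⁻¹ * a) (by simp [e]) x
  calc a * x * a⁻¹ = b * (b⁻¹ * a * x) * a⁻¹ := by group
    _ = _ := by rw [← this]; group

/-- The orbit formula. -/
theorem orbit [Finite B'] (hB : IsPGroup 2 B') (π : B' →* B)
    (hc : ∀ z, π z = 1 → ∀ g, g * z = z * g) (hφ : Hm (WW F) φ) {Ψ : Gam F → B'}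
    (hΨ : Hm (Geo F) Ψ) (hπ : ∀ g ∈ Geo F, π (Ψ g) = φ g) {t : B'} (ht : π t = φ (ss F))
    {A : Type} [AddCommMonoid A] (ι : A → B') (h0 : ι 0 = 1) (ha : ∀ a b, ι (a + b) = ι a * ι b)
    (u : Gam F → A) (hu : ∀ g ∈ Geo F, Ψ (ss F * g * (ss F)⁻¹) = ι (u g) * (t * Ψ g * t⁻¹))
    {p : F[X]} {σ f : Gam F} (hp : Prm p) (h : Dec p σ f) {f' : B'} (hf : π f' = φ f) :
    Ψ σ ^ Fintype.card F ^ p.natDegree =
      ι (∑ i ∈ Finset.range p.natDegree, u (og σ i)) * (f' * Ψ σ * f'⁻¹) := by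
  have h1 : ∀ g ∈ Geo F, π (ι (u g)) = 1 := fun g hg => by
    have := congrArg π (hu g hg)
    rw [hπ _ (geo_conj' hg _), hφ.conj ss_mem (geo_le hg), map_mul, map_mul, map_mul, map_inv, ht,
      hπ g hg] at this
    exact right_eq_mul.1 this
  have h2 : ∀ d, π (ι (∑ i ∈ Finset.range d, u (og σ i))) = 1 ∧
      Ψ (og σ d) = ι (∑ i ∈ Finset.range d, u (og σ i)) * (t ^ d * Ψ σ * (t ^ d)⁻¹) := by
    intro d
    induction d with
    | zero => simp [h0, og_zero]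
    | succ d ih =>
      refine ⟨by rw [Finset.sum_range_succ, ha, map_mul, ih.1, h1 _ (og_geo h.geo d), mul_one], ?_⟩
      rw [og_succ, hu _ (og_geo h.geo d), ih.2, Finset.sum_range_succ, add_comm, ha, ← mul_assoc t,
        hc _ ih.1 t, pow_succ']
      group
  obtain ⟨h3, h4⟩ := h2 p.natDegree
  have h5 : ss F ^ p.natDegree * f⁻¹ ∈ Geo F := by
    have := inv_mem (dg_spec h.memF)
    rwa [h.dg, mul_inv_rev, zpow_neg, inv_inv, zpow_natCast] at this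
  rw [show og σ p.natDegree = ss F ^ p.natDegree * f⁻¹ * (f * σ * f⁻¹) *
    (ss F ^ p.natDegree * f⁻¹)⁻¹ by unfold og; group, hΨ.conj h5 (geo_conj' h.geo _),
    Dec.tame hB hΨ hp h, conj_eq_of_central π hc
      (a := t ^ p.natDegree) (b := Ψ (ss F ^ p.natDegree * f⁻¹) * f') (by
        rw [map_mul, hπ _ h5, hf, ← hφ.mul _ (geo_le h5) _ h.memF, inv_mul_cancel_right, map_pow, ht,
          hφ.pow ss_mem])] at h4
  generalize Ψ (ss F ^ p.natDegree * f⁻¹) = a at h4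
  calc _ = a⁻¹ * (a * Ψ σ ^ Fintype.card F ^ p.natDegree * a⁻¹) * a := by group
    _ = _ := by rw [h4, ← mul_assoc a⁻¹, hc _ h3 a⁻¹]; group

/-- The defect of a geometric lift along a central extension is a character. -/
theorem CE.defect {π : B' →* B} {z : B'} (h : CE π z) (hφ : Hm (WW F) φ) {Ψ : Gam F → B'}
    (hΨ : Hm (Geo F) Ψ) (hπ : ∀ g ∈ Geo F, π (Ψ g) = φ g) {t : B'} (ht : π t = φ (ss F)) :
    ∃ u : Gam F → Z2, Ch (Geo F) u ∧
      ∀ g ∈ Geo F, Ψ (ss F * g * (ss F)⁻¹) = zz z (u g) * (t * Ψ g * t⁻¹) := by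
  have h1 : ∀ g ∈ Geo F, Ψ (ss F * g * (ss F)⁻¹) =
      zz z (lg (Ψ (ss F * g * (ss F)⁻¹) * (t * Ψ g * t⁻¹)⁻¹)) * (t * Ψ g * t⁻¹) := fun g hg => by
    rw [h.zz_lg, inv_mul_cancel_right]
    rw [map_mul, map_inv, hπ _ (geo_conj' hg _), hφ.conj ss_mem (geo_le hg), map_mul, map_mul,
      map_inv, ht, hπ g hg, mul_inv_cancel]
  refine ⟨_, ⟨fun g hg l hl => h.zz_inj (mul_right_cancel (b := t * Ψ (g * l) * t⁻¹) ?_),
    ((hΨ.near.conj (ss F)⁻¹).and hΨ.near).mono fun g hg h2 _ => ?_⟩, h1⟩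
  · rw [← h1 _ (mul_mem hg hl), show ss F * (g * l) * (ss F)⁻¹ =
      ss F * g * (ss F)⁻¹ * (ss F * l * (ss F)⁻¹) by group,
      hΨ.mul _ (geo_conj' hg _) _ (geo_conj' hl _), h.zz_add, hΨ.mul g hg l hl]
    conv_lhs => rw [h1 g hg, h1 l hl]
    rw [mul_assoc, ← mul_assoc (t * Ψ g * t⁻¹), h.zz_cen]
    group
  · have := hg.1
    rw [inv_inv] at this
    simp [this (geo_conj' h2 _) (geo_conj' h2 _), hg.2 h2 h2, lg_one]

theorem CE.central {π : B' →* B} {z : B'} (h : CE π z) (a : B') (ha : π a = 1) (g : B') :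
    g * a = a * g := by rw [← h.zz_lg ha, h.zz_cen]

/-- One step of Koch's theorem. -/
theorem Lp.ce_lift [Finite B'] (h : Lp Z σ f) (hB : IsPGroup 2 B') {π : B' →* B} {z : B'}
    (hz : CE π z) (hφ : Hm (WW F) φ) (hu : Unr φ Z) {t : B'} (ht : π t = φ (ss F))
    (a b : F[X] → B') (ha : ∀ p ∈ Z, π (a p) = φ (σ p)) (hb : ∀ p ∈ Z, π (b p) = φ (f p))
    (hr : ∀ p ∈ Z, b p * a p * (b p)⁻¹ = a p ^ Fintype.card F ^ p.natDegree) :
    ∃ ψ : Gam F → B', Hm (WW F) ψ ∧ Unr ψ Z ∧ ψ (ss F) = t ∧ ∀ p ∈ Z, ψ (σ p) = a p := by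
  obtain ⟨Ψ, h1, h2, h3, -, h4⟩ := h.orb_lift hB π hz.surj (hφ.mono geo_le) hu none (by simp) 1
    (fun p i => t ^ i * a p * (t ^ i)⁻¹) (by simp) fun p hp i _ _ => by
      rw [og, hφ.conj (pow_mem ss_mem _) (h.dec p hp).memS, hφ.pow ss_mem, ← ht, ← ha p hp]
      simp
  obtain ⟨u, h5, h6⟩ := hz.defect hφ h1 (fun g _ => h2 g) ht
  have h7 : ∀ p ∈ Z, Ψ (σ p) = a p := fun p hp => by
    simpa [og_zero] using h4 p hp 0 (h.prm p hp).pos (by simp)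
  have h8 : ∀ p ∈ Z, ∀ i, i + 1 < p.natDegree → u (og (σ p) i) = 0 := fun p hp i hi => by
    have := h6 _ (og_geo (h.dec p hp).geo i)
    rw [← og_succ, h4 p hp _ hi (by simp), h4 p hp i (by omega) (by simp)] at this
    refine hz.zz_inj (mul_right_cancel (this.symm.trans ?_))
    rw [zz_zero]
    group
  obtain ⟨ψ, h9, h10, h11⟩ := h1.ext_w t fun g hg => by
    rw [h6 g hg, h.geo_zero h5 ?_ ?_ g hg, zz_zero, one_mul]
    · intro c O hO hc l hl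
      have := h6 l hl.1
      rw [h3 c O hO hc l hl, h3 _ _ (over_conj hO _) (fun p hp e => hc p hp (root_ck.1 e)) _
        (ine_conj hl _)] at this
      refine hz.zz_inj ?_
      simpa [zz_zero] using this.symm
    · intro p hp i hi
      by_cases e : i + 1 < p.natDegree
      · exact h8 p hp i e
      have := orbit hB π hz.central hφ h1 (fun g _ => h2 g) ht (zz z) zz_zero hz.zz_add u h6
        (h.prm p hp) (h.dec p hp) (hb p hp)
      rw [h7 p hp, hr p hp, Finset.sum_eq_single_of_mem i (Finset.mem_range.2 hi)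
        fun j hj e' => h8 p hp j (by have := Finset.mem_range.1 hj; omega)] at this
      exact hz.zz_inj ((right_eq_mul.1 this).trans zz_zero.symm)
  exact ⟨ψ, h9, fun c O hO hc g hg => (h10 g hg.1).trans (h3 c O hO hc g hg), h11,
    fun p hp => (h10 _ (h.dec p hp).geo).trans (h7 p hp)⟩

end

end

end Pool.Agent.Lib.MP_16ef92_ag.GF
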