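import Mathlib
import Pool.Agent.Lib.MP_16ef92_ag.GF.Koch

set_option autoImplicit false
set_option linter.unusedSectionVars false
set_option linter.unusedVariables false

namespace Pool.Agent.Lib.MP_16ef92_ag.GF

open Polynomial
open scoped Classical

noncomputable section

variable {F : Type} [Field F] [Clos F] [Fintype F] [hq : Fact (Odd (Fintype.card F))] [Fro F]

/-- The free group on the Frobenius element and the primes of `Z`. -/
abbrev Wd (Z : Finset F[X]) : Type := FreeGroup (Option Z)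

/-- The evaluation of words. -/
def evw (Z : Finset F[X]) (σ : F[X] → Gam F) : Wd Z →* Gam F :=
  FreeGroup.lift fun v => v.elim (ss F) fun p => σ p

/-- Local pairs at the primes of `Z`, and words that approximate the elements of the Weil group in
all 2-groups of order at most `bd`. -/
structure Pres (Z : Finset F[X]) (bd : ℕ) where
  σ : F[X] → Gam F
  f : F[X] → Gam F
  wd : Gam F → Wd Z
  prm : ∀ p ∈ Z, Prm p
  dec : ∀ p ∈ Z, Dec p (σ p) (f p)
  good : ∀ (B : Type) [Group B] [Finite B], IsPGroup 2 B → Nat.card B ≤ bd → ∀ φ : Gam F → B,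
    Hm (WW F) φ → Unr φ Z → ∀ g ∈ WW F, φ (evw Z σ (wd g)) = φ g

variable {Z : Finset F[X]} {bd : ℕ}

theorem evw_none (σ : F[X] → Gam F) : evw Z σ (.of none) = ss F := by simp [evw]

theorem evw_some (σ : F[X] → Gam F) (p : Z) : evw Z σ (.of (some p)) = σ p := by simp [evw]

theorem Pres.mem (R : Pres Z bd) (w : Wd Z) : evw Z R.σ w ∈ WW F := by
  induction w using FreeGroup.induction_on with
  | C1 => simp [one_mem]
  | of v =>
    rcases v with _ | p
    · rw [evw_none]; exact ss_mem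
    · rw [evw_some]; exact (R.dec p p.2).memS
  | inv_of v h => rw [map_inv]; exact inv_mem h
  | mul a b ha hb => rw [map_mul]; exact mul_mem ha hb

theorem Pres.lp (R : Pres Z bd) : Lp Z R.σ R.f := ⟨R.prm, R.dec⟩

section
variable {σ f : F[X] → Gam F} {B : Type} [Group B] {φ : Gam F → B}

theorem Lp.evw_mem (h : Lp Z σ f) (w : Wd Z) : evw Z σ w ∈ WW F := by
  refine (Subgroup.closure_le (K := (WW F).comap (evw Z σ))).2 ?_
    (FreeGroup.closure_range_of (Option Z) ▸ Subgroup.mem_top w)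
  rintro _ ⟨_ | p, rfl⟩
  · exact Subgroup.mem_comap.2 ((evw_none σ).symm ▸ ss_mem)
  · exact Subgroup.mem_comap.2 ((evw_some σ p).symm ▸ (h.dec p p.2).memS)

/-- The composite of a continuous homomorphism with the evaluation of words. -/
def Lp.wh (h : Lp Z σ f) (hφ : Hm (WW F) φ) : Wd Z →* B :=
  hφ.hom.comp ((evw Z σ).codRestrict _ h.evw_mem)

theorem Lp.wh_apply (h : Lp Z σ f) (hφ : Hm (WW F) φ) (w : Wd Z) :
    h.wh hφ w = φ (evw Z σ w) := rfl

theorem Lp.ev_eq (h : Lp Z σ f) (hφ : Hm (WW F) φ) (ψ : Wd Z →* B)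
    (h0 : φ (ss F) = ψ (.of none)) (h1 : ∀ p : Z, φ (σ p) = ψ (.of (some p))) (w : Wd Z) :
    φ (evw Z σ w) = ψ w := by
  rw [← h.wh_apply hφ]
  refine DFunLike.congr_fun (FreeGroup.ext_hom _ _ ?_) w
  rintro (_ | p)
  · rw [h.wh_apply, evw_none, h0]
  · rw [h.wh_apply, evw_some, h1]

theorem Lp.exists_word [Finite B] (h : Lp Z σ f) (hB : IsPGroup 2 B) (hφ : Hm (WW F) φ)
    (hu : Unr φ Z) {g : Gam F} (hg : g ∈ WW F) : ∃ w, φ (evw Z σ w) = φ g :=
  h.w_gen hB hφ hu (h.wh hφ).range ⟨.of none, by rw [h.wh_apply, evw_none]⟩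
    (fun p hp => ⟨.of (some ⟨p, hp⟩), by rw [h.wh_apply, evw_some]⟩) hg

theorem pg_pi {ι : Type} [Finite ι] {C : ι → Type} [∀ i, Group (C i)] (h : ∀ i, IsPGroup 2 (C i)) :
    IsPGroup 2 (∀ i, C i) := fun x => by
  have := Fintype.ofFinite ι
  choose k hk using fun i => h i (x i)
  refine ⟨∑ i, k i, funext fun i => ?_⟩
  obtain ⟨l, hl⟩ := Nat.exists_eq_add_of_le
    (Finset.single_le_sum (fun j _ => Nat.zero_le (k j)) (Finset.mem_univ i))
  rw [Pi.pow_apply, hl, pow_add, pow_mul, hk, one_pow, Pi.one_apply]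

theorem near_all {ι : Type} [Finite ι] {P : ι → Gam F → Prop} (h : ∀ i, Near (P i)) :
    Near fun g => ∀ i, P i g := by
  have := Fintype.ofFinite ι
  choose S hS using h
  exact ⟨Finset.univ.biUnion S, fun g hg i => hS i g fun s hs =>
    hg s (Finset.mem_biUnion.2 ⟨i, Finset.mem_univ _, hs⟩)⟩

theorem Lp.exists_apx (h : Lp Z σ f) (bd : ℕ) {g : Gam F} (hg : g ∈ WW F) : ∃ w : Wd Z,
    ∀ (B : Type) [Group B] [Finite B], IsPGroup 2 B → Nat.card B ≤ bd → ∀ φ : Gam F → B,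
      Hm (WW F) φ → Unr φ Z → φ (evw Z σ w) = φ g := by
  let ι := {y : Subgroup (Equiv.Perm (Fin bd)) × (Option Z → Equiv.Perm (Fin bd)) //
    IsPGroup 2 y.1 ∧ ∃ φ : Gam F → y.1, Hm (WW F) φ ∧ Unr φ Z ∧
      ∀ i, (φ (evw Z σ (.of i)) : Equiv.Perm (Fin bd)) = y.2 i}
  choose Φ h1 h2 h3 using fun y : ι => y.2.2
  obtain ⟨w, hw⟩ := h.exists_word (pg_pi fun y : ι => y.2.1) (φ := fun g y => Φ y g)
    ⟨fun a ha b hb => funext fun y => (h1 y).mul a ha b hb,
      (near_all fun y => (h1 y).near).mono fun a ha h4 h5 => funext fun y => ha y h4 h5⟩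
    (fun c O hO hc a ha => funext fun y => h2 y c O hO hc a ha) hg
  refine ⟨w, fun B _ _ hB hc φ hφ hu => ?_⟩
  obtain ⟨e⟩ : Nonempty (B ↪ Fin bd) := by
    have := Fintype.ofFinite B
    exact Function.Embedding.nonempty_of_card_le (by simpa using hc)
  let j : B →* Equiv.Perm (Fin bd) :=
    (Equiv.Perm.viaEmbeddingHom e).comp (MulAction.toPermHom B B)
  have hj : Function.Injective j :=
    (Equiv.Perm.viaEmbeddingHom_injective e).comp MulAction.toPerm_injective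
  have h4 := hφ.comp j.rangeRestrict
  have h5 : Unr (fun g => j.rangeRestrict (φ g)) Z := fun c O hO hc a ha => by
    simp only [hu c O hO hc a ha, map_one]
  have h6 := hB.of_surjective _ j.rangeRestrict_surjective
  let y : ι := ⟨(j.range, fun i => j (φ (evw Z σ (.of i)))), h6, _, h4, h5, fun i => rfl⟩
  have h7 : ∀ a ∈ WW F, Φ y a = j.rangeRestrict (φ a) := fun a ha =>
    h.w_ext h6 (h1 y) h4 (h2 y) h5 (Subtype.ext (evw_none (Z := Z) σ ▸ h3 y none))
      (fun p hp => Subtype.ext (evw_some σ ⟨p, hp⟩ ▸ h3 y (some ⟨p, hp⟩) :)) ha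
  have h8 : Φ y (evw Z σ w) = Φ y g := congrFun hw y
  rw [h7 _ (h.evw_mem w), h7 g hg] at h8
  exact hj (congrArg Subtype.val h8)

end

theorem Lp.pres {σ f : F[X] → Gam F} (h : Lp Z σ f) (bd : ℕ) :
    ∃ R : Pres Z bd, R.σ = σ ∧ R.f = f := by
  have : ∀ g, ∃ w : Wd Z, g ∈ WW F → ∀ (B : Type) [Group B] [Finite B], IsPGroup 2 B →
      Nat.card B ≤ bd → ∀ φ : Gam F → B, Hm (WW F) φ → Unr φ Z → φ (evw Z σ w) = φ g := fun g => by
    by_cases hg : g ∈ WW F
    · exact (h.exists_apx bd hg).imp fun w hw _ => hw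
    · exact ⟨1, fun e => (hg e).elim⟩
  choose wd hw using this
  exact ⟨⟨σ, f, wd, h.prm, h.dec, fun B _ _ hB hc φ h1 h2 g hg => hw g hg B hB hc φ h1 h2⟩, rfl, rfl⟩

/-- (T2) Words exist. -/
theorem exists_pres (hZ : ∀ p ∈ Z, Prm p) (bd : ℕ) : Nonempty (Pres Z bd) := by
  have : ∀ p : F[X], ∃ σ f : Gam F, p ∈ Z → Dec p σ f := fun p => by
    by_cases hp : p ∈ Z
    · obtain ⟨σ, f, h⟩ := (hZ p hp).exists_dec
      exact ⟨σ, f, fun _ => h⟩
    · exact ⟨1, 1, fun e => (hp e).elim⟩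
  choose σ f h using this
  obtain ⟨R, -⟩ := Lp.pres ⟨hZ, h⟩ bd
  exact ⟨R⟩

/-- (T3) The presentation of Koch. -/
theorem Pres.descend (R : Pres Z bd) {B : Type} [Group B] [Finite B] (hB : IsPGroup 2 B)
    (hc : Nat.card B ≤ bd) (ψ : Wd Z →* B)
    (h : ∀ p : Z, ψ (R.wd (R.f p)) * ψ (.of (some p)) * (ψ (R.wd (R.f p)))⁻¹ =
      ψ (.of (some p)) ^ Fintype.card F ^ p.1.natDegree) :
    ∃ φ : Gam F → B, Hm (WW F) φ ∧ Unr φ Z ∧ ∀ w, φ (evw Z R.σ w) = ψ w := by
  induction hn : Nat.card B using Nat.strong_induction_on generalizing B with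
  | _ n ih =>
    by_cases hk : (⊤ : Subgroup B) = ⊥
    · have : Subsingleton B := Subgroup.subsingleton_iff.1 (subsingleton_of_bot_eq_top hk.symm)
      exact ⟨_, hm_one, fun _ _ _ _ _ _ => rfl, fun w => Subsingleton.elim _ _⟩
    obtain ⟨z, -, h2, h3, h4⟩ := exists_central hB ⊤ hk
    obtain ⟨_, h5⟩ := ce_quot h2 h3 h4
    have h6 := hB.to_quotient (Subgroup.zpowers z)
    have h7 := (card_quot_lt h5).le.trans hc
    obtain ⟨φ, h8, h9, h10⟩ := ih _ (hn ▸ card_quot_lt h5) h6 h7 ((QuotientGroup.mk' _).comp ψ)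
      (fun p => by simp only [MonoidHom.comp_apply, ← map_pow, ← h p, map_mul, map_inv]) rfl
    obtain ⟨φ', h11, h12, h13, h14⟩ := R.lp.ce_lift hB h5 h8 h9 (t := ψ (.of none))
      (by rw [← evw_none (Z := Z) R.σ, h10]; rfl)
      (fun p => if hp : p ∈ Z then ψ (.of (some ⟨p, hp⟩)) else 1) (fun p => ψ (R.wd (R.f p)))
      (fun p hp => by rw [dif_pos hp, ← evw_some R.σ ⟨p, hp⟩, h10]; rfl)
      (fun p hp => by rw [← R.good _ h6 h7 φ h8 h9 _ (R.dec p hp).memF, h10]; rfl)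
      (fun p hp => by rw [dif_pos hp]; exact h ⟨p, hp⟩)
    exact ⟨φ', h11, h12, R.lp.ev_eq h11 ψ h13 fun p => (h14 p p.2).trans (dif_pos p.2)⟩

/-- A homomorphism that kills a generator of inertia at `p` is unramified at `p`. -/
theorem Pres.shrink (R : Pres Z bd) {B : Type} [Group B] [Finite B] (hB : IsPGroup 2 B)
    {φ : Gam F → B} (hφ : Hm (WW F) φ) (hu : Unr φ Z) {Z' : Set F[X]}
    (h : ∀ p ∈ Z, p ∉ Z' → φ (R.σ p) = 1) : Unr φ Z' := by
  obtain ⟨pt, h2, -, h3, -⟩ := R.lp.pts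
  refine unr_of hB (hφ.mono geo_le) fun c hc => ?_
  by_cases h4 : ∃ p ∈ Z, aeval c p = 0
  · obtain ⟨p, hp, h4⟩ := h4
    obtain ⟨i, hi, rfl⟩ := h3 p hp c h4
    refine ⟨_, (h2 p hp i).2, ?_⟩
    rw [og, hφ.conj (pow_mem ss_mem _) (R.dec p hp).memS, h p hp fun e => hc p e h4, mul_one,
      mul_inv_cancel]
  · obtain ⟨γ, h5⟩ := exists_gen (some c)
    exact ⟨γ, h5, hu.gen (fun p hp e => h4 ⟨p, hp, e⟩) h5⟩

theorem sg_ev_gen {p : F[X]} (hp : Squarefree p) {c : kk F} {γ : Gam F} (h : Gen (some c) γ) :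
    sg (ev p) γ = if aeval c p = 0 then 1 else 0 := by
  obtain ⟨O, h1, h2, h3⟩ := h
  split_ifs with e
  · rw [sg, h1.kap_val prim_one h2 (gam_ev _ _) (j := 1) (by
      rw [zpow_one]
      exact (simple_root (q := 1) (by rwa [mul_one]) e).2 O h1)]
    exact (one_mul _).trans h3
  · exact h1.kap_unit prim_one h2 (gam_ev _ _) (over_ev h1 e)

/-- The quadratic character of `p` on inertia at `r`. -/
theorem sg_dec {p r : F[X]} (hp : Prm p) (hr : Prm r) {σ f : Gam F} (h : Dec r σ f) :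
    sg (ev p) σ = if p = r then 1 else 0 := by
  obtain ⟨c, h1, h2⟩ := h.gen
  rw [sg_ev_gen hp.2.squarefree h2]
  exact if_congr ⟨fun e => hp.root_unique hr e h1, fun e => e ▸ h1⟩ rfl rfl

end

end Pool.Agent.Lib.MP_16ef92_ag.GF
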