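import Mathlib
import Pool.Agent.Lib.MP_16ef92_ag.Main

set_option autoImplicit false
set_option linter.unusedSectionVars false
set_option linter.unusedVariables false

namespace Pool.Agent.Lib.MP_16ef92_ag.GF

open WeierstrassCurve WeierstrassCurve.Affine Polynomial
open scoped Classical

noncomputable section

section scale

variable {L : Type} [Field L] [DecidableEq L] {W W' : Affine L} {u : L}

/-- `W'` arises from `W` by the scaling `(x, y) ↦ (u ^ 2 x, u ^ 3 y)`. -/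
structure Sc (W W' : Affine L) (u : L) : Prop where
  a1 : W.a₁ = 0
  a3 : W.a₃ = 0
  b1 : W'.a₁ = 0
  b3 : W'.a₃ = 0
  a2 : W'.a₂ = u ^ 2 * W.a₂
  a4 : W'.a₄ = u ^ 4 * W.a₄
  a6 : W'.a₆ = u ^ 6 * W.a₆
  ne : u ≠ 0

theorem Sc.symm (h : Sc W W' u) : Sc W' W u⁻¹ := by
  have := h.ne
  refine ⟨h.b1, h.b3, h.a1, h.a3, ?_, ?_, ?_, inv_ne_zero this⟩
  · rw [h.a2]; field_simp
  · rw [h.a4]; field_simp
  · rw [h.a6]; field_simp

theorem Sc.ns (h : Sc W W' u) {x y : L} (n : W.Nonsingular x y) :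
    W'.Nonsingular (u ^ 2 * x) (u ^ 3 * y) := by
  rw [nonsingular_iff, equation_iff] at n ⊢
  simp only [h.a1, h.a3, h.b1, h.b3, h.a2, h.a4, h.a6] at n ⊢
  refine ⟨by linear_combination u ^ 6 * n.1, n.2.imp (fun a e => a ?_) fun a e => a ?_⟩
  · exact mul_left_cancel₀ (pow_ne_zero 4 h.ne) (by linear_combination e)
  · exact mul_left_cancel₀ (pow_ne_zero 3 h.ne) (by linear_combination e)

/-- The scaling on points. -/
def Sc.pt (h : Sc W W' u) : W.Point → W'.Point
  | .zero => 0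
  | .some x y n => .some _ _ (h.ns n)

theorem Sc.pt_add (h : Sc W W' u) (P Q : W.Point) : h.pt (P + Q) = h.pt P + h.pt Q := by
  have hu := h.ne
  rcases P with _ | ⟨x₁, y₁, h₁⟩
  · rw [← Point.zero_def, zero_add]
    exact (zero_add _).symm
  rcases Q with _ | ⟨x₂, y₂, h₂⟩
  · rw [← Point.zero_def, add_zero]
    exact (add_zero _).symm
  have hn : ∀ x y, W'.negY (u ^ 2 * x) (u ^ 3 * y) = u ^ 3 * W.negY x y := fun x y => by
    simp [Affine.negY, h.a1, h.a3, h.b1, h.b3]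
  have hx : u ^ 2 * x₁ = u ^ 2 * x₂ ↔ x₁ = x₂ := mul_right_inj' (pow_ne_zero _ hu)
  have hy : u ^ 3 * y₁ = W'.negY (u ^ 2 * x₂) (u ^ 3 * y₂) ↔ y₁ = W.negY x₂ y₂ := by
    rw [hn, mul_right_inj' (pow_ne_zero _ hu)]
  by_cases hxy : x₁ = x₂ ∧ y₁ = W.negY x₂ y₂
  · rw [Point.add_of_Y_eq hxy.1 hxy.2]
    exact (Point.add_of_Y_eq (hx.2 hxy.1) (hy.2 hxy.2)).symm
  have hs : W'.slope (u ^ 2 * x₁) (u ^ 2 * x₂) (u ^ 3 * y₁) (u ^ 3 * y₂) =
      u * W.slope x₁ x₂ y₁ y₂ := by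
    simp only [Affine.slope, hx, hy]
    split_ifs with h1 h2
    · exact (mul_zero _).symm
    · rw [hn, ← mul_sub, h.a1, h.b1, h.a2, h.a4, ← mul_div_assoc,
        ← mul_div_mul_left _ (y₁ - W.negY x₁ y₁) (pow_ne_zero 3 hu)]
      congr 1
      ring
    · rw [← mul_sub, ← mul_sub, ← mul_div_assoc, ← mul_div_mul_left _ (x₁ - x₂) (pow_ne_zero 2 hu)]
      congr 1
      ring
  rw [Point.add_some hxy]
  simp only [Sc.pt]
  rw [Point.add_some (by rwa [hx, hy])]
  simp only [Point.some.injEq, hs, addY, negAddY, addX, Affine.negY, h.a1, h.a3, h.b1, h.b3, h.a2]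
  constructor <;> ring

/-- The scaling as a homomorphism. -/
def Sc.hom (h : Sc W W' u) : W.Point →+ W'.Point := AddMonoidHom.mk' h.pt h.pt_add

theorem Sc.hom_some (h : Sc W W' u) {x y : L} (n : W.Nonsingular x y) :
    h.hom (.some x y n) = .some _ _ (h.ns n) := rfl

theorem Sc.hom_symm (h : Sc W W' u) (P : W'.Point) : h.hom (h.symm.hom P) = P := by
  have hu := h.ne
  rcases P with _ | ⟨x, y, n⟩
  · rfl
  · simp only [Sc.hom_some, Point.some.injEq]
    constructor <;> field_simp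

theorem Sc.hom_eq_zero (h : Sc W W' u) {P : W.Point} : h.hom P = 0 ↔ P = 0 := by
  rcases P with _ | ⟨x, y, n⟩
  · exact ⟨fun _ => rfl, fun _ => rfl⟩
  · exact ⟨fun e => (Point.some_ne_zero _ e).elim, fun e => (Point.some_ne_zero _ e).elim⟩

end scale

variable {F : Type} [Field F] [Clos F] [Fintype F] [hq : Fact (Odd (Fintype.card F))]

/-- The sign attached to a class modulo two. -/
def sgz (a : ZMod (2 ^ 1)) : ℤ_[2] := (-1) ^ a.val

theorem sgz_zero : sgz 0 = 1 := by simp [sgz]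

theorem sgz_one : sgz 1 = -1 := by
  rw [sgz, show (1 : ZMod (2 ^ 1)).val = 1 from rfl, pow_one]

theorem sgz_add (a b : ZMod (2 ^ 1)) : sgz (a + b) = sgz a * sgz b := by
  rcases z2_cases a with rfl | rfl <;> rcases z2_cases b with rfl | rfl
  · simp [sgz_zero]
  · simp [sgz_zero]
  · simp [sgz_zero]
  · rw [show (1 + 1 : ZMod (2 ^ 1)) = 0 from rfl, sgz_zero, sgz_one]
    simp

theorem exists_twist {W W' : WeierstrassCurve (RatFunc F)} {u z : Om F}
    (h : Sc (W.baseChange (Om F)).toAffine (W'.baseChange (Om F)).toAffine u) (hu : u ^ 2 = z)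
    (hz : ∀ g : Gam F, g z = z) {ro : Gam F → Module.End ℤ_[2] V} {ev : V →+ ℕ → Pt W}
    (hin : ∀ x, InTate (ev x)) (hsurj : ∀ P, InTate P → ∃ x, ev x = P)
    (hker : ∀ n x, ev x n = 0 ↔ x ∈ Dv n) (hro : ∀ g x, ev (ro g x) = act g (ev x)) :
    ∃ ev' : V →+ ℕ → Pt W', (∀ x, InTate (ev' x)) ∧ (∀ P, InTate P → ∃ x, ev' x = P) ∧
      (∀ n x, ev' x n = 0 ↔ x ∈ Dv n) ∧
      ∀ g x, ev' (sgz (sg z g) • ro g x) = act g (ev' x) := by
  have h0 : z ≠ 0 := hu ▸ pow_ne_zero 2 h.ne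
  refine ⟨AddMonoidHom.mk' (fun x n => h.hom (ev x n)) fun x y => funext fun n => by simp,
    fun x => ⟨?_, fun n => ?_⟩, fun P hP => ?_, fun n x => ?_, fun g x => funext fun n => ?_⟩
  · exact h.hom_eq_zero.2 (hin x).1
  · change 2 • h.hom _ = h.hom _
    rw [← map_nsmul, (hin x).2]
  · obtain ⟨x, hx⟩ := hsurj (fun n => h.symm.hom (P n)) ⟨h.symm.hom_eq_zero.2 hP.1, fun n => by
      rw [← map_nsmul, hP.2]⟩
    refine ⟨x, funext fun n => ?_⟩
    change h.hom (ev x n) = _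
    rw [hx, h.hom_symm]
  · exact h.hom_eq_zero.trans (hker n x)
  · change h.hom (ev _ n) = pm g (h.hom (ev x n))
    rcases z2_cases (sg z g) with e | e
    · have h1 := sg_fix_root (hz g) h0 hu e
      rw [e, sgz_zero, one_smul, hro, act_apply]
      generalize ev x n = P
      rcases P with _ | ⟨a, b, n⟩
      · rfl
      · obtain ⟨n', e'⟩ := pm_some g n
        obtain ⟨n'', e''⟩ := pm_some g (h.ns n)
        rw [e']
        refine Eq.trans ?_ e''.symm
        simp only [Sc.hom_some, map_mul, map_pow, h1]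
    · have h1 := sg_neg_root (hz g) h0 hu e
      rw [e, sgz_one, neg_one_smul, map_neg, Pi.neg_apply, hro, act_apply]
      generalize ev x n = P
      rcases P with _ | ⟨a, b, n⟩
      · rfl
      · obtain ⟨n', e'⟩ := pm_some g n
        obtain ⟨n'', e''⟩ := pm_some g (h.ns n)
        rw [e', Point.neg_some]
        refine Eq.trans ?_ e''.symm
        simp only [Sc.hom_some, Point.some.injEq, map_mul, map_pow, h1, Affine.negY, h.a1, h.a3]
        constructor <;> ring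

theorem sc_curve (A B : F[X]) {D : F[X]} (hD : D ≠ 0) {u : Om F} (hu : u ^ 2 = ev D) :
    Sc ((curve A B 1).baseChange (Om F)).toAffine ((curve A B D).baseChange (Om F)).toAffine u := by
  have h0 := map_zero (algebraMap (RatFunc F) (Om F))
  refine ⟨h0, h0, h0, h0, ?_, ?_, ?_, fun e => ev_ne hD (by rw [← hu, e]; simp)⟩
  · change algebraMap (RatFunc F) (Om F) (-(rf (D * A) + rf (D * B))) =
      _ * algebraMap (RatFunc F) (Om F) (-(rf (1 * A) + rf (1 * B)))
    simp only [map_neg, map_add, rf_eq, hu, ev, map_mul, map_one]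
    ring
  · change algebraMap (RatFunc F) (Om F) (rf (D * A) * rf (D * B)) =
      _ * algebraMap (RatFunc F) (Om F) (rf (1 * A) * rf (1 * B))
    rw [show u ^ 4 = (u ^ 2) ^ 2 by ring, map_mul, map_mul]
    simp only [rf_eq, hu, ev, map_mul, map_one]
    ring
  · change algebraMap (RatFunc F) (Om F) 0 = _ * algebraMap (RatFunc F) (Om F) 0
    rw [h0, mul_zero]

/-- The Tate module of the twist by `D` is the twist of the Tate module. -/
theorem exists_twist_curve (A B : F[X]) {D : F[X]} (hD : D ≠ 0)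
    {ro : Gam F → Module.End ℤ_[2] V} {ev₁ : V →+ ℕ → Pt (curve A B 1)}
    (hin : ∀ x, InTate (ev₁ x)) (hsurj : ∀ P, InTate P → ∃ x, ev₁ x = P)
    (hker : ∀ n x, ev₁ x n = 0 ↔ x ∈ Dv n) (hro : ∀ g x, ev₁ (ro g x) = act g (ev₁ x)) :
    ∃ ev' : V →+ ℕ → Pt (curve A B D), (∀ x, InTate (ev' x)) ∧
      (∀ P, InTate P → ∃ x, ev' x = P) ∧ (∀ n x, ev' x n = 0 ↔ x ∈ Dv n) ∧
      ∀ g x, ev' (sgz (sg (ev D) g) • ro g x) = act g (ev' x) := by
  obtain ⟨u, hu⟩ := exists_sq (ev D)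
  exact exists_twist (sc_curve A B hD hu) hu (fun g => gam_ev g D) hin hsurj hker hro

end

end Pool.Agent.Lib.MP_16ef92_ag.GF
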