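import Mathlib
import Pool.Agent.Lib.MP_16ef92_ag.GF.Pres
import Pool.Agent.Lib.MP_16ef92_ag.GF.Twist

set_option autoImplicit false
set_option linter.unusedSectionVars false
set_option linter.unusedVariables false

namespace Pool.Agent.Lib.MP_16ef92_ag.GF

open Polynomial
open scoped Classical

noncomputable section

/-- Endomorphisms of the Tate module. -/
abbrev EV : Type := Module.End ℤ_[2] V

/-- The determinant pairing as a bilinear map. -/
def omL : V →ₗ[ℤ_[2]] V →ₗ[ℤ_[2]] ℤ_[2] :=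
  LinearMap.mk₂ _ om om_add_left (fun a x y => om_smul_left a x y) om_add_right
    (fun a x y => om_smul_right a x y)

@[simp] theorem omL_apply (x y : V) : omL x y = om x y := rfl

/-- The Heisenberg group with coefficients that depend on a parameter in `M`. -/
@[ext] structure HsU (M : Type) [AddCommGroup M] [Module ℤ_[2] M] where
  n : M →ₗ[ℤ_[2]] V
  z : M →ₗ[ℤ_[2]] M →ₗ[ℤ_[2]] ℤ_[2]
  g : EVˣ

section
variable {M : Type} [AddCommGroup M] [Module ℤ_[2] M]

instance : Mul (HsU M) := ⟨fun a b => ⟨a.n + a.g.1 ∘ₗ b.n,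
  a.z + dt a.g.1 • b.z + (2 : ℤ_[2]) • omL.compl₁₂ a.n (a.g.1 ∘ₗ b.n), a.g * b.g⟩⟩

instance : One (HsU M) := ⟨⟨0, 0, 1⟩⟩

instance : _root_.Inv (HsU M) := ⟨fun a => ⟨-(a.g⁻¹.1 ∘ₗ a.n),
  dt a.g⁻¹.1 • ((2 : ℤ_[2]) • omL.compl₁₂ a.n a.n - a.z), a.g⁻¹⟩⟩

theorem HsU.mul_n (a b : HsU M) : (a * b).n = a.n + a.g.1 ∘ₗ b.n := rfl
theorem HsU.mul_z (a b : HsU M) : (a * b).z =
    a.z + dt a.g.1 • b.z + (2 : ℤ_[2]) • omL.compl₁₂ a.n (a.g.1 ∘ₗ b.n) := rfl
theorem HsU.mul_g (a b : HsU M) : (a * b).g = a.g * b.g := rfl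
theorem HsU.one_n : (1 : HsU M).n = 0 := rfl
theorem HsU.one_z : (1 : HsU M).z = 0 := rfl
theorem HsU.one_g : (1 : HsU M).g = 1 := rfl
theorem HsU.inv_n (a : HsU M) : a⁻¹.n = -(a.g⁻¹.1 ∘ₗ a.n) := rfl
theorem HsU.inv_z (a : HsU M) :
    a⁻¹.z = dt a.g⁻¹.1 • ((2 : ℤ_[2]) • omL.compl₁₂ a.n a.n - a.z) := rfl
theorem HsU.inv_g (a : HsU M) : a⁻¹.g = a.g⁻¹ := rfl

instance : Group (HsU M) := Group.ofLeftAxioms
  (fun a b c => by
    refine HsU.ext ?_ ?_ (mul_assoc _ _ _)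
    · ext μ <;> simp [HsU.mul_n, HsU.mul_g, add_assoc]
    · refine LinearMap.ext fun μ => LinearMap.ext fun ν => ?_
      simp only [HsU.mul_z, HsU.mul_n, HsU.mul_g, Units.val_mul, dt_mul, LinearMap.add_apply,
        LinearMap.smul_apply, LinearMap.compl₁₂_apply, LinearMap.comp_apply, omL_apply,
        Module.End.mul_apply, map_add, om_map, smul_eq_mul]
      ring)
  (fun a => by
    refine HsU.ext ?_ ?_ (one_mul _)
    · ext μ <;> simp [HsU.mul_n, HsU.one_n, HsU.one_g]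
    · refine LinearMap.ext fun μ => LinearMap.ext fun ν => ?_
      simp [HsU.mul_z, HsU.one_n, HsU.one_g, HsU.one_z, dt_one])
  (fun a => by
    refine HsU.ext ?_ ?_ (inv_mul_cancel _)
    · rw [HsU.mul_n, HsU.inv_n, HsU.inv_g, neg_add_cancel, HsU.one_n]
    · refine LinearMap.ext fun μ => LinearMap.ext fun ν => ?_
      have h : ∀ x y, om (-x) y = -om x y := fun x y => by simp [om]; ring
      simp only [HsU.mul_z, HsU.inv_z, HsU.inv_n, HsU.inv_g, HsU.one_z, LinearMap.add_apply,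
        LinearMap.smul_apply, LinearMap.compl₁₂_apply, LinearMap.comp_apply, omL_apply,
        LinearMap.neg_apply, LinearMap.sub_apply, h, om_map, smul_eq_mul, LinearMap.zero_apply]
      ring)

/-- The linear part. -/
def HsU.gHom : HsU M →* EVˣ := MonoidHom.mk' HsU.g HsU.mul_g

end

/-- The parameters: one vector at the Frobenius element, at each multiplicative prime, and at each
prime of the twist. -/
abbrev Prs (Λ I : Type) : Type := Option (Λ ⊕ I) → V

/-- The 2-adic descent matrix and the quadratic form. -/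
abbrev Dat (Λ I : Type) : Type :=
  (Prs Λ I →ₗ[ℤ_[2]] Prs Λ I) × (Prs Λ I →ₗ[ℤ_[2]] Prs Λ I →ₗ[ℤ_[2]] ℤ_[2])

section events
variable {Λ I : Type} [Fintype Λ] [Fintype I]

/-- The coordinate maps. -/
abbrev pj (k : Option (Λ ⊕ I)) : Prs Λ I →ₗ[ℤ_[2]] V := LinearMap.proj k

/-- `μ` defines a cocycle of level `i + 1` that is good at the multiplicative primes and at
infinity. -/
def Ok (Cg : Prs Λ I → Prop) (i : ℕ) (a : Dat Λ I) (μ : Prs Λ I) : Prop :=
  Cg μ ∧ (∀ p, a.1 μ (some (.inr p)) ∈ Dv (i + 1)) ∧ (∀ l, a.1 μ (some (.inl l)) ∈ Dv (i + 2)) ∧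
    a.1 μ none ∈ Dv (i + 2)

/-- The test at level `i`. -/
def Tst (w : I → V) (θ : ℤ_[2]) (i : ℕ) (a : Dat Λ I) (μ : Prs Λ I) : Prop :=
  2 ^ (i + 2) ∣ θ * a.2 μ μ - ∑ p, om (w p) (a.1 μ (some (.inr p)))

/-- The event of level `i`. -/
def Ev (Cg : Prs Λ I → Prop) (w : I → V) (θ : ℤ_[2]) (i : ℕ) (a : Dat Λ I) : Prop :=
  (∃ μ, Ok Cg i a μ) ∧ ∀ μ, Ok Cg i a μ → Tst w θ i a μ

end events

variable {F : Type} [Field F] [Clos F] [Fintype F] [hq : Fact (Odd (Fintype.card F))]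

/-- The quadratic character of a polynomial (trivial for `0`). -/
def chi (p : F[X]) : Gam F →* ℤ_[2] where
  toFun g := if p = 0 then 1 else sgz (sg (ev p) g)
  map_one' := by
    split_ifs with h
    · rfl
    · rw [(ch_ev (H := ⊤) h).one, sgz_zero]
  map_mul' g l := by
    split_ifs with h
    · simp
    · rw [(ch_ev (H := ⊤) h).mul g trivial l trivial, sgz_add]

theorem chi_eq {p : F[X]} (h : p ≠ 0) (g : Gam F) : chi p g = sgz (sg (ev p) g) := if_neg h

theorem chi_cases (p : F[X]) (g : Gam F) : chi p g = 1 ∨ chi p g = -1 := by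
  by_cases h : p = 0
  · exact Or.inl (if_pos h)
  · rw [chi_eq h]
    rcases z2_cases (sg (ev p) g) with e | e <;> simp [e, sgz_zero, sgz_one]

variable {Λ I : Type} [Fintype Λ] [Fintype I]

/-- The product of the characters of a family of polynomials. -/
def chs (pr : I → F[X]) : Gam F →* ℤ_[2] := ∏ i, chi (pr i)

theorem chs_apply (pr : I → F[X]) (g : Gam F) : chs pr g = ∏ i, chi (pr i) g := by
  simp [chs]

/-- The twist of `ρ` by the characters of the family `pr`. -/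
def PP (ρ : Gam F →* EV) (pr : I → F[X]) : Gam F →* EV where
  toFun g := chs pr g • ρ g
  map_one' := by simp
  map_mul' g l := by rw [map_mul, map_mul, smul_mul_smul_comm]

theorem PP_apply (ρ : Gam F →* EV) (pr : I → F[X]) (g : Gam F) :
    PP ρ pr g = chs pr g • ρ g := rfl

variable (F Λ) in
/-- The data that do not depend on the twist. -/
structure Par where
  ρ : Gam F →* EV
  triv : ∀ g x, ρ g x - x ∈ Dv 1
  lp : Λ → F[X]
  Hl : Λ → EV
  Hl' : Λ → EV
  E1 : EV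
  E2 : EV

variable [Fro F] {Z : Finset F[X]} {bd : ℕ}

/-- The universal cocycle with its Heisenberg lift on the free group. -/
def EU (R : Pres Z bd) (A : Par F Λ) (pr : I → F[X]) : Wd Z →* HsU (Prs Λ I) :=
  FreeGroup.lift fun v => v.elim ⟨pj none, 0, (PP A.ρ pr).toHomUnits (ss F)⟩ fun p =>
    ⟨(∑ l, if A.lp l = p then A.Hl l ∘ₗ pj (some (.inl l)) else 0) +
      ∑ i, if pr i = p then pj (some (.inr i)) else 0,
     ∑ l, if A.lp l = p then
       omL.compl₁₂ (pj (some (.inl l))) (A.Hl l ∘ₗ pj (some (.inl l))) else 0,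
     (PP A.ρ pr).toHomUnits (R.σ p)⟩

theorem EU_g (R : Pres Z bd) (A : Par F Λ) (pr : I → F[X]) (w : Wd Z) :
    (EU R A pr w).g = (PP A.ρ pr).toHomUnits (evw Z R.σ w) := by
  have : HsU.gHom.comp (EU R A pr) = (PP A.ρ pr).toHomUnits.comp (evw Z R.σ) := by
    refine FreeGroup.ext_hom _ _ fun v => ?_
    rcases v with _ | p <;> simp [EU, evw, HsU.gHom]
  exact DFunLike.congr_fun this w

/-- The local defect at the prime `p` in position `k`. -/
def rw0 (R : Pres Z bd) (A : Par F Λ) (pr : I → F[X]) (p : F[X]) (k : Option (Λ ⊕ I)) :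
    Prs Λ I →ₗ[ℤ_[2]] V :=
  (2 : ℤ_[2]) • (EU R A pr (R.wd (R.f p))).n + (PP A.ρ pr (R.f p) - 1) ∘ₗ pj k

/-- The rows of the descent matrix. -/
def rws (R : Pres Z bd) (A : Par F Λ) (pr : I → F[X]) : Option (Λ ⊕ I) → Prs Λ I →ₗ[ℤ_[2]] V
  | none => A.E1 ∘ₗ pj none + (2 : ℤ_[2]) • (A.E2 ∘ₗ (EU R A pr (R.wd (sI F))).n)
  | some (.inl l) => A.Hl' l ∘ₗ rw0 R A pr (A.lp l) (some (.inl l))
  | some (.inr i) => rw0 R A pr (pr i) (some (.inr i))

/-- The data of the twist by the family `pr`. -/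
def dat (R : Pres Z bd) (A : Par F Λ) (pr : I → F[X]) : Dat Λ I :=
  (LinearMap.pi (rws R A pr), (EU R A pr (R.wd (sI F))).z)

end

end Pool.Agent.Lib.MP_16ef92_ag.GF
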