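import Mathlib
import Pool.Agent.Lib.MP_16ef92_ag.GF.FXd
import Pool.Agent.Lib.MP_16ef92_ag.GF.Tame

set_option autoImplicit false
set_option linter.unusedSectionVars false
set_option linter.unusedVariables false

namespace Pool.Agent.Lib.MP_16ef92_ag.GF

open scoped Classical

noncomputable section

/-- Automorphisms congruent to the identity modulo two. -/
def G1 : Subgroup EVˣ where
  carrier := {g | ∀ x, g.1 x - x ∈ Dv 1}
  mul_mem' := fun {a b} ha hb x => by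
    have := add_mem (ha (b.1 x)) (hb x)
    rwa [sub_add_sub_cancel] at this
  one_mem' := fun x => by simp
  inv_mem' := fun {a} ha x => by
    have := neg_mem (ha (a⁻¹.1 x))
    rwa [neg_sub, ← Module.End.mul_apply, Units.mul_inv, Module.End.one_apply] at this

theorem exists_hlf (g : G1) (x : V) : ∃ y : V, (2 : ℤ_[2]) • y = x - g.1.1 x := by
  obtain ⟨z, hz⟩ := mem_Dv_iff.1 (neg_mem (g.2 x))
  exact ⟨z, by rw [← pow_one (2 : ℤ_[2]), ← hz, neg_sub]⟩

/-- Half of `1 - g`. -/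
def hlf (g : G1) : EV where
  toFun x := (exists_hlf g x).choose
  map_add' x y := two_smul_inj (by
    rw [smul_add, (exists_hlf g _).choose_spec, (exists_hlf g _).choose_spec,
      (exists_hlf g _).choose_spec, map_add]
    abel)
  map_smul' c x := two_smul_inj (by
    rw [RingHom.id_apply, smul_comm, (exists_hlf g _).choose_spec, (exists_hlf g _).choose_spec,
      map_smul, smul_sub])

theorem two_hlf (g : G1) (x : V) : (2 : ℤ_[2]) • hlf g x = x - g.1.1 x :=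
  (exists_hlf g x).choose_spec

theorem hlf_eq {g : G1} {x y : V} (h : (2 : ℤ_[2]) • y = x - g.1.1 x) : hlf g x = y :=
  two_smul_inj (by rw [two_hlf, h])

theorem G1.app (g : G1) (x : V) : g.1.1 x = x - (2 : ℤ_[2]) • hlf g x := by
  rw [two_hlf, sub_sub_cancel]

theorem G1.mul_app (g h : G1) (x : V) : (g * h).1.1 x = g.1.1 (h.1.1 x) := rfl

theorem G1.one_app (x : V) : (1 : G1).1.1 x = x := rfl

theorem G1.inv_app (g : G1) (x : V) : g⁻¹.1.1 (g.1.1 x) = x := by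
  rw [← G1.mul_app, inv_mul_cancel, G1.one_app]

theorem G1.app_inv (g : G1) (x : V) : g.1.1 (g⁻¹.1.1 x) = x := by
  rw [← G1.mul_app, mul_inv_cancel, G1.one_app]

theorem G1.dt_mul (g h : G1) : dt (g * h).1.1 = dt g.1.1 * dt h.1.1 := MP_16ef92_ag.dt_mul _ _

theorem G1.dv (g : G1) {n : ℕ} {x : V} (h : x ∈ Dv n) : g.1.1 x - x ∈ Dv (n + 1) := by
  obtain ⟨z, rfl⟩ := mem_Dv_iff.1 h
  rw [map_smul, ← smul_sub, smul_mem_Dv_iff]
  exact g.2 z

theorem hlf_mul (g h : G1) (x : V) : hlf (g * h) x = hlf g x + g.1.1 (hlf h x) :=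
  hlf_eq (by rw [smul_add, two_hlf, ← map_smul, two_hlf, map_sub, G1.mul_app]; abel)

theorem hlf_conj (g h : G1) (x : V) : hlf (h * g * h⁻¹) (h.1.1 x) = h.1.1 (hlf g x) :=
  hlf_eq (by rw [← map_smul, two_hlf, map_sub, G1.mul_app, G1.mul_app, G1.inv_app])

theorem om_hlf {g : G1} (hd : dt g.1.1 = 1) (x y : V) :
    om (hlf g x) y + om x (hlf g y) = 2 * om (hlf g x) (hlf g y) := by
  have := om_map g.1.1 x y
  rw [hd, G1.app, G1.app] at this
  simp only [om_sub_left, om_sub_right, om_smul_left, om_smul_right] at this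
  exact mul_left_cancel₀ two_ne_zero (by linear_combination -this)

theorem om_swap (x y : V) : om x y = -om y x := by simp [om]; ring

/-- The Heisenberg group. -/
@[ext] structure Hs where
  n : V
  z : ℤ_[2]
  g : G1

instance : Mul Hs := ⟨fun a b => ⟨a.n + a.g.1.1 b.n,
  a.z + dt a.g.1.1 * b.z + 2 * om a.n (a.g.1.1 b.n), a.g * b.g⟩⟩

instance : One Hs := ⟨⟨0, 0, 1⟩⟩

instance : _root_.Inv Hs := ⟨fun a => ⟨-(a.g⁻¹.1.1 a.n), -(dt a.g⁻¹.1.1 * a.z), a.g⁻¹⟩⟩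

theorem Hs.mul_n (a b : Hs) : (a * b).n = a.n + a.g.1.1 b.n := rfl
theorem Hs.mul_z (a b : Hs) :
    (a * b).z = a.z + dt a.g.1.1 * b.z + 2 * om a.n (a.g.1.1 b.n) := rfl
theorem Hs.mul_g (a b : Hs) : (a * b).g = a.g * b.g := rfl
theorem Hs.one_n : (1 : Hs).n = 0 := rfl
theorem Hs.one_z : (1 : Hs).z = 0 := rfl
theorem Hs.one_g : (1 : Hs).g = 1 := rfl
theorem Hs.inv_n (a : Hs) : a⁻¹.n = -(a.g⁻¹.1.1 a.n) := rfl
theorem Hs.inv_z (a : Hs) : a⁻¹.z = -(dt a.g⁻¹.1.1 * a.z) := rfl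
theorem Hs.inv_g (a : Hs) : a⁻¹.g = a.g⁻¹ := rfl

instance : Group Hs := Group.ofLeftAxioms
  (fun a b c => by
    refine Hs.ext ?_ ?_ (mul_assoc _ _ _)
    · simp only [Hs.mul_n, Hs.mul_g, G1.mul_app, map_add, add_assoc]
    · simp only [Hs.mul_z, Hs.mul_n, Hs.mul_g, G1.mul_app, G1.dt_mul, map_add, om_add_left,
        om_add_right, om_map]
      ring)
  (fun a => by
    refine Hs.ext ?_ ?_ (one_mul _)
    · simp only [Hs.mul_n, Hs.one_n, Hs.one_g, G1.one_app, zero_add]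
    · have : dt (1 : G1).1.1 = 1 := dt_one
      simp only [Hs.mul_z, Hs.one_n, Hs.one_g, Hs.one_z, this, om_zero_left]
      ring)
  (fun a => by
    refine Hs.ext ?_ ?_ (inv_mul_cancel _)
    · rw [Hs.mul_n, Hs.inv_n, Hs.inv_g, neg_add_cancel, Hs.one_n]
    · rw [Hs.mul_z, Hs.inv_z, Hs.inv_n, Hs.inv_g, Hs.one_z, ← neg_one_smul ℤ_[2] (a.g⁻¹.1.1 a.n),
        om_smul_left, om_self]
      ring)

/-- The local section attached to `μ`. -/
def th (μ : V) : G1 →* Hs := MonoidHom.mk' (fun g => ⟨hlf g μ, om μ (hlf g μ), g⟩) fun g h => by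
  refine Hs.ext (hlf_mul g h μ) ?_ rfl
  simp only [Hs.mul_z, hlf_mul, om_add_right]
  rw [← om_map, G1.app g μ, om_sub_left, om_smul_left]
  ring

theorem th_n (μ : V) (g : G1) : (th μ g).n = hlf g μ := rfl
theorem th_z (μ : V) (g : G1) : (th μ g).z = om μ (hlf g μ) := rfl
theorem th_g (μ : V) (g : G1) : (th μ g).g = g := rfl

theorem th_conj (a : Hs) (μ : V) {g : G1} (hd : dt g.1.1 = 1) :
    a * th μ g * a⁻¹ = th ((2 : ℤ_[2]) • a.n + a.g.1.1 μ) (a.g * g * a.g⁻¹) := by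
  rw [mul_inv_eq_iff_eq_mul]
  have h1 : dt (a.g * g * a.g⁻¹).1.1 = 1 := by
    rw [G1.dt_mul, G1.dt_mul, hd, mul_one, ← G1.dt_mul, mul_inv_cancel]
    exact dt_one
  have h2 : hlf (a.g * g * a.g⁻¹) ((2 : ℤ_[2]) • a.n + a.g.1.1 μ) =
      a.n - (a.g * g * a.g⁻¹).1.1 a.n + a.g.1.1 (hlf g μ) := by
    rw [map_add, map_smul, two_hlf, hlf_conj]
  refine Hs.ext ?_ ?_ (by simp only [Hs.mul_g, th_g, inv_mul_cancel_right])
  · simp only [Hs.mul_n, th_n, th_g, h2]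
    abel
  · have h3 := om_map (a.g * g * a.g⁻¹).1.1 a.n (a.g.1.1 μ)
    have h4 := two_hlf (a.g * g * a.g⁻¹) (a.g.1.1 μ)
    rw [hlf_conj] at h4
    simp only [Hs.mul_z, th_n, th_z, th_g, h2, h1, ← om_map]
    rw [h1, eq_sub_of_add_eq' (eq_sub_iff_add_eq.1 h4)] at h3
    generalize (a.g * g * a.g⁻¹).1.1 a.n = u at *
    generalize a.g.1.1 (hlf g μ) = w at *
    generalize a.g.1.1 μ = v at *
    simp only [om, Prod.fst_add, Prod.snd_add, Prod.fst_sub, Prod.snd_sub, Prod.smul_fst,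
      Prod.smul_snd, smul_eq_mul] at h3 ⊢
    linear_combination -h3

theorem dt_congr {f g : EV} {n : ℕ} (h : ∀ x, f x - g x ∈ Dv n) : 2 ^ n ∣ dt f - dt g := by
  have : dt f - dt g = om (f (1, 0) - g (1, 0)) (f (0, 1)) + om (g (1, 0)) (f (0, 1) - g (0, 1)) := by
    simp only [dt, om_sub_left, om_sub_right]
    ring
  rw [this]
  exact dvd_add (om_dvd_left (h _) _) (om_dvd_right _ (h _))

/-- The congruence of level `m`; the centre is read modulo `2 ^ e`. -/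
def Lv (m e : ℕ) (h : e ≤ m + 1) : Con Hs where
  r a b := a.n - b.n ∈ Dv m ∧ 2 ^ e ∣ a.z - b.z ∧ ∀ x, a.g.1.1 x - b.g.1.1 x ∈ Dv (m + 1)
  iseqv := ⟨fun a => by simp, fun {a b} h => ⟨by simpa using neg_mem h.1,
      by simpa using h.2.1.neg_right, fun x => by simpa using neg_mem (h.2.2 x)⟩,
    fun {a b c} h h' => ⟨by simpa using add_mem h.1 h'.1, by simpa using dvd_add h.2.1 h'.2.1,
      fun x => by simpa using add_mem (h.2.2 x) (h'.2.2 x)⟩⟩
  mul' := fun {a b c d} h1 h2 => by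
    have h3 : a.g.1.1 c.n - b.g.1.1 d.n ∈ Dv m := by
      have := add_mem (map_Dv a.g.1.1 h2.1) (Dv_mono m.le_succ (h1.2.2 d.n))
      rwa [map_sub, sub_add_sub_cancel] at this
    refine ⟨?_, ?_, fun x => ?_⟩
    · have := add_mem h1.1 h3
      rw [Hs.mul_n, Hs.mul_n]
      convert this using 1
      abel
    · have h4 := (pow_dvd_pow 2 h).trans (dt_congr h1.2.2)
      have h5 : 2 ^ e ∣ 2 * (om (a.n - b.n) (a.g.1.1 c.n) + om b.n (a.g.1.1 c.n - b.g.1.1 d.n)) :=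
        (pow_dvd_pow 2 h).trans (by
          rw [pow_succ']
          exact mul_dvd_mul_left _ (dvd_add (om_dvd_left h1.1 _) (om_dvd_right _ h3)))
      have := dvd_add (dvd_add (dvd_add h1.2.1 (h4.mul_right c.z)) (h2.2.1.mul_left (dt b.g.1.1))) h5
      rw [Hs.mul_z, Hs.mul_z]
      convert this using 1
      simp only [om_sub_left, om_sub_right]
      ring
    · have := add_mem (map_Dv a.g.1.1 (h2.2.2 x)) (h1.2.2 (d.g.1.1 x))
      rwa [map_sub, sub_add_sub_cancel] at this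

/-- The finite Heisenberg groups. -/
abbrev HQ (m e : ℕ) (h : e ≤ m + 1) : Type := (Lv m e h).Quotient

variable {m e : ℕ} {h : e ≤ m + 1}

/-- The projection. -/
abbrev hq' (m e : ℕ) (h : e ≤ m + 1) : Hs →* HQ m e h := (Lv m e h).mk'

theorem hq_eq {a b : Hs} : hq' m e h a = hq' m e h b ↔
    a.n - b.n ∈ Dv m ∧ 2 ^ e ∣ a.z - b.z ∧ ∀ x, a.g.1.1 x - b.g.1.1 x ∈ Dv (m + 1) :=
  (Lv m e h).eq

theorem hq_surj : Function.Surjective (hq' m e h) := Con.mk'_surjective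

theorem hq_inj : ∃ f : HQ m e h → (ZMod (2 ^ m) × ZMod (2 ^ m)) × ZMod (2 ^ e) ×
    (ZMod (2 ^ (m + 1)) × ZMod (2 ^ (m + 1))) × (ZMod (2 ^ (m + 1)) × ZMod (2 ^ (m + 1))),
    Function.Injective f := by
  choose sec hs using hq_surj (m := m) (h := h)
  refine ⟨fun b => ((red _ (sec b).n.1, red _ (sec b).n.2), red _ (sec b).z,
    (red _ ((sec b).g.1.1 (1, 0)).1, red _ ((sec b).g.1.1 (1, 0)).2),
    (red _ ((sec b).g.1.1 (0, 1)).1, red _ ((sec b).g.1.1 (0, 1)).2)), fun a b hab => ?_⟩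
  simp only [Prod.mk.injEq, red_eq] at hab
  rw [← hs a, ← hs b, hq_eq]
  refine ⟨hab.1, hab.2.1, fun x => ?_⟩
  have := add_mem (Submodule.smul_mem (Dv (m + 1)) x.1
    (x := (sec a).g.1.1 (1, 0) - (sec b).g.1.1 (1, 0)) hab.2.2.1)
    (Submodule.smul_mem (Dv (m + 1)) x.2
    (x := (sec a).g.1.1 (0, 1) - (sec b).g.1.1 (0, 1)) hab.2.2.2)
  rw [end_apply _ x, end_apply (sec b).g.1.1 x]
  convert this using 1
  module

instance : Finite (HQ m e h) := by
  obtain ⟨f, hf⟩ := hq_inj (m := m) (h := h)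
  exact Finite.of_injective f hf

theorem hq_card : Nat.card (HQ m e h) ≤ 2 ^ (7 * m + 5) := by
  obtain ⟨f, hf⟩ := hq_inj (m := m) (h := h)
  refine (Nat.card_le_card_of_injective f hf).trans ?_
  simp only [Nat.card_prod, Nat.card_zmod, ← pow_add]
  exact Nat.pow_le_pow_right two_pos (by omega)

theorem hq_pg : IsPGroup 2 (HQ m e h) := by
  intro b
  obtain ⟨a, rfl⟩ := hq_surj b
  have key : ∀ i, (a ^ 2 ^ i).n ∈ Dv i ∧ 2 ^ i ∣ (a ^ 2 ^ i).z ∧
      ∀ x, (a ^ 2 ^ i).g.1.1 x - x ∈ Dv (i + 1) := by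
    intro i
    induction i with
    | zero => exact ⟨Dv_zero _, by simp, (a ^ 2 ^ 0).g.2⟩
    | succ i ih =>
      rw [pow_succ, pow_mul, pow_two]
      generalize a ^ 2 ^ i = c at ih
      have h2 : ∀ {j : ℕ} {y : V}, y ∈ Dv j → y + c.g.1.1 y ∈ Dv (j + 1) := fun {j y} hy => by
        obtain ⟨z, rfl⟩ := mem_Dv_iff.1 hy
        have := add_mem (G1.dv c.g hy) (smul_mem_Dv (j + 1) z)
        convert this using 1
        rw [pow_succ]
        module
      refine ⟨h2 ih.1, ?_, fun x => ?_⟩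
      · obtain ⟨w, hw⟩ := dt_congr (f := c.g.1.1) (g := 1) c.g.2
        obtain ⟨u, hu⟩ := ih.2.1
        obtain ⟨v, hv⟩ := om_dvd_left ih.1 (c.g.1.1 c.n)
        rw [dt_one] at hw
        exact ⟨u + w * u + v, by rw [Hs.mul_z, hv, hu, eq_add_of_sub_eq hw]; ring⟩
      · have := h2 (ih.2.2 x)
        rw [Hs.mul_g, G1.mul_app]
        convert this using 1
        rw [map_sub]
        abel
  refine ⟨m + 1, ?_⟩
  rw [← map_pow, ← map_one (hq' m e h), hq_eq]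
  refine ⟨?_, ?_, fun x => Dv_mono (by omega) ((key (m + 1)).2.2 x)⟩
  · simpa [Hs.one_n] using Dv_mono m.le_succ (key (m + 1)).1
  · simpa [Hs.one_z] using (pow_dvd_pow 2 h).trans (key (m + 1)).2.1

theorem th_congr {μ μ' : V} {g : G1} (hd : dt g.1.1 = 1)
    (h1 : 2 ^ e ∣ om (μ' - μ) (hlf g (μ' - μ))) (h2 : hlf g (μ' - μ) ∈ Dv m) :
    hq' m e h (th μ' g) = hq' m e h (th μ g) := by
  rw [hq_eq]
  refine ⟨by rwa [th_n, th_n, ← map_sub], ?_, fun x => by simp [th_g]⟩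
  have h3 := om_hlf hd (μ' - μ) μ
  have h4 : (th μ' g).z - (th μ g).z = 2 * (om μ (hlf g (μ' - μ)) +
      om (hlf g (μ' - μ)) (hlf g μ)) + om (μ' - μ) (hlf g (μ' - μ)) := by
    rw [om_swap (hlf g _) μ] at h3
    simp only [th_z, map_sub, om_sub_left, om_sub_right] at h3 ⊢
    linear_combination h3
  rw [h4]
  refine dvd_add ((pow_dvd_pow 2 h).trans ?_) h1
  rw [pow_succ']
  exact mul_dvd_mul_left _ (dvd_add (om_dvd_right _ h2) (om_dvd_left h2 _))

theorem th_congr' {μ μ' : V} {g : G1} (hd : dt g.1.1 = 1) (h1 : μ' - μ ∈ Dv 1)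
    (h2 : hlf g (μ' - μ) ∈ Dv m) : hq' m e h (th μ' g) = hq' m e h (th μ g) := by
  refine th_congr hd ((pow_dvd_pow 2 h).trans ?_) h2
  obtain ⟨d, hd'⟩ := mem_Dv_iff.1 h1
  nth_rewrite 1 [hd']
  rw [om_smul_left, pow_one, pow_succ']
  exact mul_dvd_mul_left _ (om_dvd_right _ h2)

/-- The transition map. -/
def hqDown (m : ℕ) : HQ (m + 1) 0 (Nat.zero_le _) →* HQ m 0 (Nat.zero_le _) :=
  (Lv (m + 1) 0 _).lift (hq' m 0 _) fun a b hab => (Con.ker_rel _).2 (hq_eq.2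
    ⟨Dv_mono m.le_succ hab.1, hab.2.1, fun x => Dv_mono (m + 1).le_succ (hab.2.2 x)⟩)

theorem hqDown_mk (m : ℕ) (a : Hs) :
    hqDown m (hq' (m + 1) 0 (Nat.zero_le _) a) = hq' m 0 (Nat.zero_le _) a := rfl

variable {F : Type} [Field F] [Clos F] [Fintype F] [hq : Fact (Odd (Fintype.card F))]
variable {ee : Fin 3 → Om F}

/-- The representation with values in `G1`. -/
def PG (T : TD ee) : Gam F →* G1 := T.ro.toHomUnits.codRestrict G1 fun g => T.triv g

theorem PG_app (T : TD ee) (g : Gam F) (x : V) : (PG T g).1.1 x = T.ro g x := rfl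

theorem PG_val (T : TD ee) (g : Gam F) : (PG T g).1.1 = T.ro g := rfl

/-- Half of `1 - P g`. -/
def hL (T : TD ee) (g : Gam F) : EV := hlf (PG T g)

theorem two_hL (T : TD ee) (g : Gam F) (x : V) : (2 : ℤ_[2]) • hL T g x = x - T.ro g x :=
  two_hlf _ x

theorem hL_eq {T : TD ee} {g : Gam F} {x y : V} (h : (2 : ℤ_[2]) • y = x - T.ro g x) :
    hL T g x = y := hlf_eq h

theorem hL_mul (T : TD ee) (g l : Gam F) (x : V) :
    hL T (g * l) x = hL T g x + T.ro g (hL T l x) := by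
  rw [hL, map_mul, hlf_mul]
  rfl

theorem hL_conj (T : TD ee) (g l : Gam F) (x : V) :
    hL T (l * g * l⁻¹) (T.ro l x) = T.ro l (hL T g x) := by
  rw [hL, map_mul, map_mul, map_inv]
  exact hlf_conj _ _ x

theorem hL_nn (T : TD ee) (g : Gam F) (x : V) : hL T g x = -T.nn g x :=
  hL_eq (by rw [smul_neg, nn_two, neg_sub])

theorem hL_near (T : TD ee) (n : ℕ) : Near fun g => ∀ x, hL T g x ∈ Dv n :=
  (T.near (1 + n)).mono fun g hg x => by
    have := neg_mem (hg x)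
    rwa [neg_sub, ← two_hL, ← pow_one (2 : ℤ_[2]), smul_mem_Dv_iff] at this

theorem ro_dv (T : TD ee) (g : Gam F) {n : ℕ} {x : V} (h : x ∈ Dv n) :
    T.ro g x - x ∈ Dv (n + 1) := G1.dv (PG T g) h

theorem om_hL {T : TD ee} {g : Gam F} (hd : dt (T.ro g) = 1) (x y : V) :
    om (hL T g x) y + om x (hL T g y) = 2 * om (hL T g x) (hL T g y) := om_hlf hd x y

/-- Cocycles of level `m` on the subgroup `H`. -/
structure CyL (T : TD ee) (H : Subgroup (Gam F)) (m : ℕ) (n : Gam F → V) : Prop where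
  mul : ∀ g ∈ H, ∀ l ∈ H, n (g * l) - (n g + T.ro g (n l)) ∈ Dv m
  near : Near fun g => g ∈ Geo F → g ∈ H → n g ∈ Dv m

theorem CyL.hm {T : TD ee} {H : Subgroup (Gam F)} {n : Gam F → V} (hn : CyL T H m n) :
    Hm H fun g => hq' m 0 (Nat.zero_le _) ⟨n g, 0, PG T g⟩ :=
  ⟨fun g hg l hl => by
    rw [← map_mul, hq_eq]
    exact ⟨hn.mul g hg l hl, by simp, fun x => by simp [Hs.mul_g]⟩,
  (hn.near.and (T.near (m + 1))).mono fun g hg h1 h2 => by
    rw [← map_one (hq' m 0 _), hq_eq]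
    exact ⟨by simpa [Hs.one_n] using hg.1 h1 h2, by simp, hg.2⟩⟩

theorem hm_th (T : TD ee) (H : Subgroup (Gam F)) (μ : V) :
    Hm H fun g => hq' m e h (th μ (PG T g)) :=
  ⟨fun g _ l _ => by rw [map_mul, map_mul, map_mul],
  ((hL_near T (m + 1)).and (T.near (m + 1))).mono fun g hg _ _ => by
    rw [← map_one (hq' m e h), hq_eq]
    refine ⟨by rw [Hs.one_n, sub_zero]; exact Dv_mono m.le_succ (hg.1 μ), ?_, hg.2⟩
    rw [Hs.one_z, sub_zero]
    exact (pow_dvd_pow 2 h).trans (om_dvd_right μ (hg.1 μ))⟩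

/-- Reduction modulo two. -/
def rh : V →+ Vb := AddMonoidHom.mk' (fun x => (red 1 x.1, red 1 x.2)) fun x y => by simp

/-- The lift of a point of order two. -/
def lb (x : Vb) : V := (x.1.val, x.2.val)

theorem rb_lb (x : Vb) : rh (lb x) = x := by simp [rh, lb]

theorem lb_zero : lb 0 = 0 := by simp [lb]

theorem rh_eq_zero {x : V} : rh x = 0 ↔ x ∈ Dv 1 := by
  simp only [rh, AddMonoidHom.mk'_apply, Prod.mk_eq_zero, red_eq_zero, mem_Dv]

theorem rb_eq {x y : V} : rh x = rh y ↔ x - y ∈ Dv 1 := by rw [← rh_eq_zero, map_sub, sub_eq_zero]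

theorem rb_smul (c : ℤ_[2]) (x : V) : rh (c • x) = red 1 c • rh x := by simp [rh]

theorem rb_ro (T : TD ee) (g : Gam F) (x : V) : rh (T.ro g x) = rh x := rb_eq.2 (T.triv g x)

theorem eb_rb (x y : V) : eb (rh x) (rh y) = red 1 (om x y) := by simp [rh, eb, om]

theorem neg_vb (x : Vb) : -x = x := Prod.ext (neg_z2 _) (neg_z2 _)

theorem CyL.ch {T : TD ee} {H : Subgroup (Gam F)} {n : Gam F → V} (hn : CyL T H m n)
    (hm : 1 ≤ m) : Ch H fun g => rh (n g) :=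
  ⟨fun g hg l hl => by rw [rb_eq.2 (Dv_mono hm (hn.mul g hg l hl)), map_add, rb_ro],
    hn.near.mono fun g hg h1 h2 => rh_eq_zero.2 (Dv_mono hm (hg h1 h2))⟩

theorem cyL_hL (T : TD ee) (H : Subgroup (Gam F)) (m : ℕ) (x : V) :
    CyL T H m fun g => hL T g x :=
  ⟨fun g _ l _ => by rw [hL_mul, sub_self]; exact zero_mem _,
    (hL_near T m).mono fun g hg _ _ => hg x⟩

theorem cyL_of_cy {T : TD ee} {a : Gam F → V} (ha : Cy T a) (m : ℕ) : CyL T (Geo F) m a :=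
  ⟨fun g hg l hl => by rw [ha.mul g hg l hl, sub_self]; exact zero_mem _,
    (ha.near m).mono fun g hg h _ => hg h⟩

theorem CyL.mono {T : TD ee} {H H' : Subgroup (Gam F)} {n : Gam F → V} (hn : CyL T H m n)
    (hH : H' ≤ H) {m' : ℕ} (hm : m' ≤ m) : CyL T H' m' n :=
  ⟨fun g hg l hl => Dv_mono hm (hn.mul g (hH hg) l (hH hl)),
    hn.near.mono fun g hg h1 h2 => Dv_mono hm (hg h1 (hH h2))⟩

end

end Pool.Agent.Lib.MP_16ef92_ag.GF
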