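import Mathlib
import Pool.Agent.Lib.MP_16ef92_ag.GF.Hs

set_option autoImplicit false
set_option linter.unusedSectionVars false
set_option linter.unusedVariables false

namespace Pool.Agent.Lib.MP_16ef92_ag.GF

open Polynomial
open scoped Classical

noncomputable section

variable {F : Type} [Field F] [Clos F] [Fintype F] [hq : Fact (Odd (Fintype.card F))]
variable {e : Fin 3 → Om F}

/-- The properties of the representation that are used. -/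
structure Rp (T : TD e) : Prop where
  cls : ∃ Dp, Cls T Dp
  geo : ∀ g ∈ Geo F, dt (T.ro g) = 1
  fin : {x : Option (kk F) | ∃ O, Over O x ∧ ¬ GoodAt T O}.Finite
  tw : ∃ c : kk F, ∀ O, Over O (some c) → TwistAt T O (some c)

/-- Admissible cocycles. -/
def Ad (T : TD e) : Submodule ℤ_[2] (Gam F → V) where
  carrier := {a | Cy T a ∧ LT T a}
  add_mem' := fun {a b} ha hb => by
    have h1 := ha.1.sub (hb.1.smul (-1))
    have h2 := ha.2.sub (hb.2.smul (-1))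
    simp only [neg_smul, one_smul, sub_neg_eq_add] at h1 h2
    exact ⟨h1, h2⟩
  zero_mem' := ⟨⟨fun _ _ _ _ => by simp, fun _ => .of_forall fun _ _ => zero_mem _⟩,
    fun O x hO => ⟨0, 0, fun g _ => by simp⟩⟩
  smul_mem' := fun c a ha => ⟨ha.1.smul c, ha.2.smul c⟩

variable {T : TD e}

theorem Rp.adm (h : Rp T) (a : Ad T) {O : ValuationSubring (Om F)} {x : Option (kk F)}
    (hO : Over O x) : ∃ μ, ∀ g ∈ Ine O, a.1 g = hL T g μ := by
  obtain ⟨Dp, hD⟩ := h.cls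
  obtain ⟨m, hm⟩ := lb_two h.geo a.2.2 hD O x hO
  refine ⟨-m, fun g hg => (hL_eq ?_).symm⟩
  have := hm g hg
  beta_reduce at this
  rw [this, map_neg]
  abel

theorem hL_good {O : ValuationSubring (Om F)} (h : GoodAt T O) {g : Gam F} (hg : g ∈ Ine O)
    (y : V) : hL T g y = 0 := hL_eq (by rw [h g hg, sub_self, smul_zero])

theorem hL_twist {O : ValuationSubring (Om F)} {x : Option (kk F)} (h : TwistAt T O x)
    {g : Gam F} (hg : g ∈ Ine O) (h1 : sg (pl x) g = 1) (y : V) : hL T g y = y :=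
  hL_eq (by rw [h g hg, if_neg (by rw [h1]; decide), two_smul, sub_neg_eq_add])

theorem Rp.exists_neg (h : Rp T) : ∃ c γ, Gen (some c) γ ∧ ∀ γ', Gen (some c) γ' →
    ∀ y, hL T γ' y = y := by
  obtain ⟨c, hc⟩ := h.tw
  obtain ⟨γ, hγ⟩ := exists_gen (some c)
  exact ⟨c, γ, hγ, fun γ' ⟨O, h1, h2, h3⟩ => hL_twist (hc O h1) h2 h3⟩

theorem Rp.om_self (h : Rp T) {x : Option (kk F)} {γ : Gam F} (hγ : Gen x γ) {m : ℕ} (hm : 1 ≤ m)
    {d : V} (hd : hL T γ d ∈ Dv m) : 2 ^ (m + 1) ∣ om d (hL T γ d) := by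
  obtain ⟨O, h1, h2, h3⟩ := hγ
  obtain ⟨Dp, hD⟩ := h.cls
  rcases hD x with h4 | ⟨-, h4⟩ | ⟨-, i, j, k, h4⟩
  · rw [hL_good (h4 O h1) h2, om_zero_right]
    exact dvd_zero _
  · rw [hL_twist (h4 O h1) h2 h3, MP_16ef92_ag.om_self]
    exact dvd_zero _
  · obtain ⟨r, b, ht⟩ := (h4 O h1).exists_tv h.geo (T := T)
    obtain ⟨u, hu⟩ := (unit_of_red ((ht.par (h4 O h1) h2).trans h3)).exists_right_inv
    obtain ⟨s, hs⟩ := exists_dual (tv_prim ht.hr)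
    have h5 : hL T γ d = (-(b γ * om r d)) • r := hL_eq (by rw [ht.hb γ h2]; module)
    obtain ⟨c, hc⟩ := om_dvd_left hd s
    rw [h5, om_smul_left, hs] at hc
    obtain ⟨l, rfl⟩ := Nat.exists_eq_add_of_le' hm
    refine ⟨2 ^ l * c ^ 2 * u, ?_⟩
    rw [h5, om_smul_right, om_swap d r]
    linear_combination (-b γ * om r d ^ 2) * hu + u * (2 ^ (l + 1) * c - b γ * om r d) * hc

/-- The class of a point of order two. -/
def hb (T : TD e) (t : V) : Ad T := ⟨fun g => hL T g t,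
  ⟨fun g _ l _ => hL_mul T g l t, fun n => (hL_near T n).mono fun g hg _ => hg t⟩,
  fun O x hO => ⟨1, -t, fun g _ => by rw [pow_one, two_hL, map_neg]; abel⟩⟩

theorem hb_apply (t : V) (g : Gam F) : (hb T t).1 g = hL T g t := rfl

/-- Torsion classes. -/
def Nu (T : TD e) : Submodule ℤ_[2] (Ad T) where
  carrier := {a | ∃ t, ∀ g ∈ Geo F, a.1 g = hL T g t}
  add_mem' := fun {a b} ⟨t, ht⟩ ⟨u, hu⟩ => ⟨t + u, fun g hg => by
    rw [map_add, ← ht g hg, ← hu g hg]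
    rfl⟩
  zero_mem' := ⟨0, fun g _ => by simp⟩
  smul_mem' := fun c a ⟨t, ht⟩ => ⟨c • t, fun g hg => by
    rw [map_smul, ← ht g hg]
    rfl⟩

theorem mem_Nu {a : Ad T} : a ∈ Nu T ↔ ∃ t, ∀ g ∈ Geo F, a.1 g = hL T g t := Iff.rfl

/-- The lattice of classes. -/
abbrev MM (T : TD e) : Type := Ad T ⧸ Nu T

/-- The action on admissible cocycles. -/
def twL (T : TD e) (s : Gam F) : Ad T →ₗ[ℤ_[2]] Ad T where
  toFun a := ⟨tw T s a.1, a.2.1.tw s, a.2.2.tw s⟩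
  map_add' a b := Subtype.ext (funext fun g => map_add (T.ro s) _ _)
  map_smul' c a := Subtype.ext (funext fun g => map_smul (T.ro s) _ _)

theorem twL_apply (s : Gam F) (a : Ad T) (g : Gam F) :
    (twL T s a).1 g = T.ro s (a.1 (s⁻¹ * g * s)) := rfl

/-- The action on classes. -/
def FM (T : TD e) (s : Gam F) : MM T →ₗ[ℤ_[2]] MM T :=
  (Nu T).mapQ (Nu T) (twL T s) fun a ⟨t, ht⟩ => ⟨T.ro s t, fun g hg => by
    rw [twL_apply, ht _ (geo_conj hg s), ← hL_conj, show s * (s⁻¹ * g * s) * s⁻¹ = g by group]⟩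

theorem FF_mk (s : Gam F) (a : Ad T) : FM T s ((Nu T).mkQ a) = (Nu T).mkQ (twL T s a) := rfl

theorem mk_eq_mk {a b : Ad T} : (Nu T).mkQ a = (Nu T).mkQ b ↔
    ∃ t, ∀ g ∈ Geo F, a.1 g = b.1 g + hL T g t := by
  rw [Submodule.mkQ_apply, Submodule.mkQ_apply, Submodule.Quotient.eq, mem_Nu]
  refine exists_congr fun t => forall₂_congr fun g _ => ?_
  exact sub_eq_iff_eq_add'

/-- The properties of the cup product pairing. -/
structure BtS (T : TD e) (B : Ad T →ₗ[ℤ_[2]] Ad T →ₗ[ℤ_[2]] ℤ_[2]) : Prop where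
  symm : ∀ a b, B a b = B b a
  null : ∀ a ∈ Nu T, ∀ b, B a b = 0
  inv : ∀ (s : Gam F) (Q : ℕ), Fr s Q → Odd Q → dt (T.ro s) = Q →
    ∀ a b, B (twL T s a) (twL T s b) = B a b
  two : ∀ (a b : Ad T) (S : Finset (Option (kk F))) (γ : Option (kk F) → Gam F)
    (μ : Option (kk F) → V), (∀ x, x ∉ S → ∀ O, Over O x → GoodAt T O) → (∀ x ∈ S, Gen x (γ x)) →
    (∀ x ∈ S, b.1 (γ x) - hL T (γ x) (μ x) ∈ Dv 1) →
    red 1 (B a b) = ∑ x ∈ S, red 1 (om (a.1 (γ x)) (μ x))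
  quad : ∀ (a : Ad T) (m : ℕ) (z : Gam F → ℤ_[2]), 1 ≤ m →
    (Hm (Geo F) fun g => hq' m (m + 1) le_rfl ⟨a.1 g, z g, PG T g⟩) →
    (∀ c, ∃ γ μ, Gen (some c) γ ∧
      hq' m (m + 1) le_rfl ⟨a.1 γ, z γ, PG T γ⟩ = hq' m (m + 1) le_rfl (th μ (PG T γ))) →
    ∀ γ μ, Gen none γ → a.1 γ = hL T γ μ →
      ∃ u : ℤ_[2], 2 ^ (m + 1) ∣ z γ - om μ (hL T γ μ) - (2 * u + 1) * B a a

/-- Independence modulo two. -/
def Ind2 {M : Type} [AddCommGroup M] [Module ℤ_[2] M] (v w : M) : Prop :=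
  ∀ α β : ℤ_[2], (∃ y : M, α • v + β • w = (2 : ℤ_[2]) • y) → 2 ∣ α ∧ 2 ∣ β

/-- A lattice with enough linear forms. -/
structure Lt (M : Type) [AddCommGroup M] [Module ℤ_[2] M] : Prop where
  tf : ∀ x : M, (2 : ℤ_[2]) • x = 0 → x = 0
  sep : ∀ x : M, (∀ k : ℕ, ∃ y : M, x = (2 : ℤ_[2]) ^ k • y) → x = 0
  fn : ∀ x : M, (¬ ∃ y : M, x = (2 : ℤ_[2]) • y) → ∃ φ : M →ₗ[ℤ_[2]] ℤ_[2], φ x = 1

end

end Pool.Agent.Lib.MP_16ef92_ag.GF
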