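import Mathlib
import Pool.Agent.Lib.MP_16ef92_ag.GF.Qd
import Pool.Agent.Lib.MP_16ef92_ag.GF.Det

set_option autoImplicit false
set_option linter.unusedSectionVars false
set_option linter.unusedVariables false

namespace Pool.Agent.Lib.MP_16ef92_ag.GF

open Polynomial
open scoped Classical

noncomputable section

variable {F : Type} [Field F] [Clos F] [Fintype F] [hq : Fact (Odd (Fintype.card F))]

/-- The hypotheses on the family, for both parities. -/
structure Fam0 (A B D : F[X]) : Prop where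
  sq : Squarefree (A * B * (A - B) * D)
  dB : B.natDegree = A.natDegree
  dC : (A - B).natDegree = A.natDegree
  pos : 0 < A.natDegree

variable {A B D : F[X]}

theorem Fam0.one (h : Fam0 A B D) : Fam0 A B 1 :=
  ⟨by rw [mul_one]; exact h.sq.of_mul_left, h.dB, h.dC, h.pos⟩

theorem Fam0.ne (h : Fam0 A B D) : A ≠ 0 ∧ B ≠ 0 ∧ A - B ≠ 0 ∧ D ≠ 0 := by
  simpa [mul_ne_zero_iff, and_assoc] using h.sq.ne_zero

theorem Fam0.cub (h : Fam0 A B D) : Cub ((curve A B D).baseChange (Om F)).toAffine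
    (ev (EE A B D 0)) (ev (EE A B D 1)) (ev (EE A B D 2)) := by
  obtain ⟨hA, hB, hC, hD⟩ := h.ne
  have e1 := rf_eq (D * A)
  have e2 := rf_eq (D * B)
  refine ⟨map_zero (algebraMap (RatFunc F) (Om F)), map_zero (algebraMap (RatFunc F) (Om F)),
    ?_, ?_, ?_, ?_, ?_, ?_, two_ne⟩
  · change algebraMap (RatFunc F) (Om F) (-(rf (D * A) + rf (D * B))) = _
    rw [map_neg, map_add, e1, e2]
    simp [EE]
  · change algebraMap (RatFunc F) (Om F) (rf (D * A) * rf (D * B)) = _
    rw [map_mul, e1, e2]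
    simp [EE]
  · change algebraMap (RatFunc F) (Om F) 0 = _
    simp [EE]
  · simpa [EE] using ev_ne (mul_ne_zero hD hA)
  · simpa [EE] using ev_ne (mul_ne_zero hD hB)
  · simpa [EE, mul_sub] using ev_ne (mul_ne_zero hD hC)

/-- The halving data of the twist. -/
theorem exists_td_twist {e e' : Fin 3 → Om F} (T : TD e) {z : Om F} (h0 : z ≠ 0)
    (hz : ∀ g : Gam F, g z = z) (he : ∀ i, e' i = z * e i) (P : Gam F →* EV)
    (hP : ∀ g x, P g x = sgz (sg z g) • T.ro g x) : ∃ T' : TD e', T'.ro = P := by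
  obtain ⟨u, hu⟩ := exists_sq z
  refine ⟨⟨P, fun n i x => u * T.al n i x, fun n x => z * T.X n x, fun g i => ?_,
    fun i j hij => ?_, fun g x => ?_, fun n => ?_, fun g n i x => ?_, fun n i x hx => ?_,
    fun j x hx => ?_, fun n i j k x hx hij hik hjk => ?_, fun n i x => ?_,
    fun n i x y hx => ?_⟩, rfl⟩
  · rw [he, map_mul, hz, T.efix]
  · rw [he, he, ← mul_sub]
    exact mul_ne_zero h0 (T.ene i j hij)
  · rcases z2_cases (sg z g) with e | e
    · rw [hP, e, sgz_zero, one_smul]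
      exact T.triv g x
    · rw [hP, e, sgz_one, show (-1 : ℤ_[2]) • T.ro g x - x = -(T.ro g x - x) - (2 : ℤ_[2]) • x by
        module]
      exact sub_mem (neg_mem (T.triv g x)) (two_smul_Dv x)
  · refine ((T.near n).and (near_sg h0)).mono fun g hg x => ?_
    rw [hP, hg.2, sgz_zero, one_smul]
    exact hg.1 x
  · rcases z2_cases (sg z g) with e | e
    · rw [hP, e, sgz_zero, one_smul, map_mul, T.equiv, sg_fix_root (hz g) h0 hu e]
    · rw [hP, e, sgz_one, neg_one_smul, map_mul, T.equiv, sg_neg_root (hz g) h0 hu e, T.neg,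
        neg_mul, mul_neg]
  · rw [mul_pow, hu, T.sq n i x hx, he, mul_sub]
  · rw [T.X0 j x hx, he]
  · rw [he, ← mul_sub, T.step n i j k x hx hij hik hjk, ← hu]
    ring
  · rw [T.neg, mul_neg]
  · rw [T.shift n i x y hx, mul_left_comm]

variable (T : TD fun i => ev (EE A B D i))

theorem Fam0.twist_fin (h : Fam0 A B D) {c : kk F} (hc : aeval c D = 0)
    {O : ValuationSubring (Om F)} (hO : Over O (some c)) : TwistAt T O (some c) := by
  intro g hg y
  obtain ⟨h1, h2⟩ := simple_root (p := D) (q := A * B * (A - B)) (by rw [mul_comm]; exact h.sq) hc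
  simp only [map_mul, mul_ne_zero_iff] at h1
  obtain ⟨u, hu⟩ := exists_sq (pl (some c))
  have hu0 : u ≠ 0 := fun e => pl_ne (some c) (by rw [← hu, e]; simp)
  have h3 : ∀ p : F[X], aeval c p ≠ 0 → O.valuation (ev (D * p) / u ^ 2) = 1 := fun p hp => by
    rw [hu, ev, map_mul, map_div₀, map_mul, over_ev hO hp, mul_one, h2 O hO, div_self hO.val_ne]
  split_ifs with h4
  · simpa using good_of T hO hg hu0 (Or.inl ⟨rfl, rfl⟩)
      (by rw [sg_fix_root (geo_pl hg.1 _) (pl_ne _) hu h4, one_mul]) (h3 A h1.1.1)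
      (h3 B h1.1.2) (h3 _ h1.2) y
  · simpa using good_of T hO hg hu0 (Or.inr ⟨rfl, rfl⟩)
      (by rw [sg_neg_root (geo_pl hg.1 _) (pl_ne _) hu ((z2_cases _).resolve_left h4),
        neg_one_mul]) (h3 A h1.1.1) (h3 B h1.1.2) (h3 _ h1.2) y

/-- The index of the point of order two that is fixed at the prime `l`. -/
def ix (A B l : F[X]) : Fin 3 := if l ∣ A then 2 else if l ∣ B then 1 else 0

theorem Fam0.mult (h : Fam0 A B D) {l : F[X]} (hl : Prm l) (hN : l ∣ A * B * (A - B)) {c : kk F}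
    (hc : aeval c l = 0) : ∃ i j, ∀ O, Over O (some c) →
      MP (fun i => ev (EE A B D i)) O (some c) i j (ix A B l) := by
  have hD := (simple_root h.sq (aeval_eq_zero_of_dvd_aeval_eq_zero hN hc)).1
  have h1 : ∀ p q s : F[X], p * D * (q * s) = A * B * (A - B) * D → l ∣ p →
      ∀ O, Over O (some c) → O.valuation (ev (D * p)) = O.valuation (pl (some c)) ∧
        O.valuation (ev (D * q)) = 1 := by
    intro p q s e hp O hO
    obtain ⟨h2, h3⟩ := simple_root (c := c) (p := D * p) (q := q * s)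
      (by rw [mul_comm D, e]; exact h.sq)
      (by rw [map_mul, aeval_eq_zero_of_dvd_aeval_eq_zero hp hc, mul_zero])
    rw [map_mul] at h2
    exact ⟨h3 O hO, over_ev hO (by rw [map_mul]; exact mul_ne_zero hD (left_ne_zero_of_mul h2))⟩
  unfold ix
  split_ifs with ha hb
  · refine ⟨0, 1, fun O hO => ?_⟩
    obtain ⟨h2, h3⟩ := h1 A B (A - B) (by ring) ha O hO
    exact ⟨hO, by decide, by decide, by decide, by simpa [EE] using h2, by simpa [EE] using h3⟩
  · refine ⟨0, 2, fun O hO => ?_⟩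
    obtain ⟨h2, h3⟩ := h1 B A (A - B) (by ring) hb O hO
    exact ⟨hO, by decide, by decide, by decide, by simpa [EE] using h2, by simpa [EE] using h3⟩
  · refine ⟨1, 2, fun O hO => ?_⟩
    obtain ⟨h2, h3⟩ := h1 (A - B) A B (by ring) ((hl.2.prime.dvd_or_dvd hN).resolve_left
      fun e => (hl.2.prime.dvd_or_dvd e).elim ha hb) O hO
    exact ⟨hO, by decide, by decide, by decide, by simpa [EE, mul_sub] using h2,
      by simpa [EE] using h3⟩

theorem Fam0.good_inf (h : Fam0 A B D) (hd : Even (A.natDegree + D.natDegree))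
    {O : ValuationSubring (Om F)} (hO : Over O none) : GoodAt T O :=
  Fam.good_inf ⟨h.sq, h.dB, h.dC, hd⟩ T hO

theorem Fam0.twist_inf (h : Fam0 A B D) (hd : ¬ Even (A.natDegree + D.natDegree))
    {O : ValuationSubring (Om F)} (hO : Over O none) : TwistAt T O none := by
  obtain ⟨hA, hB, hC, hD⟩ := h.ne
  obtain ⟨m, hm⟩ := Nat.not_even_iff_odd.1 hd
  obtain ⟨w, hw⟩ := exists_sq (pl (F := F) none)
  have hw0 : w ≠ 0 := fun e => pl_ne (F := F) none (by rw [← hw, e]; simp)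
  have h1 : ∀ p : F[X], p ≠ 0 → p.natDegree = A.natDegree →
      O.valuation (ev (D * p) / (tt F ^ m * w⁻¹) ^ 2) = 1 := fun p hp hd => by
    have := val_inf_poly hO (mul_ne_zero hD hp)
    rw [natDegree_mul hD hp, hd, add_comm, hm, pow_succ, mul_comm 2, pow_mul] at this
    rwa [mul_pow, inv_pow, hw, pl, inv_inv]
  have h2 := mul_ne_zero (pow_ne_zero m (tt_ne (F := F))) (inv_ne_zero hw0)
  intro g hg y
  split_ifs with h4
  · simpa using good_of T hO hg h2 (Or.inl ⟨rfl, rfl⟩)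
      (by rw [map_mul, map_pow, gam_tt, map_inv₀,
        sg_fix_root (geo_pl hg.1 _) (pl_ne _) hw h4, one_mul])
      (h1 A hA rfl) (h1 B hB h.dB) (h1 _ hC h.dC) y
  · simpa using good_of T hO hg h2 (Or.inr ⟨rfl, rfl⟩)
      (by rw [map_mul, map_pow, gam_tt, map_inv₀,
        sg_neg_root (geo_pl hg.1 _) (pl_ne _) hw ((z2_cases _).resolve_left h4), neg_one_mul,
        inv_neg, mul_neg]) (h1 A hA rfl) (h1 B hB h.dB) (h1 _ hC h.dC) y

theorem Fam0.rp (h : Fam0 A B D) (hD : 0 < D.natDegree) {s : Gam F}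
    (hs : Fr s (Fintype.card F)) : Rp T := by
  refine ⟨⟨fun x => x.elim (¬ Even (A.natDegree + D.natDegree)) fun c => aeval c D = 0,
    fun x => ?_⟩, fun g hg => T.dt_geo hs hg, ?_, ?_⟩
  · cases x with
    | none =>
      by_cases hd : Even (A.natDegree + D.natDegree)
      · exact Or.inl fun O hO => h.good_inf T hd hO
      · exact Or.inr (Or.inl ⟨hd, fun O hO => h.twist_inf T hd hO⟩)
    | some c =>
      by_cases hc : aeval c (A * B * (A - B) * D) = 0
      · by_cases h1 : aeval c D = 0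
        · exact Or.inr (Or.inl ⟨h1, fun O hO => h.twist_fin T h1 hO⟩)
        · rw [map_mul, mul_eq_zero, or_iff_left h1] at hc
          have hi : IsIntegral F c := Algebra.IsIntegral.isIntegral c
          obtain ⟨i, j, h2⟩ := h.mult ⟨minpoly.monic hi, minpoly.irreducible hi⟩
            (minpoly.dvd F c hc) (minpoly.aeval F c)
          exact Or.inr (Or.inr ⟨h1, i, j, _, h2⟩)
      · exact Or.inl fun O hO => good_fin T hO hc
  · refine ((((A * B * (A - B) * D).rootSet_finite (kk F)).image some).insert none).subset ?_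
    rintro (_ | c) ⟨O, hO, h1⟩
    · exact Or.inl rfl
    · refine Or.inr ⟨c, mem_rootSet.2 ⟨h.sq.ne_zero, ?_⟩, rfl⟩
      by_contra h2
      exact h1 (good_fin T hO h2)
  · obtain ⟨c, hc⟩ := IsAlgClosed.exists_aeval_eq_zero (kk F) D (natDegree_pos_iff_degree_pos.1 hD).ne'
    exact ⟨c, fun O hO => h.twist_fin T hc hO⟩

/-- The type of the multiplicative prime `l`. -/
def tl (A B l : F[X]) : Vb := rh (tv (ix A B l))

theorem Fam0.hL_mult (h : Fam0 A B D) {s : Gam F} (hs : Fr s (Fintype.card F)) {l : F[X]}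
    (hl : Prm l) (hN : l ∣ A * B * (A - B)) {c : kk F} (hc : aeval c l = 0) {γ : Gam F}
    (hγ : Gen (some c) γ) (x : V) : rh (hL T γ x) = nu (tl A B l) (rh x) := by
  obtain ⟨O, h1, h2, h3⟩ := hγ
  obtain ⟨i, j, hm⟩ := h.mult hl hN hc
  obtain ⟨r, b, ht⟩ := (hm O h1).exists_tv (fun g hg => T.dt_geo hs hg) (T := T)
  have h5 : hL T γ x = (-(b γ * om r x)) • r := hL_eq (by rw [ht.hb γ h2]; module)
  rw [h5, rb_smul, map_neg, neg_z2, map_mul, ht.par (hm O h1) h2, h3, one_mul, tl,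
    ← rb_eq.2 ht.hr, nu, eb_rb]

theorem Fam0.ix_surj (h : Fam0 A B D) (k : Fin 3) :
    ∃ l, Prm l ∧ l ∣ A * B * (A - B) ∧ ix A B l = k := by
  have h1 : ∀ p : F[X], p.natDegree = A.natDegree → ∃ l, Prm l ∧ l ∣ p := fun p hp => by
    obtain ⟨l, a, b, c⟩ := exists_monic_irreducible_factor p
      (not_isUnit_of_natDegree_pos p (hp ▸ h.pos))
    exact ⟨l, ⟨a, b⟩, c⟩
  have h2 : ∀ l p q s : F[X], Prm l → p * q * s = A * B * (A - B) * D → l ∣ p → ¬ l ∣ q :=
    fun l p q s hl e a b => hl.2.not_isUnit (h.sq l (e ▸ (mul_dvd_mul a b).mul_right s))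
  fin_cases k
  · obtain ⟨l, hl, a⟩ := h1 _ h.dC
    exact ⟨l, hl, a.mul_left _, (if_neg (h2 l _ A (B * D) hl (by ring) a)).trans
      (if_neg (h2 l _ B (A * D) hl (by ring) a))⟩
  · obtain ⟨l, hl, a⟩ := h1 _ h.dB
    exact ⟨l, hl, (a.mul_left _).mul_right _,
      (if_neg (h2 l _ A ((A - B) * D) hl (by ring) a)).trans (if_pos a)⟩
  · obtain ⟨l, hl, a⟩ := h1 _ rfl
    exact ⟨l, hl, (a.mul_right _).mul_right _, if_pos a⟩

theorem Fam0.tl_surj (h : Fam0 A B D) {r : Vb} (hr : r ≠ 0) :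
    ∃ l, Prm l ∧ l ∣ A * B * (A - B) ∧ tl A B l = r := by
  obtain ⟨k, rfl⟩ : ∃ k, rh (tv k) = r := by
    have h1 : r = (1, 0) ∨ r = (0, 1) ∨ r = (1, 1) := by
      revert r
      decide
    rcases h1 with rfl | rfl | rfl
    exacts [⟨0, by simp [rh, tv]⟩, ⟨1, by simp [rh, tv]⟩, ⟨2, by simp [rh, tv]⟩]
  obtain ⟨l, a, b, rfl⟩ := h.ix_surj k
  exact ⟨l, a, b, rfl⟩

theorem Fam0.det (h : Fam0 A B D) {ev' : V →+ ℕ → Pt (curve A B D)} (hin : ∀ x, InTate (ev' x))
    (hker : ∀ n x, ev' x n = 0 ↔ x ∈ Dv n) (hro : ∀ g x, ev' (T.ro g x) = act g (ev' x))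
    {s : Gam F} (hs : Fr s (Fintype.card F)) : dt (T.ro s) = Fintype.card F := by
  obtain ⟨l, hl, hN, -⟩ := h.ix_surj 0
  obtain ⟨c, hc⟩ := IsAlgClosed.exists_aeval_eq_zero (kk F) l (degree_pos_of_irreducible hl.2).ne'
  obtain ⟨i, j, hm⟩ := h.mult hl hN hc
  obtain ⟨O, hO⟩ := exists_over (some c)
  exact det_frob h.cub hin hker hro (hm O hO) hs

theorem rep_chi {p r : F[X]} (hp : p ≠ 0) (hr : r ≠ 0) (g : Gam F) :
    chi (p * r) g = chi p g * chi r g := by
  rw [chi_eq hp, chi_eq hr, chi_eq (mul_ne_zero hp hr), ev, map_mul,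
    sg_mul_left (gam_ev _ _) (ev_ne hp) (gam_ev _ _) (ev_ne hr), sgz_add]

theorem chi_prod {I : Type} [Fintype I] {u : F} (hu : u ≠ 0) {pr : I → F[X]} (hp : ∀ i, pr i ≠ 0)
    (g : Gam F) : chs pr g * chi (C u) g = sgz (sg (ev (C u * ∏ i, pr i)) g) := by
  have h1 : ∀ t : Finset I, (∏ i ∈ t, chi (pr i) g) * chi (C u) g =
      chi (C u * ∏ i ∈ t, pr i) g := by
    intro t
    induction t using Finset.induction_on with
    | empty => simp
    | insert a t ha ih =>
      rw [Finset.prod_insert ha, Finset.prod_insert ha, mul_assoc, ih, mul_left_comm,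
        rep_chi (hp a) (mul_ne_zero (C_ne_zero.2 hu) (Finset.prod_ne_zero_iff.2 fun i _ => hp i))]
  rw [chs_apply, h1,
    chi_eq (mul_ne_zero (C_ne_zero.2 hu) (Finset.prod_ne_zero_iff.2 fun i _ => hp i))]

end

end Pool.Agent.Lib.MP_16ef92_ag.GF
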