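import Mathlib
import Pool.Agent.Lib.MP_16ef92_ag.GF.Anat1

set_option autoImplicit false
set_option linter.unusedSectionVars false
set_option linter.unusedVariables false

namespace Pool.Agent.Lib.MP_16ef92_ag.GF

open Polynomial Filter
open scoped Classical

noncomputable section

variable {F : Type} [Field F] [Fintype F]

theorem adm_cls (e : ℕ) {G : F[X]} (hG : G ≠ 0) (E₀ : F[X]) :
    (((anO F e).filter fun E => G ∣ E - E₀).card : ℝ) ≤ (anO F e).card * anW G + 1 := by
  by_cases h : G.natDegree ≤ e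
  · refine .trans ?_ ((an_cnt_le e hG).trans (le_add_of_nonneg_right zero_le_one))
    refine Nat.cast_le.2 (Finset.card_le_card_of_injOn (· - E₀ % G) (fun E hE => ?_)
      sub_left_injective.injOn)
    rw [Finset.mem_coe, Finset.mem_filter, an_mem] at hE ⊢
    have h1 : (E - E₀ % G).degree = E.degree := degree_sub_eq_left_of_degree_lt
      ((degree_mod_lt _ hG).trans_le (by
        rw [degree_eq_natDegree hG, degree_eq_natDegree hE.1.2, hE.1.1]
        exact_mod_cast h))
    refine ⟨⟨(natDegree_eq_of_degree_eq h1).trans hE.1.1, fun h0 => hE.1.2 ?_⟩, ?_⟩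
    · exact degree_eq_bot.1 (h1.symm.trans (congrArg degree h0))
    · exact (dvd_add hE.2 (dvd_mul_right G (E₀ / G))).trans
        (dvd_of_eq (by linear_combination EuclideanDomain.div_add_mod E₀ G))
  · refine .trans ?_ (le_add_of_nonneg_left (mul_nonneg (Nat.cast_nonneg _) (anW_nonneg G)))
    refine Nat.cast_le_one.2 (Finset.card_le_one.2 fun a ha b hb => ?_)
    rw [Finset.mem_filter, an_mem] at ha hb
    refine sub_eq_zero.1 (eq_zero_of_dvd_of_natDegree_lt (p := G) ?_
      ((natDegree_sub_le _ _).trans_lt ?_))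
    · simpa using dvd_sub ha.2 hb.2
    · rw [ha.1.1, hb.1.1]
      omega

theorem adm_sq (e : ℕ) (N : F[X]) {p : F[X]} (hp : p ≠ 0) :
    (((anO F e).filter fun E => p * p ∣ 1 + N * E).card : ℝ) ≤
      (anO F e).card * (anW p * anW p) + 1 := by
  rcases ((anO F e).filter fun E => p * p ∣ 1 + N * E).eq_empty_or_nonempty with h | ⟨E₀, h⟩
  · rw [h, Finset.card_empty, Nat.cast_zero]
    have := anW_nonneg p
    positivity
  · obtain ⟨c, hc⟩ := (Finset.mem_filter.1 h).2
    rw [← anW_mul hp hp]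
    refine .trans (Nat.cast_le.2 (Finset.card_le_card fun E hE => ?_))
      (adm_cls e (mul_ne_zero hp hp) E₀)
    rw [Finset.mem_filter] at hE ⊢
    refine ⟨hE.1, IsCoprime.dvd_of_dvd_mul_left (y := N) ⟨c, -E₀, by linear_combination -hc⟩ ?_⟩
    rw [show N * (E - E₀) = 1 + N * E - p * p * c by linear_combination -hc]
    exact dvd_sub hE.2 (dvd_mul_right _ _)

theorem adm_geo {q A : ℝ} (hq : 3 ≤ q) (hA : 0 ≤ A) (k : ℕ) :
    ∑ n ∈ Finset.Icc 1 k, (A * (q ^ n)⁻¹ + q ^ n) ≤ A * (1 - (q ^ k)⁻¹) / 2 + 2 * q ^ k := by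
  induction k with
  | zero => simp
  | succ k ih =>
    have h1 : 0 < q ^ k := by positivity
    have h2 : 3 * (q ^ (k + 1))⁻¹ ≤ (q ^ k)⁻¹ := by
      rw [pow_succ, mul_inv, mul_left_comm]
      refine mul_le_of_le_one_right (by positivity) ?_
      rwa [← div_eq_mul_inv, div_le_one (by positivity)]
    have h3 := mul_le_mul_of_nonneg_left h2 hA
    have h4 : q ^ k * 3 ≤ q ^ (k + 1) := mul_le_mul_of_nonneg_left hq h1.le
    rw [Finset.sum_Icc_succ_top (by omega)]
    linarith

/-- The admissible twists have positive lower density: count the `D = 1 + N E`. -/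
theorem adm_lower (hq : Odd (Fintype.card F)) {N : F[X]} (hN : Squarefree N) :
    ∃ κ : ℝ, 0 < κ ∧ ∀ᶠ d in atTop, κ * (Fintype.card F : ℝ) ^ d ≤
      ({D : F[X] | D.natDegree = d ∧ Squarefree (N * D)}.ncard : ℝ) := by
  have h3 : (3 : ℝ) ≤ Fintype.card F := by
    have := Fintype.one_lt_card (α := F)
    obtain ⟨k, hk⟩ := hq
    exact_mod_cast (by omega : 3 ≤ Fintype.card F)
  refine ⟨((Fintype.card F : ℝ) ^ N.natDegree)⁻¹ / 3, by positivity,
    (eventually_ge_atTop (2 * N.natDegree + 2)).mono fun d hd => ?_⟩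
  obtain ⟨e, rfl⟩ : ∃ e, d = N.natDegree + e := ⟨d - N.natDegree, by omega⟩
  obtain ⟨k, hk⟩ : ∃ k, (N.natDegree + e) / 2 = k := ⟨_, rfl⟩
  have hdeg : ∀ E ∈ anO F e, (1 + N * E).natDegree = N.natDegree + e := fun E hE => by
    rw [← C_1, natDegree_C_add, natDegree_mul hN.ne_zero (an_mem.1 hE).2, (an_mem.1 hE).1]
  have h1 : ((anO F e).filter fun E => Squarefree (1 + N * E)).card ≤
      {D : F[X] | D.natDegree = N.natDegree + e ∧ Squarefree (N * D)}.ncard := by
    rw [← Set.ncard_coe_finset]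
    refine Set.ncard_le_ncard_of_injOn (1 + N * ·) (fun E hE => ?_)
      (fun a _ b _ h => mul_left_cancel₀ hN.ne_zero (add_left_cancel h))
      ((finite_deg _).subset fun D hD => hD.1)
    rw [Finset.mem_coe, Finset.mem_filter] at hE
    exact ⟨hdeg E hE.1, squarefree_mul_iff.2
      ⟨IsCoprime.isRelPrime ⟨-E, 1, by ring⟩, hN, hE.2⟩⟩
  have h2 : ((anO F e).filter fun E => ¬Squarefree (1 + N * E)) ⊆ (Finset.Icc 1 k).biUnion
      fun n => (Pn F n).biUnion fun p => (anO F e).filter fun E => p * p ∣ 1 + N * E := by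
    intro E hE
    rw [Finset.mem_filter, Squarefree] at hE
    push Not at hE
    obtain ⟨h4, x, h5, h6⟩ := hE
    obtain ⟨p, h7, h8, h9⟩ := exists_monic_irreducible_factor x h6
    have h10 := (mul_dvd_mul h9 h9).trans h5
    have h11 := natDegree_le_of_dvd h10 fun h0 => by
      have := hdeg E h4
      rw [h0, natDegree_zero] at this
      omega
    rw [natDegree_mul h7.ne_zero h7.ne_zero, hdeg E h4] at h11
    exact Finset.mem_biUnion.2 ⟨_, Finset.mem_Icc.2 ⟨h8.natDegree_pos, by omega⟩,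
      Finset.mem_biUnion.2 ⟨p, mem_Pn.2 ⟨⟨h7, h8⟩, rfl⟩, Finset.mem_filter.2 ⟨h4, h10⟩⟩⟩
  have h4 : (((anO F e).filter fun E => ¬Squarefree (1 + N * E)).card : ℝ) ≤
      ∑ n ∈ Finset.Icc 1 k, ((anO F e).card * ((Fintype.card F : ℝ) ^ n)⁻¹ +
        (Fintype.card F : ℝ) ^ n) := by
    refine (Nat.cast_le.2 ((Finset.card_le_card h2).trans (Finset.card_biUnion_le.trans
      (Finset.sum_le_sum fun n _ => Finset.card_biUnion_le)))).trans ?_
    push_cast
    refine Finset.sum_le_sum fun n hn => (Finset.sum_le_card_nsmul _ _ ((anO F e).card *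
      (((Fintype.card F : ℝ) ^ n)⁻¹ * ((Fintype.card F : ℝ) ^ n)⁻¹) + 1) fun p hp => ?_).trans ?_
    · have := adm_sq e N (mem_Pn.1 hp).1.ne
      rwa [anW, (mem_Pn.1 hp).2] at this
    · have h5 : ((Pn F n).card : ℝ) ≤ (Fintype.card F : ℝ) ^ n := by
        exact_mod_cast (Nat.le_mul_of_pos_left _ (Finset.mem_Icc.1 hn).1).trans (Pn_le F n)
      rw [nsmul_eq_mul]
      refine (mul_le_mul_of_nonneg_right h5 (by positivity)).trans_eq ?_
      field_simp
  have h5 := h4.trans (adm_geo h3 (Nat.cast_nonneg _) k)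
  have h6 := congrArg (Nat.cast : ℕ → ℝ) (Finset.card_filter_add_card_filter_not (s := anO F e)
    fun E => Squarefree (1 + N * E))
  have h7 : (Fintype.card F : ℝ) ^ k * 3 ≤ (Fintype.card F : ℝ) ^ e :=
    (mul_le_mul_of_nonneg_left h3 (by positivity)).trans (by
      rw [← pow_succ]
      exact pow_le_pow_right₀ (by linarith) (by omega))
  have h8 : 2 * (Fintype.card F : ℝ) ^ e ≤ (anO F e).card := by
    rw [an_card]
    exact mul_le_mul_of_nonneg_right (by linarith) (by positivity)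
  have h9 : (0 : ℝ) ≤ (anO F e).card * ((Fintype.card F : ℝ) ^ k)⁻¹ := by positivity
  refine .trans ?_ (Nat.cast_le.2 h1)
  rw [show ((Fintype.card F : ℝ) ^ N.natDegree)⁻¹ / 3 * (Fintype.card F : ℝ) ^ (N.natDegree + e) =
    (Fintype.card F : ℝ) ^ e / 3 by rw [pow_add]; field_simp]
  push_cast at h6
  linarith

end

end Pool.Agent.Lib.MP_16ef92_ag.GF
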