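import Mathlib
import Pool.Agent.Lib.MP_16ef92_ag.GF.Qd

set_option autoImplicit false
set_option linter.unusedSectionVars false
set_option linter.unusedVariables false

namespace Pool.Agent.Lib.MP_16ef92_ag.GF

open Polynomial
open scoped Classical

noncomputable section

variable {F : Type} [Field F] [Clos F] [Fintype F] [hq : Fact (Odd (Fintype.card F))]
variable {e : Fin 3 → Om F} {T : TD e}

theorem bt_zeta : ∃ ζ : ℕ → Om F, (∀ n, IsPrimitiveRoot (ζ n) (2 ^ n)) ∧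
    (∀ n, ζ (n + 1) ^ 2 = ζ n) ∧ ζ 1 = -1 := by
  choose sq hsq using exists_sq (F := F)
  have h1 : ∀ n, sq^[n + 1] (-1) ^ 2 = sq^[n] (-1) := fun n => by
    rw [Function.iterate_succ_apply', hsq]
  have h2 : ∀ n, sq^[n] (-1) ^ 2 ^ n = -1 := fun n => by
    induction n with
    | zero => simp
    | succ n ih => rw [pow_succ', pow_mul, h1, ih]
  refine ⟨fun n => sq^[n] (-1) ^ 2, fun n => ?_, fun n => congrArg (· ^ 2) (h1 n), h1 0⟩
  have h3 := IsPrimitiveRoot.orderOf (sq^[n] (-1))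
  rw [orderOf_eq_prime_pow (p := 2) (n := n) (by rw [h2]; exact (ne_neg_self one_ne_zero).symm)
    (by rw [pow_succ, pow_mul, h2, neg_one_sq])] at h3
  exact h3.pow (by positivity) (pow_succ' 2 n)

theorem bt_cast {m n : ℕ} (h : m ≤ n) (x : ℤ_[2]) :
    ZMod.castHom (pow_dvd_pow 2 h) (ZMod (2 ^ m)) (red n x) = red m x :=
  RingHom.congr_fun (PadicInt.zmod_cast_comp_toZModPow m n h) x

variable {n : ℕ} {r : Om F}

theorem bt_kap (hr : IsPrimitiveRoot r (2 ^ (n + 1))) {g : Gam F} (hg : g ∈ Geo F)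
    (x : Option (kk F)) : kap (r ^ 2) n (pl x) g =
      ZMod.castHom (pow_dvd_pow 2 n.le_succ) (ZMod (2 ^ n)) (kap r (n + 1) (pl x) g) := by
  have hr' : IsPrimitiveRoot (r ^ 2) (2 ^ n) := hr.pow (by positivity) (pow_succ' 2 n)
  obtain ⟨w, hw⟩ := exists_rt (pl x) (n + 1)
  refine kap_eq hr' (geo_prim hr' hg) (pl_ne x) (w := w ^ 2) (by rw [← pow_mul, ← pow_succ', hw]) ?_
  rw [map_pow, kap_spec hr (geo_prim hr hg) (geo_pl hg x) (pl_ne x) hw,
    ← ZMod.natCast_zmod_val (kap r (n + 1) (pl x) g), map_natCast, ch_nat hr, ch_nat hr']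
  ring

theorem bt_down (hr : IsPrimitiveRoot r (2 ^ (n + 1))) {a b : Gam F → V} {c : ℤ_[2]}
    (h : Pair T r a b (red (n + 1) c)) : Pair T (r ^ 2) a b (red n c) := by
  obtain ⟨f, hf, v, hv, h1⟩ := h
  let π := ZMod.castHom (pow_dvd_pow 2 n.le_succ) (ZMod (2 ^ n))
  refine ⟨fun g => π (f g), ⟨fun g hg l hl => ?_, hf.near.mono fun g hg hg' => by
    rw [hg hg', map_zero]⟩, v.mapRange π (map_zero π), fun x O hO m hm g hg => ?_, ?_⟩
  · rw [hf.mul g hg l hl, map_add, map_add, bt_cast n.le_succ]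
  · rw [Finsupp.mapRange_apply, bt_kap hr hg.1, ← map_mul, ← hv x O hO m hm g hg, map_sub,
      bt_cast n.le_succ]
  · rw [Finsupp.sum_mapRange_index fun _ => rfl, ← bt_cast n.le_succ, ← h1, map_finsuppSum]

theorem bt_lb (h : Rp T) (b : Ad T) : LB T fun g => (2 : ℤ_[2]) • b.1 g :=
  h.cls.elim fun _ hD => lb_two h.geo b.2.2 hD

theorem bt_loc {b : Gam F → V} {O : ValuationSubring (Om F)} {ν : V}
    (hν : ∀ g ∈ Ine O, b g = hL T g ν) (g : Gam F) (hg : g ∈ Ine O) :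
    (2 : ℤ_[2]) • b g = T.ro g (-ν) - -ν := by
  rw [hν g hg, two_hL, map_neg]
  abel

theorem bt_ro (g : Gam F) (ν : V) : T.ro g (-ν) = (2 : ℤ_[2]) • hL T g ν - ν := by
  rw [two_hL, map_neg]
  abel

theorem bt_symm (h : Rp T) (hr : IsPrimitiveRoot r (2 ^ n)) (a b : Ad T) {k : ZMod (2 ^ n)}
    (H : Pair T r a.1 (fun g => (2 : ℤ_[2]) • b.1 g) k) :
    Pair T r b.1 (fun g => (2 : ℤ_[2]) • a.1 g) k := by
  obtain ⟨f, hf, v, hv, h1⟩ := H
  have hf' : Ph T (fun g => f g - red n (2 * om (a.1 g) (b.1 g))) b.1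
      fun g => (2 : ℤ_[2]) • a.1 g := by
    refine ⟨fun g hg l hl => ?_, (hf.near.and (a.2.1.near n)).mono fun g hg hg' => ?_⟩
    · rw [hf.mul g hg l hl, a.2.1.mul g hg l hl, b.2.1.mul g hg l hl, om_add_left, om_add_right,
        om_add_right, om_map, h.geo g hg, om_swap (T.ro g (a.1 l))]
      simp only [map_smul, om_smul_right, map_add, map_mul, map_neg, map_one]
      ring
    · rw [hg.1 hg', red_eq_zero.2 ((om_dvd_left (hg.2 hg') _).mul_left 2), sub_zero]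
  refine ⟨_, hf', v, fun x => ?_, h1⟩
  obtain ⟨O, hO⟩ := exists_over x
  obtain ⟨μ, hμ⟩ := h.adm a hO
  obtain ⟨ν, hν⟩ := h.adm b hO
  refine inv_of_one hr h.geo b.2.1 (a.2.1.smul 2) b.2.2 hf' hO (bt_loc hμ) fun g hg => ?_
  rw [← hv x O hO _ (bt_loc hν) g hg, sub_sub, ← map_add, bt_ro, bt_ro, hμ g hg, hν g hg]
  have h2 := om_hL (h.geo g hg.1) μ ν
  simp only [om_sub_right, om_smul_right]
  rw [om_swap (hL T g ν) (hL T g μ), om_swap (hL T g ν) μ]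
  congr 2
  linear_combination h2

theorem bt_fin (h : Rp T) (hr : IsPrimitiveRoot r (2 ^ n)) (a b : Ad T) {f : Gam F → ZMod (2 ^ n)}
    (hf : Ph T f a.1 fun g => (2 : ℤ_[2]) • b.1 g) {c : ZMod (2 ^ n)}
    (hc : Pair T r a.1 (fun g => (2 : ℤ_[2]) • b.1 g) c) : ∃ k : Option (kk F) → ZMod (2 ^ n),
      (∀ x O, Over O x → ∀ ν, (∀ g ∈ Ine O, b.1 g = hL T g ν) → ∀ g ∈ Ine O,
        f g - red n (om (a.1 g) ((2 : ℤ_[2]) • hL T g ν - ν)) = k x * kap r n (pl x) g) ∧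
      ∀ S : Finset (Option (kk F)), (∀ x, x ∉ S → k x = 0) → c = ∑ x ∈ S, k x := by
  choose k hk using exists_inv hr h.geo a.2.1 (b.2.1.smul 2) a.2.2 (bt_lb h b) hf
  refine ⟨k, fun x O hO ν hν g hg => by rw [← bt_ro, hk x O hO _ (bt_loc hν) g hg], fun S hS =>
    hc.unique hr (bt_lb h b) ⟨f, hf, Finsupp.onFinset S k fun x => not_imp_comm.1 (hS x), hk, ?_⟩⟩
  exact Finsupp.onFinset_sum _ fun _ => rfl

theorem bt_two (h : Rp T) (a b : Ad T) {c : ZMod (2 ^ 1)}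
    (hc : Pair T (-1) a.1 (fun g => (2 : ℤ_[2]) • b.1 g) c) (S : Finset (Option (kk F)))
    (γ : Option (kk F) → Gam F) (μ : Option (kk F) → V)
    (h1 : ∀ x, x ∉ S → ∀ O, Over O x → GoodAt T O) (h2 : ∀ x ∈ S, Gen x (γ x))
    (h3 : ∀ x ∈ S, b.1 (γ x) - hL T (γ x) (μ x) ∈ Dv 1) :
    c = ∑ x ∈ S, red 1 (om (a.1 (γ x)) (μ x)) := by
  obtain ⟨k, hk, hS⟩ := bt_fin h prim_one a b (f := fun _ => 0) ⟨fun g _ l _ => by
    rw [map_smul, om_smul_right, red_even, add_zero, add_zero], .of_forall fun _ _ => rfl⟩ hc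
  rw [hS S fun x hx => ?_]
  · refine Finset.sum_congr rfl fun x hx => ?_
    obtain ⟨O, hO, hg, hs⟩ := h2 x hx
    obtain ⟨ν, hν⟩ := h.adm b hO
    obtain ⟨μ', hμ⟩ := h.adm a hO
    have h4 := hk x O hO ν hν _ hg
    have h5 := h3 x hx
    rw [hν _ hg, ← map_sub] at h5
    obtain ⟨d, hd⟩ := om_dvd_right μ' h5
    have h6 := om_hL (h.geo _ hg.1) μ' (ν - μ x)
    rw [← sg, hs, mul_one, zero_sub, ← map_neg] at h4
    rw [← h4, red_eq, hμ _ hg]
    rw [om_sub_right] at h6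
    rw [om_sub_right, om_smul_right]
    exact ⟨om (hL T (γ x) μ') (hL T (γ x) (ν - μ x)) - d - om (hL T (γ x) μ') (hL T (γ x) ν),
      by linear_combination h6 - hd⟩
  · obtain ⟨g, O, hO, hg, hs⟩ := exists_gen x
    obtain ⟨ν, hν⟩ := h.adm b hO
    have h4 := hk x O hO ν hν g hg
    rw [← sg, hs, mul_one, loc_good a.2.2 hO (h1 x hx O hO) hg, om_zero_left, map_zero,
      sub_zero] at h4
    exact h4.symm

theorem bt_quad (h : Rp T) (a : Ad T) {m : ℕ} (hr : IsPrimitiveRoot r (2 ^ (m + 1))) {c : ℤ_[2]}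
    (hc : Pair T r a.1 (fun g => (2 : ℤ_[2]) • a.1 g) (red (m + 1) c)) (z : Gam F → ℤ_[2])
    (hm : 1 ≤ m) (hz : Hm (Geo F) fun g => hq' m (m + 1) le_rfl ⟨a.1 g, z g, PG T g⟩)
    (h1 : ∀ c, ∃ γ μ, Gen (some c) γ ∧
      hq' m (m + 1) le_rfl ⟨a.1 γ, z γ, PG T γ⟩ = hq' m (m + 1) le_rfl (th μ (PG T γ)))
    (γ : Gam F) (μ : V) (hγ : Gen none γ) (hμ : a.1 γ = hL T γ μ) :
    ∃ u : ℤ_[2], 2 ^ (m + 1) ∣ z γ - om μ (hL T γ μ) - (2 * u + 1) * c := by
  obtain ⟨k, hk, hS⟩ := bt_fin h hr a a (f := fun g => red (m + 1) (z g)) ⟨fun g hg l hl => by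
    have h2 := hz.mul g hg l hl
    rw [← map_mul, hq_eq] at h2
    have h3 := h2.2.1
    rw [Hs.mul_z, PG_val, h.geo g hg, one_mul] at h3
    rw [← map_add, ← map_add, red_eq, map_smul, om_smul_right]
    exact h3, hz.near.mono fun g hg hg' => by
      have h2 := hg hg' hg'
      rw [← map_one (hq' m (m + 1) le_rfl), hq_eq] at h2
      have h3 := h2.2.1
      rw [Hs.one_z, sub_zero] at h3
      exact red_eq_zero.2 h3⟩ hc
  have key : ∀ x γ μ, Gen x γ → a.1 γ - hL T γ μ ∈ Dv m → IsUnit (kap r (m + 1) (pl x) γ) ∧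
      red (m + 1) (z γ - om μ (hL T γ μ)) = k x * kap r (m + 1) (pl x) γ := fun x γ μ hγ h2 => by
    obtain ⟨O, hO, hg, hs⟩ := id hγ
    obtain ⟨ν, hν⟩ := h.adm a hO
    rw [hν γ hg, ← map_sub] at h2
    have h3 := (hq_eq.1 (th_congr (h := le_rfl) (g := PG T γ) (h.geo γ hg.1)
      (h.om_self hγ hm h2) h2)).2.1
    refine ⟨kap_unit_of_sg hr hg.1 hs, ?_⟩
    rw [← hk x O hO ν hν γ hg, ← map_sub, red_eq, hν γ hg, om_sub_right, om_smul_right,
      MP_16ef92_ag.om_self, om_swap _ ν]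
    exact h3.trans (dvd_of_eq (by simp only [th_z, hL]; ring))
  have h2 := hS {none} fun x hx => by
    obtain ⟨d, rfl⟩ := Option.ne_none_iff_exists'.1 (Finset.notMem_singleton.1 hx)
    obtain ⟨γ, μ, h3, h4⟩ := h1 d
    rw [hq_eq] at h4
    obtain ⟨h5, h6⟩ := key _ γ μ h3 h4.1
    exact h5.mul_left_eq_zero.1 (h6.symm.trans (red_eq_zero.2 h4.2.1))
  obtain ⟨h3, h4⟩ := key none γ μ hγ (by rw [hμ, sub_self]; exact zero_mem _)
  obtain ⟨w, hw⟩ := red_surj (kap r (m + 1) (pl none) γ)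
  rw [Finset.sum_singleton] at h2
  rw [← hw] at h3 h4
  obtain ⟨u, rfl | rfl⟩ := parity w
  · have h5 := h3.map (ZMod.castHom (pow_dvd_pow 2 (Nat.le_add_left 1 m)) (ZMod (2 ^ 1)))
    rw [bt_cast (Nat.le_add_left 1 m), red_even, isUnit_zero_iff] at h5
    exact absurd h5 (by decide)
  · exact ⟨u, red_eq.1 (by rw [h4, ← h2, map_mul, mul_comm])⟩

/-- The 2-adic cup product pairing. -/
theorem exists_bt (h : Rp T) : ∃ B, BtS T B := by
  obtain ⟨ζ, h1, h2, h3⟩ := bt_zeta (F := F)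
  have h4 : ∀ a b : Ad T, ∃ x : V, ∀ n,
      Pair T (ζ n) a.1 (fun g => (2 : ℤ_[2]) • b.1 g) (red n x.1) := fun a b =>
    lim (fun n x => Pair T (ζ n) a.1 (fun g => (2 : ℤ_[2]) • b.1 g) (red n x.1)) (fun n => by
      obtain ⟨k, hk⟩ := exists_pair (h1 n) h.geo a.2.1 (b.2.1.smul 2) a.2.2 (bt_lb h b)
      obtain ⟨c, rfl⟩ := red_surj k
      exact ⟨(c, 0), hk⟩) (fun n x hx => h2 n ▸ bt_down (h1 _) hx) fun n x y hx hy => by
      rwa [red_eq.2 hy.1]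
  choose B hB using h4
  have hU : ∀ a b c, (∀ n, Pair T (ζ n) a.1 (fun g => (2 : ℤ_[2]) • b.1 g) (red n c)) →
      (B a b).1 = c := fun a b c hc => sub_eq_zero.1 (eq_zero_of_dvd fun n =>
    red_eq.1 ((hB a b n).unique (h1 n) (bt_lb h b) (hc n)))
  have h5 : ∀ a b, (B a b).1 = (B b a).1 := fun a b =>
    hU a b _ fun n => bt_symm h (h1 n) b a (hB b a n)
  have h6 : ∀ a a' b, (B (a + a') b).1 = (B a b).1 + (B a' b).1 := fun a a' b =>
    hU _ b _ fun n => by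
      rw [map_add]
      exact (hB a b n).add (hB a' b n)
  have h7 : ∀ (c : ℤ_[2]) a b, (B (c • a) b).1 = c • (B a b).1 := fun c a b =>
    hU _ b _ fun n => by
      rw [smul_eq_mul, map_mul]
      exact (hB a b n).smul c
  refine ⟨LinearMap.mk₂ ℤ_[2] (fun a b => (B a b).1) h6 h7
    (fun a b b' => by rw [h5, h6, h5 b, h5 b']) fun c a b => by rw [h5, h7, h5 b], h5, ?_, ?_,
    fun a b => bt_two h a b (h3 ▸ hB a b 1),
    fun a m z => bt_quad h a (h1 _) (hB a a _) z⟩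
  · rintro a ⟨t, ht⟩ b
    refine mul_left_cancel₀ two_ne_zero (((h7 2 a b).symm.trans (hU _ b 0 fun n => ?_)).trans
      (mul_zero 2).symm)
    rw [map_zero]
    refine (pair_cob h.geo (b.2.1.smul 2) (-t)).congr (fun g hg => ?_) fun _ _ => rfl
    change (2 : ℤ_[2]) • a.1 g = _
    rw [ht g hg, two_hL, map_neg]
    abel
  · refine fun s Q hs hQ hd a b => hU _ _ _ fun n => ?_
    obtain ⟨u, hu⟩ := IsUnit.exists_left_inv (a := (Q : ZMod (2 ^ n))) (by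
      rw [ZMod.isUnit_iff_coprime]
      exact Nat.Coprime.pow_right _ (Nat.coprime_two_right.2 hQ))
    have h8 := (hB a b n).tw (h1 n) (hs.root (by positivity) (h1 n).pow_eq_one) hu
    rw [hd, map_natCast, mul_comm _ u, hu, one_mul] at h8
    exact h8.congr (fun _ _ => rfl) fun g _ => (map_smul _ _ _).symm

end

end Pool.Agent.Lib.MP_16ef92_ag.GF
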