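import Mathlib
import Pool.Agent.Lib.MP_16ef92_ag.GF.Pres

set_option autoImplicit false
set_option linter.unusedSectionVars false
set_option linter.unusedVariables false

namespace Pool.Agent.Lib.MP_16ef92_ag.GF

open Polynomial
open scoped Classical

noncomputable section

variable {F : Type} [Field F] [Clos F] [Fintype F] [hq : Fact (Odd (Fintype.card F))]

theorem sg_pow {z : Om F} {g : Gam F} (hz : g z = z) (h0 : z ≠ 0) (n : ℕ) :
    sg (z ^ n) g = n * sg z g := by
  simpa [sg] using kap_zpow prim_one (fix_neg_one g) hz h0 n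

theorem sg_ev_mul {p r : F[X]} (hp : p ≠ 0) (hr : r ≠ 0) (g : Gam F) :
    sg (ev (p * r)) g = sg (ev p) g + sg (ev r) g := by
  rw [ev, map_mul]
  exact sg_mul_left (gam_ev _ _) (ev_ne hp) (gam_ev _ _) (ev_ne hr)

theorem sg_ev_one (g : Gam F) : sg (ev (1 : F[X])) g = 0 := by
  simpa using sg_ev_mul (one_ne_zero (α := F[X])) one_ne_zero g

theorem sg_ev_prod {ι : Type} (t : Finset ι) {p : ι → F[X]} (hp : ∀ i ∈ t, p i ≠ 0) (g : Gam F) :
    sg (ev (∏ i ∈ t, p i)) g = ∑ i ∈ t, sg (ev (p i)) g := by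
  induction t using Finset.induction_on with
  | empty => simpa using sg_ev_one g
  | insert a t ha ih =>
    have h1 := fun i hi => hp i (Finset.mem_insert_of_mem hi)
    rw [Finset.prod_insert ha, Finset.sum_insert ha,
      sg_ev_mul (hp a (Finset.mem_insert_self _ _)) (Finset.prod_ne_zero_iff.2 h1), ih h1]

theorem sg_split (p : F[X]) (hp : p ≠ 0) (g : Gam F) :
    sg (ev p) g = sg (ev p / tt F ^ p.natDegree) g + p.natDegree * sg (tt F) g := by
  have h0 : tt F ^ p.natDegree ≠ 0 := pow_ne_zero _ tt_ne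
  rw [← sg_pow (gam_tt g) tt_ne, ← sg_mul_left (by rw [map_div₀, map_pow, gam_tt, gam_ev])
    (div_ne_zero (ev_ne hp) h0) (by rw [map_pow, gam_tt]) h0, div_mul_cancel₀ _ h0]

/-- The quadratic character of a polynomial on inertia at infinity. -/
theorem sg_ev_inf {p : F[X]} (hp : p ≠ 0) {γ : Gam F} (h : Gen none γ) :
    sg (ev p) γ = p.natDegree := by
  obtain ⟨O, h1, h2, h3⟩ := h
  have h4 : sg (tt F) γ = 1 := by
    have := kap_inv_left prim_one (fix_neg_one γ) (gam_tt γ) tt_ne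
    rw [neg_z2] at this
    exact this.symm.trans h3
  rw [sg_split p hp, h4, mul_one, sg, h1.kap_unit prim_one h2
    (by rw [map_div₀, map_pow, gam_tt, gam_ev]) (val_inf_poly h1 hp), zero_add]

theorem val_inf_monic {O : ValuationSubring (Om F)} (h : Over O none) {p : F[X]} (hp : p.Monic) :
    O.valuation (ev p / tt F ^ p.natDegree - 1) < 1 := by
  have h1 := poly_sub O (w := (tt F)⁻¹) (c := 0) (by simpa [Over, pl] using h)
    (p.reverse.map (algebraMap F (kk F)))
  have : Invertible (tt F) := invertibleOfNonzero tt_ne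
  have h2 := eval₂_reverse_mul_pow (algebraMap F (Om F)) (tt F) p
  rw [invOf_eq_inv, ← aeval_def, ← aeval_def] at h2
  rw [aeval_map_algebraMap, ← coeff_zero_eq_eval_zero, coeff_map, coeff_zero_reverse,
    hp.leadingCoeff, map_one] at h1
  rwa [ev, ← h2, mul_div_cancel_right₀ _ (pow_ne_zero _ tt_ne)]

variable [Fro F]

/-- The quadratic character of a monic polynomial at the chosen Frobenius element. -/
theorem sg_ev_ss {p : F[X]} (hp : p.Monic) :
    sg (ev p) (ss F) = p.natDegree * sg (tt F) (ss F) := by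
  rw [sg_split p hp.ne_zero, sg_one_unit Fro.st (by rw [map_div₀, map_pow, gam_tt, gam_ev])
    (val_inf_monic Fro.ov hp), zero_add]

theorem Prm.aeval_eq {r : F[X]} (hr : Prm r) {c : kk F} (hc : aeval c r = 0) (x : kk F) :
    aeval x r = ∏ j ∈ Finset.range r.natDegree, (x - ck (ss F ^ j) c) := by
  have h0 : r.map (algebraMap F (kk F)) ≠ 0 := Polynomial.map_ne_zero hr.ne
  have h1 : (∏ j ∈ Finset.range r.natDegree, (X - C (ck (ss F ^ j) c))) ∣
      r.map (algebraMap F (kk F)) := by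
    refine Finset.prod_dvd_of_coprime (fun i hi j hj e => ?_) fun j _ => ?_
    · exact isCoprime_X_sub_C_of_isUnit_sub (IsUnit.mk0 _ (sub_ne_zero.2 fun e' =>
        e (hr.orb_inj hc (Finset.mem_range.1 hi) (Finset.mem_range.1 hj) e')))
    · rw [dvd_iff_isRoot, IsRoot, eval_map_algebraMap]
      exact root_ck.2 hc
  have h2 := eq_of_monic_of_dvd_of_natDegree_le
    (monic_prod_of_monic _ _ fun j _ => monic_X_sub_C _) (hr.1.map _) h1 (by
      rw [natDegree_prod_of_monic _ _ fun j _ => monic_X_sub_C _]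
      simp)
  rw [← eval_map_algebraMap, h2, eval_prod]
  simp

theorem sg_frob {p r : F[X]} (hp : Prm p) {σ f : Gam F} (h : Dec p σ f) (hr : Prm r) (hne : p ≠ r) :
    ∃ c : kk F, aeval c p = 0 ∧ ch (-1 : Om F) (sg (ev r) f) =
      ((∏ i ∈ Finset.range p.natDegree, aeval (ck (ss F ^ i) c) r) ^ (Fintype.card F / 2) : kk F) := by
  obtain ⟨c, O, h1, h2, h3, h4, h5, h6⟩ := h
  refine ⟨c, h1, ?_⟩
  have h7 : aeval c r ≠ 0 := fun e => hne (hp.root_unique hr h1 e)
  obtain ⟨w, hw⟩ := exists_sq (ev r)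
  obtain ⟨d, hd, h8⟩ : ∃ d : kk F, d ^ 2 = aeval c r ∧ O.valuation (w - d) < 1 := by
    obtain ⟨d, hd⟩ := IsAlgClosed.exists_pow_nat_eq (aeval c r) two_pos
    have h9 := ev_sub h2 r
    rw [← hw, ← hd, show w ^ 2 - ((d ^ 2 : kk F) : Om F) = (w - d) * (w - (-d : kk F)) by
      push_cast; ring, map_mul] at h9
    by_cases e : O.valuation (w - d) < 1
    · exact ⟨d, hd, e⟩
    · exact ⟨-d, by rw [neg_sq, hd], lt_of_not_ge fun e' =>
        absurd h9 (not_lt.2 (one_le_mul (not_lt.1 e) e'))⟩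
  have hd0 : d ≠ 0 := fun e => h7 (by rw [← hd, e]; simp)
  let ε : kk F := ⟨_, ch_mem prim_one (sg (ev r) f)⟩
  have h9 : ε * d = d ^ Fintype.card F ^ p.natDegree := by
    apply const_eq O
    have h10 := st_lt h5 h8
    rw [map_sub, sg_spec (gam_ev _ _) (ev_ne hr.ne) hw, fr_of h6 d] at h10
    have h11 := Valuation.map_sub_lt _ h10 (val_mul_lt O (val_const_le O ε) h8)
    convert h11 using 2
    push_cast
    change _ = (ε : Om F) * w - _ - _
    ring
  have h10 : ∀ n, d ^ Fintype.card F ^ n = (∏ i ∈ Finset.range n,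
      aeval (ck (ss F ^ i) c) r) ^ (Fintype.card F / 2) * d := by
    intro n
    induction n with
    | zero => simp
    | succ n ih =>
      have h11 : Fintype.card F ^ (n + 1) =
          2 * Fintype.card F ^ n * (Fintype.card F / 2) + Fintype.card F ^ n := by
        have := Nat.two_mul_div_two_add_one_of_odd hq.out
        generalize Fintype.card F / 2 = k at *
        rw [← this]
        ring
      rw [Finset.prod_range_succ, aeval_ck, ck_pow, ← hd, h11, pow_add, ih, mul_pow, ← pow_mul,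
        ← pow_mul]
      ring
  rw [h10] at h9
  exact congrArg Subtype.val (mul_right_cancel₀ hd0 h9)

/-- Quadratic reciprocity. -/
theorem sg_recip {p r : F[X]} (hp : Prm p) (hr : Prm r) (hne : p ≠ r) {σ f σ' f' : Gam F}
    (h : Dec p σ f) (h' : Dec r σ' f') : sg (ev r) f + sg (ev p) f' =
      (p.natDegree * r.natDegree * (Fintype.card F / 2) : ℕ) := by
  obtain ⟨c, h1, h2⟩ := sg_frob hp h hr hne
  obtain ⟨d, h3, h4⟩ := sg_frob hr h' hp hne.symm
  simp only [hr.aeval_eq h3] at h2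
  simp only [hp.aeval_eq h1] at h4
  rw [Finset.prod_comm] at h4
  rw [← eq_sub_iff_add_eq', sub_eq_add_neg, neg_z2]
  apply ch_inj (prim_one (F := F))
  rw [ch_add prim_one, ch_nat prim_one, h2, h4]
  have : ∀ i j, ck (ss F ^ j) d - ck (ss F ^ i) c = -1 * (ck (ss F ^ i) c - ck (ss F ^ j) d) :=
    fun i j => by ring
  simp only [this, Finset.prod_mul_distrib, Finset.prod_const, Finset.card_range, mul_pow,
    ← pow_mul]
  push_cast
  rw [mul_comm r.natDegree]

theorem pg_two {A : Type} [AddCommGroup A] [Module Z2 A] : IsPGroup 2 (Multiplicative A) :=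
  fun x => ⟨1, by
    have : ((2 : ℕ) : Z2) • x.toAdd = 0 := by rw [show ((2 : ℕ) : Z2) = 0 from rfl, zero_smul]
    rw [Nat.cast_smul_eq_nsmul] at this
    exact this⟩

theorem ch_smul {A : Type} [AddCommGroup A] [Module Z2 A] {H : Subgroup (Gam F)} {u : Gam F → Z2}
    (h : Ch H u) (a : A) : Ch H fun g => u g • a :=
  h.map ((LinearMap.toSpanSingleton Z2 A a).toAddMonoidHom)

theorem unr_ev {p : F[X]} {Y : Set F[X]} (hp : p ∈ Y) : Unr0 (sg (ev p)) Y :=
  fun c O hO hc g hg => hO.kap_unit prim_one hg (gam_ev _ _) (over_ev hO (hc p hp))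

/-- Expansion of a character of exponent two of the Weil group. -/
theorem Lp.w_expand {Z : Finset F[X]} {σ f : F[X] → Gam F} (h : Lp Z σ f) {A J : Type}
    [AddCommGroup A] [Module Z2 A] [Finite A] [Fintype J] {pr : J → F[X]}
    (hi : Function.Injective pr) (hZ : ∀ j, pr j ∈ Z) {u : Gam F → A} (hu : Ch (WW F) u)
    (h0 : Unr0 u Z) (h1 : ∀ p ∈ Z, p ∉ Set.range pr → u (σ p) = 0) {g : Gam F} (hg : g ∈ WW F) :
    u g = ∑ j, sg (ev (pr j)) g • u (σ (pr j)) + (dg g : Z2) •
      (u (ss F) - sg (tt F) (ss F) • ∑ j, ((pr j).natDegree : Z2) • u (σ (pr j))) := by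
  have h2 : Ch (WW F) fun g => ∑ j, sg (ev (pr j)) g • u (σ (pr j)) + (dg g : Z2) •
      (u (ss F) - sg (tt F) (ss F) • ∑ j, ((pr j).natDegree : Z2) • u (σ (pr j))) :=
    (Ch.sum _ fun j _ => ch_smul (ch_ev (h.prm _ (hZ j)).ne) _).add
      (ch_smul (ch_dg.map (Int.castAddHom Z2)) _)
  refine h.w_ext pg_two hu.hm h2.hm h0 (fun c O hO hc l hl => ?_) ?_ (fun p hp => ?_) hg
  · simp [dg_geo hl.1, fun j => unr_ev (Y := Z) (hZ j) c O hO hc l hl]
  · simp only [dg_ss, fun j => sg_ev_ss (h.prm _ (hZ j)).1, Finset.smul_sum, ← mul_smul,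
      mul_comm (sg (tt F) (ss F)), Int.cast_one, one_smul, add_sub_cancel]
  · simp only [dg_geo (h.dec p hp).geo, fun j => sg_dec (h.prm _ (hZ j)) (h.prm p hp) (h.dec p hp),
      Int.cast_zero, zero_smul, add_zero, EmbeddingLike.apply_eq_iff_eq]
    by_cases e : p ∈ Set.range pr
    · obtain ⟨j, rfl⟩ := e
      simp [hi.eq_iff]
    · rw [h1 p hp e, Finset.sum_eq_zero fun j _ => by rw [if_neg fun e' => e ⟨j, e'⟩, zero_smul]]

end

end Pool.Agent.Lib.MP_16ef92_ag.GF
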