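import Mathlib
import Pool.Agent.Lib.MP_16ef92_ag.Defs

set_option autoImplicit false

namespace Pool.Agent.Lib.MP_16ef92_ag.GF

noncomputable section

variable {F : Type} [Field F] {L : Type} [Field L] [Algebra (RatFunc F) L] [DecidableEq L]
  {W : WeierstrassCurve (RatFunc F)}

/-- The action of a 2-adic integer on cochains with values in the Tate module: on the point of
level `n` it acts through its residue modulo `2 ^ n`. -/
def zsm (a : ℤ_[2]) (c : GalK F L → ℕ → Pts L W) : GalK F L → ℕ → Pts L W :=
  fun g n => (PadicInt.toZModPow n a).val • c g n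

variable [Fintype F] [Algebra F L] (L W)

/-- For every Frobenius element `s`, the eigenvalue 1 of `s` on classes modulo torsion is
semisimple, and its eigenspace has rank at most one. -/
def Good : Prop :=
  ∀ s : GalK F L, (∀ c : L, IsAlgebraic F c → s c = c ^ Fintype.card F) →
    (∀ c : GalK F L → ℕ → Pts L W, IsClass c → IsNull (subOne s (subOne s c)) →
      IsNull (subOne s c)) ∧
    ∀ c₁ c₂ : GalK F L → ℕ → Pts L W, IsClass c₁ → IsClass c₂ → IsNull (subOne s c₁) →
      IsNull (subOne s c₂) → ∃ a b : ℤ_[2], (a ≠ 0 ∨ b ≠ 0) ∧ IsNull (zsm a c₁ + zsm b c₂)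

end

end Pool.Agent.Lib.MP_16ef92_ag.GF
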