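import Mathlib
import Pool.Agent.Lib.MP_16ef92_ag.GF.Good

set_option autoImplicit false

namespace Pool.Agent.Lib.MP_16ef92_ag.GF

noncomputable section

variable {F : Type} [Field F] [Fintype F] (L : Type) [Field L] [Algebra (RatFunc F) L]
  [DecidableEq L] [Algebra F L] (W : WeierstrassCurve (RatFunc F))

/-- For every Frobenius element `s` there is a class `c₀` fixed by `s` such that, modulo torsion,
the kernel of `(s - 1) ^ 2` lies in the `ℚ_2`-span of `c₀`. -/
def Simple : Prop :=
  ∀ s : GalK F L, (∀ c : L, IsAlgebraic F c → s c = c ^ Fintype.card F) →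
    ∃ c₀ : GalK F L → ℕ → Pts L W, IsClass c₀ ∧ IsNull (subOne s c₀) ∧
      ∀ c : GalK F L → ℕ → Pts L W, IsClass c → IsNull (subOne s (subOne s c)) →
        ∃ a b : ℤ_[2], a ≠ 0 ∧ IsNull (zsm a c + zsm b c₀)

end

end Pool.Agent.Lib.MP_16ef92_ag.GF
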