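import Mathlib
import Pool.Agent.Lib.MP_16ef92_ag.GF.Lift
import Pool.Agent.Lib.MP_16ef92_ag.GF.Good

set_option autoImplicit false
set_option linter.unusedSectionVars false
set_option linter.unusedVariables false

namespace Pool.Agent.Lib.MP_16ef92_ag.GF

open Polynomial
open scoped Classical

noncomputable section

variable {F : Type} [Field F] [Clos F] [Fintype F] [hq : Fact (Odd (Fintype.card F))]
variable {e : Fin 3 → Om F} {T : TD e} {W : WeierstrassCurve (RatFunc F)}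

theorem FF_congr {s s' : Gam F} (h : s' * s⁻¹ ∈ Geo F) : FM T s' = FM T s := by
  obtain ⟨g0, hg0, rfl⟩ : ∃ g0 ∈ Geo F, s' = g0 * s := ⟨_, h, by group⟩
  refine LinearMap.ext fun c => ?_
  obtain ⟨a, rfl⟩ := (Nu T).mkQ_surjective c
  rw [FF_mk, FF_mk, mk_eq_mk]
  have hb := (twL T s a).2.1
  refine ⟨-((2 : ℤ_[2]) • (twL T s a).1 g0), fun g hg => ?_⟩
  have h1 := hb.mul g hg g0 hg0
  have h2 := hb.mul g0 hg0 _ (geo_conj hg g0)
  rw [show g0 * (g0⁻¹ * g * g0) = g * g0 by group, h1] at h2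
  have h3 : (twL T (g0 * s) a).1 g = T.ro g0 ((twL T s a).1 (g0⁻¹ * g * g0)) := by
    rw [twL_apply, twL_apply, ro_mul,
      show (g0 * s)⁻¹ * g * (g0 * s) = s⁻¹ * (g0⁻¹ * g * g0) * s by group]
  rw [h3, map_neg, map_smul, two_hL]
  linear_combination (norm := module) -h2

theorem red_geo {s s' : Gam F} {Q : ℕ} (hs : Fr s Q) (hs' : Fr s' Q) : s' * s⁻¹ ∈ Geo F := by
  refine mem_geo fun c => ?_
  rw [AlgEquiv.mul_apply, ← ck_val, hs', ← hs, ck_val, ← AlgEquiv.mul_apply, mul_inv_cancel,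
    AlgEquiv.one_apply]

theorem red_tf (h : Rp T) (j : ℕ) {x : MM T} (hx : (2 : ℤ_[2]) ^ j • x = 0) : x = 0 := by
  induction j with
  | zero => simpa using hx
  | succ j ih => exact ih (h.lt.tf _ (by rw [← mul_smul, ← pow_succ', hx]))

/-- Translation of the failure into the lattice of classes. -/
theorem not_good (h : Rp T) {ev' : V →+ ℕ → Pt W} (hin : ∀ x, InTate (ev' x))
    (hsurj : ∀ P, InTate P → ∃ x, ev' x = P) (hker : ∀ n x, ev' x n = 0 ↔ x ∈ Dv n)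
    (hro : ∀ g x, ev' (T.ro g x) = act g (ev' x)) {s : Gam F} (hs : Fr s (Fintype.card F))
    (hbad : ¬ Good (Om F) W) :
    (∃ c, FM T s (FM T s c - c) = FM T s c - c ∧ FM T s c ≠ c) ∨
      ∃ c₁ c₂, FM T s c₁ = c₁ ∧ FM T s c₂ = c₂ ∧
        ∀ α β : ℤ_[2], α • c₁ + β • c₂ = 0 → α = 0 ∧ β = 0 := by
  have hinj : ∀ x y, ev' x = ev' y → x = y := fun x y e => by
    rw [← sub_eq_zero]
    exact eq_zero_of_Dv fun n => (hker n _).1 (by rw [map_sub, e, sub_self]; rfl)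
  have hpow : ∀ (j : ℕ) x, ev' ((2 : ℤ_[2]) ^ j • x) = 2 ^ j • ev' x := fun j x => by
    rw [← map_nsmul, ← Nat.cast_smul_eq_nsmul ℤ_[2]]
    simp
  have hsm : ∀ (a : ℤ_[2]) x, ev' (a • x) = fun n => (red n a).val • ev' x n := fun a x => by
    funext n
    obtain ⟨z, hz⟩ : (2 : ℤ_[2]) ^ n ∣ a - ((red n a).val : ℕ) := red_eq.1 (by simp)
    have h1 := (hker n ((a - ((red n a).val : ℕ)) • x)).2 (by
      rw [hz, mul_smul]
      exact smul_mem_Dv _ _)
    rw [sub_smul, map_sub, Nat.cast_smul_eq_nsmul, map_nsmul, Pi.sub_apply, sub_eq_zero] at h1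
    exact h1
  have hcl : ∀ c : Gam F → ℕ → Pt W, IsClass c → ∃ y : Ad T, ∀ g ∈ Geo F, ev' (y.1 g) = c g := by
    intro c hc
    have hy : ∀ g, ∃ x, g ∈ Geo F → ev' x = c g := by
      intro g
      by_cases hg : g ∈ Geo F
      · exact (hsurj _ (hc.mem g hg)).imp fun x hx _ => hx
      · exact ⟨0, fun h => (hg h).elim⟩
    choose y hy using hy
    have hCy : ∀ g ∈ Geo F, ∀ l ∈ Geo F, y (g * l) = y g + T.ro g (y l) := fun g hg l hl =>
      hinj _ _ (by rw [map_add, hro, hy _ (mul_mem hg hl), hy g hg, hy l hl, hc.mul g hg l hl])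
    have h1 : y 1 = 0 := by
      have := hCy 1 (one_mem _) 1 (one_mem _)
      rwa [mul_one, ro_one, left_eq_add] at this
    have hcy : Cy T y := ⟨hCy, fun n =>
      (Near.of_locConst (Geo F) (fun g => c g n) (hc.cont n)).mono fun g hg hg' => (hker n _).1 (by
        rw [hy g hg', hg hg', ← hy 1 (one_mem _), h1, map_zero]
        rfl)⟩
    have hlt : LT T y := fun O x hO => by
      obtain ⟨j, m, hm, h3⟩ := hc.loc O hO.ne_top
      obtain ⟨m, rfl⟩ := hsurj m hm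
      exact ⟨j, m, fun g hg => hinj _ _ (by rw [hpow, map_sub, hro, hy g hg.1, h3 g hg.1 hg.2])⟩
    exact ⟨⟨y, hcy, hlt⟩, hy⟩
  have hnull : ∀ (y : Ad T) (c : Gam F → ℕ → Pt W), (∀ g ∈ Geo F, ev' (y.1 g) = c g) →
      (IsNull c ↔ (Nu T).mkQ y = 0) := by
    intro y c hy
    rw [isNull_iff]
    constructor
    · rintro ⟨j, m, hm, h3⟩
      obtain ⟨m, rfl⟩ := hsurj m hm
      refine red_tf h j ?_
      rw [← map_smul, Submodule.mkQ_apply, Submodule.Quotient.mk_eq_zero, mem_Nu]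
      refine ⟨-((2 : ℤ_[2]) • m), fun g hg => ?_⟩
      rw [map_neg, map_smul, two_hL, neg_sub]
      exact hinj ((2 : ℤ_[2]) ^ j • y.1 g) _ (by rw [hpow, hy g hg, h3 g hg, map_sub, hro])
    · intro h0
      rw [Submodule.mkQ_apply, Submodule.Quotient.mk_eq_zero, mem_Nu] at h0
      obtain ⟨t, ht⟩ := h0
      refine ⟨1, ev' (-t), hin _, fun g hg => ?_⟩
      rw [← hy g hg, ← hpow, ← hro, ← map_sub, ht g hg, pow_one, two_hL, map_neg]
      exact congrArg ev' (by abel)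
  by_contra hc
  rw [not_or] at hc
  refine hbad fun s' hs' => ?_
  have hF : FM T s' = FM T s := FF_congr (red_geo hs fun c => hs' c (kk_alg c))
  have hsub : ∀ (y : Ad T) (c : Gam F → ℕ → Pt W), (∀ g ∈ Geo F, ev' (y.1 g) = c g) →
      ∀ g ∈ Geo F, ev' ((twL T s' y - y).1 g) = subOne s' c g := fun y c hy g hg => by
    change ev' (T.ro s' (y.1 (s'⁻¹ * g * s')) - y.1 g) = _
    rw [map_sub, hro, hy _ (geo_conj hg s'), hy g hg]
    rfl
  have hmk : ∀ y : Ad T, (Nu T).mkQ (twL T s' y - y) = FM T s ((Nu T).mkQ y) - (Nu T).mkQ y :=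
    fun y => by rw [map_sub, ← FF_mk, hF]
  refine ⟨fun c h1 h2 => ?_, fun c₁ c₂ h1 h2 n1 n2 => ?_⟩
  · obtain ⟨y, hy⟩ := hcl c h1
    rw [hnull _ _ (hsub _ _ (hsub y c hy)), hmk, hmk, sub_eq_zero] at h2
    rw [hnull _ _ (hsub y c hy), hmk, sub_eq_zero]
    by_contra h3
    exact hc.1 ⟨_, h2, h3⟩
  · obtain ⟨y₁, hy₁⟩ := hcl c₁ h1
    obtain ⟨y₂, hy₂⟩ := hcl c₂ h2
    rw [hnull _ _ (hsub y₁ c₁ hy₁), hmk, sub_eq_zero] at n1
    rw [hnull _ _ (hsub y₂ c₂ hy₂), hmk, sub_eq_zero] at n2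
    by_contra h3
    refine hc.2 ⟨_, _, n1, n2, fun α β h4 => ?_⟩
    by_contra h5
    refine h3 ⟨α, β, not_and_or.1 h5, (hnull (α • y₁ + β • y₂) _ fun g hg => ?_).2 ?_⟩
    · change ev' (α • y₁.1 g + β • y₂.1 g) = _
      rw [map_add, hsm, hsm, hy₁ g hg, hy₂ g hg]
      rfl
    · rw [map_add, map_smul, map_smul, h4]

end

end Pool.Agent.Lib.MP_16ef92_ag.GF
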