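import Mathlib
import Pool.Agent.Lib.MP_16ef92_ag.GF.Count
import Pool.Agent.Lib.MP_16ef92_ag.GF.Anat1

set_option autoImplicit false
set_option linter.unusedSectionVars false
set_option linter.unusedVariables false

namespace Pool.Agent.Lib.MP_16ef92_ag.GF

open Polynomial Filter
open scoped Classical

noncomputable section

variable {F : Type} [Field F] [Fintype F]

/-- The binary length of `d`. -/
def lam (d : ℕ) : ℕ := Nat.log 2 d + 1

/-- A typical factorisation pattern in degree `d`: a set `Y` of small primes and distinct large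
degrees `n i`, many of them odd. -/
structure Pat (c M d : ℕ) (Y : Finset F[X]) {m : ℕ} (n : Fin m → ℕ) : Prop where
  prm : ∀ p ∈ Y, Prm p
  small : ∀ p ∈ Y, p.natDegree < lam d ^ c
  inj : Function.Injective n
  large : ∀ i, lam d ^ c ≤ n i
  deg : ∑ p ∈ Y, p.natDegree + ∑ i, n i = d
  few : Y.card + m ≤ lam d ^ 2
  odd : M * (Y.card + 1) ≤ (Finset.univ.filter fun i => Odd (n i)).card

theorem an_ne {u : F} (hu : u ≠ 0) {Y : Finset F[X]} (hY : ∀ p ∈ Y, Prm p) {m : ℕ}
    {x : Fin m → F[X]} (hx : ∀ i, Prm (x i)) : C u * (∏ p ∈ Y, p) * ∏ i, x i ≠ 0 :=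
  mul_ne_zero (mul_ne_zero (C_ne_zero.2 hu) (Finset.prod_ne_zero_iff.2 fun p hp => (hY p hp).ne))
    (Finset.prod_ne_zero_iff.2 fun i _ => (hx i).ne)

theorem an_deg {u : F} (hu : u ≠ 0) {Y : Finset F[X]} (hY : ∀ p ∈ Y, Prm p) {m : ℕ}
    {x : Fin m → F[X]} (hx : ∀ i, Prm (x i)) : (C u * (∏ p ∈ Y, p) * ∏ i, x i).natDegree =
      ∑ p ∈ Y, p.natDegree + ∑ i, (x i).natDegree := by
  have h := an_ne hu hY hx
  rw [natDegree_mul (left_ne_zero_of_mul h) (right_ne_zero_of_mul h), natDegree_C_mul hu,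
    natDegree_prod _ _ fun p hp => (hY p hp).ne, natDegree_prod _ _ fun i _ => (hx i).ne]

theorem an_fac {u : F} (hu : u ≠ 0) {Y : Finset F[X]} (hY : ∀ p ∈ Y, Prm p) {m : ℕ}
    {x : Fin m → F[X]} (hx : ∀ i, Prm (x i)) {p : F[X]} :
    p ∈ anF (C u * (∏ p ∈ Y, p) * ∏ i, x i) ↔ p ∈ Y ∨ ∃ i, x i = p := by
  rw [an_memF (an_ne hu hY hx)]
  constructor
  · rintro ⟨h1, h2⟩
    have h3 := h1.2.prime
    rw [h3.dvd_mul, h3.dvd_mul, h3.dvd_finsetProd_iff, h3.dvd_finsetProd_iff] at h2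
    rcases h2 with (h2 | ⟨r, hr, h2⟩) | ⟨i, -, h2⟩
    · exact (h3.not_isUnit (isUnit_of_dvd_unit h2 (isUnit_C.2 hu.isUnit))).elim
    · exact Or.inl (h1.eq_of_dvd (hY r hr) h2 ▸ hr)
    · exact Or.inr ⟨i, (h1.eq_of_dvd (hx i) h2).symm⟩
  · rintro (h | ⟨i, rfl⟩)
    · exact ⟨hY p h, ((Finset.dvd_prod_of_mem (fun p => p) h).mul_left _).mul_right _⟩
    · exact ⟨hx i, (Finset.dvd_prod_of_mem x (Finset.mem_univ i)).mul_left _⟩

theorem an_dec {L : ℕ} {D : F[X]} (hD : Squarefree D) {m : ℕ} {n : Fin m → ℕ}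
    (h : Set.InjOn natDegree (anL L D : Set F[X])) (hn : Function.Injective n)
    (hJ : Set.range n = ((anL L D).image natDegree : Finset ℕ)) :
    ∃ x : Fin m → F[X], (∀ i, Prm (x i) ∧ (x i).natDegree = n i) ∧ Function.Injective x ∧
      anL L D = Finset.univ.image x ∧ D = C D.leadingCoeff * (∏ p ∈ anS L D, p) * ∏ i, x i := by
  have h1 : ∀ i, ∃ p ∈ anL L D, p.natDegree = n i := fun i =>
    Finset.mem_image.1 (Finset.mem_coe.1 (hJ ▸ Set.mem_range_self i))
  choose x hx hxn using h1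
  have h2 : Function.Injective x := fun i j e => hn (by rw [← hxn, ← hxn, e])
  have h3 : anL L D = Finset.univ.image x := by
    refine Finset.Subset.antisymm (fun p hp => ?_) fun p hp => ?_
    · obtain ⟨i, hi⟩ : p.natDegree ∈ Set.range n := by
        rw [hJ]
        exact Finset.mem_coe.2 (Finset.mem_image_of_mem _ hp)
      exact Finset.mem_image.2 ⟨i, Finset.mem_univ _, h (hx i) hp ((hxn i).trans hi)⟩
    · obtain ⟨i, -, rfl⟩ := Finset.mem_image.1 hp
      exact hx i
  refine ⟨x, fun i => ⟨((an_memF hD.ne_zero).1 (Finset.mem_filter.1 (hx i)).1).1, hxn i⟩, h2, h3,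
    ?_⟩
  rw [← Finset.prod_image (f := fun p => p) h2.injOn, ← h3, mul_assoc, anS, anL,
    Finset.prod_filter_mul_prod_filter_not, anF, Finset.prod_eq_multiset_prod,
    Multiset.toFinset_val, ((UniqueFactorizationMonoid.squarefree_iff_nodup_normalizedFactors
      hD.ne_zero).1 hD).dedup, Multiset.map_id', leadingCoeff_mul_prod_normalizedFactors]

theorem an_group {Bad : F[X] → Prop} (hsq : ∀ D, Bad D → Squarefree D) {δ : ℝ} (hδ : 0 ≤ δ)
    {c M d : ℕ} (h : ∀ (u : F), u ≠ 0 →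
      ∀ (Y : Finset F[X]) (m : ℕ) (n : Fin m → ℕ), Pat c M d Y n →
      (((Fintype.piFinset fun i => Pn F (n i)).filter fun x =>
        Bad (C u * (∏ p ∈ Y, p) * ∏ i, x i)).card : ℝ) ≤ δ * ∏ i, ((Pn F (n i)).card : ℝ)) :
    (((anO F d).filter fun D => Bad D ∧ anT (lam d ^ c) (lam d ^ 2) M D).card : ℝ) ≤
      δ * (anO F d).card := by
  set L := lam d ^ c with hL
  let k : F[X] → F × Finset F[X] × Finset ℕ := fun D =>
    (D.leadingCoeff, anS L D, (anL L D).image natDegree)
  rw [Finset.card_eq_sum_card_fiberwise (f := k) (t := (anO F d).image k)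
      fun D hD => Finset.mem_image_of_mem _ (Finset.mem_filter.1 hD).1,
    Finset.card_eq_sum_card_image k (anO F d), Nat.cast_sum, Nat.cast_sum, Finset.mul_sum]
  refine Finset.sum_le_sum ?_
  rintro ⟨u, Y, J⟩ -
  rcases (((anO F d).filter fun D => Bad D ∧ anT L (lam d ^ 2) M D).filter
    fun D => k D = (u, Y, J)).eq_empty_or_nonempty with h0 | ⟨D₀, hD₀⟩
  · rw [h0, Finset.card_empty, Nat.cast_zero]
    positivity
  let n : Fin J.card → ℕ := J.orderEmbOfFin rfl
  have hn : Function.Injective n := (J.orderEmbOfFin rfl).injective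
  have hJ : Set.range n = J := J.range_orderEmbOfFin rfl
  have key : ∀ D ∈ ((anO F d).filter fun D => Bad D ∧ anT L (lam d ^ 2) M D).filter
      fun D => k D = (u, Y, J), D ∈ anO F d ∧ Bad D ∧ anT L (lam d ^ 2) M D ∧
      D.leadingCoeff = u ∧ anS L D = Y ∧
      ∃ x : Fin J.card → F[X], (∀ i, Prm (x i) ∧ (x i).natDegree = n i) ∧ Function.Injective x ∧
        anL L D = Finset.univ.image x ∧ D = C u * (∏ p ∈ Y, p) * ∏ i, x i := fun D hD => by
    simp only [Finset.mem_filter, k, Prod.mk.injEq] at hD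
    obtain ⟨⟨h1, h2, h3⟩, h4, h5, h6⟩ := hD
    refine ⟨h1, h2, h3, h4, h5, ?_⟩
    rw [← h4, ← h5]
    exact an_dec (hsq D h2) h3.1 hn (by rw [hJ, h6])
  obtain ⟨h1, -, h2, h3, h4, x₀, h5, h6, h7, h8⟩ := key D₀ hD₀
  obtain ⟨hd, h0⟩ := an_mem.1 h1
  have hu : u ≠ 0 := h3 ▸ leadingCoeff_ne_zero.2 h0
  have hY : ∀ p ∈ Y, Prm p ∧ p.natDegree < L := fun p hp => by
    rw [← h4, anS, Finset.mem_filter, an_memF h0] at hp
    exact ⟨hp.1.1, hp.2⟩
  have hY1 : ∀ p ∈ Y, Prm p := fun p hp => (hY p hp).1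
  have hlg : ∀ i, L ≤ n i := fun i => by
    have h9 := Finset.mem_image_of_mem x₀ (Finset.mem_univ i)
    rw [← h7, anL, Finset.mem_filter, (h5 i).2] at h9
    exact not_lt.1 h9.2
  have hP : Pat c M d Y n := by
    refine ⟨hY1, fun p hp => (hY p hp).2, hn, hlg, ?_, ?_, ?_⟩
    · rw [← hd, h8, an_deg hu hY1 fun i => (h5 i).1]
      simp only [fun i => (h5 i).2]
    · have h9 := Finset.card_filter_add_card_filter_not (s := anF D₀) (·.natDegree < L)
      change (anS L D₀).card + (anL L D₀).card = _ at h9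
      rw [h4, h7, Finset.card_image_of_injective _ h6, Finset.card_univ, Fintype.card_fin] at h9
      exact h9.le.trans h2.2.1
    · have h9 := h2.2.2
      rw [h4, h7, Finset.filter_image, Finset.card_image_of_injective _ h6] at h9
      simpa only [fun i => (h5 i).2] using h9
  let g : (Fin J.card → F[X]) → F[X] := fun x => C u * (∏ p ∈ Y, p) * ∏ i, x i
  have hx : ∀ x ∈ Fintype.piFinset fun i => Pn F (n i), ∀ i, Prm (x i) ∧ (x i).natDegree = n i :=
    fun x hx i => mem_Pn.1 (Fintype.mem_piFinset.1 hx i)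
  have h10 := Finset.card_le_card_of_surjOn g
    (s := (Fintype.piFinset fun i => Pn F (n i)).filter fun x => Bad (g x))
    (t := ((anO F d).filter fun D => Bad D ∧ anT L (lam d ^ 2) M D).filter
      fun D => k D = (u, Y, J)) fun D hD => by
      obtain ⟨-, hb, -, -, -, x, h11, -, -, h12⟩ := key D hD
      exact ⟨x, Finset.mem_coe.2 (Finset.mem_filter.2 ⟨Fintype.mem_piFinset.2 fun i =>
        mem_Pn.2 (h11 i), by rw [h12] at hb; exact hb⟩), h12.symm⟩
  have h13 := Finset.card_le_card_of_injOn g (s := Fintype.piFinset fun i => Pn F (n i))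
    (t := (anO F d).filter fun D => k D = (u, Y, J)) (fun x hx' => by
      have h11 := hx x hx'
      have h12 : ∀ i, Prm (x i) := fun i => (h11 i).1
      refine Finset.mem_coe.2 (Finset.mem_filter.2 ⟨an_mem.2 ⟨?_, an_ne hu hY1 h12⟩,
        Prod.ext ?_ (Prod.ext ?_ ?_)⟩)
      · rw [an_deg hu hY1 h12, ← hP.deg]
        simp only [fun i => (h11 i).2]
      · change (C u * (∏ p ∈ Y, p) * ∏ i, x i).leadingCoeff = u
        rw [leadingCoeff_mul, leadingCoeff_mul, leadingCoeff_C,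
          (monic_prod_of_monic _ _ fun p hp => (hY1 p hp).1).leadingCoeff,
          (monic_prod_of_monic _ _ fun i _ => (h12 i).1).leadingCoeff, mul_one, mul_one]
      · ext p
        change p ∈ anS L _ ↔ p ∈ Y
        rw [anS, Finset.mem_filter, an_fac hu hY1 h12]
        refine ⟨?_, fun hp => ⟨Or.inl hp, (hY p hp).2⟩⟩
        rintro ⟨hp | ⟨i, rfl⟩, hlt⟩
        · exact hp
        · exact absurd ((h11 i).2 ▸ hlt) (not_lt.2 (hlg i))
      · ext j
        change j ∈ (anL L _).image natDegree ↔ j ∈ J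
        rw [← Finset.mem_coe (s := J), ← hJ, Finset.mem_image]
        simp only [anL, Finset.mem_filter, g, an_fac hu hY1 h12]
        constructor
        · rintro ⟨p, ⟨hp | ⟨i, rfl⟩, hlt⟩, rfl⟩
          · exact (hlt (hY p hp).2).elim
          · exact ⟨i, (h11 i).2.symm⟩
        · rintro ⟨i, rfl⟩
          exact ⟨x i, ⟨Or.inr ⟨i, rfl⟩, by rw [(h11 i).2]; exact not_lt.2 (hlg i)⟩, (h11 i).2⟩)
    fun x hx1 y hy1 e => funext fun i => by
      have h11 := (an_fac hu hY1 fun i => (hx x hx1 i).1).2 (Or.inr ⟨i, rfl⟩)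
      change x i ∈ anF (g x) at h11
      rw [e] at h11
      rcases (an_fac hu hY1 fun i => (hx y hy1 i).1).1 h11 with h12 | ⟨j, h12⟩
      · exact absurd ((hx x hx1 i).2 ▸ (hY _ h12).2) (not_lt.2 (hlg i))
      · have h14 : j = i := hn (by rw [← (hx y hy1 j).2, h12, (hx x hx1 i).2])
        rw [← h12, h14]
  rw [Fintype.card_piFinset] at h13
  refine (Nat.cast_le.2 h10).trans ((h u hu Y _ n hP).trans (mul_le_mul_of_nonneg_left ?_ hδ))
  exact_mod_cast h13

theorem an_lam : Tendsto (fun d => (lam d : ℝ)) atTop atTop :=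
  tendsto_natCast_atTop_atTop.comp (tendsto_atTop_atTop_of_monotone
    (fun a b h => Nat.succ_le_succ (Nat.log_mono_right h))
    fun k => ⟨2 ^ k, by rw [lam, Nat.log_pow one_lt_two]; omega⟩)

theorem an_lim (a b : ℝ) :
    Tendsto (fun d => (a + b * Real.log (lam d)) / lam d) atTop (nhds 0) := by
  have h1 := (Real.isLittleO_log_id_atTop.tendsto_div_nhds_zero.comp an_lam).const_mul b
  have h2 := (an_lam.const_div_atTop a).add h1
  rw [mul_zero, add_zero] at h2
  refine h2.congr fun d => ?_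
  simp only [Function.comp, id]
  ring

theorem an_tail {c : ℕ} (hc : 0 < c) (M : ℕ) : ∀ᶠ d in atTop,
    (((anO F d).filter (¬ anT (lam d ^ c) (lam d ^ 2) M ·)).card : ℝ) ≤
      (anO F d).card * ((36 + 32 * M + 16 * M * c * Real.log (lam d)) / lam d) := by
  filter_upwards [an_lam.eventually_ge_atTop 3, eventually_gt_atTop 0,
    (an_lim 3 (2 * c)).eventually_lt_const (show (0 : ℝ) < 1 / 10 by norm_num)] with d h1 h2 h3
  have h4 : 3 ≤ lam d := by exact_mod_cast h1
  have h5 : lam d ≤ lam d ^ c := Nat.le_self_pow hc.ne' _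
  have h0 : (0 : ℝ) < lam d := by linarith
  have h6 : Real.log (lam d ^ c : ℕ) = c * Real.log (lam d) := by
    rw [Nat.cast_pow, Real.log_pow]
  have h7 : ((lam d : ℝ) - 1) * Real.log 2 ≤ Real.log (d + 1 : ℕ) := by
    have e : (lam d : ℝ) - 1 = Nat.log 2 d := by simp [lam]
    rw [e, ← Real.log_pow]
    refine Real.log_le_log (by positivity) ?_
    exact_mod_cast (Nat.pow_log_le_self 2 h2.ne').trans d.le_succ
  have h8 : Real.log d ≤ lam d := by
    have h9 : Real.log d ≤ Real.log (2 ^ lam d) := Real.log_le_log (by exact_mod_cast h2)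
      (by exact_mod_cast (Nat.lt_pow_succ_log_self one_lt_two d).le)
    rw [Real.log_pow] at h9
    have := Real.log_two_lt_d9
    nlinarith
  have h10 := an_mu (F := F) (h4.trans h5) d
  rw [div_lt_iff₀ h0] at h3
  have h11 : (lam d : ℝ) / 8 ≤ ∑ p ∈ anP F (anJ (lam d ^ c) d), anW p := by
    have := mul_le_mul_of_nonneg_left Real.log_two_gt_d9.le (show 0 ≤ (lam d : ℝ) - 1 by linarith)
    linarith
  refine (an_rare M d (by omega) (by positivity) (by positivity) h11).trans
    (mul_le_mul_of_nonneg_left ?_ (Nat.cast_nonneg _))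
  have h12 : (2 : ℝ) / (lam d ^ c : ℕ) ≤ 2 / lam d :=
    div_le_div_of_nonneg_left zero_le_two h0 (by exact_mod_cast h5)
  have h13 : (1 + Real.log d) / (lam d ^ 2 : ℕ) ≤ 2 / lam d := by
    rw [Nat.cast_pow, div_le_div_iff₀ (by positivity) h0]
    nlinarith
  refine (add_le_add_left (add_le_add h12 h13) _).trans (le_of_eq ?_)
  rw [h6]
  field_simp
  ring

/-- A set of squarefree polynomials that is sparse in almost every pattern has density zero; see the
README (block AN). -/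
theorem anat (Bad : F[X] → Prop) (hsq : ∀ D, Bad D → Squarefree D)
    (h : ∀ δ : ℝ, 0 < δ → ∃ c M : ℕ, 0 < c ∧ ∀ᶠ d in atTop, ∀ (u : F), u ≠ 0 →
      ∀ (Y : Finset F[X]) (m : ℕ) (n : Fin m → ℕ), Pat c M d Y n →
      (((Fintype.piFinset fun i => Pn F (n i)).filter fun x =>
        Bad (C u * (∏ p ∈ Y, p) * ∏ i, x i)).card : ℝ) ≤ δ * ∏ i, ((Pn F (n i)).card : ℝ)) :
    Tendsto (fun d : ℕ => (({D : F[X] | D.natDegree = d ∧ Bad D}.ncard : ℝ)) /
      (Fintype.card F : ℝ) ^ d) atTop (nhds 0) := by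
  refine tendsto_order.2 ⟨fun a ha => Eventually.of_forall fun d => ha.trans_le (by positivity),
    fun ε hε => ?_⟩
  have hq : (0 : ℝ) < Fintype.card F := by exact_mod_cast Fintype.card_pos
  have hδ : 0 < ε / (2 * Fintype.card F) := by positivity
  obtain ⟨c, M, hc, h1⟩ := h _ hδ
  filter_upwards [h1, an_tail (F := F) hc M,
    (an_lim (36 + 32 * M) (16 * M * c)).eventually_lt_const hδ] with d h2 h3 h4
  have h5 := an_group hsq hδ.le h2
  have h6 : {D : F[X] | D.natDegree = d ∧ Bad D} ⊆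
      (((anO F d).filter fun D => Bad D ∧ anT (lam d ^ c) (lam d ^ 2) M D) ∪
        (anO F d).filter (¬ anT (lam d ^ c) (lam d ^ 2) M ·) : Finset F[X]) := fun D hD => by
    have h7 := an_mem.2 ⟨hD.1, (hsq D hD.2).ne_zero⟩
    simp only [Finset.mem_coe, Finset.mem_union, Finset.mem_filter]
    have := hD.2
    tauto
  have h8 := (Set.ncard_le_ncard h6 (Finset.finite_toSet _)).trans
    ((Set.ncard_coe_finset _).le.trans (Finset.card_union_le _ _))
  have h9 : ({D : F[X] | D.natDegree = d ∧ Bad D}.ncard : ℝ) ≤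
      ε / (2 * Fintype.card F) * (anO F d).card * 2 := by
    have h10 := mul_le_mul_of_nonneg_left h4.le (Nat.cast_nonneg (α := ℝ) (anO F d).card)
    have h11 := (Nat.cast_le (α := ℝ)).2 h8
    push_cast at h11
    linarith
  rw [div_lt_iff₀ (by positivity)]
  refine h9.trans_lt ?_
  rw [an_card]
  have h12 : ε / (2 * Fintype.card F) * ((Fintype.card F - 1) * (Fintype.card F : ℝ) ^ d) * 2 =
      ε * (Fintype.card F : ℝ) ^ d - ε * (Fintype.card F : ℝ) ^ d / Fintype.card F := by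
    field_simp
  rw [h12, sub_lt_self_iff]
  positivity

end

end Pool.Agent.Lib.MP_16ef92_ag.GF
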