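import Mathlib

set_option autoImplicit false
set_option linter.unusedSectionVars false
set_option linter.unusedVariables false

namespace Pool.Agent.Lib.MP_16ef92_ag.GF

open Finset
open scoped Classical

noncomputable section

variable {S Y Col : Type} [Fintype S] [Fintype Col]

theorem box_noninj (A : Finset Y) (m : ℕ) :
    ((Fintype.piFinset fun _ : Fin (m + 1) => A).filter fun t => ¬ Function.Injective t).card ≤
      (m + 1) ^ 2 * A.card ^ m := by
  have h1 : ((Fintype.piFinset fun _ : Fin (m + 1) => A).filter fun t => ¬ Function.Injective t) ⊆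
      (univ : Finset (Fin (m + 1) × Fin (m + 1))).biUnion fun p =>
        (Fintype.piFinset fun _ : Fin (m + 1) => A).filter fun t => p.1 ≠ p.2 ∧ t p.1 = t p.2 := by
    intro t ht
    rw [mem_filter] at ht
    obtain ⟨i, j, h, hij⟩ := Function.not_injective_iff.1 ht.2
    exact mem_biUnion.2 ⟨(i, j), mem_univ _, mem_filter.2 ⟨ht.1, hij, h⟩⟩
  refine (card_le_card h1).trans ((card_biUnion_le_card_mul _ _ (A.card ^ m) ?_).trans ?_)
  · rintro ⟨i, j⟩ -
    have h2 : A.card ^ m = (Fintype.piFinset fun _ : Fin m => A).card := by simp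
    rw [h2]
    refine card_le_card_of_injOn (fun t k => t (i.succAbove k)) (fun t ht => ?_)
      fun t ht t' ht' h => ?_
    · have h3 := (mem_filter.1 ht).1
      exact mem_coe.2 (Fintype.mem_piFinset.2 fun k => Fintype.mem_piFinset.1 h3 _)
    · obtain ⟨-, h3, h4⟩ := mem_filter.1 ht
      obtain ⟨-, -, h5⟩ := mem_filter.1 ht'
      have h6 : ∀ k, k ≠ i → t k = t' k := fun k hk => by
        obtain ⟨l, rfl⟩ := Fin.exists_succAbove_eq hk
        exact congrFun h l
      funext k
      by_cases hk : k = i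
      · rw [hk]
        exact h4.trans ((h6 j h3.symm).trans h5.symm)
      · exact h6 k hk
  · simp [sq]

theorem box_step {B : Type} (Bs : Finset B) (hB : Bs.Nonempty) (A : Finset Y) (r : B → Y → Prop)
    [∀ b y, Decidable (r b y)] (E : ℕ) {α : ℝ} (h0 : 0 < α) (hA : (E : ℝ) ^ 2 * 4 ≤ α ^ E * A.card)
    (hd : α * A.card * Bs.card ≤ ∑ b ∈ Bs, ((A.filter (r b)).card : ℝ)) :
    ∃ t : Fin E → Y, (∀ j, t j ∈ A) ∧ Function.Injective t ∧
      α ^ E / 2 * Bs.card ≤ (Bs.filter fun b => ∀ j, r b (t j)).card := by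
  have hBp : (0 : ℝ) < Bs.card := by exact_mod_cast hB.card_pos
  rcases E with _ | m
  · refine ⟨Fin.elim0, fun j => j.elim0, fun j => j.elim0, ?_⟩
    rw [filter_true_of_mem fun b _ j => j.elim0]
    linarith
  by_contra hn
  push Not at hn
  have hαp : 0 < α ^ (m + 1) := pow_pos h0 _
  have hAp : (0 : ℝ) < A.card := by
    have h1 : (0 : ℝ) < ((m + 1 : ℕ) : ℝ) ^ 2 * 4 := by positivity
    exact (mul_pos_iff_of_pos_left hαp).1 (h1.trans_le hA)
  set Tu := Fintype.piFinset fun _ : Fin (m + 1) => A with hTu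
  have hT : (Tu.card : ℝ) = (A.card : ℝ) ^ (m + 1) := by simp [hTu]
  have h1 : ∑ t ∈ Tu, ((Bs.filter fun b => ∀ j, r b (t j)).card : ℝ) =
      ∑ b ∈ Bs, ((A.filter (r b)).card : ℝ) ^ (m + 1) := by
    simp only [card_filter, Nat.cast_sum]
    rw [sum_comm]
    refine sum_congr rfl fun b _ => ?_
    have h2 : (Tu.filter fun t => ∀ j, r b (t j)) =
        Fintype.piFinset fun _ : Fin (m + 1) => A.filter (r b) := by
      ext t
      simp only [hTu, mem_filter, Fintype.mem_piFinset, forall_and]
    rw [← Nat.cast_sum, ← Nat.cast_sum, ← card_filter, ← card_filter, h2]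
    simp
  have h2 : (α * A.card) ^ (m + 1) * Bs.card ≤
      ∑ b ∈ Bs, ((A.filter (r b)).card : ℝ) ^ (m + 1) := by
    have h3 := pow_sum_le_card_mul_sum_pow (s := Bs) (f := fun b => ((A.filter (r b)).card : ℝ))
      (fun _ _ => Nat.cast_nonneg _) m
    have h4 := (pow_le_pow_left₀ (by positivity) hd (m + 1)).trans h3
    refine le_of_mul_le_mul_left ?_ (pow_pos hBp m)
    refine le_trans (le_of_eq ?_) h4
    ring
  have h3 : ∑ t ∈ Tu, ((Bs.filter fun b => ∀ j, r b (t j)).card : ℝ) ≤
      ∑ t ∈ Tu, (α ^ (m + 1) / 2 * Bs.card +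
        if ¬ Function.Injective t then (Bs.card : ℝ) else 0) := by
    refine sum_le_sum fun t ht => ?_
    by_cases hi : Function.Injective t
    · rw [if_neg (not_not.2 hi), add_zero]
      exact (hn t (Fintype.mem_piFinset.1 ht) hi).le
    · rw [if_pos hi]
      have h4 : ((Bs.filter fun b => ∀ j, r b (t j)).card : ℝ) ≤ Bs.card := by
        exact_mod_cast card_filter_le _ _
      have h5 : 0 ≤ α ^ (m + 1) / 2 * Bs.card := by positivity
      linarith
  rw [sum_add_distrib, sum_const, ← sum_filter, sum_const, nsmul_eq_mul, nsmul_eq_mul, hT, h1] at h3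
  have h4 : ((Tu.filter fun t => ¬ Function.Injective t).card : ℝ) ≤
      ((m + 1 : ℕ) : ℝ) ^ 2 * (A.card : ℝ) ^ m := by exact_mod_cast box_noninj A m
  have h5 : ((m + 1 : ℕ) : ℝ) ^ 2 * (A.card : ℝ) ^ m * 4 ≤ (α * A.card) ^ (m + 1) := by
    have h6 := mul_le_mul_of_nonneg_right hA (pow_pos hAp m).le
    refine le_trans (le_of_eq ?_) (h6.trans (le_of_eq ?_)) <;> ring
  have h6 : 0 < (α * A.card) ^ (m + 1) * Bs.card := by positivity
  have h7 := mul_le_mul_of_nonneg_right h4 hBp.le
  have h8 := mul_le_mul_of_nonneg_right h5 hBp.le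
  have h9 : (A.card : ℝ) ^ (m + 1) * (α ^ (m + 1) / 2 * Bs.card) =
      (α * A.card) ^ (m + 1) * Bs.card / 2 := by ring
  linarith

theorem box_num {E : ℕ} {α : ℝ} (h0 : 0 < α) (h1 : α ≤ 1) (hE : 0 < E) :
    4 / α ^ E ≤ (2 / α) ^ (E + 1) := by
  have h2 : (2 : ℝ) ≤ 2 ^ E := by
    simpa using pow_le_pow_right₀ (one_le_two (α := ℝ)) hE
  rw [div_pow, div_le_div_iff₀ (by positivity) (by positivity), pow_succ, pow_succ]
  have h3 : 0 < α ^ E := pow_pos h0 _
  nlinarith [mul_le_mul_of_nonneg_left h1 h3.le, mul_le_mul_of_nonneg_left h2 h3.le]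

theorem box_ind (E : ℕ) (T : Finset S) : ∀ (X : S → Finset Y) (α : ℝ), 0 < α → α ≤ 1 →
    (∀ s ∈ T, (E : ℝ) ^ 2 * (2 / α) ^ ((E + 1) ^ T.card) ≤ (X s).card) →
    ∀ R : Finset (S → Y), R ⊆ Fintype.piFinset X → α * ∏ s, ((X s).card : ℝ) ≤ R.card →
      R.Nonempty → ∃ z : S → Fin E → Y, (∀ s i, z s i ∈ X s) ∧
        (∀ s ∈ T, Function.Injective (z s)) ∧ ∀ i : S → Fin E, (fun s => z s (i s)) ∈ R := by
  induction T using Finset.induction_on with
  | empty =>
    rintro X α - - - R hR - ⟨x, hx⟩
    exact ⟨fun s _ => x s, fun s _ => Fintype.mem_piFinset.1 (hR hx) s, by simp, fun _ => hx⟩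
  | insert a T ha ih =>
    rintro X α h0 h1 hX R hR hd ⟨x, hx⟩
    rw [card_insert_of_notMem ha] at hX
    have hα : 1 ≤ 2 / α := by
      rw [le_div_iff₀ h0]
      linarith
    have hαE : 0 < α ^ E := pow_pos h0 _
    set X' := Function.update X a {x a} with hX'
    have hup : ∀ y ∈ R, Function.update y a (x a) ∈ Fintype.piFinset X' := fun y hy =>
      Fintype.mem_piFinset.2 fun s => by
        by_cases hs : s = a
        · subst hs
          simp [hX']
        · simpa [hX', hs] using Fintype.mem_piFinset.1 (hR hy) s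
    have hne : (Fintype.piFinset X').Nonempty := ⟨_, hup x hx⟩
    have hprod : ∏ s, ((X s).card : ℝ) = (X a).card * ∏ s, ((X' s).card : ℝ) := by
      rw [← mul_prod_erase univ _ (mem_univ a), ← mul_prod_erase univ _ (mem_univ a)]
      have h2 : ∏ s ∈ univ.erase a, ((X' s).card : ℝ) = ∏ s ∈ univ.erase a, ((X s).card : ℝ) :=
        prod_congr rfl fun s hs => by simp [hX', ne_of_mem_erase hs]
      rw [h2]
      simp [hX']
    have hcard : ((Fintype.piFinset X').card : ℝ) = ∏ s, ((X' s).card : ℝ) := by simp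
    obtain ⟨t, ht, hti, htc⟩ := box_step _ hne (X a) (fun b y => Function.update b a y ∈ R) E h0
      (by
        rcases Nat.eq_zero_or_pos E with hE | hE
        · simp [hE]
        · have h2 := hX a (mem_insert_self a T)
          have h3 : (2 / α) ^ (E + 1) ≤ (2 / α) ^ ((E + 1) ^ (T.card + 1)) :=
            pow_le_pow_right₀ hα (Nat.le_self_pow (by omega) _)
          have h4 := (mul_le_mul_of_nonneg_left ((box_num h0 h1 hE).trans h3)
            (sq_nonneg (E : ℝ))).trans h2
          rw [← mul_div_assoc, div_le_iff₀ hαE] at h4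
          linarith)
      (by
        rw [hcard, mul_assoc, ← hprod]
        refine hd.trans ?_
        rw [card_eq_sum_card_fiberwise (f := fun y => Function.update y a (x a)) (s := R)
          (t := Fintype.piFinset X') fun y hy => hup y hy, Nat.cast_sum]
        refine sum_le_sum fun b _ => Nat.cast_le.2 ?_
        refine card_le_card_of_injOn (fun y => y a) (fun y hy => ?_) fun y hy y' hy' h => ?_
        · obtain ⟨h2, h3⟩ := mem_filter.1 hy
          refine mem_coe.2 (mem_filter.2 ⟨Fintype.mem_piFinset.1 (hR h2) a, ?_⟩)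
          rw [← h3, Function.update_idem, Function.update_eq_self]
          exact h2
        · have h2 := (mem_filter.1 hy).2.trans (mem_filter.1 hy').2.symm
          funext s
          by_cases hs : s = a
          · rw [hs]
            exact h
          · simpa [hs] using congrFun h2 s)
    have hp : (0 : ℝ) < (Fintype.piFinset X').card := by exact_mod_cast hne.card_pos
    obtain ⟨z, hz, hzi, hzR⟩ := ih X' (α ^ E / 2) (by positivity)
      (by linarith [pow_le_one₀ (n := E) h0.le h1])
      (fun s hs => by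
        have hs' : s ≠ a := fun h => ha (h ▸ hs)
        rw [hX', Function.update_of_ne hs']
        rcases Nat.eq_zero_or_pos E with hE | hE
        · simp [hE]
        · refine le_trans (mul_le_mul_of_nonneg_left ?_ (sq_nonneg _))
            (hX s (mem_insert_of_mem hs))
          have h2 : 2 / (α ^ E / 2) = 4 / α ^ E := by
            field_simp
            norm_num
          rw [h2, pow_succ', pow_mul]
          exact pow_le_pow_left₀ (by positivity) (box_num h0 h1 hE) _)
      _ (filter_subset _ _) (hcard ▸ htc)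
      (card_pos.1 (Nat.cast_pos.1 (lt_of_lt_of_le (by positivity) htc)))
    refine ⟨Function.update z a t, fun s i => ?_, fun s hs => ?_, fun i => ?_⟩
    · by_cases hs : s = a
      · subst hs
        simpa using ht i
      · simpa [hX', hs] using hz s i
    · by_cases hs' : s = a
      · subst hs'
        simpa using hti
      · simpa [hs'] using hzi s ((mem_insert.1 hs).resolve_left hs')
    · have h2 : (fun s => Function.update z a t s (i s)) =
          Function.update (fun s => z s (i s)) a (t (i a)) := by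
        funext s
        by_cases hs : s = a
        · subst hs
          simp
        · simp [hs]
      rw [h2]
      exact (mem_filter.1 (hzR i)).2 (i a)

/-- The box theorem of Erdos: a dense subset of a large product contains a grid of side `E`.
Induct on `S` (`Fintype.induction_empty_option`); average the size of the common section over all
`E`-tuples in the new coordinate (power mean inequality) and discard non-injective tuples; the
density goes from `α` to `α ^ E / 2`, which is at least `(α / 2) ^ (E + 1)`. -/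
theorem exists_box (X : S → Finset Y) (E : ℕ) {α : ℝ} (h0 : 0 < α) (h1 : α ≤ 1)
    (hX : ∀ s, (E : ℝ) ^ 2 * (2 / α) ^ ((E + 1) ^ Fintype.card S) ≤ (X s).card)
    (R : Finset (S → Y)) (hR : R ⊆ Fintype.piFinset X) (hd : α * ∏ s, ((X s).card : ℝ) ≤ R.card)
    (hne : R.Nonempty) :
    ∃ z : S → Fin E → Y, (∀ s i, z s i ∈ X s) ∧ (∀ s, Function.Injective (z s)) ∧
      ∀ i : S → Fin E, (fun s => z s (i s)) ∈ R := by
  obtain ⟨z, h2, h3, h4⟩ := box_ind E univ X α h0 h1 (fun s _ => hX s) R hR hd hne
  exact ⟨z, h2, fun s => h3 s (mem_univ s), h4⟩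

/-- Greedy covering by monochromatic grids: by induction on the size of `R ⊆ ∏ X s`, the sum of `φ`
over `R` is at most `ε |R| + ε ∏ |X s|`. -/
theorem box_cover (X : S → Finset Y) {E : ℕ} (hE : 0 < E) {ε : ℝ} (h0 : 0 < ε) (h1 : ε ≤ 1)
    (col : (S → Y) → Col) (φ : (S → Y) → ℝ) (hφ : ∀ x, φ x ≤ 1)
    (hX : ∀ s, (E : ℝ) ^ 2 * (2 * Fintype.card Col / ε) ^ ((E + 1) ^ Fintype.card S) ≤ (X s).card)
    (hgrid : ∀ z : S → Fin E → Y, (∀ s i, z s i ∈ X s) → (∀ s, Function.Injective (z s)) →
      (∃ c, ∀ i : S → Fin E, col (fun s => z s (i s)) = c) →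
      ∑ i : S → Fin E, φ (fun s => z s (i s)) ≤ ε * (E : ℝ) ^ Fintype.card S) :
    ∑ x ∈ Fintype.piFinset X, φ x ≤ 2 * ε * ∏ s, ((X s).card : ℝ) := by
  have hP : (0 : ℝ) ≤ ∏ s, ((X s).card : ℝ) := prod_nonneg fun _ _ => Nat.cast_nonneg _
  have key : ∀ R : Finset (S → Y), R ⊆ Fintype.piFinset X →
      ∑ x ∈ R, φ x ≤ ε * R.card + ε * ∏ s, ((X s).card : ℝ) := by
    intro R
    induction R using Finset.strongInduction with
    | H R ih =>
      intro hR
      by_cases hs : (R.card : ℝ) ≤ ε * ∏ s, ((X s).card : ℝ)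
      · have h2 : ∑ x ∈ R, φ x ≤ R.card := by
          simpa using sum_le_card_nsmul R φ 1 fun x _ => hφ x
        have h3 : 0 ≤ ε * R.card := by positivity
        linarith
      rw [not_le] at hs
      have hRp : (0 : ℝ) < R.card := lt_of_le_of_lt (by positivity) hs
      obtain ⟨x, hx⟩ := card_pos.1 (Nat.cast_pos.1 hRp)
      have hC : (1 : ℝ) ≤ Fintype.card Col := by
        exact_mod_cast Fintype.card_pos_iff.2 ⟨col x⟩
      obtain ⟨c, -, hc⟩ := exists_le_card_fiber_of_nsmul_le_card_of_maps_to (s := R) (t := univ)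
        (f := col) (b := (R.card : ℝ) / Fintype.card Col) (fun _ _ => mem_univ _)
        ⟨col x, mem_univ _⟩ (by
          rw [card_univ, nsmul_eq_mul, mul_div_cancel₀ _ (by positivity)])
      obtain ⟨z, hz, hzi, hzR⟩ := exists_box X E (α := ε / Fintype.card Col) (by positivity)
        ((div_le_one (by positivity)).2 (h1.trans hC))
        (fun s => by
          rw [div_div_eq_mul_div]
          exact hX s)
        (R.filter fun x => col x = c) ((filter_subset _ _).trans hR)
        (by
          refine le_trans ?_ hc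
          rw [div_mul_eq_mul_div]
          exact div_le_div_of_nonneg_right hs.le (by positivity))
        (card_pos.1 (Nat.cast_pos.1 (lt_of_lt_of_le (by positivity) hc)))
      have hg : Function.Injective fun (i : S → Fin E) s => z s (i s) := fun i j h =>
        funext fun s => hzi s (congrFun h s)
      set G := univ.image fun (i : S → Fin E) s => z s (i s) with hG
      have hGR : G ⊆ R := fun y hy => by
        obtain ⟨i, -, rfl⟩ := mem_image.1 hy
        exact (mem_filter.1 (hzR i)).1
      have hGc : (G.card : ℝ) = (E : ℝ) ^ Fintype.card S := by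
        rw [hG, card_image_of_injective _ hg]
        simp
      have hGs : ∑ x ∈ G, φ x ≤ ε * G.card := by
        rw [hGc, hG, sum_image fun i _ j _ h => hg h]
        exact hgrid z hz hzi ⟨c, fun i => (mem_filter.1 (hzR i)).2⟩
      have hGn : G.Nonempty := ⟨_, mem_image_of_mem _ (mem_univ fun _ => ⟨0, hE⟩)⟩
      have h2 := ih (R \ G) (sdiff_ssubset hGR hGn) (sdiff_subset.trans hR)
      have h3 : ((R \ G).card : ℝ) + G.card = R.card := by
        exact_mod_cast card_sdiff_add_card_eq_card hGR
      rw [← sum_sdiff hGR, ← h3]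
      linarith
  have h2 := key _ subset_rfl
  have h3 : ((Fintype.piFinset X).card : ℝ) = ∏ s, ((X s).card : ℝ) := by simp
  rw [h3] at h2
  linarith

end

end Pool.Agent.Lib.MP_16ef92_ag.GF
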