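import Mathlib

set_option autoImplicit false
set_option linter.unusedSectionVars false
set_option linter.unusedVariables false

namespace Pool.Agent.Lib.MP_16ef92_ag.GF

open Finset
open scoped Classical

noncomputable section

variable {ι S Y K : Type} [Fintype ι] [Fintype S] [Fintype K]

/-- The elements of `P (e s)` in the class of the coordinate of `x`. -/
def cellSet (P : ι → Finset Y) (e : S → ι) (cls : S → (ι → Y) → Y → K) (x : ι → Y) (s : S) :
    Finset Y := (P (e s)).filter fun p => cls s x p = cls s x (x (e s))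

theorem cell_upd [DecidableEq ι] (P : ι → Finset Y) (i : ι) (g : (ι → Y) → ℝ) :
    ∑ x ∈ Fintype.piFinset P, ∑ p ∈ P i, g (Function.update x i p) =
      (P i).card * ∑ x ∈ Fintype.piFinset P, g x := by
  have hm : ∀ z ∈ Fintype.piFinset P ×ˢ P i,
      (Function.update z.1 i z.2, z.1 i) ∈ Fintype.piFinset P ×ˢ P i := fun z hz => by
    obtain ⟨h1, h2⟩ := mem_product.1 hz
    rw [Fintype.mem_piFinset] at h1
    refine mem_product.2 ⟨Fintype.mem_piFinset.2 fun j => ?_, h1 i⟩
    by_cases h : j = i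
    · subst h
      simpa using h2
    · simpa [h] using h1 j
  have h := sum_nbij' (f := fun z : (ι → Y) × Y => g (Function.update z.1 i z.2))
    (g := fun z : (ι → Y) × Y => g z.1) (fun z => (Function.update z.1 i z.2, z.1 i))
    (fun z => (Function.update z.1 i z.2, z.1 i)) hm hm (fun z _ => by simp) (fun z _ => by simp)
    fun _ _ => rfl
  rw [sum_product, sum_product] at h
  rw [h, mul_sum]
  simp

theorem cell_bound [DecidableEq ι] (P : ι → Finset Y) (i : ι) (Q R : (ι → Y) → Prop)
    [DecidablePred Q] [DecidablePred R] {a c : ℝ}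
    (h : ∀ x ∈ Fintype.piFinset P, (((P i).filter fun p => Q (Function.update x i p)).card : ℝ) * a
      ≤ if R x then c * (P i).card else 0) :
    (((Fintype.piFinset P).filter Q).card : ℝ) * a ≤
      c * ((Fintype.piFinset P).filter R).card := by
  rcases (P i).eq_empty_or_nonempty with h0 | h0
  · rw [Fintype.piFinset_eq_empty.2 ⟨i, h0⟩]
    simp
  have h1 : (0 : ℝ) < (P i).card := by exact_mod_cast h0.card_pos
  have h2 := cell_upd P i fun x => if Q x then 1 else 0
  simp only [sum_boole] at h2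
  have h3 := sum_le_sum h
  rw [← sum_mul, h2, ← sum_filter, sum_const, nsmul_eq_mul] at h3
  refine le_of_mul_le_mul_left ?_ h1
  linarith

theorem cell_small (X : Finset Y) (f : Y → K) {t : ℝ} (ht : 0 ≤ t) :
    ((X.filter fun p => ((X.filter fun q => f q = f p).card : ℝ) < t).card : ℝ) ≤
      Fintype.card K * t := by
  rw [card_eq_sum_card_fiberwise (f := f) (t := univ) fun _ _ => mem_univ _, Nat.cast_sum,
    ← card_univ, ← nsmul_eq_mul, ← sum_const]
  refine sum_le_sum fun k _ => ?_
  rcases ((X.filter fun p => ((X.filter fun q => f q = f p).card : ℝ) < t).filter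
    fun p => f p = k).eq_empty_or_nonempty with h | ⟨p, hp⟩
  · rw [h]
    simpa using ht
  · simp only [mem_filter] at hp
    refine le_trans ?_ hp.1.2.le
    rw [hp.2]
    exact_mod_cast card_le_card (filter_subset_filter _ (filter_subset _ _))

theorem cell_avg (P : ι → Finset Y) {e : S → ι} (he : Function.Injective e)
    (cls : S → (ι → Y) → Y → K)
    (hcls : ∀ s x x', (∀ i, i ∉ Set.range e → x i = x' i) → cls s x = cls s x')
    (φ : (ι → Y) → ℝ) : ∑ x ∈ Fintype.piFinset P, φ x = ∑ x ∈ Fintype.piFinset P,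
      (∑ y ∈ Fintype.piFinset (cellSet P e cls x), φ (Function.extend e y x)) /
        ∏ s, ((cellSet P e cls x s).card : ℝ) := by
  have f2 : ∀ (y : S → Y) (x : ι → Y) i, i ∉ Set.range e → Function.extend e y x i = x i :=
    fun y x i hi => Function.extend_apply' _ _ _ hi
  have f3 : ∀ x, ∀ y ∈ Fintype.piFinset (cellSet P e cls x),
      cellSet P e cls (Function.extend e y x) = cellSet P e cls x := fun x y hy => by
    funext s
    have h1 := (mem_filter.1 (Fintype.mem_piFinset.1 hy s)).2
    rw [cellSet, cellSet, hcls s _ x (f2 y x), he.extend_apply, h1]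
  have f4 : ∀ x ∈ Fintype.piFinset P, ∀ s, x (e s) ∈ cellSet P e cls x s := fun x hx s =>
    mem_filter.2 ⟨Fintype.mem_piFinset.1 hx _, rfl⟩
  have hm : ∀ z ∈ (Fintype.piFinset P).sigma fun x => Fintype.piFinset (cellSet P e cls x),
      (⟨Function.extend e z.2 z.1, z.1 ∘ e⟩ : Σ _ : ι → Y, S → Y) ∈
        (Fintype.piFinset P).sigma fun x => Fintype.piFinset (cellSet P e cls x) := fun z hz => by
    obtain ⟨h1, h2⟩ := mem_sigma.1 hz
    refine mem_sigma.2 ⟨Fintype.mem_piFinset.2 fun i => ?_, ?_⟩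
    · by_cases hi : i ∈ Set.range e
      · obtain ⟨s, rfl⟩ := hi
        dsimp only
        rw [he.extend_apply]
        exact (mem_filter.1 (Fintype.mem_piFinset.1 h2 s)).1
      · dsimp only
        rw [f2 _ _ i hi]
        exact Fintype.mem_piFinset.1 h1 i
    · dsimp only
      rw [f3 _ _ h2]
      exact Fintype.mem_piFinset.2 (f4 _ h1)
  have hi : ∀ z : Σ _ : ι → Y, S → Y,
      (⟨Function.extend e (z.1 ∘ e) (Function.extend e z.2 z.1), Function.extend e z.2 z.1 ∘ e⟩ :
        Σ _ : ι → Y, S → Y) = z := by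
    rintro ⟨x, y⟩
    have e1 : Function.extend e (x ∘ e) (Function.extend e y x) = x := funext fun i => by
      by_cases hi : i ∈ Set.range e
      · obtain ⟨s, rfl⟩ := hi
        rw [he.extend_apply]
        rfl
      · rw [f2 _ _ i hi, f2 _ _ i hi]
    dsimp only
    rw [e1, Function.extend_comp he]
  have h := sum_nbij'
    (f := fun z : Σ _ : ι → Y, S → Y => φ (Function.extend e z.2 z.1) /
      ∏ s, ((cellSet P e cls z.1 s).card : ℝ))
    (g := fun z : Σ _ : ι → Y, S → Y => φ z.1 / ∏ s, ((cellSet P e cls z.1 s).card : ℝ))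
    (fun z => ⟨Function.extend e z.2 z.1, z.1 ∘ e⟩) (fun z => ⟨Function.extend e z.2 z.1, z.1 ∘ e⟩)
    hm hm (fun z _ => hi z) (fun z _ => hi z) fun z hz => by
      dsimp only
      rw [f3 _ _ (mem_sigma.1 hz).2]
  rw [sum_sigma, sum_sigma] at h
  simp only [sum_div]
  rw [h]
  refine sum_congr rfl fun x hx => ?_
  have h0 : ∏ s, ((cellSet P e cls x s).card : ℝ) ≠ 0 := prod_ne_zero_iff.2 fun s _ => by
    exact_mod_cast (card_pos.2 ⟨_, f4 x hx s⟩).ne'
  dsimp only
  rw [sum_const, Fintype.card_piFinset, nsmul_eq_mul, Nat.cast_prod, mul_div_cancel₀ _ h0]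

/-- Summation over cells: the fibres of `x ↦ (x off the range of e, classes of the x (e s))` are
products.  The points in a cell with a small side `s` number at most `|K| θ ∏ |P i|`. -/
theorem cell_sum (P : ι → Finset Y) {e : S → ι} (he : Function.Injective e)
    (cls : S → (ι → Y) → Y → K)
    (hcls : ∀ s x x', (∀ i, i ∉ Set.range e → x i = x' i) → cls s x = cls s x')
    (φ ρ : (ι → Y) → ℝ) (hφ : ∀ x, φ x ≤ 1) (hρ : ∀ x, 0 ≤ ρ x) {θ : ℝ} (hθ : 0 ≤ θ)
    (hc : ∀ x ∈ Fintype.piFinset P, ∀ y ∈ Fintype.piFinset (cellSet P e cls x),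
      ρ (Function.extend e y x) = ρ x)
    (hbig : ∀ x ∈ Fintype.piFinset P, (∀ s, θ * (P (e s)).card ≤ (cellSet P e cls x s).card) →
      ∑ y ∈ Fintype.piFinset (cellSet P e cls x), φ (Function.extend e y x) ≤
        ρ x * ∏ s, ((cellSet P e cls x s).card : ℝ)) :
    ∑ x ∈ Fintype.piFinset P, φ x ≤ ∑ x ∈ Fintype.piFinset P, ρ x +
      Fintype.card S * Fintype.card K * θ * ∏ i, ((P i).card : ℝ) := by
  have h1 : ∀ s, (((Fintype.piFinset P).filter fun x =>
      ((cellSet P e cls x s).card : ℝ) < θ * (P (e s)).card).card : ℝ) ≤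
      Fintype.card K * θ * ∏ i, ((P i).card : ℝ) := fun s => by
    have h := cell_bound P (e s) (fun x => ((cellSet P e cls x s).card : ℝ) < θ * (P (e s)).card)
      (fun _ => True) (a := 1) (c := Fintype.card K * θ) fun x _ => by
        have e1 : ∀ p, cls s (Function.update x (e s) p) = cls s x := fun p =>
          hcls s _ _ fun i hi => Function.update_of_ne (fun h => hi ⟨s, h.symm⟩) _ _
        simp only [cellSet, e1, Function.update_self, if_true, mul_one, mul_assoc]
        exact cell_small _ _ (by positivity)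
    rwa [mul_one, filter_true, Fintype.card_piFinset, Nat.cast_prod] at h
  have h2 : ∀ x ∈ Fintype.piFinset P,
      (∑ y ∈ Fintype.piFinset (cellSet P e cls x), φ (Function.extend e y x)) /
        ∏ s, ((cellSet P e cls x s).card : ℝ) ≤ ρ x +
      ∑ s, if ((cellSet P e cls x s).card : ℝ) < θ * (P (e s)).card then 1 else 0 := fun x hx => by
    have a0 : 0 ≤ ∏ s, ((cellSet P e cls x s).card : ℝ) := by positivity
    by_cases h : ∀ s, θ * (P (e s)).card ≤ (cellSet P e cls x s).card
    · refine (div_le_of_le_mul₀ a0 (hρ x) (hbig x hx h)).trans (le_add_of_nonneg_right ?_)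
      positivity
    · obtain ⟨s, hs⟩ := not_forall.1 h
      have a1 := single_le_sum (s := univ) (f := fun s =>
        if ((cellSet P e cls x s).card : ℝ) < θ * (P (e s)).card then (1 : ℝ) else 0)
        (fun _ _ => by positivity) (mem_univ s)
      rw [if_pos (not_le.1 hs)] at a1
      refine (div_le_one_of_le₀ ?_ a0).trans (by linarith [hρ x])
      refine (sum_le_sum fun y _ => hφ _).trans_eq ?_
      rw [sum_const, Fintype.card_piFinset, nsmul_eq_mul, Nat.cast_prod, mul_one]
  rw [cell_avg P he cls hcls φ]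
  refine (sum_le_sum h2).trans ?_
  rw [sum_add_distrib, sum_comm]
  simp only [sum_boole]
  refine add_le_add le_rfl ((sum_le_sum fun s _ => h1 s).trans_eq ?_)
  rw [sum_const, card_univ, nsmul_eq_mul]
  ring

/-- Sequential conditioning: induct on `m` removing the last coordinate (`Fin.snoc`), or on the
number of constrained coordinates. -/
theorem seq_count {J : Type} [Fintype J] {m : ℕ} (P : Fin m → Finset Y) (sy : Y → Y → ZMod (2 ^ 1))
    (y : J → Y) {η : ℝ} (hη : 0 ≤ η)
    (h : ∀ i, ∀ x ∈ Fintype.piFinset P, ∀ (κ₀ : J → ZMod (2 ^ 1)) (κ : Fin m → ZMod (2 ^ 1)),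
      (((P i).filter fun p => (∀ j, sy (y j) p = κ₀ j) ∧ ∀ l, l < i → sy (x l) p = κ l).card : ℝ) *
        2 ^ (Fintype.card J + i.val) ≤ (1 + η) * (P i).card)
    (κ₀ : Fin m → J → ZMod (2 ^ 1)) (κ : Fin m → Fin m → ZMod (2 ^ 1)) :
    (((Fintype.piFinset P).filter fun x => ∀ i, (∀ j, sy (y j) (x i) = κ₀ i j) ∧
        ∀ l, l < i → sy (x l) (x i) = κ i l).card : ℝ) *
      2 ^ (∑ i : Fin m, (Fintype.card J + i.val)) ≤ (1 + η) ^ m * ∏ i, ((P i).card : ℝ) := by
  have key : ∀ n ≤ m, (((Fintype.piFinset P).filter fun x => ∀ i : Fin m, i.val < n →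
      (∀ j, sy (y j) (x i) = κ₀ i j) ∧ ∀ l, l < i → sy (x l) (x i) = κ i l).card : ℝ) *
      2 ^ (∑ i ∈ range n, (Fintype.card J + i)) ≤ (1 + η) ^ n * ∏ i, ((P i).card : ℝ) := by
    intro n
    induction n with
    | zero => simp [Fintype.card_piFinset]
    | succ n ih =>
      intro hn
      have h1 := cell_bound P ⟨n, hn⟩ (fun x => ∀ i : Fin m, i.val < n + 1 →
          (∀ j, sy (y j) (x i) = κ₀ i j) ∧ ∀ l, l < i → sy (x l) (x i) = κ i l)
        (fun x => ∀ i : Fin m, i.val < n →
          (∀ j, sy (y j) (x i) = κ₀ i j) ∧ ∀ l, l < i → sy (x l) (x i) = κ i l)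
        (a := 2 ^ (Fintype.card J + n)) (c := 1 + η) fun x hx => by
          have e1 : ∀ (p : Y) (l : Fin m), l.val < n → Function.update x ⟨n, hn⟩ p l = x l :=
            fun p l hl => Function.update_of_ne (fun h => by simp [h] at hl) _ _
          split_ifs with hR
          · refine le_trans ?_ (h ⟨n, hn⟩ x hx (κ₀ ⟨n, hn⟩) (κ ⟨n, hn⟩))
            refine mul_le_mul_of_nonneg_right ?_ (by positivity)
            refine Nat.cast_le.2 (card_le_card fun p hp => ?_)
            rw [mem_filter] at hp ⊢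
            have h2 := hp.2 ⟨n, hn⟩ n.lt_succ_self
            rw [Function.update_self] at h2
            exact ⟨hp.1, h2.1, fun l hl => by rw [← h2.2 l hl, e1 p l hl]⟩
          · rw [filter_eq_empty_iff.2, card_empty, Nat.cast_zero, zero_mul]
            intro p _ hp
            refine hR fun i hi => ?_
            have h2 := hp i (hi.trans n.lt_succ_self)
            rw [e1 p i hi] at h2
            exact ⟨h2.1, fun l hl => by rw [← h2.2 l hl, e1 p l (lt_trans hl hi)]⟩
      have h2 := mul_le_mul_of_nonneg_right h1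
        (pow_nonneg zero_le_two (∑ i ∈ range n, (Fintype.card J + i)))
      have h3 := mul_le_mul_of_nonneg_left (ih (Nat.le_of_succ_le hn))
        (show 0 ≤ 1 + η by positivity)
      rw [sum_range_succ, pow_add, pow_succ' (1 + η)]
      linarith
  have h1 := key m le_rfl
  simp only [Fin.is_lt, forall_const] at h1
  rw [Fin.sum_univ_eq_sum_range fun i => Fintype.card J + i]
  exact h1

/-- Averaging over tuples in one coordinate.  For each tuple `p : Fin E → Y` with values in `X` we
know `∑ j, φ (p j) ≤ ε E N` unless the tuple is exceptional. -/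
theorem tuple_avg {E : ℕ} (hE : 0 < E) (X : Finset Y) (φ : Y → ℝ) {N ε : ℝ} (hN : 0 ≤ N)
    (hε : 0 ≤ ε) (hφ : ∀ p, φ p ≤ N) (Exc : Finset (Fin E → Y))
    (hExc : (Exc.card : ℝ) ≤ ε * (X.card : ℝ) ^ E) (hX : (E : ℝ) ^ 2 ≤ ε * X.card)
    (h : ∀ p ∈ Fintype.piFinset fun _ : Fin E => X, Function.Injective p → p ∉ Exc →
      ∑ j, φ (p j) ≤ ε * E * N) :
    ∑ p ∈ X, φ p ≤ 3 * ε * N * X.card := by
  rcases X.eq_empty_or_nonempty with rfl | hne
  · simp
  have hx : (0 : ℝ) < X.card := by exact_mod_cast hne.card_pos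
  have hE' : (0 : ℝ) < E := by exact_mod_cast hE
  have hΩ : ((Fintype.piFinset fun _ : Fin E => X).card : ℝ) = (X.card : ℝ) ^ E := by simp
  have h1 : ∀ j : Fin E, (X.card : ℝ) ^ E * ∑ p ∈ X, φ p =
      X.card * ∑ p ∈ Fintype.piFinset fun _ : Fin E => X, φ (p j) := fun j => by
    rw [← cell_upd (fun _ : Fin E => X) j fun p => φ (p j)]
    simp
  have h2 : ∀ i j : Fin E, (((Fintype.piFinset fun _ : Fin E => X).filter fun p =>
      i ≠ j ∧ p i = p j).card : ℝ) * X.card ≤ (X.card : ℝ) ^ E := fun i j => by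
    have h3 := cell_bound (fun _ : Fin E => X) i (fun p => i ≠ j ∧ p i = p j) (fun _ => True)
      (a := X.card) (c := 1) fun x _ => by
        rw [if_pos trivial]
        refine mul_le_mul_of_nonneg_right (Nat.cast_le_one.2 (card_le_one.2 fun p hp q hq => ?_))
          hx.le
        obtain ⟨-, a1, a2⟩ := mem_filter.1 hp
        obtain ⟨-, -, a3⟩ := mem_filter.1 hq
        rw [Function.update_self, Function.update_of_ne a1.symm] at a2 a3
        exact a2.trans a3.symm
    rwa [one_mul, filter_true, hΩ] at h3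
  have h3 : ∀ p ∈ Fintype.piFinset fun _ : Fin E => X, ∑ j, φ (p j) ≤ ε * E * N + E * N *
      ((if p ∈ Exc then 1 else 0) + ∑ i, ∑ j, if i ≠ j ∧ p i = p j then 1 else 0) := fun p hp => by
    have a0 : 0 ≤ ε * E * N := by positivity
    have a1 : ∑ j, φ (p j) ≤ E * N := (sum_le_sum fun j _ => hφ _).trans_eq (by simp)
    have a2 : (0 : ℝ) ≤ if p ∈ Exc then 1 else 0 := by positivity
    have a3 : (0 : ℝ) ≤ ∑ i, ∑ j, if i ≠ j ∧ p i = p j then 1 else 0 := by positivity
    have a4 : 0 ≤ E * N := by positivity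
    by_cases b1 : p ∈ Exc
    · rw [if_pos b1]
      nlinarith
    by_cases b2 : Function.Injective p
    · nlinarith [h p hp b2 b1]
    obtain ⟨i, j, c1, c2⟩ := Function.not_injective_iff.1 b2
    have a5 : (1 : ℝ) ≤ ∑ i, ∑ j, if i ≠ j ∧ p i = p j then 1 else 0 := by
      refine le_trans ?_ (single_le_sum (fun _ _ => by positivity) (mem_univ i))
      refine le_trans ?_ (single_le_sum (fun _ _ => by positivity) (mem_univ j))
      rw [if_pos ⟨c2, c1⟩]
    nlinarith
  have h4 := sum_le_sum h3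
  rw [sum_comm, sum_add_distrib, sum_const, nsmul_eq_mul, hΩ, ← mul_sum, sum_add_distrib] at h4
  have h5 : (∑ p ∈ Fintype.piFinset fun _ : Fin E => X, if p ∈ Exc then (1 : ℝ) else 0) ≤
      ε * (X.card : ℝ) ^ E := by
    rw [sum_boole]
    exact le_trans (Nat.cast_le.2 (card_le_card fun p hp => (mem_filter.1 hp).2)) hExc
  have h6 : (∑ p ∈ Fintype.piFinset fun _ : Fin E => X, ∑ i : Fin E,
      ∑ j, if i ≠ j ∧ p i = p j then (1 : ℝ) else 0) ≤ ε * (X.card : ℝ) ^ E := by
    rw [sum_comm]
    refine le_of_mul_le_mul_right ?_ hx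
    have a1 : ∀ i : Fin E, (∑ p ∈ Fintype.piFinset fun _ : Fin E => X,
        ∑ j, if i ≠ j ∧ p i = p j then (1 : ℝ) else 0) * X.card ≤ E * (X.card : ℝ) ^ E :=
      fun i => by
        rw [sum_comm, sum_mul]
        simp only [sum_boole]
        exact (sum_le_sum fun j _ => h2 i j).trans_eq (by simp)
    rw [sum_mul]
    refine (sum_le_sum fun i _ => a1 i).trans ?_
    rw [sum_const, card_univ, Fintype.card_fin, nsmul_eq_mul]
    nlinarith [pow_pos hx E]
  have h7 := sum_congr rfl fun j (_ : j ∈ univ) => h1 j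
  rw [← mul_sum, ← mul_sum, sum_const, card_univ, Fintype.card_fin, nsmul_eq_mul] at h7
  have h8 : 0 < (X.card : ℝ) ^ E * E := by positivity
  refine le_of_mul_le_mul_left ?_ h8
  have h9 := mul_le_mul_of_nonneg_left (add_le_add h5 h6) (show 0 ≤ E * N by positivity)
  have h10 := mul_le_mul_of_nonneg_left (h4.trans (add_le_add le_rfl h9)) hx.le
  linarith

end

end Pool.Agent.Lib.MP_16ef92_ag.GF
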