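import Mathlib
import Pool.Agent.Lib.MP_16ef92_ag.GF.Base

set_option autoImplicit false
set_option linter.unusedSectionVars false
set_option linter.unusedVariables false

namespace Pool.Agent.Lib.MP_16ef92_ag.GF

open Polynomial
open scoped Classical

noncomputable section

variable {F : Type} [Field F] [Clos F] [Fintype F] [hq : Fact (Odd (Fintype.card F))]

/-- The rational order of `z` at `O`, normalised by the uniformiser of the place `x` below. -/
def ord (O : ValuationSubring (Om F)) (x : Option (kk F)) (z : Om F) : ℚ :=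
  if h : ∃ r : ℕ × ℤ, 0 < r.1 ∧ O.valuation z ^ r.1 = O.valuation (pl x) ^ r.2 then
    (h.choose.2 : ℚ) / h.choose.1 else 0

variable {O : ValuationSubring (Om F)} {x : Option (kk F)} {z w : Om F}

/-- use `Over.val_pow`, `zpow_le_one_iff'` or `zpow_right_injective₀` -/
theorem ord_spec (h : Over O x) {m : ℕ} {j : ℤ} (hm : 0 < m)
    (e : O.valuation z ^ m = O.valuation (pl x) ^ j) : ord O x z = (j : ℚ) / m := by
  have hex : ∃ r : ℕ × ℤ, 0 < r.1 ∧ O.valuation z ^ r.1 = O.valuation (pl x) ^ r.2 :=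
    ⟨(m, j), hm, e⟩
  obtain ⟨h1, h2⟩ := hex.choose_spec
  rw [ord, dif_pos hex]
  generalize hex.choose = r at h1 h2
  have h3 : O.valuation (pl x) ^ (r.2 * m) = O.valuation (pl x) ^ (j * r.1) := by
    rw [zpow_mul, zpow_mul, ← h2, ← e, zpow_natCast, zpow_natCast, ← pow_mul, ← pow_mul, mul_comm]
  have h4 := zpow_right_injective₀ (zero_lt_iff.2 h.val_ne) (ne_of_lt h) h3
  rw [div_eq_div_iff (by exact_mod_cast h1.ne') (by exact_mod_cast hm.ne')]
  exact_mod_cast h4

theorem ord_mul (h : Over O x) (hz : z ≠ 0) (hw : w ≠ 0) :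
    ord O x (z * w) = ord O x z + ord O x w := by
  obtain ⟨m, j, hm, e⟩ := h.val_pow hz
  obtain ⟨l, i, hl, f⟩ := h.val_pow hw
  have h1 : O.valuation (z * w) ^ (m * l) = O.valuation (pl x) ^ (j * l + i * m) := by
    rw [map_mul, mul_pow, zpow_add₀ h.val_ne, zpow_mul, zpow_mul, ← e, ← f, zpow_natCast,
      zpow_natCast, ← pow_mul, ← pow_mul, mul_comm l]
  rw [ord_spec h (Nat.mul_pos hm hl) h1, ord_spec h hm e, ord_spec h hl f]
  have : (m : ℚ) ≠ 0 := by exact_mod_cast hm.ne'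
  have : (l : ℚ) ≠ 0 := by exact_mod_cast hl.ne'
  push_cast
  field_simp

theorem ord_zpow (h : Over O x) (hz : z ≠ 0) (j : ℤ) : ord O x (z ^ j) = j * ord O x z := by
  obtain ⟨m, i, hm, e⟩ := h.val_pow hz
  have h1 : O.valuation (z ^ j) ^ m = O.valuation (pl x) ^ (i * j) := by
    rw [map_zpow₀, zpow_mul, ← e, ← zpow_natCast, ← zpow_natCast, ← zpow_mul, ← zpow_mul, mul_comm]
  rw [ord_spec h hm h1, ord_spec h hm e]
  push_cast
  ring

theorem ord_pow (h : Over O x) (hz : z ≠ 0) (j : ℕ) : ord O x (z ^ j) = j * ord O x z := by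
  have := ord_zpow h hz j
  rwa [zpow_natCast, Int.cast_natCast] at this

theorem ord_prod (h : Over O x) {ι : Type} (t : Finset ι) {f : ι → Om F} (hf : ∀ i ∈ t, f i ≠ 0) :
    ord O x (∏ i ∈ t, f i) = ∑ i ∈ t, ord O x (f i) := by
  induction t using Finset.induction_on with
  | empty => simpa using ord_spec (z := 1) h (m := 1) (j := 0) one_pos (by simp)
  | insert a t ha ih =>
    have h1 : ∀ i ∈ t, f i ≠ 0 := fun i hi => hf i (Finset.mem_insert_of_mem hi)
    rw [Finset.prod_insert ha, Finset.sum_insert ha, ord_mul h (hf a (Finset.mem_insert_self _ _))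
      (Finset.prod_ne_zero_iff.2 h1), ih h1]

theorem ord_le_iff (h : Over O x) (hz : z ≠ 0) (hw : w ≠ 0) :
    ord O x w ≤ ord O x z ↔ O.valuation z ≤ O.valuation w := by
  obtain ⟨m, j, hm, e⟩ := h.val_pow hz
  obtain ⟨l, i, hl, f⟩ := h.val_pow hw
  have h1 : O.valuation z ^ (m * l) ≤ O.valuation w ^ (m * l) ↔ O.valuation z ≤ O.valuation w :=
    pow_le_pow_iff_left₀ zero_le zero_le (Nat.mul_pos hm hl).ne'
  rw [ord_spec h hm e, ord_spec h hl f,
    div_le_div_iff₀ (by exact_mod_cast hl) (by exact_mod_cast hm), ← h1, pow_mul, e, mul_comm m l,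
    pow_mul, f, ← zpow_natCast, ← zpow_natCast, ← zpow_mul, ← zpow_mul,
    zpow_le_zpow_iff_right_of_lt_one₀ (zero_lt_iff.2 h.val_ne) h]
  exact_mod_cast Iff.rfl

theorem ord_lt_iff (h : Over O x) (hz : z ≠ 0) (hw : w ≠ 0) :
    ord O x w < ord O x z ↔ O.valuation z < O.valuation w := by
  rw [← not_le, ord_le_iff h hw hz, not_le]

theorem ord_pl (h : Over O x) : ord O x (pl x) = 1 := by
  simpa using ord_spec (z := pl x) h (m := 1) (j := 1) one_pos (by simp)

theorem ord_unit (h : Over O x) (hz : O.valuation z = 1) : ord O x z = 0 := by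
  simpa using ord_spec h (m := 1) (j := 0) one_pos (by simpa using hz)

theorem ord_nonneg_iff (h : Over O x) (hz : z ≠ 0) : 0 ≤ ord O x z ↔ z ∈ O := by
  rw [← O.valuation_le_one_iff, ← map_one O.valuation, ← ord_le_iff h hz one_ne_zero,
    ord_unit h (map_one _)]

theorem ord_pos_iff (h : Over O x) (hz : z ≠ 0) : 0 < ord O x z ↔ O.valuation z < 1 := by
  rw [← map_one O.valuation, ← ord_lt_iff h hz one_ne_zero, ord_unit h (map_one _)]

theorem val_of_ord (h : Over O x) (hz : z ≠ 0) {j : ℤ} (e : ord O x z = j) :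
    O.valuation z = O.valuation (pl x) ^ j := by
  have h0 := zpow_ne_zero j (pl_ne x)
  have h1 : ord O x (pl x ^ j) = j := by rw [ord_zpow h (pl_ne x), ord_pl h, mul_one]
  rw [← map_zpow₀]
  exact le_antisymm ((ord_le_iff h hz h0).1 (by rw [e, h1])) ((ord_le_iff h h0 hz).1 (by rw [e, h1]))

theorem ord_add (h : Over O x) (hz : z ≠ 0) (hw : w ≠ 0) (hzw : z + w ≠ 0) :
    min (ord O x z) (ord O x w) ≤ ord O x (z + w) := by
  rcases le_max_iff.1 (O.valuation.map_add z w) with h1 | h1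
  · exact (min_le_left _ _).trans ((ord_le_iff h hzw hz).2 h1)
  · exact (min_le_right _ _).trans ((ord_le_iff h hzw hw).2 h1)

/-- transport along a geometric automorphism -/
theorem ord_trans {O' : ValuationSubring (Om F)} (h : Over O x) (h' : Over O' x) {g : Gam F}
    (hg : g ∈ Geo F) (e : ∀ y, y ∈ O ↔ g y ∈ O') (hz : z ≠ 0) : ord O' x (g z) = ord O x z := by
  obtain ⟨m, j, hm, e1⟩ := h.val_pow hz
  have h1 : O.valuation (z ^ m / pl x ^ j) = 1 := by
    rw [map_div₀, map_pow, map_zpow₀, e1, div_self (zpow_ne_zero _ h.val_ne)]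
  have h2 : O'.valuation (g (z ^ m / pl x ^ j)) = 1 :=
    le_antisymm ((O'.valuation_le_one_iff _).2 ((e _).1 ((O.valuation_le_one_iff _).1 h1.le)))
      (not_lt.1 fun h3 => ((val_lt_of_iff e _).2 h3).ne h1)
  rw [map_div₀, map_pow, map_zpow₀, geo_pl hg, map_div₀, map_pow, map_zpow₀,
    div_eq_one_iff_eq (zpow_ne_zero _ h'.val_ne)] at h2
  rw [ord_spec h' hm h2, ord_spec h hm e1]

theorem ord_ine (h : Over O x) {g : Gam F} (hg : g ∈ Ine O) (hz : z ≠ 0) :
    ord O x (g z) = ord O x z := by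
  exact ord_trans h h hg.1 (fun y => (hg.2 y).symm) hz

theorem od_ne {P : (kk F)[X]} (hP : P ≠ 0) : aeval (tt F) P ≠ 0 :=
  fun e => hP (transcendental_iff.1 tt_trans P e)

theorem od_lin {T : Finset (Option (kk F))} {R : Option (kk F) → ValuationSubring (Om F)}
    (hR : ∀ y, Over (R y) y) (h0 : none ∈ T) {a : kk F} (ha : some a ∈ T) :
    ∑ y ∈ T, ord (R y) y (pl (some a)) = 0 := by
  rw [Finset.sum_eq_add_of_mem none (some a) h0 ha (by simp), ord_pl (hR _)]
  · have := ord_spec (hR none) (z := pl (some a)) (m := 1) (j := -1) one_pos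
      (by rw [pow_one, (hR none).val_inf prim_one])
    rw [this]
    norm_num
  · rintro (_ | c) _ hc
    · exact (hc.1 rfl).elim
    · exact ord_unit (hR _) ((hR _).val_other prim_one fun e => hc.2 (by rw [e]))

theorem od_poly {T : Finset (Option (kk F))} {R : Option (kk F) → ValuationSubring (Om F)}
    (hR : ∀ y, Over (R y) y) (h0 : none ∈ T) {P : (kk F)[X]} (hP : P ≠ 0)
    (hT : ∀ a ∈ P.roots, some a ∈ T) : ∑ y ∈ T, ord (R y) y (aeval (tt F) P) = 0 := by
  have hc := leadingCoeff_ne_zero.2 hP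
  have h1 : ∀ s : Multiset (kk F), (∀ a ∈ s, some a ∈ T) → ∑ y ∈ T, ord (R y) y
      (aeval (tt F) (C P.leadingCoeff * (s.map fun a => X - C a).prod)) = 0 := by
    intro s
    induction s using Multiset.induction_on with
    | empty =>
      refine fun _ => Finset.sum_eq_zero fun y _ => ord_unit (hR y) ?_
      simpa using val_const (R y) hc
    | cons a s ih =>
      intro hs
      have e : aeval (tt F) (X - C a) = pl (some a) := by simp [pl]
      have h2 := od_ne (mul_ne_zero (C_ne_zero.2 hc)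
        (monic_multiset_prod_of_monic s _ fun a _ => monic_X_sub_C a).ne_zero)
      rw [Multiset.map_cons, Multiset.prod_cons, mul_left_comm, map_mul, e,
        Finset.sum_congr rfl fun y _ => ord_mul (hR y) (pl_ne _) h2, Finset.sum_add_distrib,
        od_lin hR h0 (hs a (Multiset.mem_cons_self _ _)),
        ih fun b hb => hs b (Multiset.mem_cons_of_mem hb), add_zero]
  have := h1 P.roots hT
  rwa [← (IsAlgClosed.splits P).eq_prod_roots] at this

/-- The product formula on the projective line: `z` lies in `k(t)` by `geo_fixed_mem`; factor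
numerator and denominator into linear factors (`Over.val_other`, `Over.val_inf`). -/
theorem ord_sum (hz : z ≠ 0) (hfix : ∀ g ∈ Geo F, g z = z) (Y : Finset (Option (kk F)))
    (R : Option (kk F) → ValuationSubring (Om F)) (hR : ∀ y, Over (R y) y)
    (hY : ∀ y, y ∉ Y → ord (R y) y z = 0) : ∑ y ∈ Y, ord (R y) y z = 0 := by
  obtain ⟨p, r, rfl⟩ := (IntermediateField.mem_adjoin_simple_iff (kk F) z).1
    (fix_kf (IntermediateField.mem_adjoin_simple_self (kk F) (tt F)) fun g hg _ => hfix g hg)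
  have hp : p ≠ 0 := fun e => hz (by simp [e])
  have hr : r ≠ 0 := fun e => hz (by simp [e])
  let T : Finset (Option (kk F)) := insert none (Y ∪ (p.roots + r.roots).toFinset.image some)
  have hT : ∀ a ∈ p.roots + r.roots, some a ∈ T := fun a ha =>
    Finset.mem_insert_of_mem (Finset.mem_union_right _
      (Finset.mem_image_of_mem _ (Multiset.mem_toFinset.2 ha)))
  have h0 : none ∈ T := Finset.mem_insert_self _ _
  have h1 := od_poly hR h0 hp fun a ha => hT a (Multiset.mem_add.2 (Or.inl ha))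
  have h2 := od_poly hR h0 hr fun a ha => hT a (Multiset.mem_add.2 (Or.inr ha))
  have h3 : Y ⊆ T := Finset.subset_union_left.trans (Finset.subset_insert _ _)
  rw [Finset.sum_subset h3 fun y _ hy => hY y hy, ← sub_zero (0 : ℚ)]
  nth_rewrite 1 [← h1]
  rw [← h2, ← Finset.sum_sub_distrib]
  refine Finset.sum_congr rfl fun y _ => ?_
  rw [div_eq_mul_inv, ord_mul (hR y) (od_ne hp) (inv_ne_zero (od_ne hr)), ← zpow_neg_one,
    ord_zpow (hR y) (od_ne hr)]
  push_cast
  ring

variable {B : Type} [Group B] {φ : Gam F → B}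

/-- `z` lies in the field cut out by `φ`. -/
def InM (φ : Gam F → B) (z : Om F) : Prop := ∀ g ∈ Geo F, φ g = 1 → g z = z

theorem InM.map (hφ : Hm (Geo F) φ) (h : InM φ z) {g : Gam F} (hg : g ∈ Geo F) : InM φ (g z) := by
  intro l hl e
  have h1 := h (g⁻¹ * l * g) (geo_conj hl g) (by
    rw [hφ.mul _ (mul_mem (inv_mem hg) hl) _ hg, hφ.mul _ (inv_mem hg) _ hl, e, hφ.inv hg, mul_one,
      inv_mul_cancel])
  conv_rhs => rw [← h1]
  rw [AlgEquiv.mul_apply, AlgEquiv.mul_apply, self_apply_inv]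

theorem InM.congr (hφ : Hm (Geo F) φ) (h : InM φ z) {g l : Gam F} (hg : g ∈ Geo F)
    (hl : l ∈ Geo F) (e : φ g = φ l) : g z = l z := by
  have h1 := h (l⁻¹ * g) (mul_mem (inv_mem hl) hg) (by
    rw [hφ.mul _ (inv_mem hl) _ hg, hφ.inv hl, e, inv_mul_cancel])
  conv_rhs => rw [← h1]
  rw [AlgEquiv.mul_apply, self_apply_inv]

/-- the norm down to `k(t)` -/
theorem InM.norm_fix [Fintype B] (hφ : Hm (Geo F) φ) (h : InM φ z) {sec : B → Gam F}
    (hsec : ∀ b, sec b ∈ Geo F ∧ φ (sec b) = b) {g : Gam F} (hg : g ∈ Geo F) :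
    g (∏ b, sec b z) = ∏ b, sec b z := by
  rw [map_prod]
  refine Fintype.prod_equiv (Equiv.mulLeft (φ g)) _ _ fun b => ?_
  rw [← AlgEquiv.mul_apply]
  exact h.congr hφ (mul_mem hg (hsec b).1) (hsec _).1 (by
    rw [hφ.mul _ hg _ (hsec b).1, (hsec b).2, (hsec _).2, Equiv.coe_mulLeft])

/-- One step of a quadratic tower: if `a` is a central involution of `B` in the image, the field of
`φ` is generated over the field of `φ mod a` by an `η` on which the kernel of `φ mod a` acts by a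
sign (`hilbert90` or `h90_add` with `prim_one` on the subgroup where `φ g ∈ {1, a}`). -/
theorem exists_eta (hφ : Hm (Geo F) φ) {a : B} (ha : a ≠ 1) (ha2 : a * a = 1) :
    ∃ η : Om F, η ≠ 0 ∧ InM φ η ∧ ∀ g ∈ Geo F, φ g = a → g η = -η := by
  let H : Subgroup (Gam F) :=
    { carrier := {g | g ∈ Geo F ∧ (φ g = 1 ∨ φ g = a)}
      mul_mem' := by
        rintro g l ⟨hg, h1⟩ ⟨hl, h2⟩
        refine ⟨mul_mem hg hl, ?_⟩
        rw [hφ.mul g hg l hl]
        rcases h1 with h1 | h1 <;> rcases h2 with h2 | h2 <;> simp [h1, h2, ha2]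
      one_mem' := ⟨one_mem _, Or.inl hφ.one⟩
      inv_mem' := by
        rintro g ⟨hg, h1⟩
        refine ⟨inv_mem hg, ?_⟩
        rw [hφ.inv hg]
        rcases h1 with h1 | h1
        · simp [h1]
        · exact Or.inr (by rw [h1]; exact inv_eq_of_mul_eq_one_right ha2) }
  obtain ⟨η, h0, h1⟩ := hilbert90 H (fun g => if φ g = 1 then 1 else -1)
    (fun g _ => by split_ifs <;> simp) (by
      rintro g ⟨hg, h1⟩ l ⟨hl, h2⟩
      rw [hφ.mul g hg l hl]
      rcases h1 with h1 | h1 <;> rcases h2 with h2 | h2 <;> simp [h1, h2, ha2, ha])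
    (hφ.near.mono fun g hg hH => if_pos (hg hH.1 hH.1))
  refine ⟨η, h0, fun g hg e => ?_, fun g hg e => ?_⟩
  · simpa [e] using h1 g ⟨hg, Or.inl e⟩
  · simpa [e, ha] using h1 g ⟨hg, Or.inr e⟩

theorem od_step (h : Over O x) (hz : z ≠ 0) (hw : w ≠ 0)
    (h1 : z + w ≠ 0 → ∃ (a : ℕ) (j : ℤ), ord O x (z + w) = (j : ℚ) / 2 ^ a)
    (h2 : ∃ (a : ℕ) (j : ℤ), ord O x (z * w) = (j : ℚ) / 2 ^ a) :
    ∃ (a : ℕ) (j : ℤ), ord O x z = (j : ℚ) / 2 ^ a := by
  have key : ∀ {u y : Om F}, u ≠ 0 → O.valuation y = O.valuation u → y ≠ 0 ∧ ord O x y = ord O x u :=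
    fun {u y} hu e => by
      have hy : y ≠ 0 := fun e' => hu (by simpa [e'] using e.symm)
      exact ⟨hy, le_antisymm ((ord_le_iff h hu hy).2 e.ge) ((ord_le_iff h hy hu).2 e.le)⟩
  obtain ⟨b, i, hb⟩ := h2
  rw [ord_mul h hz hw] at hb
  rcases lt_trichotomy (O.valuation z) (O.valuation w) with e | e | e
  · obtain ⟨h3, h4⟩ := key hw (Valuation.map_add_eq_of_lt_right O.valuation e)
    obtain ⟨a, j, ha⟩ := h1 h3
    refine ⟨a + b, i * 2 ^ a - j * 2 ^ b, ?_⟩
    rw [eq_sub_of_add_eq hb, ← h4, ha]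
    push_cast
    field_simp
    ring
  · refine ⟨b + 1, i, ?_⟩
    rw [← (key hw e).2] at hb
    rw [pow_succ, ← div_div, ← hb]
    ring
  · obtain ⟨h3, h4⟩ := key hz (Valuation.map_add_eq_of_lt_left O.valuation e)
    rw [← h4]
    exact h1 h3

theorem od_two (h : Over O x) (n : ℕ) : ∀ (B : Type) [Group B] [Finite B], Nat.card B = n →
    IsPGroup 2 B → ∀ φ : Gam F → B, Hm (Geo F) φ → ∀ z : Om F, InM φ z → z ≠ 0 →
    ∃ (a : ℕ) (j : ℤ), ord O x z = (j : ℚ) / 2 ^ a := by
  induction n using Nat.strong_induction_on with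
  | _ n ih =>
    intro B _ _ hn hB φ hφ z hM hz
    by_cases hT : (⊤ : Subgroup B) = ⊥
    · obtain ⟨j, hj⟩ := h.kf (geo_fixed_mem x fun g hg => hM g hg (by
        rw [← Subgroup.mem_bot, ← hT]
        trivial)) hz
      exact ⟨0, j, by simpa using ord_spec h (m := 1) one_pos (by rw [pow_one, hj])⟩
    obtain ⟨a, -, ha, ha2, hc⟩ := exists_central hB ⊤ hT
    let K : Subgroup B :=
      { carrier := {b | b = 1 ∨ b = a}
        mul_mem' := by rintro _ _ (rfl | rfl) (rfl | rfl) <;> simp [ha2]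
        one_mem' := Or.inl rfl
        inv_mem' := by
          rintro _ (rfl | rfl)
          · simp
          · exact Or.inr (inv_eq_of_mul_eq_one_right ha2) }
    have : K.Normal := ⟨by
      rintro _ (rfl | rfl) g
      · exact Or.inl (by simp)
      · exact Or.inr (by rw [hc g, mul_inv_cancel_right])⟩
    have hlt : Nat.card (B ⧸ K) < n := by
      rw [← hn, Subgroup.card_eq_card_quotient_mul_card_subgroup K]
      refine lt_mul_of_one_lt_right Nat.card_pos (K.one_lt_card_iff_ne_bot.2 fun e => ha ?_)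
      rw [← Subgroup.mem_bot, ← e]
      exact Or.inr rfl
    have key : ∀ y : Om F, InM φ y → (∀ g ∈ Geo F, φ g = a → g y = y) → y ≠ 0 →
        ∃ (a : ℕ) (j : ℤ), ord O x y = (j : ℚ) / 2 ^ a := fun y h1 h2 =>
      ih _ hlt (B ⧸ K) rfl (hB.to_quotient K) _ (hφ.comp (QuotientGroup.mk' K)) y
        fun g hg e => ((QuotientGroup.eq_one_iff _).1 e).elim (h1 g hg) (h2 g hg)
    by_cases hex : ∃ g ∈ Geo F, φ g = a
    · obtain ⟨g, hg, e⟩ := hex
      have h1 := hM.map hφ hg
      have h2 : ∀ l ∈ Geo F, φ l = a → l z = g z ∧ l (g z) = z := fun l hl f =>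
        ⟨hM.congr hφ hl hg (f.trans e.symm),
          hM (l * g) (mul_mem hl hg) (by rw [hφ.mul l hl g hg, e, f, ha2])⟩
      have h3 : g z ≠ 0 := by simpa using hz
      refine od_step h hz h3 (key _ (fun l hl f => ?_) fun l hl f => ?_)
        (key _ (fun l hl f => ?_) (fun l hl f => ?_) (mul_ne_zero hz h3))
      · rw [map_add, hM l hl f, h1 l hl f]
      · rw [map_add, (h2 l hl f).1, (h2 l hl f).2, add_comm]
      · rw [map_mul, hM l hl f, h1 l hl f]
      · rw [map_mul, (h2 l hl f).1, (h2 l hl f).2, mul_comm]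
    · exact key z hM (fun g hg e => (hex ⟨g, hg, e⟩).elim) hz

/-- Orders in a 2-extension have 2-power denominators.  Induct on the order of `B` through
`exists_central`: write `z = u + v η` with `u = (z + g z) / 2`; if `u`, `v η` are nonzero with the
same order, one of `z`, `g z` has the order of `u`, and `z * g z` lies in the smaller field. -/
theorem InM.ord_two [Finite B] (hB : IsPGroup 2 B) (hφ : Hm (Geo F) φ) (h : Over O x)
    (hM : InM φ z) (hz : z ≠ 0) : ∃ (a : ℕ) (j : ℤ), ord O x z = (j : ℚ) / 2 ^ a := by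
  exact od_two h _ B rfl hB φ hφ z hM hz

/-- An element fixed by inertia has integral order: if the order is `j / 2 ^ a` with `j` odd and
`a > 0`, use `Over.kap_val`, `kap_of_fix` for `z ^ 2 ^ a` and `Over.exists_unit`. -/
theorem InM.ord_int [Finite B] (hB : IsPGroup 2 B) (hφ : Hm (Geo F) φ) (h : Over O x)
    (hM : InM φ z) (hz : z ≠ 0) (hfix : ∀ g ∈ Ine O, g z = z) : ∃ j : ℤ, ord O x z = j := by
  obtain ⟨a, j, e⟩ := hM.ord_two hB hφ h hz
  obtain ⟨r, hr⟩ := exists_prim (F := F) a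
  obtain ⟨g, hg, hu⟩ := h.exists_unit hr
  have h0 := pow_ne_zero (2 ^ a) hz
  have h1 : ord O x (z ^ 2 ^ a) = j := by
    rw [ord_pow h hz, e]
    push_cast
    field_simp
  have h2 := h.kap_val hr hg (by rw [map_pow, hfix g hg]) (val_of_ord h h0 h1)
  rw [kap_of_fix hr (geo_prim hr hg.1) h0 rfl (hfix g hg), eq_comm, hu.mul_left_eq_zero,
    ZMod.intCast_zmod_eq_zero_iff_dvd] at h2
  obtain ⟨i, rfl⟩ := h2
  refine ⟨i, ?_⟩
  rw [e]
  push_cast
  field_simp

/-- The ramification index clears denominators: take the product over the image of inertia. -/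
theorem InM.ord_ram [Finite B] (hB : IsPGroup 2 B) (hφ : Hm (Geo F) φ) (h : Over O x)
    (hM : InM φ z) (hz : z ≠ 0) (I : Finset B) (hI : ∀ b, b ∈ I ↔ ∃ g ∈ Ine O, φ g = b) :
    ∃ j : ℤ, I.card * ord O x z = j := by
  have hs : ∀ b : B, ∃ g : Gam F, b ∈ I → g ∈ Ine O ∧ φ g = b := fun b => by
    by_cases hb : b ∈ I
    · obtain ⟨g, h1, h2⟩ := (hI b).1 hb
      exact ⟨g, fun _ => ⟨h1, h2⟩⟩
    · exact ⟨1, fun e => (hb e).elim⟩
  choose s hs using hs
  have h0 : ∀ b ∈ I, s b z ≠ 0 := fun b _ => by simpa using hz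
  have hm : ∀ g ∈ Ine O, ∀ b ∈ I, φ g * b ∈ I := fun g hg b hb =>
    (hI _).2 ⟨g * s b, mul_mem hg (hs b hb).1, by rw [hφ.mul _ hg.1 _ (hs b hb).1.1, (hs b hb).2]⟩
  obtain ⟨j, hj⟩ := InM.ord_int (z := ∏ b ∈ I, s b z) hB hφ h (fun g hg e => by
    rw [map_prod]
    exact Finset.prod_congr rfl fun b hb => hM.map hφ (hs b hb).1.1 g hg e)
    (Finset.prod_ne_zero_iff.2 h0) (fun g hg => by
      rw [map_prod]
      refine Finset.prod_nbij' (fun b => φ g * b) (fun b => φ g⁻¹ * b) (hm g hg)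
        (hm _ (inv_mem hg)) (fun b _ => ?_) (fun b _ => ?_) fun b hb => ?_
      · rw [hφ.inv hg.1, inv_mul_cancel_left]
      · rw [hφ.inv hg.1, mul_inv_cancel_left]
      · rw [← AlgEquiv.mul_apply]
        exact hM.congr hφ (mul_mem hg.1 (hs b hb).1.1) (hs _ (hm g hg b hb)).1.1 (by
          rw [hφ.mul _ hg.1 _ (hs b hb).1.1, (hs b hb).2, (hs _ (hm g hg b hb)).2]))
  refine ⟨j, ?_⟩
  rw [← hj, ord_prod h I h0, Finset.sum_congr rfl fun b hb => ord_ine h (hs b hb).1 hz,
    Finset.sum_const, nsmul_eq_mul]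

/-- Functions on the cover with poles only at infinity, of order at most `m`. -/
def LL (φ : Gam F → B) (m : ℕ) : Submodule (kk F) (Om F) where
  carrier := {z | InM φ z ∧ (∀ c O, Over O (some c) → z ∈ O) ∧
    ∀ O, Over O none → z * pl none ^ m ∈ O}
  add_mem' := by
    rintro a b ⟨h1, h2, h3⟩ ⟨h4, h5, h6⟩
    exact ⟨fun g hg e => by rw [map_add, h1 g hg e, h4 g hg e],
      fun c O h => O.add_mem _ _ (h2 c O h) (h5 c O h),
      fun O h => by rw [add_mul]; exact O.add_mem _ _ (h3 O h) (h6 O h)⟩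
  zero_mem' := ⟨fun g _ _ => map_zero g, fun c O _ => O.zero_mem, fun O _ => by simp⟩
  smul_mem' := by
    rintro c a ⟨h1, h2, h3⟩
    have hc : ∀ O : ValuationSubring (Om F), (c : Om F) ∈ O := fun O =>
      (O.valuation_le_one_iff _).1 (val_const_le O c)
    refine ⟨fun g hg e => ?_, fun d O h => O.mul_mem _ _ (hc O) (h2 d O h), fun O h => ?_⟩
    · change g (c * a) = c * a
      rw [map_mul, geo_fix hg, h1 g hg e]
    · change (c * a) * _ ∈ O
      rw [mul_assoc]
      exact O.mul_mem _ _ (hc O) (h3 O h)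

theorem LL.mul {m l : ℕ} (hz : z ∈ LL φ m) (hw : w ∈ LL φ l) : z * w ∈ LL φ (m + l) := by
  obtain ⟨h1, h2, h3⟩ := hz
  obtain ⟨h4, h5, h6⟩ := hw
  refine ⟨fun g hg e => by rw [map_mul, h1 g hg e, h4 g hg e],
    fun c O h => O.mul_mem _ _ (h2 c O h) (h5 c O h), fun O h => ?_⟩
  rw [pow_add, mul_mul_mul_comm]
  exact O.mul_mem _ _ (h3 O h) (h6 O h)

theorem LL.mono {m l : ℕ} (h : m ≤ l) : LL φ m ≤ LL φ l := by
  rintro z ⟨h1, h2, h3⟩
  obtain ⟨k, rfl⟩ := Nat.exists_eq_add_of_le h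
  refine ⟨h1, h2, fun O hO => ?_⟩
  rw [pow_add, ← mul_assoc]
  exact O.mul_mem _ _ (h3 O hO) (pow_mem ((O.valuation_le_one_iff _).1 (le_of_lt hO)) k)

theorem LL.pow {m : ℕ} (hz : z ∈ LL φ m) (j : ℕ) : z ^ j ∈ LL φ (m * j) := by
  obtain ⟨h1, h2, h3⟩ := hz
  refine ⟨fun g hg e => by rw [map_pow, h1 g hg e], fun c O h => pow_mem (h2 c O h) j,
    fun O h => ?_⟩
  rw [pow_mul, ← mul_pow]
  exact pow_mem (h3 O h) j

theorem LL.tt : tt F ∈ LL φ 1 := by
  refine ⟨fun g _ _ => gam_tt g, fun c O h => ?_, fun O _ => ?_⟩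
  · have := O.add_mem _ _ ((O.valuation_le_one_iff _).1 (le_of_lt h))
      ((O.valuation_le_one_iff _).1 (val_const_le O c))
    simpa [pl] using this
  · rw [pow_one, pl, mul_inv_cancel₀ tt_ne]
    exact O.one_mem

theorem LL.map (hφ : Hm (Geo F) φ) {m : ℕ} (hz : z ∈ LL φ m) {g : Gam F} (hg : g ∈ Geo F) :
    g z ∈ LL φ m := by
  obtain ⟨h1, h2, h3⟩ := hz
  refine ⟨h1.map hφ hg, fun c O h => h2 c (cm g O) (over_cm ?_), fun O h => ?_⟩
  · have : ck g c = c := Subtype.ext (geo_fix hg c)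
    simpa [this] using h
  · have := mem_cm.1 (h3 (cm g O) (over_cm (by simpa using h)))
    rwa [map_mul, map_pow, geo_pl hg] at this

/-- `φ` is unramified at the finite points outside `Y`. -/
def UnrP (φ : Gam F → B) (Y : Finset (kk F)) : Prop :=
  ∀ c O, Over O (some c) → c ∉ Y → ∀ g ∈ Ine O, φ g = 1

end

end Pool.Agent.Lib.MP_16ef92_ag.GF
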