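import Mathlib
import Pool.Agent.Lib.MP_16ef92_ag.GF.Ord

set_option autoImplicit false
set_option linter.unusedSectionVars false
set_option linter.unusedVariables false

namespace Pool.Agent.Lib.MP_16ef92_ag.GF

open Polynomial
open scoped Classical

noncomputable section

variable {F : Type} [Field F] [Clos F] [Fintype F] [hq : Fact (Odd (Fintype.card F))]
variable {B : Type} [Group B] [Fintype B] {φ : Gam F → B} {Y : Finset (kk F)} {sec : B → Gam F}

/-- The total order of the conjugates at finitely many finite points is at most `|B| m`: apply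
`ord_sum` to the norm `∏ b, sec b z` (finitely many zeros by `finite_nonunit`); all orders at finite
points are nonnegative and the order at infinity is at least `-|B| m`. -/
theorem sum_ord_le (hφ : Hm (Geo F) φ) (hsec : ∀ b, sec b ∈ Geo F ∧ φ (sec b) = b) {m : ℕ}
    {z : Om F} (hz : z ∈ LL φ m) (h0 : z ≠ 0) (T : Finset (kk F))
    (R : kk F → ValuationSubring (Om F)) (hR : ∀ c, Over (R c) (some c)) :
    ∑ c ∈ T, ∑ b, ord (R c) (some c) (sec b z) ≤ Fintype.card B * m := by
  obtain ⟨Oi, hOi⟩ := exists_over (F := F) none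
  let R' : Option (kk F) → ValuationSubring (Om F) := fun y => y.elim Oi R
  have hR' : ∀ y, Over (R' y) y := fun y => by
    cases y with
    | none => exact hOi
    | some c => exact hR c
  have h1 : ∀ b ∈ (Finset.univ : Finset B), sec b z ≠ 0 := fun b _ => by simpa using h0
  have h2 : ∀ b, sec b z ∈ LL φ m := fun b => LL.map hφ hz (hsec b).1
  have hN : ∏ b, sec b z ≠ 0 := Finset.prod_ne_zero_iff.2 h1
  let T' : Finset (Option (kk F)) := insert none (T.map Function.Embedding.some)
  have h3 := ord_sum hN (fun g hg => hz.1.norm_fix hφ hsec hg) ((finite_nonunit hN).toFinset ∪ T')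
    R' hR' fun y hy => ord_unit (hR' y) (by
      by_contra hv
      exact hy (Finset.mem_union_left _ ((Set.Finite.mem_toFinset _).2 ⟨_, hR' y, hv⟩)))
  have h4 : ∑ y ∈ T', ord (R' y) y (∏ b, sec b z) ≤ 0 := by
    rw [← h3]
    refine Finset.sum_le_sum_of_subset_of_nonneg Finset.subset_union_right fun y _ hy => ?_
    cases y with
    | none => exact (hy (Finset.mem_insert_self _ _)).elim
    | some c =>
      exact (ord_nonneg_iff (hR' _) hN).2 (prod_mem fun b _ => (h2 b).2.1 c _ (hR c))
  rw [Finset.sum_insert (by simp), Finset.sum_map] at h4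
  have h5 : -((Fintype.card B : ℚ) * m) ≤ ord Oi none (∏ b, sec b z) := by
    rw [ord_prod hOi _ h1]
    have : ∀ b ∈ (Finset.univ : Finset B), -(m : ℚ) ≤ ord Oi none (sec b z) := fun b hb => by
      have h6 := (ord_nonneg_iff hOi (mul_ne_zero (h1 b hb) (pow_ne_zero m (pl_ne _)))).2
        ((h2 b).2.2 Oi hOi)
      rw [ord_mul hOi (h1 b hb) (pow_ne_zero m (pl_ne _)), ord_pow hOi (pl_ne _), ord_pl hOi] at h6
      linarith
    have h7 := Finset.sum_le_sum this
    rw [Finset.sum_const, Finset.card_univ, nsmul_eq_mul] at h7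
    linarith
  have h8 : ∑ c ∈ T, ∑ b, ord (R c) (some c) (sec b z) =
      ∑ c ∈ T, ord (R c) (some c) (∏ b, sec b z) :=
    Finset.sum_congr rfl fun c _ => (ord_prod (hR c) _ h1).symm
  rw [h8]
  change ord Oi none _ + ∑ c ∈ T, ord (R c) (some c) _ ≤ 0 at h4
  linarith

/-- At an unramified point the order is an integer between `0` and `|B| m`. -/
theorem ord_range (hB : IsPGroup 2 B) (hφ : Hm (Geo F) φ) (hu : UnrP φ Y)
    (hsec : ∀ b, sec b ∈ Geo F ∧ φ (sec b) = b) {m : ℕ} {z : Om F} (hz : z ∈ LL φ m) (h0 : z ≠ 0)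
    {c : kk F} (hc : c ∉ Y) {O : ValuationSubring (Om F)} (hO : Over O (some c)) :
    ∃ j : ℕ, j ≤ Fintype.card B * m ∧ ord O (some c) z = j := by
  obtain ⟨j, hj⟩ := hz.1.ord_int hB hφ hO h0 fun g hg => hz.1 g hg.1 (hu c O hO hc g hg)
  have h1 : 0 ≤ ord O (some c) z := (ord_nonneg_iff hO h0).2 (hz.2.1 c O hO)
  have h2 : ∀ d : kk F, ∃ R, Over R (some d) ∧ (d = c → R = O) := fun d => by
    by_cases hd : d = c
    · exact ⟨O, hd ▸ hO, fun _ => rfl⟩
    · obtain ⟨R, hR⟩ := exists_over (some d)
      exact ⟨R, hR, fun e => (hd e).elim⟩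
  choose R hR hRc using h2
  have h3 := sum_ord_le hφ hsec hz h0 {c} R hR
  rw [Finset.sum_singleton, hRc c rfl] at h3
  have h4 := (Finset.single_le_sum (f := fun b => ord O (some c) (sec b z))
    (fun b _ => (ord_nonneg_iff hO (by simpa using h0)).2
      ((LL.map hφ hz (hsec b).1).2.1 c O hO)) (Finset.mem_univ 1)).trans h3
  rw [hz.1 _ (hsec 1).1 (hsec 1).2, hj] at h4
  rw [hj] at h1
  obtain ⟨k, rfl⟩ := Int.eq_ofNat_of_zero_le (show 0 ≤ j by exact_mod_cast h1)
  exact ⟨k, by exact_mod_cast h4, by rw [hj, Int.cast_natCast]⟩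

/-- The number of zeros over unramified points. -/
theorem zeros_le (hB : IsPGroup 2 B) (hφ : Hm (Geo F) φ) (hu : UnrP φ Y)
    (hsec : ∀ b, sec b ∈ Geo F ∧ φ (sec b) = b) {m : ℕ} {z : Om F} (hz : z ∈ LL φ m) (h0 : z ≠ 0)
    (T : Finset (kk F)) (hT : ∀ c ∈ T, c ∉ Y) (R : kk F → ValuationSubring (Om F))
    (hR : ∀ c, Over (R c) (some c)) :
    ((T ×ˢ (Finset.univ : Finset B)).filter fun y =>
      (R y.1).valuation (sec y.2 z) < 1).card ≤ Fintype.card B * m := by
  have h1 := sum_ord_le hφ hsec hz h0 T R hR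
  rw [← Finset.sum_product' (f := fun c b => ord (R c) (some c) (sec b z))] at h1
  have h2 : (((T ×ˢ (Finset.univ : Finset B)).filter fun y =>
      (R y.1).valuation (sec y.2 z) < 1).card : ℚ) ≤ Fintype.card B * m := by
    refine le_trans ?_ h1
    rw [Finset.card_filter]
    push_cast
    refine Finset.sum_le_sum fun y hy => ?_
    have h3 : sec y.2 z ≠ 0 := by simpa using h0
    obtain ⟨j, -, hj⟩ := ord_range hB hφ hu hsec (LL.map hφ hz (hsec y.2).1) h3
      (hT _ (Finset.mem_product.1 hy).1) (hR y.1)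
    split_ifs with hv
    · have h4 := (ord_pos_iff (hR y.1) h3).2 hv
      rw [hj] at h4 ⊢
      exact_mod_cast h4
    · rw [hj]
      positivity
  exact_mod_cast h2

/-- Evaluation (`Over.res`, `const_eq`) of all conjugates at `m + 1` unramified points is an
injective linear map, by `zeros_le`. -/
theorem rr_up (hB : IsPGroup 2 B) (hφ : Hm (Geo F) φ) (hu : UnrP φ Y)
    (hsec : ∀ b, sec b ∈ Geo F ∧ φ (sec b) = b) (m : ℕ) :
    FiniteDimensional (kk F) (LL φ m) ∧
      Module.finrank (kk F) (LL φ m) ≤ Fintype.card B * (m + 1) := by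
  obtain ⟨T, hT, hcard⟩ := (Y.finite_toSet.infinite_compl).exists_subset_card_eq (m + 1)
  choose R hR using fun c : kk F => exists_over (some c)
  have h1 : ∀ (z : LL φ m) (y : kk F × B), ∃ d : kk F, (R y.1).valuation (sec y.2 z - d) < 1 :=
    fun z y => (hR y.1).res ((LL.map hφ z.2 (hsec y.2).1).2.1 _ _ (hR y.1))
  choose e he using h1
  let L : LL φ m →ₗ[kk F] (↥(T ×ˢ (Finset.univ : Finset B)) → kk F) :=
    { toFun := fun z y => e z y
      map_add' := fun z w => funext fun y => const_eq (R y.1.1) (by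
        have := Valuation.map_sub_lt _ (Valuation.map_add_lt _ (he z y) (he w y)) (he (z + w) y)
        convert this using 2
        simp only [Pi.add_apply, Submodule.coe_add, map_add]
        push_cast
        ring)
      map_smul' := fun a z => funext fun y => const_eq (R y.1.1) (by
        have := Valuation.map_sub_lt _ (val_mul_lt _ (val_const_le _ a) (he z y)) (he (a • z) y)
        convert this using 2
        have h2 : ((a • z : LL φ m) : Om F) = a * z := rfl
        rw [h2, map_mul, geo_fix (hsec _).1]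
        simp only [RingHom.id_apply, Pi.smul_apply, smul_eq_mul]
        push_cast
        ring) }
  have hL : Function.Injective L := by
    rw [injective_iff_map_eq_zero]
    intro z hz
    by_contra h0
    have h2 := zeros_le hB hφ hu hsec z.2 (fun e => h0 (Subtype.ext e)) T
      (fun c hc => hT hc) R hR
    rw [Finset.filter_true_of_mem fun y hy => by
      have h3 : e z y = 0 := congrFun hz ⟨y, hy⟩
      simpa [h3] using he z y, Finset.card_product, hcard, Finset.card_univ] at h2
    have := Fintype.card_pos (α := B)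
    nlinarith
  refine ⟨Module.Finite.of_injective L hL, ?_⟩
  have := LinearMap.finrank_le_finrank_of_injective hL
  rwa [Module.finrank_fintype_fun_eq_card, Fintype.card_coe, Finset.card_product, hcard,
    Finset.card_univ, mul_comm] at this

end

end Pool.Agent.Lib.MP_16ef92_ag.GF
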