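import Mathlib
import Pool.Agent.Lib.MP_16ef92_ag.GF.Up

set_option autoImplicit false
set_option linter.unusedSectionVars false
set_option linter.unusedVariables false

namespace Pool.Agent.Lib.MP_16ef92_ag.GF

open Polynomial
open scoped Classical

noncomputable section

variable {F : Type} [Field F] [Clos F] [Fintype F] [hq : Fact (Odd (Fintype.card F))]

section lw

variable {O : ValuationSubring (Om F)} {x : Option (kk F)} {z : Om F}

theorem lw_coe (O : ValuationSubring (Om F)) (c : kk F) : (c : Om F) ∈ O :=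
  (O.valuation_le_one_iff _).1 (val_const_le O c)

theorem lw_const (h : Over O x) {c : kk F} (hc : c ≠ 0) (hz : z ≠ 0) :
    ord O x (c * z) = ord O x z := by
  rw [ord_mul h (fun e => hc (Subtype.ext e)) hz, ord_unit h (val_const O hc), zero_add]

theorem lw_div (h : Over O x) (hz : z ≠ 0) {w : Om F} (hw : w ≠ 0) :
    ord O x (z / w) = ord O x z - ord O x w := by
  rw [div_eq_mul_inv, ord_mul h hz (inv_ne_zero hw), ← zpow_neg_one, ord_zpow h hw]
  push_cast
  ring

/-- The elements of order at least `a`. -/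
def lwG (h : Over O x) (a : ℚ) : Submodule (kk F) (Om F) where
  carrier := {z | z ≠ 0 → a ≤ ord O x z}
  add_mem' := by
    intro u w hu hw h0
    by_cases h1 : u = 0
    · rw [h1, zero_add] at h0 ⊢
      exact hw h0
    by_cases h2 : w = 0
    · rw [h2, add_zero] at h0 ⊢
      exact hu h0
    exact (le_min (hu h1) (hw h2)).trans (ord_add h h1 h2 h0)
  zero_mem' := fun h0 => (h0 rfl).elim
  smul_mem' := by
    intro c u hu h0
    change (c : Om F) * u ≠ 0 at h0
    change a ≤ ord O x (c * u)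
    rw [lw_const h (fun e => h0 (by simp [e])) (right_ne_zero_of_mul h0)]
    exact hu (right_ne_zero_of_mul h0)

theorem lw_step (h : Over O x) (U : Submodule (kk F) (Om F)) [FiniteDimensional (kk F) U]
    {a a' : ℚ} (h1 : U ≤ lwG h a) (h2 : ∀ z ∈ U, z ≠ 0 → a < ord O x z → a' ≤ ord O x z) :
    Module.finrank (kk F) U ≤ Module.finrank (kk F) ↥(U ⊓ lwG h a') + 1 := by
  by_cases hU : U ≤ lwG h a'
  · rw [inf_eq_left.2 hU]
    omega
  obtain ⟨u, hu, hu'⟩ := SetLike.not_le_iff_exists.1 hU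
  have h0 : u ≠ 0 := fun e => hu' (by rw [e]; exact zero_mem _)
  have h3 : ord O x u = a := le_antisymm (not_lt.1 fun e => hu' fun _ => h2 u hu h0 e) (h1 hu h0)
  have h4 : U ≤ (U ⊓ lwG h a') ⊔ Submodule.span (kk F) {u} := by
    intro w hw
    have h5 : w / u ∈ O := by
      by_cases hw0 : w = 0
      · simp [hw0]
      rw [← ord_nonneg_iff h (div_ne_zero hw0 h0), lw_div h hw0 h0, h3, sub_nonneg]
      exact h1 hw hw0
    obtain ⟨c, hc⟩ := h.res h5
    have h6 : w - c • u ∈ U := sub_mem hw (U.smul_mem c hu)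
    refine Submodule.mem_sup.2 ⟨w - c • u, ⟨h6, fun h7 => h2 _ h6 h7 ?_⟩, c • u,
      Submodule.smul_mem _ c (Submodule.mem_span_singleton_self u), sub_add_cancel _ _⟩
    have h8 : w / u - c = (w - c • u) / u := by
      change _ = (w - c * u) / u
      field_simp
    rw [h8, ← ord_pos_iff h (div_ne_zero h7 h0), lw_div h h7 h0, h3, sub_pos] at hc
    exact hc
  have h9 := (Submodule.finrank_mono h4).trans (Submodule.finrank_add_le_finrank_add_finrank _ _)
  rwa [finrank_span_singleton h0] at h9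

theorem lw_steps (h : Over O x) (U : Submodule (kk F) (Om F)) [FiniteDimensional (kk F) U]
    {e : ℕ} (he : 0 < e) (hU : ∀ z ∈ U, z ≠ 0 → ∃ j : ℤ, e * ord O x z = j) {α : ℤ}
    (h1 : U ≤ lwG h α) (n : ℕ) :
    Module.finrank (kk F) U ≤ Module.finrank (kk F) ↥(U ⊓ lwG h (α + n / e)) + n := by
  have he' : (0 : ℚ) < e := by exact_mod_cast he
  induction n with
  | zero =>
    rw [inf_eq_left.2 (by simpa using h1)]
    omega
  | succ n ih =>
    have h2 := lw_step h (U ⊓ lwG h (α + n / e)) (a' := α + (n + 1 : ℕ) / e) inf_le_right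
      fun z hz h0 hlt => by
        obtain ⟨j, hj⟩ := hU z hz.1 h0
        have h3 : ord O x z = j / e := by rw [← hj]; field_simp
        rw [h3, lt_div_iff₀ he', add_mul, div_mul_cancel₀ _ he'.ne'] at hlt
        rw [h3, le_div_iff₀ he', add_mul, div_mul_cancel₀ _ he'.ne']
        have h4 : α * e + n < j := by exact_mod_cast hlt
        have h5 : α * e + (n + 1 : ℕ) ≤ j := by push_cast; omega
        exact_mod_cast h5
    have h6 := Submodule.finrank_mono (show U ⊓ lwG h (α + n / e) ⊓ lwG h (α + (n + 1 : ℕ) / e) ≤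
      U ⊓ lwG h (α + (n + 1 : ℕ) / e) from inf_le_inf_right _ inf_le_left)
    omega

theorem lw_one (h : Over O x) (U : Submodule (kk F) (Om F)) [FiniteDimensional (kk F) U]
    {e : ℕ} (he : 0 < e) (hU : ∀ z ∈ U, z ≠ 0 → ∃ j : ℤ, e * ord O x z = j) {α : ℤ}
    (h1 : U ≤ lwG h α) {a ε : ℚ} (ha : α ≤ a) (hε : ε = 1 ∨ ε = 0 ∧ ∃ j : ℤ, a = j) :
    (Module.finrank (kk F) U : ℚ) ≤
      Module.finrank (kk F) ↥(U ⊓ lwG h a) + (e * (a - α) + ε) := by
  have he' : (0 : ℚ) < e := by exact_mod_cast he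
  have h0 : 0 ≤ (e : ℚ) * (a - α) := mul_nonneg he'.le (sub_nonneg.2 ha)
  have h2 := lw_steps h U he hU h1 ⌈(e : ℚ) * (a - α)⌉₊
  have h3 : (⌈(e : ℚ) * (a - α)⌉₊ : ℚ) ≤ e * (a - α) + ε := by
    rcases hε with rfl | ⟨rfl, j, rfl⟩
    · exact (Nat.ceil_lt_add_one h0).le
    · obtain ⟨k, hk⟩ := Int.eq_ofNat_of_zero_le (show 0 ≤ e * (j - α) by exact_mod_cast h0)
      have h4 : (e : ℚ) * (j - α) = k := by exact_mod_cast hk
      rw [h4, Nat.ceil_natCast, add_zero]
  have h5 := Submodule.finrank_mono (show U ⊓ lwG h (α + (⌈(e : ℚ) * (a - α)⌉₊ : ℕ) / e) ≤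
    U ⊓ lwG h a from inf_le_inf_left _ fun z hz h0 => le_trans (by
      rw [← sub_le_iff_le_add', le_div_iff₀' he']
      exact Nat.le_ceil _) (hz h0))
  have h6 : (Module.finrank (kk F) U : ℚ) ≤ Module.finrank (kk F) ↥(U ⊓ lwG h a) +
      (⌈(e : ℚ) * (a - α)⌉₊ : ℕ) := by exact_mod_cast h2.trans (Nat.add_le_add_right h5 _)
  linarith

theorem lw_many {ι : Type} (s : Finset ι) (W : ι → Submodule (kk F) (Om F)) (c : ι → ℚ)
    (U : Submodule (kk F) (Om F)) (h : ∀ i ∈ s, ∀ U' ≤ U, (Module.finrank (kk F) U' : ℚ) ≤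
      Module.finrank (kk F) ↥(U' ⊓ W i) + c i) :
    (Module.finrank (kk F) U : ℚ) ≤ Module.finrank (kk F) ↥(U ⊓ s.inf W) + ∑ i ∈ s, c i := by
  induction s using Finset.induction_on with
  | empty => rw [Finset.inf_empty, inf_top_eq, Finset.sum_empty, add_zero]
  | insert a s ha ih =>
    have h1 := ih fun i hi => h i (Finset.mem_insert_of_mem hi)
    have h2 := h a (Finset.mem_insert_self _ _) (U ⊓ s.inf W) inf_le_left
    rw [Finset.inf_insert, Finset.sum_insert ha, inf_comm (W a), ← inf_assoc]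
    linarith

theorem lw_cm (h : Over O x) {g : Gam F} (hg : g ∈ Geo F) : Over (cm g O) x := by
  refine over_cm ?_
  unfold Over at h ⊢
  rwa [← gam_pl, geo_pl hg]

theorem lw_ord (h : Over O x) {g : Gam F} (hg : g ∈ Geo F) (hz : z ≠ 0) :
    ord O x (g z) = ord (cm g O) x z := ord_trans (lw_cm h hg) h hg (fun _ => mem_cm) hz

variable {B : Type} [Group B] [Fintype B] {φ : Gam F → B} {Y : Finset (kk F)} {sec : B → Gam F}

/-- The number of conditions at the places over one point. -/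
theorem lw_pt (hB : IsPGroup 2 B) (hφ : Hm (Geo F) φ) (hsec : ∀ b, sec b ∈ Geo F ∧ φ (sec b) = b)
    (h : Over O x) (U : Submodule (kk F) (Om F)) [FiniteDimensional (kk F) U]
    (hU : ∀ z ∈ U, InM φ z) {α : ℤ} (hα : ∀ b, U ≤ lwG (lw_cm h (hsec b).1) α) {a : B → ℚ}
    (ha : ∀ b, α ≤ a b) (hinv : ∀ g ∈ Ine O, ∀ b, a (φ g * b) = a b) {ε : ℚ}
    (hε : ε = 1 ∨ ε = 0 ∧ ∀ b, ∃ j : ℤ, a b = j) :
    (Module.finrank (kk F) U : ℚ) ≤
      Module.finrank (kk F) ↥(U ⊓ Finset.univ.inf fun b => lwG (lw_cm h (hsec b).1) (a b)) +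
        (∑ b, (a b - α) + ε * Fintype.card B) := by
  let I : Subgroup B :=
    { carrier := {b | ∃ g ∈ Ine O, φ g = b}
      mul_mem' := by
        rintro _ _ ⟨g, hg, rfl⟩ ⟨l, hl, rfl⟩
        exact ⟨g * l, mul_mem hg hl, hφ.mul g hg.1 l hl.1⟩
      one_mem' := ⟨1, one_mem _, hφ.one⟩
      inv_mem' := by
        rintro _ ⟨g, hg, rfl⟩
        exact ⟨g⁻¹, inv_mem hg, hφ.inv hg.1⟩ }
  obtain ⟨T, hT, -⟩ := I.exists_isComplement_right 1
  have he : 0 < (I : Set B).toFinset.card := Finset.card_pos.2 ⟨1, by simp⟩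
  have h1 := lw_many T.toFinset (fun b => lwG (lw_cm h (hsec b).1) (a b))
    (fun b => (I : Set B).toFinset.card * (a b - α) + ε) U fun b _ U' hU' => by
      have := Submodule.finiteDimensional_of_le hU'
      refine lw_one _ U' he (fun z hz h0 => ?_) (hU'.trans (hα b)) (ha b)
        (hε.imp_right fun e => ⟨e.1, e.2 b⟩)
      rw [← lw_ord h (hsec b).1 h0]
      exact ((hU z (hU' hz)).map hφ (hsec b).1).ord_ram hB hφ h (by simpa using h0) _
        fun b => Set.mem_toFinset
  have h2 : U ⊓ T.toFinset.inf (fun b => lwG (lw_cm h (hsec b).1) (a b)) ≤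
      U ⊓ Finset.univ.inf fun b => lwG (lw_cm h (hsec b).1) (a b) := by
    refine le_inf inf_le_left (Finset.le_inf fun b _ z hz h0 => ?_)
    obtain ⟨⟨⟨_, g, hg, rfl⟩, p, hp⟩, rfl⟩ := hT.2 b
    have h3 := Finset.inf_le (f := fun b => lwG (lw_cm h (hsec b).1) (a b))
      (Set.mem_toFinset.2 hp) hz.2 h0
    change a (φ g * p) ≤ ord (cm (sec (φ g * p)) O) x z
    rw [hinv g hg, ← lw_ord h (hsec _).1 h0, (hU z hz.1).congr hφ (hsec _).1
      (mul_mem hg.1 (hsec p).1) (by rw [hφ.mul _ hg.1 _ (hsec p).1, (hsec _).2, (hsec _).2]),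
      AlgEquiv.mul_apply, ord_ine h hg (by simpa using h0), lw_ord h (hsec _).1 h0]
    exact h3
  have h4 : ∑ b, (a b - α) = ∑ b ∈ T.toFinset, ((I : Set B).toFinset.card : ℚ) * (a b - α) := by
    rw [← Function.Bijective.sum_comp hT, Fintype.sum_prod_type_right,
      Finset.sum_subtype T.toFinset (p := fun b => b ∈ T) fun b => Set.mem_toFinset]
    refine Finset.sum_congr rfl fun p _ => ?_
    rw [Finset.sum_congr rfl (g := fun _ => a p - α), Finset.sum_const, nsmul_eq_mul,
      Finset.card_univ, Set.toFinset_card]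
    rintro ⟨_, g, hg, rfl⟩ -
    rw [hinv g hg]
  have h5 : (Module.finrank (kk F) ↥(U ⊓ T.toFinset.inf fun b =>
      lwG (lw_cm h (hsec b).1) (a b)) : ℚ) ≤ _ := Nat.cast_le.2 (Submodule.finrank_mono h2)
  have h6 : (T.toFinset.card : ℚ) ≤ Fintype.card B := Nat.cast_le.2 (Finset.card_le_univ _)
  have h7 : 0 ≤ ε := by rcases hε with rfl | ⟨rfl, -⟩ <;> norm_num
  rw [Finset.sum_add_distrib, ← h4, Finset.sum_const, nsmul_eq_mul] at h1
  nlinarith

/-- The indicator of the point at infinity. -/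
def lwK (x : Option (kk F)) : ℤ := if x = none then 1 else 0

theorem lw_mem {m : ℕ} (hz : z ≠ 0) : z ∈ LL φ m ↔
    InM φ z ∧ ∀ x O, Over O x → ((-(m * lwK x) : ℤ) : ℚ) ≤ ord O x z := by
  have h1 : ∀ O, Over O none → (z * pl none ^ m ∈ O ↔ -(m : ℚ) ≤ ord O none z) := fun O h => by
    rw [← ord_nonneg_iff h (mul_ne_zero hz (pow_ne_zero m (pl_ne _))),
      ord_mul h hz (pow_ne_zero m (pl_ne _)), ord_pow h (pl_ne _), ord_pl h, mul_one,
      neg_le_iff_add_nonneg]
  refine and_congr_right fun _ => ⟨fun h x O hO => ?_, fun h => ⟨fun c O hO => ?_, fun O hO => ?_⟩⟩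
  · cases x with
    | none => simpa [lwK] using (h1 O hO).1 (h.2 O hO)
    | some c => simpa [lwK] using (ord_nonneg_iff hO hz).2 (h.1 c O hO)
  · exact (ord_nonneg_iff hO hz).1 (by simpa [lwK] using h _ O hO)
  · exact (h1 O hO).2 (by simpa [lwK] using h _ O hO)

/-- Riemann's inequality for half the divisor of `f`. -/
theorem lw_key (hB : IsPGroup 2 B) (hφ : Hm (Geo F) φ) (hu : UnrP φ Y)
    (hsec : ∀ b, sec b ∈ Geo F ∧ φ (sec b) = b) {c : ℕ} (hc : ∀ m, Fintype.card B * (m + 1) ≤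
      Module.finrank (kk F) (LL φ m) + Fintype.card B * c) {f : Om F} (h0 : f ≠ 0) (hf : InM φ f)
    (hint : ∀ d O, Over O (some d) → f ∈ O)
    (hev : ∀ d O, Over O (some d) → d ∉ Y → ∃ j : ℤ, ord O (some d) f / 2 = j) :
    ∃ r, r ≠ 0 ∧ InM φ r ∧ ∀ x O, Over O x →
      ord O x f / 2 - ((c + (Y.card + 1) : ℕ) * lwK x : ℤ) ≤ ord O x r := by
  choose R hR using fun x : Option (kk F) => exists_over x
  have hs : ∀ b, sec b f ≠ 0 := fun b => by simpa using h0
  obtain ⟨N, hN⟩ : ∃ N : ℕ, ∀ b, -(N : ℚ) ≤ ord (R none) none (sec b f) / 2 := by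
    obtain ⟨M, hM⟩ := (Set.finite_range fun b => -(ord (R none) none (sec b f) / 2)).bddAbove
    obtain ⟨N, hN⟩ := exists_nat_ge M
    exact ⟨N, fun b => neg_le.1 ((hM ⟨b, rfl⟩).trans hN)⟩
  set K := c + (Y.card + 1) with hK
  let S : Finset (Option (kk F)) := insert none (finite_nonunit h0).toFinset
  let Y' : Finset (Option (kk F)) := insert none (Y.map Function.Embedding.some)
  let a : Option (kk F) → B → ℚ := fun x b => ord (R x) x (sec b f) / 2 - (K * lwK x : ℤ)
  have hS : ∀ x O, Over O x → x ∉ S → ord O x f = 0 := fun x O hO hx => ord_unit hO (by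
    by_contra hv
    exact hx (Finset.mem_insert_of_mem ((Set.Finite.mem_toFinset _).2 ⟨O, hO, hv⟩)))
  have := (rr_up hB hφ hu hsec (K + N)).1
  have h1 := lw_many S (fun x => Finset.univ.inf fun b => lwG (lw_cm (hR x) (hsec b).1) (a x b))
    (fun x => ∑ b, (a x b - (-((K + N : ℕ) * lwK x) : ℤ)) +
      (if x ∈ Y' then 1 else 0) * Fintype.card B) (LL φ (K + N)) fun x _ U hU => by
      have := Submodule.finiteDimensional_of_le hU
      refine lw_pt hB hφ hsec (hR x) U (fun z hz => (hU hz).1)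
        (fun b z hz h2 => ((lw_mem h2).1 (hU hz)).2 x _ (lw_cm (hR x) (hsec b).1)) (fun b => ?_)
        (fun g hg b => ?_) ?_
      · cases x with
        | none =>
          have := hN b
          simp only [a, lwK, if_true]
          push_cast
          linarith
        | some d =>
          have := (ord_nonneg_iff (hR _) (hs b)).2 (hint d _ (lw_cm (hR _) (hsec b).1))
          simp only [a, lwK, reduceCtorEq, if_false]
          push_cast
          linarith
      · simp only [a]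
        rw [hf.congr hφ (hsec _).1 (mul_mem hg.1 (hsec b).1)
          (by rw [hφ.mul _ hg.1 _ (hsec b).1, (hsec _).2, (hsec _).2]), AlgEquiv.mul_apply,
          ord_ine (hR x) hg (hs b)]
      · split_ifs with hx
        · exact Or.inl rfl
        refine Or.inr ⟨rfl, fun b => ?_⟩
        cases x with
        | none => exact (hx (Finset.mem_insert_self _ _)).elim
        | some d =>
          obtain ⟨j, hj⟩ := hev d _ (lw_cm (hR _) (hsec b).1) fun e =>
            hx (Finset.mem_insert_of_mem (Finset.mem_map_of_mem _ e))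
          refine ⟨j - K * lwK (some d), ?_⟩
          simp only [a]
          rw [lw_ord (hR _) (hsec b).1 h0, hj, Int.cast_sub]
  have h2 : ∑ x ∈ S, ∑ b, ord (R x) x (sec b f) = 0 := by
    have h3 : ∀ x, ord (R x) x (∏ b, sec b f) = ∑ b, ord (R x) x (sec b f) := fun x =>
      ord_prod (hR x) _ fun b _ => hs b
    rw [← Finset.sum_congr rfl fun x _ => h3 x]
    refine ord_sum (Finset.prod_ne_zero_iff.2 fun b _ => hs b)
      (fun g hg => hf.norm_fix hφ hsec hg) S R hR fun x hx => ?_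
    rw [h3]
    exact Finset.sum_eq_zero fun b _ => by
      rw [lw_ord (hR x) (hsec b).1 h0, hS x _ (lw_cm (hR x) (hsec b).1) hx]
  have h4 : ∑ x ∈ S, (lwK x : ℚ) = 1 := by
    rw [Finset.sum_eq_single_of_mem none (Finset.mem_insert_self _ _) fun x _ hx => by
      simp [lwK, hx]]
    simp [lwK]
  have h5 : ∑ x ∈ S, (if x ∈ Y' then (1 : ℚ) else 0) ≤ Y.card + 1 := by
    rw [Finset.sum_boole]
    have h6 := Finset.card_le_card (s := S.filter fun x => x ∈ Y') (t := Y')
      fun x hx => (Finset.mem_filter.1 hx).2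
    have h7 := Finset.card_insert_le none (Y.map Function.Embedding.some)
    rw [Finset.card_map] at h7
    exact_mod_cast h6.trans h7
  have h8 : ∑ x ∈ S, ∑ b, (a x b - (-((K + N : ℕ) * lwK x) : ℤ)) = Fintype.card B * N := by
    have : ∀ x, ∑ b, (a x b - (-((K + N : ℕ) * lwK x) : ℤ)) =
        (∑ b, ord (R x) x (sec b f)) / 2 + Fintype.card B * N * (lwK x : ℚ) := fun x => by
      have h9 : (Fintype.card B : ℚ) * N * (lwK x : ℚ) = ∑ _b : B, (N : ℚ) * lwK x := by
        rw [Finset.sum_const, Finset.card_univ, nsmul_eq_mul, mul_assoc]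
      rw [Finset.sum_div, h9, ← Finset.sum_add_distrib]
      refine Finset.sum_congr rfl fun b _ => ?_
      simp only [a]
      push_cast
      ring
    rw [Finset.sum_congr rfl fun x _ => this x, Finset.sum_add_distrib, ← Finset.sum_div, h2,
      ← Finset.mul_sum, h4]
    ring
  rw [Finset.sum_add_distrib, h8, ← Finset.sum_mul] at h1
  have h9 : (Fintype.card B : ℚ) * (K + N + 1) ≤
      Module.finrank (kk F) (LL φ (K + N)) + Fintype.card B * c := by exact_mod_cast hc (K + N)
  have hb : (0 : ℚ) < Fintype.card B := by exact_mod_cast Fintype.card_pos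
  have hne : LL φ (K + N) ⊓ S.inf (fun x => Finset.univ.inf fun b =>
      lwG (lw_cm (hR x) (hsec b).1) (a x b)) ≠ ⊥ := fun e => by
    rw [e, finrank_bot] at h1
    have : (K : ℚ) = c + (Y.card + 1) := by rw [hK]; push_cast; ring
    rw [this] at h9
    push_cast at h1
    nlinarith
  obtain ⟨r, hr, hr0⟩ := Submodule.exists_mem_ne_zero_of_ne_bot hne
  refine ⟨r, hr0, hr.1.1, fun x O hO => ?_⟩
  by_cases hx : x ∈ S
  · obtain ⟨g, hg, e⟩ := over_trans hO (hR x)
    have h10 := Submodule.mem_finsetInf.1 (Submodule.mem_finsetInf.1 hr.2 x hx) (φ g)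
      (Finset.mem_univ _) hr0
    rw [← lw_ord (hR x) (hsec _).1 hr0, hr.1.1.congr hφ (hsec _).1 hg (hsec _).2,
      ord_trans hO (hR x) hg e hr0] at h10
    simp only [a] at h10
    rwa [hf.congr hφ (hsec _).1 hg (hsec _).2, ord_trans hO (hR x) hg e h0] at h10
  · have h10 := ((lw_mem hr0).1 hr.1).2 x O hO
    have h11 : lwK x = 0 := if_neg fun e => hx (by rw [e]; exact Finset.mem_insert_self _ _)
    rw [hS x O hO hx]
    simpa [h11] using h10

theorem lw_int (z : Om F) : ∃ y : Om F, y ≠ 0 ∧ (∀ g : Gam F, g y = y) ∧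
    ∀ c O, Over O (some c) → y * z ∈ O := by
  obtain ⟨p, hp0, hp⟩ := ((IsFractionRing.isAlgebraic_iff F[X] (RatFunc F) (Om F)).2
    (Algebra.IsAlgebraic.isAlgebraic (R := RatFunc F) z)).exists_integral_multiple
  have hinj : Function.Injective (algebraMap F[X] (Om F)) :=
    (algebraMap (RatFunc F) (Om F)).injective.comp (IsFractionRing.injective F[X] (RatFunc F))
  refine ⟨algebraMap F[X] (Om F) p, (map_ne_zero_iff _ hinj).2 hp0, fun g => g.commutes _,
    fun c O hO => ?_⟩
  have h1 : ∀ q : F[X], algebraMap F[X] (Om F) q ∈ O := fun q => by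
    have : algebraMap F[X] (Om F) q = aeval (tt F) q := rf_eq _
    rw [this, ← aeval_map_algebraMap (kk F), ← O.valuation_le_one_iff]
    exact poly_le O ((O.valuation_le_one_iff _).2
      ((LL.tt (B := Unit) (φ := fun _ => 1)).2.1 c O hO)) _
  let _ : Algebra F[X] O := ((algebraMap F[X] (Om F)).codRestrict O h1).toAlgebra
  have : IsScalarTower F[X] O (Om F) := IsScalarTower.of_algebraMap_eq fun _ => rfl
  obtain ⟨w, hw⟩ := IsIntegrallyClosed.algebraMap_eq_of_integral (hp.tower_top (A := O))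
  rw [← Algebra.smul_def, ← hw]
  exact w.2

theorem lw_base (hB : IsPGroup 2 B) (hφ : Hm (Geo F) φ) (hu : UnrP φ Y)
    (hsec : ∀ b, sec b ∈ Geo F ∧ φ (sec b) = b) (m : ℕ) :
    m + 1 ≤ Module.finrank (kk F) (LL φ m) := by
  have := (rr_up hB hφ hu hsec m).1
  have h1 : LinearIndependent (kk F) fun i : ℕ => tt F ^ i := by
    have := (basisMonomials (kk F)).linearIndependent.map' (aeval (tt F)).toLinearMap
      (LinearMap.ker_eq_bot.2 (transcendental_iff_injective.1 tt_trans))
    have e : (aeval (tt F)).toLinearMap ∘ basisMonomials (kk F) = fun i : ℕ => tt F ^ i := by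
      funext i
      simp
    rwa [e] at this
  have h2 : LinearIndependent (kk F) fun i : Fin (m + 1) => (⟨tt F ^ (i : ℕ), LL.mono
      (by have := i.2; omega) (LL.pow LL.tt i)⟩ : LL φ m) :=
    LinearIndependent.of_comp (LL φ m).subtype (h1.comp _ Fin.val_injective)
  simpa using h2.fintype_card_le_finrank

theorem lw_two {B' : Type} [Group B'] {ψ : Gam F → B'} (h : ∀ g, φ g = 1 → ψ g = 1) {K k : ℕ}
    [FiniteDimensional (kk F) (LL φ (K + k))] {ξ : Om F} (h0 : ξ ≠ 0) (hξ : ξ ∈ LL φ K)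
    {g : Gam F} (hg : g ∈ Geo F) (h1 : ψ g = 1) (h2 : g ξ = -ξ) :
    Module.finrank (kk F) (LL ψ (K + k)) + Module.finrank (kk F) (LL ψ k) ≤
      Module.finrank (kk F) (LL φ (K + k)) := by
  have hle : ∀ m, LL ψ m ≤ LL φ m := fun m z hz => ⟨fun l hl e => hz.1 l hl (h l e), hz.2⟩
  have := Submodule.finiteDimensional_of_le (hle (K + k))
  have := Submodule.finiteDimensional_of_le ((hle k).trans (LL.mono (Nat.le_add_left k K)))
  let L : (LL ψ (K + k) × LL ψ k) →ₗ[kk F] LL φ (K + k) := ((LL ψ (K + k)).subtype.coprod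
    ((LinearMap.mulLeft (kk F) ξ).comp (LL ψ k).subtype)).codRestrict _
      fun y => add_mem (hle _ y.1.2) (LL.mul hξ (hle _ y.2.2))
  have : Module.Free (kk F) (LL ψ (K + k)) := Module.Free.of_divisionRing _ _
  have : Module.Free (kk F) (LL ψ k) := Module.Free.of_divisionRing _ _
  rw [← Module.finrank_prod]
  refine LinearMap.finrank_le_finrank_of_injective (f := L) ?_
  rw [injective_iff_map_eq_zero]
  rintro ⟨u, w⟩ e
  have h3 : (u : Om F) + ξ * w = 0 := congrArg Subtype.val e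
  have h4 := congrArg g h3
  rw [map_add, map_mul, u.2.1 g hg h1, w.2.1 g hg h1, h2, map_zero] at h4
  have h5 : (u : Om F) = 0 := (mul_eq_zero.1 (show 2 * (u : Om F) = 0 by
    linear_combination h3 + h4)).resolve_left two_ne
  rw [h5, zero_add, mul_eq_zero] at h3
  exact Prod.ext (Subtype.ext h5) (Subtype.ext (h3.resolve_left h0))

theorem lw_main (Y : Finset (kk F)) (n : ℕ) : ∀ (B : Type) [Group B] [Fintype B],
    Fintype.card B = n → IsPGroup 2 B → ∀ φ : Gam F → B, Hm (Geo F) φ → UnrP φ Y →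
    ∀ sec : B → Gam F, (∀ b, sec b ∈ Geo F ∧ φ (sec b) = b) → ∀ m : ℕ,
    n * (m + 1) ≤ Module.finrank (kk F) (LL φ m) + n * (n * (Y.card + 1)) := by
  induction n using Nat.strong_induction_on with
  | _ n ih =>
    intro B _ _ hn hB φ hφ hu sec hsec m
    by_cases hT : (⊤ : Subgroup B) = ⊥
    · have h1 : n = 1 := by
        rw [← hn, ← Nat.card_eq_fintype_card, ← Subgroup.card_top, hT, Subgroup.card_bot]
      have := lw_base hB hφ hu hsec m
      rw [h1]
      omega
    obtain ⟨a, -, ha, ha2, hc⟩ := exists_central hB ⊤ hT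
    let K : Subgroup B :=
      { carrier := {1, a}
        mul_mem' := by rintro _ _ (rfl | rfl) (rfl | rfl) <;> simp [ha2]
        one_mem' := Or.inl rfl
        inv_mem' := by
          rintro _ (rfl | rfl)
          · simp
          · exact Or.inr (inv_eq_of_mul_eq_one_right ha2) }
    have : K.Normal := ⟨by
      rintro _ (rfl | rfl) g
      · exact Or.inl (by simp)
      · exact Or.inr (by rw [hc g, mul_inv_cancel_right]; rfl)⟩
    let _ : Fintype (B ⧸ K) := Fintype.ofFinite _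
    have hK : Nat.card K = 2 := by
      change Nat.card ({1, a} : Set B) = 2
      rw [Nat.card_coe_set_eq, Set.ncard_pair ha.symm]
    set b := Fintype.card (B ⧸ K) with hb
    have hb0 : 0 < b := Fintype.card_pos
    have hnb : n = b * 2 := by
      rw [← hn, ← Nat.card_eq_fintype_card, Subgroup.card_eq_card_quotient_mul_card_subgroup K, hK,
        Nat.card_eq_fintype_card]
    let ψ : Gam F → B ⧸ K := fun g => QuotientGroup.mk' K (φ g)
    have hψ : Hm (Geo F) ψ := hφ.comp _
    have h1 : ∀ g, φ g = 1 → ψ g = 1 := fun g e => by simp only [ψ, e, map_one]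
    have hu' : UnrP ψ Y := fun c O hO hc g hg => h1 g (hu c O hO hc g hg)
    have hsec' : ∀ q : B ⧸ K, sec q.out ∈ Geo F ∧ ψ (sec q.out) = q := fun q =>
      ⟨(hsec _).1, by simp only [ψ, (hsec _).2]; exact q.out_eq'⟩
    have hi := ih b (by omega) (B ⧸ K) rfl (hB.to_quotient K) ψ hψ hu' _ hsec'
    obtain ⟨η, hη0, hη, hηa⟩ := exists_eta hφ ha ha2
    obtain ⟨y, hy0, hy, hint⟩ := lw_int η
    have hθ0 := mul_ne_zero hy0 hη0
    have hθ : InM φ (y * η) := fun g hg e => by rw [map_mul, hy, hη g hg e]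
    have hθa : ∀ g ∈ Geo F, φ g = a → g (y * η) = -(y * η) := fun g hg e => by
      rw [map_mul, hy, hηa g hg e, mul_neg]
    generalize y * η = θ at hint hθ0 hθ hθa
    have h2 : ∀ x O, Over O x → ord O x (θ ^ 2) / 2 = ord O x θ := fun x O hO => by
      rw [ord_pow hO hθ0]
      push_cast
      ring
    obtain ⟨r, hr0, hr, h3⟩ := lw_key (hB.to_quotient K) hψ hu' hsec' hi (pow_ne_zero 2 hθ0)
      (fun g hg e => by
        rcases (QuotientGroup.eq_one_iff _).1 e with e | e
        · rw [map_pow, hθ g hg e]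
        · rw [map_pow, hθa g hg e, neg_sq])
      (fun d O hO => pow_mem (hint d O hO) 2) fun d O hO hd => by
        rw [h2 _ O hO]
        exact hθ.ord_int hB hφ hO hθ0 fun g hg => hθ g hg.1 (hu d O hO hd g hg)
    have h4 : r / θ ∈ LL φ (b * (Y.card + 1) + (Y.card + 1)) :=
      (lw_mem (div_ne_zero hr0 hθ0)).2 ⟨fun g hg e => by
        rw [map_div₀, hr g hg (h1 g e), hθ g hg e], fun x O hO => by
        have := h3 x O hO
        rw [h2 x O hO] at this
        rw [lw_div hO hr0 hθ0, Int.cast_neg]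
        linarith⟩
    have h5 : ψ (sec a) = 1 := (QuotientGroup.eq_one_iff _).2 (Or.inr (hsec a).2)
    generalize Y.card + 1 = d at *
    rcases lt_or_ge m (b * d + d) with hm | hm
    · have h6 : m + 1 ≤ n * d := by rw [hnb]; nlinarith
      exact (Nat.mul_le_mul_left n h6).trans (Nat.le_add_left _ _)
    obtain ⟨k, rfl⟩ := Nat.exists_eq_add_of_le hm
    have := (rr_up hB hφ hu hsec (b * d + d + k)).1
    have h7 := lw_two h1 (div_ne_zero hr0 hθ0) h4 (hsec a).1 h5 (k := k) (by
      rw [map_div₀, hr _ (hsec a).1 h5, hθa _ (hsec a).1 (hsec a).2, div_neg])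
    have h8 := hi (b * d + d + k)
    have h9 := hi k
    have h10 : b * d ≤ b * (b * d) := Nat.mul_le_mul_left b (Nat.le_mul_of_pos_left d hb0)
    rw [hnb]
    nlinarith

end lw

/-- Riemann's inequality with an explicit constant; see the README (block CH2). -/
theorem rr_low {B : Type} [Group B] [Fintype B] {φ : Gam F → B} {Y : Finset (kk F)}
    {sec : B → Gam F} (hB : IsPGroup 2 B) (hφ : Hm (Geo F) φ) (hu : UnrP φ Y)
    (hsec : ∀ b, sec b ∈ Geo F ∧ φ (sec b) = b) (m : ℕ) :
    Fintype.card B * (m + 1) ≤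
      Module.finrank (kk F) (LL φ m) + Fintype.card B * (Fintype.card B * (Y.card + 1)) := by
  exact lw_main Y _ B rfl hB φ hφ hu sec hsec m

end

end Pool.Agent.Lib.MP_16ef92_ag.GF
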