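import Mathlib
import Pool.Agent.Lib.MP_16ef92_ag.GF.Low
import Pool.Agent.Lib.MP_16ef92_ag.GF.Count

set_option autoImplicit false
set_option linter.unusedSectionVars false
set_option linter.unusedVariables false

namespace Pool.Agent.Lib.MP_16ef92_ag.GF

open Polynomial
open scoped Classical

noncomputable section

variable {F : Type} [Field F] [Clos F] [Fintype F] [hq : Fact (Odd (Fintype.card F))]

section sp

variable {O : ValuationSubring (Om F)} {x : Option (kk F)}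

theorem sp_frob (k : ℕ) : ∃ P : Om F →+* Om F, ∀ y, P y = y ^ Fintype.card F ^ k :=
  ⟨(FiniteField.frobeniusAlgHom F (Om F) ^ k : Om F →ₐ[F] Om F), fun y => by
    rw [RingHom.coe_coe, AlgHom.coe_pow, FiniteField.coe_frobeniusAlgHom, pow_iterate]⟩

theorem sp_cong (h : Over O x) {l : Gam F} (hl : l ∈ St O) {Q : ℕ} (hf : Fr l Q) {y : Om F}
    (hy : y ∈ O) : O.valuation (y ^ Q - l y) < 1 := by
  obtain ⟨a, ha⟩ := h.res hy
  have h1 := st_lt hl ha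
  rw [map_sub, hf a] at h1
  have h2 : O.valuation (y ^ Q - (a : Om F) ^ Q) < 1 := by simpa using poly_sub O ha (X ^ Q)
  have := Valuation.map_sub_lt _ h2 h1
  rwa [sub_sub_sub_cancel_right] at this

theorem sp_sum {ι : Type} [Fintype ι] (O : ValuationSubring (Om F)) {t : ι → Om F} {i₀ : ι}
    (h0 : t i₀ ≠ 0) (h : ∀ i j, t i ≠ 0 → t j ≠ 0 → O.valuation (t i) = O.valuation (t j) → i = j) :
    ∑ i, t i ≠ 0 := by
  obtain ⟨j, hj, hmax⟩ := Finset.exists_max_image Finset.univ (fun i => O.valuation (t i))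
    ⟨i₀, Finset.mem_univ _⟩
  have h1 : t j ≠ 0 := fun e => h0 (by simpa [e] using hmax i₀ (Finset.mem_univ _))
  have h2 := Valuation.map_sum_eq_of_lt O.valuation (f := t) hj fun i hi => by
    rw [Finset.mem_sdiff, Finset.mem_singleton] at hi
    refine lt_of_le_of_ne (hmax i hi.1) fun e => hi.2 (h i j (fun e' => h1 ?_) h1 e)
    simpa [e'] using e.symm
  intro e
  rw [e, map_zero] at h2
  exact h1 ((map_eq_zero _).1 h2.symm)

theorem sp_fam (h : Over O x) (U : Submodule (kk F) (Om F)) [FiniteDimensional (kk F) U] {M : ℕ}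
    (hU : ∀ z ∈ U, z ≠ 0 → ∃ j : ℕ, j ≤ M ∧ ord O x z = j) :
    ∃ A : Finset ℕ, Module.finrank (kk F) U ≤ A.card ∧
      ∀ j ∈ A, ∃ z ∈ U, z ≠ 0 ∧ ord O x z = j := by
  have key : ∀ k : ℕ, Module.finrank (kk F) U ≤ Module.finrank (kk F) ↥(U ⊓ lwG h k) +
      ((Finset.range k).filter fun j : ℕ => ∃ z ∈ U, z ≠ 0 ∧ ord O x z = j).card := by
    intro k
    induction k with
    | zero =>
      rw [inf_eq_left.2 fun z hz h0 => by
        obtain ⟨j, -, hj⟩ := hU z hz h0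
        rw [hj]
        exact_mod_cast j.zero_le]
      omega
    | succ k ih =>
      have h1 : ∀ z ∈ U, z ≠ 0 → (k : ℚ) < ord O x z → ((k + 1 : ℕ) : ℚ) ≤ ord O x z :=
        fun z hz h0 hlt => by
          obtain ⟨j, -, hj⟩ := hU z hz h0
          rw [hj] at hlt ⊢
          exact_mod_cast hlt
      rw [Finset.range_add_one, Finset.filter_insert]
      split_ifs with hk
      · have h2 := lw_step h (U ⊓ lwG h k) inf_le_right fun z hz => h1 z hz.1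
        have h3 := Submodule.finrank_mono (show U ⊓ lwG h k ⊓ lwG h (k + 1 : ℕ) ≤
          U ⊓ lwG h (k + 1 : ℕ) from inf_le_inf_right _ inf_le_left)
        rw [Finset.card_insert_of_notMem (by simp)]
        omega
      · have h3 := Submodule.finrank_mono (show U ⊓ lwG h k ≤ U ⊓ lwG h (k + 1 : ℕ) from
          fun z hz => ⟨hz.1, fun h0 => h1 z hz.1 h0
            (lt_of_le_of_ne (hz.2 h0) fun e => hk ⟨z, hz.1, h0, e.symm⟩)⟩)
        omega
  have h4 : U ⊓ lwG h (M + 1 : ℕ) = ⊥ := by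
    rw [eq_bot_iff]
    intro z hz
    by_contra h0
    obtain ⟨j, hj, e⟩ := hU z hz.1 h0
    have h5 := hz.2 h0
    rw [e] at h5
    have : M + 1 ≤ j := by exact_mod_cast h5
    omega
  have h6 := key (M + 1)
  rw [h4, finrank_bot, zero_add] at h6
  exact ⟨_, h6, fun j hj => (Finset.mem_filter.1 hj).2⟩

theorem sp_map {B : Type} [Group B] {φ : Gam F → B} {f : Gam F}
    (hfM : ∀ g ∈ Geo F, φ g = 1 → φ (f * g * f⁻¹) = 1) {m : ℕ} {z : Om F} (hz : z ∈ LL φ m) :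
    f⁻¹ z ∈ LL φ m := by
  refine ⟨fun g hg e => ?_, fun c O h => hz.2.1 _ _ (over_conj h f), fun O h => ?_⟩
  · conv_rhs => rw [← hz.1 _ (geo_conj' hg f) (hfM g hg e)]
    rw [AlgEquiv.mul_apply, AlgEquiv.mul_apply, inv_apply_self]
  · have := mem_cm.1 (hz.2.2 _ (over_conj h f))
    rwa [map_mul, map_pow, gam_pl] at this

theorem sp_num {b d q₁ q₂ l m r₁ r₂ : ℕ} (hb : 0 < b) (hd : 0 < d) (h12 : q₁ ≤ q₂)
    (hn : 16 * (b ^ 2 * d) ≤ q₁) (hl : l = (q₂ - 1) / b) (hm : m = q₁ / b + 7 * (b * d) + 1)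
    (h1 : b * (l + 1) ≤ r₁ + b * (b * d)) (h2 : b * (m + 1) ≤ r₂ + b * (b * d)) :
    b * l < q₂ ∧ b * (l * q₁ + m + 1) < r₂ * r₁ ∧
      b * (l + m * q₂) ≤ q₁ * q₂ + 16 * (b ^ 2 * d) * q₂ := by
  have e : b * (b * d) = b ^ 2 * d := by ring
  have hg : b ≤ b ^ 2 * d := by rw [← e]; exact Nat.le_mul_of_pos_right _ (Nat.mul_pos hb hd)
  have h3 := Nat.div_add_mod (q₂ - 1) b
  have h4 := Nat.mod_lt (q₂ - 1) hb
  have h5 := Nat.div_add_mod q₁ b
  have h6 := Nat.mod_lt q₁ hb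
  have h7 : b * m = b * (q₁ / b) + 7 * (b ^ 2 * d) + b := by rw [hm]; ring
  rw [← hl] at h3
  rw [e, mul_add, mul_one] at h1 h2
  have h8 : b * (l * q₁ + m + 1) = b * l * q₁ + b * m + b := by ring
  have h9 : b * (l + m * q₂) = b * l + b * m * q₂ := by ring
  rw [h8, h9]
  generalize b ^ 2 * d = g at *
  generalize b * l = u at *
  generalize b * m = w at *
  generalize b * (q₁ / b) = y at *
  have h10 : u < q₂ := by omega
  refine ⟨h10, ?_, ?_⟩
  · obtain ⟨k, rfl⟩ : ∃ k, q₂ = k + g := ⟨q₂ - g, by omega⟩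
    have h11 := Nat.mul_le_mul (show q₁ + 6 * g + 1 ≤ r₂ by omega) (show k ≤ r₁ by omega)
    have h12' := Nat.mul_le_mul_right q₁ (show u + 1 ≤ k + g by omega)
    have h13 := Nat.mul_le_mul_left g h12
    have h14 := Nat.mul_le_mul_left g (show 15 * g ≤ k by omega)
    have h15 : w ≤ q₁ + 8 * g := by omega
    have h16 : 15 * g ≤ k := by omega
    nlinarith
  · have h11 := Nat.mul_le_mul_right q₂ (show w ≤ q₁ + 8 * g by omega)
    have h13 := Nat.mul_le_mul_right q₂ (show 1 ≤ g by omega)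
    nlinarith

end sp

/-- Bombieri's form of Stepanov's method; see the README (block CH3).  `f` is an automorphism that
preserves the field of `φ` and raises constants to the power `q ^ n`; the pairs `(c, b)` in `S` are
those whose place is fixed by `f`. -/
theorem stepanov {B : Type} [Group B] [Fintype B] {φ : Gam F → B} {Y : Finset (kk F)}
    {sec : B → Gam F} (hB : IsPGroup 2 B) (hφ : Hm (Geo F) φ) (hu : UnrP φ Y)
    (hsec : ∀ b, sec b ∈ Geo F ∧ φ (sec b) = b) {n : ℕ} {f : Gam F}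
    (hf : Fr f (Fintype.card F ^ n)) (hfM : ∀ g ∈ Geo F, φ g = 1 → φ (f * g * f⁻¹) = 1)
    (hn : 16 * (Fintype.card B ^ 2 * (Y.card + 1)) ≤ Fintype.card F ^ (n / 2))
    (R : kk F → ValuationSubring (Om F)) (hR : ∀ c, Over (R c) (some c))
    (S : Finset (kk F × B)) (hS : ∀ y ∈ S, y.1 ∉ Y ∧ ∃ l ∈ St (R y.1),
      Fr l (Fintype.card F ^ n) ∧ ∀ z, InM φ z → l⁻¹ (sec y.2 z) = sec y.2 (f⁻¹ z)) :
    S.card ≤ Fintype.card F ^ n +
      16 * (Fintype.card B ^ 2 * (Y.card + 1)) * Fintype.card F ^ ((n + 1) / 2) := by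
  have hq0 : 0 < Fintype.card F := Fintype.card_pos
  obtain ⟨P, hP⟩ := sp_frob (F := F) (n / 2)
  have hQ : Fintype.card F ^ n = Fintype.card F ^ (n / 2) * Fintype.card F ^ ((n + 1) / 2) := by
    rw [← pow_add]
    congr 1
    omega
  have h12 : Fintype.card F ^ (n / 2) ≤ Fintype.card F ^ ((n + 1) / 2) :=
    Nat.pow_le_pow_right hq0 (by omega)
  have hq1 : 0 < Fintype.card F ^ (n / 2) := pow_pos hq0 _
  rw [hQ] at hS ⊢
  generalize Fintype.card F ^ (n / 2) = q₁ at *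
  generalize Fintype.card F ^ ((n + 1) / 2) = q₂ at *
  obtain ⟨l, hl⟩ : ∃ l, l = (q₂ - 1) / Fintype.card B := ⟨_, rfl⟩
  obtain ⟨m, hm⟩ : ∃ m, m = q₁ / Fintype.card B + 7 * (Fintype.card B * (Y.card + 1)) + 1 :=
    ⟨_, rfl⟩
  obtain ⟨c, hc⟩ := (Y.finite_toSet.union (Y.finite_toSet.preimage (f := ck f)
    fun a _ b _ h => Subtype.ext (f.injective (congrArg Subtype.val h)))).infinite_compl.nonempty
  obtain ⟨O, hO⟩ := exists_over (some c)
  have hO' : Over (cm f⁻¹ O) (some (ck f c)) := over_conj hO f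
  have := (rr_up hB hφ hu hsec m).1
  have := (rr_up hB hφ hu hsec l).1
  obtain ⟨_, h0⟩ := rr_up hB hφ hu hsec (l * q₁ + m)
  obtain ⟨A, hA, hs⟩ := sp_fam hO' (LL φ m) fun z hz h0 =>
    ord_range hB hφ hu hsec hz h0 (fun e => hc (Or.inr e)) hO'
  choose! s hs hs0 hso using hs
  obtain ⟨h1, h2, h3⟩ := sp_num Fintype.card_pos Y.card.succ_pos h12 hn hl hm
    (rr_low hB hφ hu hsec l) ((rr_low hB hφ hu hsec m).trans (Nat.add_le_add_right hA _))
  have : Module.Free (kk F) (LL φ l) := Module.Free.of_divisionRing _ _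
  let e := Module.finBasis (kk F) (LL φ l)
  have h4 : ¬ LinearIndependent (kk F) fun y : A × Fin (Module.finrank (kk F) (LL φ l)) =>
      (⟨(e y.2 : Om F) ^ q₁ * s y.1, LL.mul (LL.pow (e y.2).2 q₁) (hs _ y.1.2)⟩ :
        LL φ (l * q₁ + m)) := fun h => by
    have := h.fintype_card_le_finrank
    rw [Fintype.card_prod, Fintype.card_coe, Fintype.card_fin] at this
    omega
  obtain ⟨C, hC, y₀, hy₀⟩ := Fintype.not_linearIndependent_iff.1 h4
  choose a ha using fun y => IsAlgClosed.exists_pow_nat_eq (C y) hq1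
  let w : A → LL φ l := fun i => ∑ j, a (i, j) • e j
  have hw : ∑ i : A, (w i : Om F) ^ q₁ * s i = 0 := by
    have h5 := congrArg Subtype.val hC
    rw [Submodule.coe_sum, Fintype.sum_prod_type] at h5
    refine Eq.trans (Finset.sum_congr rfl fun i _ => ?_) h5
    rw [← hP, Submodule.coe_sum, map_sum, Finset.sum_mul]
    refine Finset.sum_congr rfl fun j _ => ?_
    change P (a (i, j) * e j) * s i = C (i, j) * (e j ^ q₁ * s i)
    rw [hP, ← ha, mul_pow, mul_assoc]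
    rfl
  have hw0 : (w y₀.1 : Om F) ≠ 0 := fun h => hy₀ (by
    have h5 := Fintype.linearIndependent_iff.1 e.linearIndependent _ (Subtype.ext h) y₀.2
    rw [← ha, h5, zero_pow hq1.ne'])
  have hf0 : ∀ i : A, f⁻¹ (s i) ≠ 0 := fun i => by simpa using hs0 _ i.2
  have hfm : ∀ i : A, f⁻¹ (s i) ∈ LL φ m := fun i => sp_map hfM (hs _ i.2)
  have hlt : ∀ i j : A, (i : ℕ) < j →
      ord O (some c) (f⁻¹ (s i)) < ord O (some c) (f⁻¹ (s j)) := fun i j h => by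
    rw [← sub_pos, ← lw_div hO (hf0 j) (hf0 i), ord_pos_iff hO (div_ne_zero (hf0 j) (hf0 i)),
      ← map_div₀, ← val_lt_of_iff (O := cm f⁻¹ O) fun _ => mem_cm,
      ← ord_pos_iff hO' (div_ne_zero (hs0 _ j.2) (hs0 _ i.2)), lw_div hO' (hs0 _ j.2) (hs0 _ i.2),
      hso _ i.2, hso _ j.2, sub_pos]
    exact_mod_cast h
  have hu0 : ∑ i : A, (w i : Om F) * f⁻¹ (s i) ^ q₂ ≠ 0 := by
    refine sp_sum O (mul_ne_zero hw0 (pow_ne_zero _ (hf0 _))) fun i j hi hj h => ?_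
    have h5 := le_antisymm ((ord_le_iff hO hi hj).2 h.le) ((ord_le_iff hO hj hi).2 h.ge)
    have hi' := left_ne_zero_of_mul hi
    have hj' := left_ne_zero_of_mul hj
    have hY : c ∉ Y := fun e => hc (Or.inl e)
    obtain ⟨a₁, b₁, e₁⟩ := ord_range hB hφ hu hsec (w i).2 hi' hY hO
    obtain ⟨a₂, b₂, e₂⟩ := ord_range hB hφ hu hsec (w j).2 hj' hY hO
    obtain ⟨a₃, -, e₃⟩ := ord_range hB hφ hu hsec (hfm i) (hf0 i) hY hO
    obtain ⟨a₄, -, e₄⟩ := ord_range hB hφ hu hsec (hfm j) (hf0 j) hY hO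
    rw [ord_mul hO hi' (pow_ne_zero _ (hf0 _)), ord_mul hO hj' (pow_ne_zero _ (hf0 _)),
      ord_pow hO (hf0 _), ord_pow hO (hf0 _), e₁, e₂, e₃, e₄] at h5
    have h6 : a₂ + q₂ * a₄ = a₁ + q₂ * a₃ := by exact_mod_cast h5
    have h7 := congrArg (· / q₂) h6
    simp only [Nat.add_mul_div_left _ _ (hq1.trans_le h12), Nat.div_eq_of_lt (b₁.trans_lt h1),
      Nat.div_eq_of_lt (b₂.trans_lt h1), zero_add] at h7
    rcases lt_trichotomy (i : ℕ) j with h8 | h8 | h8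
    · exact ((hlt i j h8).ne (by rw [e₃, e₄, h7])).elim
    · exact Subtype.ext h8
    · exact ((hlt j i h8).ne (by rw [e₃, e₄, h7])).elim
  have hum : ∑ i : A, (w i : Om F) * f⁻¹ (s i) ^ q₂ ∈ LL φ (l + m * q₂) :=
    Submodule.sum_mem _ fun i _ => LL.mul (w i).2 (LL.pow (hfm i) q₂)
  refine le_trans (Finset.card_le_card fun y hy => ?_) ((zeros_le hB hφ hu hsec hum hu0
    (S.image Prod.fst) (fun d hd => ?_) R hR).trans h3)
  · refine Finset.mem_filter.2 ⟨Finset.mem_product.2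
      ⟨Finset.mem_image_of_mem _ hy, Finset.mem_univ _⟩, ?_⟩
    obtain ⟨-, k, hk, hkf, hkz⟩ := hS y hy
    have hg := (hsec y.2).1
    rw [← pow_lt_one_iff_of_nonneg zero_le hq1.ne', ← map_pow, ← hP, ← sub_zero (P _),
      ← map_zero (sec y.2), ← hw, map_sum, map_sum, map_sum, ← Finset.sum_sub_distrib]
    refine Valuation.map_sum_lt _ one_ne_zero fun i _ => ?_
    have h5 := hkz _ (hs _ i.2).1
    have h6 := sp_cong (hR _) hk hkf ((LL.map hφ (hfm i) hg).2.1 _ _ (hR y.1))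
    have h7 : k (sec y.2 (f⁻¹ (s i))) = sec y.2 (s i) := by rw [← h5, self_apply_inv]
    rw [hP, map_mul, map_mul, map_pow, map_pow, mul_pow, ← pow_mul, mul_comm q₂, ← h7, ← mul_sub]
    refine val_mul_lt _ ?_ h6
    exact ((R y.1).valuation_le_one_iff _).2
      (pow_mem ((LL.map hφ (w i).2 hg).2.1 _ _ (hR y.1)) _)
  · obtain ⟨y, hy, rfl⟩ := Finset.mem_image.1 hd
    exact (hS y hy).1

variable [Fro F]

theorem sp_end {Q q₁ q₂ N G η : ℝ} (hQ : Q = q₁ * q₂) (h12 : q₁ ≤ q₂) (hη : 0 < η) (hη1 : η ≤ 1)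
    (hG : 1 ≤ G) (hn : 40 * G ≤ η * q₁) (hN : Q ≤ N + 2 * q₁) :
    Q + 16 * G * q₂ ≤ (1 + η) * N := by
  have h1 : 0 < q₁ := pos_of_mul_pos_left (show 0 < q₁ * η by linarith) hη.le
  have h2 : 40 * G * q₂ ≤ η * q₁ * q₂ := mul_le_mul_of_nonneg_right hn (h1.le.trans h12)
  have h3 : (1 + η) * Q ≤ (1 + η) * (N + 2 * q₁) := mul_le_mul_of_nonneg_left hN (by linarith)
  have h4 : 40 ≤ η * q₂ := by nlinarith
  have h5 := mul_le_mul_of_nonneg_left h4 h1.le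
  have h6 := mul_le_mul_of_nonneg_left hη1 h1.le
  subst hQ
  nlinarith

/-- The effective upper bound in Chebotarev's theorem. -/
theorem cheb {B : Type} [Group B] [Finite B] (hB : IsPGroup 2 B) {φ : Gam F → B}
    (hφ : Hm (WW F) φ) (Z : Finset F[X]) (hZ : ∀ p ∈ Z, Prm p) (hu : Unr φ Z) {δ : ℕ}
    (hδ : ∑ p ∈ Z, p.natDegree + 1 ≤ δ) (B₀ : Finset B) (hB₀ : ∀ b, b ∈ B₀ ↔ ∃ g ∈ Geo F, φ g = b)
    {n : ℕ} {η : ℝ} (hη : 0 < η) (hη1 : η ≤ 1)
    (hn : 40 * ((B₀.card : ℝ) ^ 2 * δ) ≤ η * (Fintype.card F : ℝ) ^ (n / 2))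
    (P : Finset F[X]) (σ f : F[X] → Gam F)
    (hP : ∀ p ∈ P, p ∈ Pn F n ∧ p ∉ Z ∧ Dec p (σ p) (f p)) (β : B) :
    (((P ×ˢ Finset.range n ×ˢ B₀).filter fun y =>
      y.2.2⁻¹ * φ (ss F ^ y.2.1 * f y.1 * (ss F ^ y.2.1)⁻¹) * y.2.2 = β).card : ℝ) ≤
      (1 + η) * (n * (Pn F n).card) := by
  set V := (P ×ˢ Finset.range n ×ˢ B₀).filter fun y =>
    y.2.2⁻¹ * φ (ss F ^ y.2.1 * f y.1 * (ss F ^ y.2.1)⁻¹) * y.2.2 = β with hV
  rcases V.eq_empty_or_nonempty with h0 | ⟨y₀, hy₀⟩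
  · rw [h0, Finset.card_empty, Nat.cast_zero]
    positivity
  have hmem : ∀ y ∈ V, y.1 ∈ P ∧ y.2.1 < n ∧ y.2.2 ∈ B₀ ∧
      y.2.2⁻¹ * φ (ss F ^ y.2.1 * f y.1 * (ss F ^ y.2.1)⁻¹) * y.2.2 = β := fun y hy => by
    simpa [hV, and_assoc] using hy
  have hprm : ∀ p ∈ P, Prm p ∧ p.natDegree = n := fun p hp => mem_Pn.1 (hP p hp).1
  let L : F[X] × ℕ × B → Gam F := fun y => ss F ^ y.2.1 * f y.1 * (ss F ^ y.2.1)⁻¹
  have hL : ∀ y ∈ V, L y ∈ WW F ∧ dg (L y) = n := fun y hy => by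
    have h1 := (hP _ (hmem y hy).1).2.2.conj (pow_mem ss_mem y.2.1)
    exact ⟨h1.memF, by rw [← (hprm _ (hmem y hy).1).2]; exact h1.dg⟩
  have hfr : ∀ g ∈ WW F, dg g = n → Fr g (Fintype.card F ^ n) := fun g hg e =>
    fr_of (by rw [← e]; exact dg_spec hg)
  obtain ⟨g₀, hg₀, e₀⟩ := (hB₀ _).1 (hmem y₀ hy₀).2.2.1
  obtain ⟨f₀, hf₀, hd₀, hβ⟩ : ∃ f₀ ∈ WW F, dg f₀ = n ∧ φ f₀ = β := by
    have h1 := inv_mem (geo_le hg₀)
    refine ⟨g₀⁻¹ * L y₀ * g₀⁻¹⁻¹, mul_mem (mul_mem h1 (hL _ hy₀).1) (inv_mem h1),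
      by rw [ch_dg.conj h1 (hL _ hy₀).1, (hL _ hy₀).2], ?_⟩
    rw [hφ.conj h1 (hL _ hy₀).1, hφ.inv (geo_le hg₀), inv_inv, e₀]
    exact (hmem y₀ hy₀).2.2.2
  have hφ' : Hm (Geo F) φ := hφ.mono geo_le
  let H : Subgroup B := hφ'.hom.range
  have hH : ∀ b, b ∈ B₀ ↔ b ∈ H := fun b => (hB₀ b).trans
    ⟨fun ⟨g, hg, e⟩ => ⟨⟨g, hg⟩, e⟩, fun ⟨g, e⟩ => ⟨g, g.2, e⟩⟩
  let _ : Fintype H := Fintype.ofFinite _
  have hcard : Fintype.card H = B₀.card := Fintype.card_of_subtype B₀ hH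
  let ψ : Gam F → H := fun g => if hg : g ∈ Geo F then ⟨φ g, ⟨g, hg⟩, rfl⟩ else 1
  have hψ1 : ∀ g ∈ Geo F, (ψ g : B) = φ g := fun g hg => by simp only [ψ, dif_pos hg]
  have hψ2 : ∀ g ∈ Geo F, φ g = 1 → ψ g = 1 := fun g hg e => Subtype.ext ((hψ1 g hg).trans e)
  have hψ : Hm (Geo F) ψ := ⟨fun g hg l hl => Subtype.ext (by
      rw [Subgroup.coe_mul, hψ1 _ (mul_mem hg hl), hψ1 g hg, hψ1 l hl, hφ'.mul g hg l hl]),
    hφ'.near.mono fun g hg h1 h2 => hψ2 g h1 (hg h1 h2)⟩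
  have hsec : ∀ b : H, ∃ g, g ∈ Geo F ∧ ψ g = b := fun ⟨b, g, e⟩ =>
    ⟨g, g.2, Subtype.ext ((hψ1 _ g.2).trans e)⟩
  choose sec hsec using hsec
  let Y : Finset (kk F) := Z.biUnion fun p => (p.aroots (kk F)).toFinset
  have hY : ∀ c, c ∈ Y ↔ ∃ p ∈ Z, aeval c p = 0 := fun c => by
    rw [Finset.mem_biUnion]
    exact exists_congr fun p => and_congr_right fun hp => by
      rw [Multiset.mem_toFinset, mem_aroots, and_iff_right (hZ p hp).ne]
  have hYc : Y.card + 1 ≤ δ := by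
    refine le_trans (Nat.add_le_add_right (Finset.card_biUnion_le.trans
      (Finset.sum_le_sum fun p _ => (Multiset.toFinset_card_le _).trans ?_)) 1) hδ
    exact (card_roots' _).trans natDegree_map_le
  have hu' : UnrP ψ Y := fun c O hO hc g hg =>
    hψ2 g hg.1 (hu c O hO (fun p hp e => hc ((hY c).2 ⟨p, hp, e⟩)) g hg)
  have hD : ∀ p, ∃ c O, p ∈ P → aeval c p = 0 ∧ Over O (some c) ∧ f p ∈ St O := fun p => by
    by_cases hp : p ∈ P
    · obtain ⟨c, O, h1, h2, -, -, h3, -⟩ := (hP p hp).2.2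
      exact ⟨c, O, fun _ => ⟨h1, h2, h3⟩⟩
    · exact ⟨0, ⊤, fun e => (hp e).elim⟩
  choose c O hD using hD
  let cc : F[X] × ℕ × B → kk F := fun y => ck (ss F ^ y.2.1) (c y.1)
  have hroot : ∀ y ∈ V, aeval (cc y) y.1 = 0 := fun y hy => root_ck.2 (hD _ (hmem y hy).1).1
  have hinj : ∀ y ∈ V, ∀ y' ∈ V, cc y = cc y' → y.1 = y'.1 ∧ y.2.1 = y'.2.1 := by
    intro y hy y' hy' e
    have h1 := hprm _ (hmem y hy).1
    have h2 : y.1 = y'.1 :=
      h1.1.root_unique (hprm _ (hmem y' hy').1).1 (hroot y hy) (e ▸ hroot y' hy')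
    refine ⟨h2, h1.1.orb_inj (hD _ (hmem y hy).1).1 (h1.2 ▸ (hmem y hy).2.1)
      (h1.2 ▸ (hmem y' hy').2.1) ?_⟩
    simpa only [cc, ← h2] using e
  have hR : ∀ d : kk F, ∃ R, Over R (some d) ∧ ∀ y ∈ V, cc y = d → L y ∈ St R := fun d => by
    by_cases hd : ∃ y ∈ V, cc y = d
    · obtain ⟨y, hy, rfl⟩ := hd
      refine ⟨_, over_conj (hD _ (hmem y hy).1).2.1 (ss F ^ y.2.1), fun y' hy' e => ?_⟩
      obtain ⟨h1, h2⟩ := hinj y' hy' y hy e
      simp only [L, h1, h2]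
      exact st_conj' (hD _ (hmem y hy).1).2.2 _
    · obtain ⟨R, hR⟩ := exists_over (some d)
      exact ⟨R, hR, fun y hy e => (hd ⟨y, hy, e⟩).elim⟩
  choose R hR hRL using hR
  let ι : F[X] × ℕ × B → kk F × H := fun y => (cc y, if h : y.2.2 ∈ H then ⟨_, h⟩ else 1)
  have hι : ∀ y ∈ V, ((ι y).2 : B) = y.2.2 := fun y hy => by
    simp only [ι, dif_pos ((hH _).1 (hmem y hy).2.2.1)]
  have hVc : (V.image ι).card = V.card := Finset.card_image_of_injOn fun y hy y' hy' e => by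
    obtain ⟨h1, h2⟩ := hinj y hy y' hy' (congrArg Prod.fst e)
    exact Prod.ext h1 (Prod.ext h2 (by rw [← hι y hy, ← hι y' hy', e]))
  have hG : ((Fintype.card H ^ 2 * (Y.card + 1) : ℕ) : ℝ) ≤ (B₀.card : ℝ) ^ 2 * δ := by
    rw [hcard]
    exact_mod_cast Nat.mul_le_mul_left _ hYc
  have hq1 : (0 : ℝ) ≤ (Fintype.card F : ℝ) ^ (n / 2) := by positivity
  have hG1 : 1 ≤ Fintype.card H ^ 2 * (Y.card + 1) :=
    Nat.mul_pos (pow_pos Fintype.card_pos _) Y.card.succ_pos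
  have key := stepanov (hB.to_subgroup H) hψ hu' hsec (hfr _ hf₀ hd₀) (fun g hg e =>
      hψ2 _ (geo_conj' hg _) (by
        rw [hφ.conj hf₀ (geo_le hg), ← hψ1 g hg, e, Subgroup.coe_one, mul_one, mul_inv_cancel]))
    (by
      have h1 : 16 * ((Fintype.card H ^ 2 * (Y.card + 1) : ℕ) : ℝ) ≤
          (Fintype.card F : ℝ) ^ (n / 2) := by
        have := mul_le_mul_of_nonneg_right hη1 hq1
        have : (0 : ℝ) ≤ (B₀.card : ℝ) ^ 2 * δ := by positivity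
        linarith
      exact_mod_cast h1) R hR (V.image ι) (by
      intro y' hy'
      obtain ⟨y, hy, rfl⟩ := Finset.mem_image.1 hy'
      refine ⟨fun e => ?_, L y, hRL _ y hy rfl, hfr _ (hL y hy).1 (hL y hy).2, fun z hz => ?_⟩
      · obtain ⟨p, hp, e⟩ := (hY _).1 e
        exact (hP _ (hmem y hy).1).2.1
          ((hZ p hp).root_unique (hprm _ (hmem y hy).1).1 e (hroot y hy) ▸ hp)
      have hg := (hsec (ι y).2).1
      have h1 : φ (sec (ι y).2) = y.2.2 := by rw [← hψ1 _ hg, (hsec _).2, hι y hy]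
      generalize sec (ι y).2 = g at hg h1
      have h2 := inv_mem (geo_le hg)
      have h3 := inv_mem (hL y hy).1
      have h4 := mul_mem (mul_mem h2 h3) (inv_mem h2)
      have h5 : f₀ * (g⁻¹ * (L y)⁻¹ * g⁻¹⁻¹) ∈ Geo F := geo_of_dg (mul_mem hf₀ h4) (by
        rw [ch_dg.mul _ hf₀ _ h4, ch_dg.conj h2 h3, ch_dg.inv (hL y hy).1, (hL y hy).2, hd₀,
          add_neg_cancel])
      have h6 := hz _ h5 (hψ2 _ h5 (by
        rw [hφ.mul _ hf₀ _ h4, hφ.conj h2 h3, hφ.inv (hL y hy).1, hφ.inv (geo_le hg), h1, hβ,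
          ← (hmem y hy).2.2.2]
        simp only [L]
        group))
      conv_rhs => rw [← h6]
      rw [AlgEquiv.mul_apply, inv_apply_self, AlgEquiv.mul_apply, AlgEquiv.mul_apply,
        self_apply_inv, inv_inv])
  rw [hVc] at key
  have hn0 : 0 < n := (Nat.zero_le _).trans_lt (hmem y₀ hy₀).2.1
  refine le_trans (Nat.cast_le.2 key) ?_
  rw [Nat.cast_add, Nat.cast_mul, Nat.cast_mul]
  refine sp_end (q₁ := (Fintype.card F : ℝ) ^ (n / 2)) ?_ ?_ hη hη1 (by exact_mod_cast hG1)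
    (by linarith) (by exact_mod_cast le_Pn F hn0)
  · push_cast
    rw [← pow_add]
    congr 1
    omega
  · exact_mod_cast Nat.pow_le_pow_right Fintype.card_pos (by omega)

end

end Pool.Agent.Lib.MP_16ef92_ag.GF
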