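import Mathlib
import Pool.Agent.Lib.MP_16ef92_ag.GF.Step

set_option autoImplicit false
set_option linter.unusedSectionVars false
set_option linter.unusedVariables false

namespace Pool.Agent.Lib.MP_16ef92_ag.GF

open Polynomial Finset
open scoped Classical

noncomputable section

theorem bad_count {B H : Type} [Group B] [Fintype H] {E : ℕ} (C : Finset B) (t : H → Fin E → B)
    (ht : ∀ h k, ∀ β ∈ C, (t h k)⁻¹ * β ∈ C) (Gd : (Fin E → B) → Prop) {NG : ℝ}
    (hG : ∀ β : Fin E → B, ((univ.filter fun h => ¬ Gd fun k => t h k * β k).card : ℝ) ≤ NG) :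
    (((Fintype.piFinset fun _ : Fin E => C).filter fun β => ¬ Gd β).card : ℝ) * Fintype.card H ≤
      (C.card : ℝ) ^ E * NG := by
  have h1 : ∀ h, ((Fintype.piFinset fun _ : Fin E => C).filter fun β => ¬ Gd β).card ≤
      ((Fintype.piFinset fun _ : Fin E => C).filter fun β => ¬ Gd fun k => t h k * β k).card := by
    intro h
    refine card_le_card_of_injOn (fun β k => (t h k)⁻¹ * β k) (fun β hβ => ?_) fun β _ β' _ e => ?_
    · rw [mem_coe, mem_filter, Fintype.mem_piFinset] at hβ ⊢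
      exact ⟨fun k => ht h k _ (hβ.1 k), by simpa using hβ.2⟩
    · exact _root_.funext fun k => mul_left_cancel (congrFun e k)
  have h2 := sum_card_bipartiteAbove_eq_sum_card_bipartiteBelow
    (r := fun (h : H) (β : Fin E → B) => ¬ Gd fun k => t h k * β k) (s := univ)
    (t := Fintype.piFinset fun _ : Fin E => C)
  calc _ = ∑ h : H, (((Fintype.piFinset fun _ : Fin E => C).filter fun β => ¬ Gd β).card : ℝ) := by
        simp [mul_comm]
    _ ≤ ∑ h : H, (((Fintype.piFinset fun _ : Fin E => C).filter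
        fun β => ¬ Gd fun k => t h k * β k).card : ℝ) := sum_le_sum fun h _ => by exact_mod_cast h1 h
    _ = ∑ β ∈ Fintype.piFinset fun _ : Fin E => C,
        ((univ.filter fun h => ¬ Gd fun k => t h k * β k).card : ℝ) := by exact_mod_cast h2
    _ ≤ ∑ β ∈ Fintype.piFinset fun _ : Fin E => C, NG := sum_le_sum fun β _ => hG β
    _ = _ := by simp

variable {F : Type} [Field F] [Clos F] [Fintype F] [hq : Fact (Odd (Fintype.card F))] [Fro F]

/-- Few tuples of primes have all conjugates of their Frobenius elements bad. -/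
theorem exc_count {B H : Type} [Group B] [Finite B] [Fintype H] (hB : IsPGroup 2 B)
    {φ : Gam F → B} (hφ : Hm (WW F) φ) (Z : Finset F[X]) (hZ : ∀ p ∈ Z, Prm p) (hu : Unr φ Z)
    {δ : ℕ} (hδ : ∑ p ∈ Z, p.natDegree + 1 ≤ δ) {n : ℕ} (hn0 : 0 < n) {η : ℝ} (hη : 0 < η)
    (hη1 : η ≤ 1) (hn : 40 * ((Nat.card B : ℝ) ^ 2 * δ) ≤ η * (Fintype.card F : ℝ) ^ (n / 2))
    (P : Finset F[X]) (σ f : F[X] → Gam F)
    (hP : ∀ p ∈ P, p ∈ Pn F n ∧ p ∉ Z ∧ Dec p (σ p) (f p)) {E : ℕ} (t : H → Fin E → B)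
    (ht : ∀ h k, ∃ g ∈ Geo F, φ g = t h k) (Gd : (Fin E → B) → Prop) {NG : ℝ}
    (hG : ∀ β : Fin E → B, ((univ.filter fun h => ¬ Gd fun k => t h k * β k).card : ℝ) ≤ NG) :
    (((Fintype.piFinset fun _ : Fin E => P).filter fun p => ∀ g : Fin E → Gam F,
      (∀ k, g k ∈ WW F) → ¬ Gd fun k => φ (g k * f (p k) * (g k)⁻¹)).card : ℝ) * Fintype.card H ≤
      NG * ((1 + η) * (Pn F n).card) ^ E := by
  have := Fintype.ofFinite B
  let B₀ : Finset B := univ.filter fun b => ∃ g ∈ Geo F, φ g = b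
  have hB₀ : ∀ b, b ∈ B₀ ↔ ∃ g ∈ Geo F, φ g = b := fun b => by simp [B₀]
  have hsn : ss F ^ n ∈ WW F := pow_mem ss_mem n
  let C : Finset B := B₀.image fun b => b * φ (ss F ^ n)
  have hC : C.card = B₀.card := card_image_of_injective _ (mul_left_injective _)
  have hB0 : (0 : ℝ) < B₀.card := by
    exact_mod_cast card_pos.2 ⟨_, (hB₀ _).2 ⟨1, one_mem _, rfl⟩⟩
  have h1 := bad_count C t (fun h k β hβ => by
    obtain ⟨b, hb, rfl⟩ := mem_image.1 hβ
    obtain ⟨g, hg, rfl⟩ := (hB₀ b).1 hb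
    obtain ⟨l, hl, e⟩ := ht h k
    refine mem_image.2 ⟨_, (hB₀ _).2 ⟨_, mul_mem (inv_mem hl) hg, rfl⟩, ?_⟩
    rw [hφ.mul _ (geo_le (inv_mem hl)) _ (geo_le hg), hφ.inv (geo_le hl), e, mul_assoc]) Gd hG
  have h2 := cheb hB hφ Z hZ hu hδ B₀ hB₀ hη hη1 (le_trans (by
    gcongr
    rw [Nat.card_eq_fintype_card]
    exact card_le_univ _) hn) P σ f hP
  set Exc := (Fintype.piFinset fun _ : Fin E => P).filter fun p => ∀ g : Fin E → Gam F,
      (∀ k, g k ∈ WW F) → ¬ Gd fun k => φ (g k * f (p k) * (g k)⁻¹) with hExc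
  set Bad := (Fintype.piFinset fun _ : Fin E => C).filter fun β => ¬ Gd β with hBad
  let m : F[X] × ℕ × B → B := fun y =>
    y.2.2⁻¹ * φ (ss F ^ y.2.1 * f y.1 * (ss F ^ y.2.1)⁻¹) * y.2.2
  let Y := Exc ×ˢ Fintype.piFinset fun _ : Fin E => range n ×ˢ B₀
  have h3 : Set.MapsTo (fun y : (Fin E → F[X]) × (Fin E → ℕ × B) => fun k => m (y.1 k, y.2 k))
      Y Bad := by
    rintro ⟨p, r⟩ hy
    rw [mem_coe, mem_product, mem_filter, Fintype.mem_piFinset, Fintype.mem_piFinset] at hy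
    obtain ⟨⟨e1, e2⟩, e3⟩ := hy
    choose γ hγ hγ' using fun k => (hB₀ _).1 (mem_product.1 (e3 k)).2
    have hg : ∀ k, (γ k)⁻¹ * ss F ^ (r k).1 ∈ WW F := fun k =>
      mul_mem (geo_le (inv_mem (hγ k))) (pow_mem ss_mem _)
    have hf : ∀ k, f (p k) ∈ WW F := fun k => (hP _ (e1 k)).2.2.memF
    have hm : ∀ k, m (p k, r k) = φ ((γ k)⁻¹ * ss F ^ (r k).1 * f (p k) *
        ((γ k)⁻¹ * ss F ^ (r k).1)⁻¹) := fun k => by
      simp only [m]
      rw [← hγ' k, hφ.conj (hg k) (hf k), hφ.conj (pow_mem ss_mem _) (hf k),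
        hφ.mul _ (geo_le (inv_mem (hγ k))) _ (pow_mem ss_mem _), hφ.inv (geo_le (hγ k))]
      group
    rw [mem_coe, mem_filter, Fintype.mem_piFinset]
    simp only [hm]
    refine ⟨fun k => ?_, e2 _ hg⟩
    have hw := mul_mem (mul_mem (hg k) (hf k)) (inv_mem (hg k))
    have e4 := dg_spec hw
    rw [ch_dg.conj (hg k) (hf k), (hP _ (e1 k)).2.2.dg, (mem_Pn.1 (hP _ (e1 k)).1).2, zpow_neg,
      zpow_natCast] at e4
    refine mem_image.2 ⟨_, (hB₀ _).2 ⟨_, e4, rfl⟩, ?_⟩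
    rw [← hφ.mul _ (geo_le e4) _ hsn, inv_mul_cancel_right]
  have h4 : (Y.card : ℝ) ≤ Bad.card * ((1 + η) * (n * (Pn F n).card)) ^ E := by
    rw [card_eq_sum_card_fiberwise h3, Nat.cast_sum, ← nsmul_eq_mul]
    refine sum_le_card_nsmul _ _ _ fun β _ => ?_
    have : (Y.filter fun y => (fun k => m (y.1 k, y.2 k)) = β).card ≤ (Fintype.piFinset fun k =>
        (P ×ˢ range n ×ˢ B₀).filter fun y => m y = β k).card := by
      refine card_le_card_of_injOn (fun y k => (y.1 k, y.2 k)) (fun y hy => ?_) fun y _ y' _ e => ?_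
      · rw [mem_coe, mem_filter, mem_product, mem_filter, Fintype.mem_piFinset,
          Fintype.mem_piFinset] at hy
        rw [mem_coe, Fintype.mem_piFinset]
        exact fun k => mem_filter.2 ⟨mem_product.2 ⟨hy.1.1.1 k, hy.1.2 k⟩, congrFun hy.2 k⟩
      · exact Prod.ext (_root_.funext fun k => congrArg Prod.fst (congrFun e k))
          (_root_.funext fun k => congrArg Prod.snd (congrFun e k))
    refine (Nat.cast_le.2 this).trans ?_
    rw [Fintype.card_piFinset, Nat.cast_prod]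
    exact (prod_le_prod (fun _ _ => Nat.cast_nonneg _) fun k _ => h2 (β k)).trans_eq (by simp)
  have h5 : (Y.card : ℝ) = Exc.card * (n * B₀.card) ^ E := by simp [Y]
  rw [h5] at h4
  rw [hC] at h1
  have hn' : (0 : ℝ) < n := by exact_mod_cast hn0
  refine le_of_mul_le_mul_right ?_ (by positivity : (0 : ℝ) < (n * B₀.card) ^ E)
  calc (Exc.card : ℝ) * Fintype.card H * (n * B₀.card) ^ E
      = Exc.card * (n * B₀.card) ^ E * Fintype.card H := by ring
    _ ≤ Bad.card * ((1 + η) * (n * (Pn F n).card)) ^ E * Fintype.card H := by gcongr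
    _ = Bad.card * Fintype.card H * ((1 + η) * (n * (Pn F n).card)) ^ E := by ring
    _ ≤ B₀.card ^ E * NG * ((1 + η) * (n * (Pn F n).card)) ^ E := by gcongr
    _ = _ := by simp only [mul_pow]; ring

end

end Pool.Agent.Lib.MP_16ef92_ag.GF
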