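import Mathlib

set_option autoImplicit false
set_option linter.unusedSectionVars false
set_option linter.unusedVariables false

namespace Pool.Agent.Lib.MP_16ef92_ag.GF

open Finset
open scoped Classical

noncomputable section

variable {S I : Type} [Fintype S] (A : Type) [AddCommGroup A] [Module ℤ_[2] A]

/-- Functions on the grid that depend only on the coordinates in `U`. -/
def Dep (U : Finset S) : Submodule ℤ_[2] ((S → I) → A) where
  carrier := {f | ∀ x y : S → I, (∀ s ∈ U, x s = y s) → f x = f y}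
  add_mem' := fun ha hb x y h => by simp only [Pi.add_apply, ha x y h, hb x y h]
  zero_mem' := fun _ _ _ => rfl
  smul_mem' := fun c f hf x y h => by simp only [Pi.smul_apply, hf x y h]

/-- Sums of functions that miss one coordinate. -/
def Poly : Submodule ℤ_[2] ((S → I) → A) := ⨆ s : S, Dep A (univ.erase s)

/-- The lattice spanned by `2 ^ |U \ J|` times functions of the coordinates in `U ⊆ T`. -/
def Lat (T J : Finset S) : Submodule ℤ_[2] ((S → I) → A) :=
  Submodule.span ℤ_[2] {f | ∃ U ⊆ T, ∃ g ∈ Dep A U, f = (2 : ℤ_[2]) ^ (U \ J).card • g}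

variable {A} {B C : Type} [AddCommGroup B] [Module ℤ_[2] B] [AddCommGroup C] [Module ℤ_[2] C]
  {T T' J J' U : Finset S}

theorem Dep.mono {U' : Finset S} (h : U ⊆ U') : Dep (I := I) A U ≤ Dep A U' :=
  fun f hf x y e => hf x y fun s hs => e s (h hs)

theorem Lat.gen {g : (S → I) → A} (hU : U ⊆ T) (hg : g ∈ Dep A U) {j : ℕ}
    (hj : (U \ J).card ≤ j) : (2 : ℤ_[2]) ^ j • g ∈ Lat A T J := by
  obtain ⟨l, rfl⟩ := Nat.exists_eq_add_of_le' hj
  rw [pow_add, mul_smul]
  exact Submodule.smul_mem _ _ (Submodule.subset_span ⟨U, hU, g, hg, rfl⟩)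

theorem Lat.of_dep {g : (S → I) → A} (hU : U ⊆ T) (hJ : U ⊆ J) (hg : g ∈ Dep A U) :
    g ∈ Lat A T J := by
  simpa using Lat.gen (J := J) hU hg (j := 0) (by simpa using hJ)

theorem Lat.const (a : A) : (fun _ => a) ∈ Lat (I := I) A T J :=
  Lat.of_dep (empty_subset _) (empty_subset _) fun _ _ _ => rfl

theorem Lat.ind {M : Submodule ℤ_[2] ((S → I) → B)} (μ : ((S → I) → A) →ₗ[ℤ_[2]] (S → I) → B)
    (h : ∀ U ⊆ T, ∀ g ∈ Dep A U, (2 : ℤ_[2]) ^ (U \ J).card • μ g ∈ M) {f : (S → I) → A}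
    (hf : f ∈ Lat A T J) : μ f ∈ M := by
  refine (Submodule.span_le (p := M.comap μ)).2 ?_ hf
  rintro _ ⟨U, hU, g, hg, rfl⟩
  simpa using h U hU g hg

theorem Lat.mono (hT : T ⊆ T') (hJ : J ⊆ J') : Lat (I := I) A T J ≤ Lat A T' J' := fun f hf =>
  Lat.ind LinearMap.id (fun U hU g hg => Lat.gen (hU.trans hT) hg
    (card_le_card (sdiff_subset_sdiff subset_rfl hJ))) hf

theorem Lat.two {f : (S → I) → A} {a : S} (hf : f ∈ Lat A T (insert a J)) :
    (2 : ℤ_[2]) • f ∈ Lat A T J := by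
  refine Lat.ind ((2 : ℤ_[2]) • LinearMap.id) (fun U hU g hg => ?_) hf
  rw [LinearMap.smul_apply, LinearMap.id_apply, ← mul_smul, ← pow_succ]
  refine Lat.gen hU hg ((card_le_card (fun s hs => ?_)).trans (card_insert_le a _))
  simp only [mem_sdiff, mem_insert] at hs ⊢
  tauto

theorem Lat.map (μ : A →ₗ[ℤ_[2]] B) {f : (S → I) → A} (hf : f ∈ Lat A T J) :
    (fun x => μ (f x)) ∈ Lat B T J :=
  Lat.ind (μ.compLeft _) (fun U hU g hg => Lat.gen hU
    (fun x y e => by simp only [LinearMap.compLeft_apply, Function.comp, hg x y e]) le_rfl) hf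

theorem Lat.bil (μ : A →ₗ[ℤ_[2]] B →ₗ[ℤ_[2]] C) {f : (S → I) → A} {g : (S → I) → B}
    (hf : f ∈ Lat A T J) (hg : g ∈ Lat B T J') : (fun x => μ (f x) (g x)) ∈ Lat C T (J ∪ J') := by
  let ν : ((S → I) → A) →ₗ[ℤ_[2]] ((S → I) → B) →ₗ[ℤ_[2]] (S → I) → C :=
    LinearMap.mk₂ _ (fun f g x => μ (f x) (g x)) (fun _ _ _ => by ext; simp)
      (fun _ _ _ => by ext; simp) (fun _ _ _ => by ext; simp) (fun _ _ _ => by ext; simp)
  refine Lat.ind (ν.flip g) (fun U hU f₁ hf₁ => ?_) hf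
  rw [LinearMap.flip_apply, ← LinearMap.smul_apply]
  refine Lat.ind _ (fun U' hU' g₁ hg₁ => ?_) hg
  rw [LinearMap.smul_apply, ← mul_smul, ← pow_add]
  refine Lat.gen (U := U ∪ U') (union_subset hU hU') (fun x y e => ?_) ?_
  · change μ (f₁ x) (g₁ x) = μ (f₁ y) (g₁ y)
    rw [hf₁ x y fun s hs => e s (mem_union_left _ hs), hg₁ x y fun s hs => e s (mem_union_right _ hs)]
  · refine (card_le_card (fun s hs => ?_)).trans ((card_union_le (U' \ J') (U \ J)))
    simp only [mem_sdiff, mem_union] at hs ⊢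
    tauto

theorem Lat.mul {f g : (S → I) → ℤ_[2]} (hf : f ∈ Lat ℤ_[2] T J) (hg : g ∈ Lat ℤ_[2] T J') :
    (fun x => f x * g x) ∈ Lat ℤ_[2] T (J ∪ J') := Lat.bil (LinearMap.mul _ _) hf hg

theorem Lat.smul {f : (S → I) → ℤ_[2]} {g : (S → I) → A} (hf : f ∈ Lat ℤ_[2] T J)
    (hg : g ∈ Lat A T J') : (fun x => f x • g x) ∈ Lat A T (J ∪ J') :=
  Lat.bil (LinearMap.lsmul _ _) hf hg

/-- A family indexed by the coordinate `b`. -/
theorem Lat.glue [Fintype I] {b : S} (hb : b ∈ T) (hJ : b ∈ J) {f : I → (S → I) → A}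
    (hf : ∀ i, f i ∈ Lat A T J) : (fun x => f (x b) x) ∈ Lat A T J := by
  have : (fun x => f (x b) x) = ∑ i, fun x => (if x b = i then (1 : ℤ_[2]) else 0) • f i x := by
    ext x
    simp
  rw [this]
  refine Submodule.sum_mem _ fun i _ => ?_
  have h1 := Lat.smul (J := {b}) (f := fun x => if x b = i then (1 : ℤ_[2]) else 0)
    (Lat.of_dep (singleton_subset_iff.2 hb) subset_rfl
      fun x y e => by simp only [e b (mem_singleton_self b)]) (hf i)
  rwa [union_eq_right.2 (singleton_subset_iff.2 hJ)] at h1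

/-- Functions of the coordinates in `T` that are sums of functions missing a coordinate of `T`. -/
def PolyT (A : Type) [AddCommGroup A] [Module ℤ_[2] A] (T : Finset S) :
    Submodule ℤ_[2] ((S → I) → A) := ⨆ s ∈ T, Dep A (T.erase s)

/-- The splitting into a low and a top part. -/
theorem Lat.split {f : (S → I) → A} (hf : f ∈ Lat A T J) :
    ∃ l ∈ PolyT A T, ∃ t ∈ Dep A T, f = l + (2 : ℤ_[2]) ^ (T \ J).card • t := by
  have := Lat.ind (M := PolyT A T ⊔ (Dep A T).map ((2 : ℤ_[2]) ^ (T \ J).card • LinearMap.id))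
    LinearMap.id (fun U hU g hg => ?_) hf
  · obtain ⟨l, hl, _, ⟨t, ht, rfl⟩, e⟩ := Submodule.mem_sup.1 this
    exact ⟨l, hl, t, ht, e.symm⟩
  · by_cases h : U = T
    · subst h
      exact Submodule.mem_sup_right ⟨g, hg, rfl⟩
    · obtain ⟨s, h1, h2⟩ := exists_of_ssubset (lt_of_le_of_ne hU h)
      refine Submodule.mem_sup_left (Submodule.smul_mem _ _ ?_)
      exact Submodule.mem_iSup_of_mem s (Submodule.mem_iSup_of_mem h1
        (Dep.mono (fun a ha => mem_erase.2 ⟨fun (e : a = s) => h2 (e ▸ ha), hU ha⟩) hg))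

theorem PolyT.le_poly : PolyT (I := I) A T ≤ Poly A :=
  iSup₂_le fun s _ => le_iSup_of_le s (Dep.mono (erase_subset_erase _ (subset_univ _)))

theorem Dep.le_poly {s : S} (hs : s ∉ U) : Dep (I := I) A U ≤ Poly A :=
  le_iSup_of_le s (Dep.mono fun a ha => mem_erase.2 ⟨fun e => hs (e ▸ ha), mem_univ _⟩)

/-- A family of low functions indexed by a coordinate outside `T`. -/
theorem PolyT.glue [Fintype I] {b : S} (hb : b ∉ T) {f : I → (S → I) → A}
    (hf : ∀ i, f i ∈ PolyT A T) : (fun x => f (x b) x) ∈ Poly A := by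
  have : (fun x => f (x b) x) = ∑ i, fun x => (if x b = i then (1 : ℤ_[2]) else 0) • f i x := by
    ext x
    simp
  rw [this]
  refine Submodule.sum_mem _ fun i _ => ?_
  let μ : ((S → I) → A) →ₗ[ℤ_[2]] (S → I) → A :=
    { toFun := fun g x => (if x b = i then (1 : ℤ_[2]) else 0) • g x
      map_add' := fun _ _ => by ext; simp only [Pi.add_apply, smul_add]
      map_smul' := fun _ _ => by ext; simp only [Pi.smul_apply, RingHom.id_apply]; rw [smul_comm] }
  refine (iSup₂_le (a := (Poly A).comap μ) fun s hs g hg => ?_) (hf i)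
  refine Dep.le_poly (U := insert b (T.erase s)) (s := s) ?_ fun x y e => ?_
  · simp only [mem_insert, mem_erase, ne_eq, not_true, false_and, or_false]
    exact fun e => hb (e ▸ hs)
  · change (if x b = i then (1 : ℤ_[2]) else 0) • g x = (if y b = i then (1 : ℤ_[2]) else 0) • g y
    rw [e b (mem_insert_self _ _), hg x y fun a ha => e a (mem_insert_of_mem ha)]

end

end Pool.Agent.Lib.MP_16ef92_ag.GF
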