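import Mathlib
import Pool.Agent.Lib.MP_16ef92_ag.GF.FXd
import Pool.Agent.Lib.MP_16ef92_ag.GF.Lat

set_option autoImplicit false
set_option linter.unusedSectionVars false
set_option linter.unusedVariables false

namespace Pool.Agent.Lib.MP_16ef92_ag.GF

open Polynomial
open scoped Classical

noncomputable section

section lat
variable {S J : Type} [Fintype S] {A B : Type} [AddCommGroup A] [Module ℤ_[2] A]
  [AddCommGroup B] [Module ℤ_[2] B] {T U : Finset S}

theorem Poly.map (μ : A →ₗ[ℤ_[2]] B) {f : (S → J) → A} (hf : f ∈ Poly A) :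
    (fun x => μ (f x)) ∈ Poly B := by
  refine (iSup_le (a := (Poly B).comap (μ.compLeft (S → J))) fun s g hg => ?_) hf
  exact Submodule.mem_iSup_of_mem s fun x y e => by
    simp only [LinearMap.compLeft_apply, Function.comp, hg x y e]

theorem Lat.le_dep : Lat (I := J) A T U ≤ Dep A T := fun f hf =>
  Lat.ind LinearMap.id (fun U' hU g hg => Submodule.smul_mem _ _ (Dep.mono hU hg)) hf

theorem Lat.one {s : S} (hs : s ∈ T) (hU : s ∈ U) (f : J → A) :
    (fun x : S → J => f (x s)) ∈ Lat A T U :=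
  Lat.of_dep (Finset.singleton_subset_iff.2 hs) (Finset.singleton_subset_iff.2 hU)
    fun x y e => by simp only [e s (Finset.mem_singleton_self s)]

theorem Lat.two_one {s : S} (hs : s ∈ T) (f : J → A) :
    (fun x : S → J => (2 : ℤ_[2]) • f (x s)) ∈ Lat A T U :=
  Lat.two (a := s) (Lat.one hs (Finset.mem_insert_self _ _) f)

theorem Lat.sign {s : S} (hs : s ∈ T) {f : J → ℤ_[2]} (hf : ∀ k, f k = 1 ∨ f k = -1) :
    (fun x : S → J => f (x s)) ∈ Lat ℤ_[2] T ∅ := by
  have : (fun x : S → J => f (x s)) = (fun _ => 1) +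
      fun x => (2 : ℤ_[2]) • (fun k => if f k = 1 then (0 : ℤ_[2]) else -1) (x s) := by
    ext x
    simp only [Pi.add_apply, smul_eq_mul]
    split_ifs with h
    · simp [h]
    · rw [(hf _).resolve_left h]; ring
  rw [this]
  exact add_mem (Lat.const _)
    (Lat.two_one (U := ∅) hs fun k => if f k = 1 then (0 : ℤ_[2]) else -1)

theorem Lat.prod {ι : Type} (t : Finset ι) {f : ι → (S → J) → ℤ_[2]}
    (h : ∀ i ∈ t, f i ∈ Lat ℤ_[2] T ∅) : (fun x => ∏ i ∈ t, f i x) ∈ Lat ℤ_[2] T ∅ := by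
  induction t using Finset.induction_on with
  | empty => simpa using Lat.const (A := ℤ_[2]) (I := J) (T := T) (J := ∅) 1
  | insert a t ha ih =>
    simp only [Finset.prod_insert ha]
    simpa using Lat.mul (h a (Finset.mem_insert_self _ _))
      (ih fun i hi => h i (Finset.mem_insert_of_mem hi))

theorem Lat.sum {ι : Type} (t : Finset ι) {f : ι → (S → J) → A}
    (h : ∀ i ∈ t, f i ∈ Lat A T U) : (fun x => ∑ i ∈ t, f i x) ∈ Lat A T U := by
  have := Submodule.sum_mem _ h
  rwa [show ∑ i ∈ t, f i = fun x => ∑ i ∈ t, f i x from funext fun x => Finset.sum_apply _ _ _]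
    at this

theorem Lat.mul0 {f g : (S → J) → ℤ_[2]} (hf : f ∈ Lat ℤ_[2] T ∅) (hg : g ∈ Lat ℤ_[2] T U) :
    f * g ∈ Lat ℤ_[2] T U := by
  have := Lat.mul hf hg
  rwa [Finset.empty_union] at this

theorem Lat.two' {f : (S → J) → A} {a : S} (hf : f ∈ Lat A T {a}) :
    (2 : ℤ_[2]) • f ∈ Lat A T ∅ := Lat.two (a := a) (by simpa using hf)

end lat

/-- The affine group with linear parts of order two. -/
@[ext] structure Aff (Rr : Type) [CommRing Rr] where
  a : Rr
  u : Rr
  uu : u * u = 1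

section aff
variable {Rr : Type} [CommRing Rr]

instance : Mul (Aff Rr) := ⟨fun g h => ⟨g.a + g.u * h.a, g.u * h.u, by
  linear_combination (h.u * h.u) * g.uu + h.uu⟩⟩

instance : One (Aff Rr) := ⟨⟨0, 1, mul_one 1⟩⟩

instance : _root_.Inv (Aff Rr) := ⟨fun g => ⟨-(g.u * g.a), g.u, g.uu⟩⟩

@[simp] theorem Aff.mul_a (g h : Aff Rr) : (g * h).a = g.a + g.u * h.a := rfl
@[simp] theorem Aff.mul_u (g h : Aff Rr) : (g * h).u = g.u * h.u := rfl
@[simp] theorem Aff.one_a : (1 : Aff Rr).a = 0 := rfl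
@[simp] theorem Aff.one_u : (1 : Aff Rr).u = 1 := rfl
@[simp] theorem Aff.inv_a (g : Aff Rr) : g⁻¹.a = -(g.u * g.a) := rfl
@[simp] theorem Aff.inv_u (g : Aff Rr) : g⁻¹.u = g.u := rfl

instance : Group (Aff Rr) := Group.ofLeftAxioms
  (fun a b c => Aff.ext (by simp only [Aff.mul_a, Aff.mul_u]; ring) (mul_assoc _ _ _))
  (fun a => Aff.ext (by simp) (one_mul _))
  (fun a => Aff.ext (by simp) a.uu)

/-- The linear part. -/
def Aff.uHom : Aff Rr →* Rr := { toFun := Aff.u, map_one' := rfl, map_mul' := Aff.mul_u }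

theorem Aff.pow_odd (g : Aff Rr) (h : (1 + g.u) * g.a = 0) {Q : ℕ} (hQ : Odd Q) : g ^ Q = g := by
  obtain ⟨k, rfl⟩ := hQ
  have : g ^ 2 = 1 := by
    rw [pow_two]
    exact Aff.ext (by simp only [Aff.mul_a, Aff.one_a]; linear_combination h) g.uu
  rw [pow_succ, pow_mul, this, one_pow, one_mul]

end aff

section grid
variable {S J : Type} [Fintype S] (T : Finset S) (a : S)

variable (J) in
/-- The group of the grid. -/
def Og : Subgroup (Aff ((S → J) → ℤ_[2])) where
  carrier := {g | g.a ∈ Lat ℤ_[2] T {a} ∧ g.u ∈ Lat ℤ_[2] T ∅}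
  mul_mem' := fun hg hh => ⟨add_mem hg.1 (Lat.mul0 hg.2 hh.1), Lat.mul0 hg.2 hh.2⟩
  one_mem' := ⟨zero_mem _, Lat.const 1⟩
  inv_mem' := fun hg => ⟨neg_mem (Lat.mul0 hg.2 hg.1), hg.2⟩

variable (J) in
/-- The translations by the small lattice. -/
def Kg : Subgroup (Og J T a) where
  carrier := {g | g.1.a ∈ Lat ℤ_[2] T ∅ ∧ g.1.u = 1}
  mul_mem' := fun {g h} hg hh => ⟨add_mem hg.1 (Lat.mul0 g.2.2 hh.1), by
    change g.1.u * h.1.u = 1
    rw [hg.2, hh.2, mul_one]⟩
  one_mem' := ⟨zero_mem _, rfl⟩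
  inv_mem' := fun {g} hg => ⟨neg_mem (Lat.mul0 g.2.2 hg.1), hg.2⟩

instance : (Kg J T a).Normal := ⟨fun k hk g => by
  have h1 : (g * k * g⁻¹).1.a = g.1.u * k.1.a := by
    simp only [Subgroup.coe_mul, Subgroup.coe_inv, Aff.mul_a, Aff.mul_u, Aff.inv_a, hk.2]
    linear_combination (-g.1.a) * g.1.uu
  refine ⟨?_, ?_⟩
  · rw [h1]; exact Lat.mul0 g.2.2 hk.1
  · simp only [Subgroup.coe_mul, Subgroup.coe_inv, Aff.mul_u, Aff.inv_u, hk.2, mul_one, g.1.uu]⟩

variable (J) in
/-- The finite quotient. -/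
abbrev Bg : Type := Og J T a ⧸ Kg J T a

variable {T a}

theorem bg_eq {g h : Og J T a} : (g : Bg J T a) = h ↔ h.1.a - g.1.a ∈ Lat ℤ_[2] T ∅ ∧ g.1.u = h.1.u := by
  rw [QuotientGroup.eq]
  have h1 : (g⁻¹ * h).1.a = g.1.u * (h.1.a - g.1.a) := by
    simp only [Subgroup.coe_mul, Subgroup.coe_inv, Aff.mul_a, Aff.inv_a, Aff.inv_u]
    ring
  have h2 : (g⁻¹ * h).1.u = g.1.u * h.1.u := rfl
  constructor
  · rintro ⟨e1, e2⟩
    rw [h1] at e1
    rw [h2] at e2
    refine ⟨?_, by linear_combination (-g.1.u) * e2 + h.1.u * g.1.uu⟩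
    have := Lat.mul0 g.2.2 e1
    rwa [← mul_assoc, g.1.uu, one_mul] at this
  · rintro ⟨e1, e2⟩
    exact ⟨h1 ▸ Lat.mul0 g.2.2 e1, by rw [h2, ← e2, g.1.uu]⟩

theorem bg_two : IsPGroup 2 (Bg J T a) := fun q => by
  obtain ⟨g, rfl⟩ := QuotientGroup.mk_surjective q
  refine ⟨2, ?_⟩
  rw [← QuotientGroup.mk_pow, QuotientGroup.eq_one_iff]
  have h : (g ^ 2 ^ 2).1 = g.1 * g.1 * (g.1 * g.1) := by
    rw [Subgroup.coe_pow, ← pow_two, ← pow_two, ← pow_mul]; rfl
  refine ⟨?_, ?_⟩
  · have h1 : (g ^ 2 ^ 2).1.a = (2 : ℤ_[2]) • (g.1.a + g.1.u * g.1.a) := by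
      rw [h, two_smul]
      simp only [Aff.mul_a, Aff.mul_u, g.1.uu, one_mul]
    rw [h1]
    exact Lat.two' (add_mem g.2.1 (Lat.mul0 g.2.2 g.2.1))
  · rw [h]
    simp only [Aff.mul_u, g.1.uu, one_mul]

theorem bg_card [Fintype J] : Finite (Bg J T a) ∧
    Nat.card (Bg J T a) ≤ 2 ^ ((T.card + 1) * Fintype.card (S → J)) := by
  let f : Bg J T a → (S → J) → ZMod (2 ^ T.card) × Bool :=
    fun q x => (red _ (q.out.1.a x), decide (q.out.1.u x = 1))
  have hf : Function.Injective f := fun q q' e => by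
    rw [← q.out_eq, ← q'.out_eq]
    refine bg_eq.2 ⟨?_, ?_⟩
    · have h1 : ∀ x, ∃ c, q'.out.1.a x - q.out.1.a x = 2 ^ T.card * c := fun x =>
        red_eq.1 (congrArg Prod.fst (congrFun e x)).symm
      choose c hc using h1
      have h2 : q'.out.1.a - q.out.1.a = (2 : ℤ_[2]) ^ T.card • c := funext hc
      rw [h2]
      refine Lat.gen subset_rfl (fun x y exy => ?_) (by simp)
      have h3 := sub_mem (Lat.le_dep q'.out.2.1) (Lat.le_dep q.out.2.1) x y exy
      rw [h2] at h3
      exact mul_left_cancel₀ (pow_ne_zero T.card two_ne_zero) h3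
    · funext x
      have h1 : decide (q.out.1.u x = 1) = decide (q'.out.1.u x = 1) :=
        congrArg Prod.snd (congrFun e x)
      rw [decide_eq_decide] at h1
      have h2 := mul_self_eq_one_iff.1 (congrFun q.out.1.uu x)
      have h3 := mul_self_eq_one_iff.1 (congrFun q'.out.1.uu x)
      by_cases h : q.out.1.u x = 1
      · rw [h, h1.1 h]
      · rw [h2.resolve_left h, h3.resolve_left (mt h1.2 h)]
  refine ⟨Finite.of_injective f hf, (Nat.card_le_card_of_injective f hf).trans_eq ?_⟩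
  rw [Nat.card_eq_fintype_card, Fintype.card_fun, Fintype.card_prod, ZMod.card, Fintype.card_bool,
    ← pow_succ, ← pow_mul]

end grid

variable {F : Type} [Field F] [Clos F] [Fintype F] [hq : Fact (Odd (Fintype.card F))]
  {S : Type} [Fintype S]

/-- The product of the characters of the primes in the positions `T`. -/
def chT (T : Finset S) (y : S → F[X]) : Gam F →* ℤ_[2] := ∏ s ∈ T, chi (y s)

theorem chT_apply (T : Finset S) (y : S → F[X]) (g : Gam F) :
    chT T y g = ∏ s ∈ T, chi (y s) g := by simp [chT]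

theorem chi_sq (p : F[X]) (g : Gam F) : chi p g * chi p g = 1 := by
  rcases chi_cases p g with h | h <;> simp [h]

theorem chT_sq (T : Finset S) (y : S → F[X]) (g : Gam F) : chT T y g * chT T y g = 1 := by
  rw [chT_apply, ← Finset.prod_mul_distrib]
  exact Finset.prod_eq_one fun s _ => chi_sq _ _

theorem lat_chT {J : Type} (T : Finset S) (z : S → J → F[X]) (g : Gam F) :
    (fun x : S → J => chT T (fun s => z s (x s)) g) ∈ Lat ℤ_[2] T ∅ := by
  simp only [chT_apply]
  exact Lat.prod T fun s hs => Lat.sign (f := fun k => chi (z s k) g) hs fun k => chi_cases _ _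

variable [Fro F] {Z : Finset F[X]} {bd : ℕ}

/-- The scalar Fox derivative at the prime `y a`, twisted by the characters of the `y s`. -/
def DU (R : Pres Z bd) (T : Finset S) (a : S) (y : S → F[X]) : Wd Z →* Aff ℤ_[2] :=
  FreeGroup.lift fun v => v.elim ⟨0, chT T y (ss F), chT_sq _ _ _⟩ fun p =>
    ⟨if y a = p then 1 else 0, chT T y (R.σ p), chT_sq _ _ _⟩

variable (R : Pres Z bd) (T : Finset S) (a : S) (y : S → F[X])

theorem DU_none : (DU R T a y (.of none)).a = 0 := by simp [DU]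

theorem DU_some (p : Z) : (DU R T a y (.of (some p))).a = if y a = p then 1 else 0 := by simp [DU]

theorem DU_u (w : Wd Z) : (DU R T a y w).u = chT T y (evw Z R.σ w) := by
  have : Aff.uHom.comp (DU R T a y) = (chT T y).comp (evw Z R.σ) := by
    refine FreeGroup.ext_hom _ _ fun v => ?_
    rcases v with _ | p <;> simp [DU, evw, Aff.uHom]
  exact DFunLike.congr_fun this w

theorem DU_congr (ha : a ∈ T) {y y' : S → F[X]} (h : ∀ s ∈ T, y s = y' s) :
    DU R T a y = DU R T a y' := by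
  have : chT T y = chT T y' := Finset.prod_congr rfl fun s hs => by rw [h s hs]
  simp only [DU, this, h a ha]

theorem lat_DU {J : Type} (ha : a ∈ T) (z : S → J → F[X]) (w : Wd Z) :
    (fun x : S → J => (DU R T a (fun s => z s (x s)) w).a) ∈ Lat ℤ_[2] T {a} := by
  induction w using FreeGroup.induction_on with
  | C1 => simp only [map_one, Aff.one_a]; exact zero_mem _
  | of v =>
    rcases v with _ | p
    · simp only [DU_none]; exact zero_mem _
    · simp only [DU_some]
      exact Lat.one (f := fun k => if z a k = p then (1 : ℤ_[2]) else 0) ha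
        (Finset.mem_singleton_self a)
  | inv_of v h =>
    simp only [map_inv, Aff.inv_a, DU_u]
    exact neg_mem (Lat.mul0 (lat_chT T z _) h)
  | mul v w hv hw =>
    simp only [map_mul, Aff.mul_a, DU_u]
    exact add_mem hv (Lat.mul0 (lat_chT T z _) hw)

/-- The free homomorphism to the group of the grid. -/
def omg {J : Type} (ha : a ∈ T) (z : S → J → F[X]) : Wd Z →* Og J T a :=
  MonoidHom.mk' (fun w => ⟨⟨fun x => (DU R T a (fun s => z s (x s)) w).a,
    fun x => (DU R T a (fun s => z s (x s)) w).u, funext fun x => Aff.uu _⟩,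
    lat_DU R T a ha z w, by simp only [DU_u]; exact lat_chT T z _⟩)
    fun v w => Subtype.ext (Aff.ext (funext fun x => by simp) (funext fun x => by simp))

theorem omg_a {J : Type} (ha : a ∈ T) (z : S → J → F[X]) (w : Wd Z) (x : S → J) :
    (omg R T a ha z w).1.a x = (DU R T a (fun s => z s (x s)) w).a := rfl

theorem omg_u {J : Type} (ha : a ∈ T) (z : S → J → F[X]) (w : Wd Z) (x : S → J) :
    (omg R T a ha z w).1.u x = chT T (fun s => z s (x s)) (evw Z R.σ w) := DU_u _ _ _ _ _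

end

end Pool.Agent.Lib.MP_16ef92_ag.GF
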