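import Mathlib
import Pool.Agent.Lib.MP_16ef92_ag.GF.FXd

set_option autoImplicit false
set_option linter.unusedSectionVars false
set_option linter.unusedVariables false

namespace Pool.Agent.Lib.MP_16ef92_ag.GF

open scoped Classical

noncomputable section

variable {Λ I : Type} [Fintype Λ] [Fintype I] {Cg : Prs Λ I → Prop} {w : I → V} {θ : ℤ_[2]}
  {i j : ℕ} {a a' : Dat Λ I}

/-- Change of parameters. -/
def Dat.cmp (a : Dat Λ I) (κ : Prs Λ I →ₗ[ℤ_[2]] Prs Λ I) : Dat Λ I :=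
  (a.1 ∘ₗ κ, a.2.compl₁₂ κ κ)

theorem ev_cmp {κ : Prs Λ I →ₗ[ℤ_[2]] Prs Λ I} (h : ∀ μ, Cg μ → ∃ ν, κ ν = μ) :
    Ev Cg w θ i a ↔ Ev (fun ν => Cg (κ ν)) w θ i (a.cmp κ) := by
  constructor
  · rintro ⟨⟨μ, hμ⟩, h2⟩
    obtain ⟨ν, rfl⟩ := h μ hμ.1
    exact ⟨⟨ν, hμ⟩, fun ν hν => h2 (κ ν) hν⟩
  · rintro ⟨⟨ν, hν⟩, h2⟩
    refine ⟨⟨κ ν, hν⟩, fun μ hμ => ?_⟩
    obtain ⟨ν, rfl⟩ := h μ hμ.1
    exact h2 ν hμ

/-- Data that agree to the precision needed at level `i`. -/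
structure Cl (w : I → V) (i : ℕ) (a a' : Dat Λ I) : Prop where
  p1 : ∀ ν p, a.1 ν (some (.inr p)) - a'.1 ν (some (.inr p)) ∈ Dv (i + 1)
  p2 : ∀ ν p, w p ≠ 0 → a.1 ν (some (.inr p)) - a'.1 ν (some (.inr p)) ∈ Dv (i + 2)
  l : ∀ ν l, a.1 ν (some (.inl l)) - a'.1 ν (some (.inl l)) ∈ Dv (i + 2)
  o : ∀ ν, a.1 ν none - a'.1 ν none ∈ Dv (i + 2)
  q : ∀ ν, 2 ^ (i + 2) ∣ a.2 ν ν - a'.2 ν ν

theorem Cl.mono (h : Cl w j a a') (hij : i ≤ j) : Cl w i a a' :=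
  ⟨fun ν p => Dv_mono (by omega) (h.p1 ν p), fun ν p hp => Dv_mono (by omega) (h.p2 ν p hp),
    fun ν l => Dv_mono (by omega) (h.l ν l), fun ν => Dv_mono (by omega) (h.o ν),
    fun ν => (pow_dvd_pow 2 (by omega)).trans (h.q ν)⟩

theorem Cl.trans {a'' : Dat Λ I} (h : Cl w i a a') (h' : Cl w i a' a'') : Cl w i a a'' :=
  ⟨fun ν p => by simpa using add_mem (h.p1 ν p) (h'.p1 ν p),
    fun ν p hp => by simpa using add_mem (h.p2 ν p hp) (h'.p2 ν p hp),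
    fun ν l => by simpa using add_mem (h.l ν l) (h'.l ν l),
    fun ν => by simpa using add_mem (h.o ν) (h'.o ν),
    fun ν => by simpa using dvd_add (h.q ν) (h'.q ν)⟩

theorem fxev_mem {n : ℕ} {x y : V} (h : x - y ∈ Dv n) : x ∈ Dv n ↔ y ∈ Dv n :=
  ⟨fun hx => by simpa using sub_mem hx h, fun hy => by simpa using add_mem h hy⟩

theorem Cl.ok (h : Cl w i a a') (ν : Prs Λ I) : Ok Cg i a ν ↔ Ok Cg i a' ν := by
  simp only [Ok, fxev_mem (h.p1 ν _), fxev_mem (h.l ν _), fxev_mem (h.o ν)]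

theorem Cl.tst (h : Cl w i a a') (ν : Prs Λ I) : Tst w θ i a ν ↔ Tst w θ i a' ν := by
  have h1 : 2 ^ (i + 2) ∣ (θ * a.2 ν ν - ∑ p, om (w p) (a.1 ν (some (.inr p)))) -
      (θ * a'.2 ν ν - ∑ p, om (w p) (a'.1 ν (some (.inr p)))) := by
    have : (θ * a.2 ν ν - ∑ p, om (w p) (a.1 ν (some (.inr p)))) -
      (θ * a'.2 ν ν - ∑ p, om (w p) (a'.1 ν (some (.inr p)))) = θ * (a.2 ν ν - a'.2 ν ν) -
        ∑ p, om (w p) (a.1 ν (some (.inr p)) - a'.1 ν (some (.inr p))) := by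
      simp only [om_sub_right, Finset.sum_sub_distrib]
      ring
    rw [this]
    refine dvd_sub ((h.q ν).mul_left _) (Finset.dvd_sum fun p _ => ?_)
    by_cases hp : w p = 0
    · rw [hp, om_zero_left]; exact dvd_zero _
    · exact om_dvd_right _ (h.p2 ν p hp)
  unfold Tst
  exact ⟨fun e => by simpa using dvd_sub e h1, fun e => by simpa using dvd_add h1 e⟩

theorem Cl.ev (h : Cl w i a a') : Ev Cg w θ i a ↔ Ev Cg w θ i a' := by
  simp only [Ev, h.ok, h.tst]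

theorem cl_smul (a c : Dat Λ I) : Cl w i (a + (2 : ℤ_[2]) ^ (i + 2) • c) a :=
  ⟨fun ν p => Dv_mono (n := i + 2) (by omega) (by simpa using smul_mem_Dv (i + 2) (c.1 ν _)),
    fun ν p _ => by simpa using smul_mem_Dv (i + 2) (c.1 ν _),
    fun ν l => by simpa using smul_mem_Dv (i + 2) (c.1 ν _),
    fun ν => by simpa using smul_mem_Dv (i + 2) (c.1 ν _), fun ν => by simp⟩

/-- The elementary matrix at the entry `(b, c)`. -/
def Eb (b c : I) : Dat Λ I :=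
  (LinearMap.single ℤ_[2] (fun _ => V) (some (.inr b)) ∘ₗ pj (some (.inr c)), 0)

theorem Eb_apply (b c : I) (ν : Prs Λ I) (k : Option (Λ ⊕ I)) :
    (Eb (Λ := Λ) b c).1 ν k = if k = some (.inr b) then ν (some (.inr c)) else 0 := by
  simp [Eb, Pi.single_apply]

theorem ev_top {b c : I} {t : ℤ_[2]} (h : Cl w j a (a' + ((2 : ℤ_[2]) ^ (j + 1) * t) • Eb b c))
    (hC : ∀ ν, Cg ν → ¬ 2 ∣ om (w b) (ν (some (.inr c)))) :
    (∀ i < j, Ev Cg w θ i a ↔ Ev Cg w θ i a') ∧ (Ev Cg w θ j a → (∃ ν, Ok Cg j a' ν) ∧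
      ((∀ ν, Ok Cg j a' ν → Tst w θ j a' ν) ↔ 2 ∣ t)) := by
  refine ⟨fun i hi => ?_, fun hev => ?_⟩
  · obtain ⟨k, rfl⟩ : ∃ k, j = i + 1 + k := ⟨j - (i + 1), by omega⟩
    refine ((h.mono hi.le).trans ?_).ev
    have := cl_smul (w := w) (i := i) a' (((2 : ℤ_[2]) ^ k * t) • Eb b c)
    rwa [← mul_smul, ← mul_assoc, ← pow_add, show i + 2 + k = i + 1 + k + 1 by omega] at this
  rw [h.ev] at hev
  have hok : ∀ ν, Ok Cg j (a' + ((2 : ℤ_[2]) ^ (j + 1) * t) • Eb b c) ν ↔ Ok Cg j a' ν := by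
    intro ν
    have : ∀ p, (a' + ((2 : ℤ_[2]) ^ (j + 1) * t) • Eb b c).1 ν (some (.inr p)) -
        a'.1 ν (some (.inr p)) ∈ Dv (j + 1) := fun p => by
      simpa [mul_smul] using smul_mem_Dv (j + 1) (t • (Eb b c).1 ν (some (.inr p)))
    simp only [Ok, fxev_mem (this _)]
    simp [Eb_apply]
  have hts : ∀ ν, Cg ν → Tst w θ j (a' + ((2 : ℤ_[2]) ^ (j + 1) * t) • Eb b c) ν →
      (Tst w θ j a' ν ↔ 2 ∣ t) := by
    intro ν hν h1
    have e : θ * (a' + ((2 : ℤ_[2]) ^ (j + 1) * t) • Eb b c).2 ν ν - ∑ p, om (w p)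
        ((a' + ((2 : ℤ_[2]) ^ (j + 1) * t) • Eb b c).1 ν (some (.inr p))) =
        (θ * a'.2 ν ν - ∑ p, om (w p) (a'.1 ν (some (.inr p)))) -
          2 ^ (j + 1) * (t * om (w b) (ν (some (.inr c)))) := by
      have : ∀ p, om (w p) (if p = b then ν (some (.inr c)) else 0) =
          if p = b then om (w b) (ν (some (.inr c))) else 0 := fun p => by
        split_ifs with hp
        · rw [hp]
        · exact om_zero_right _
      simp only [Prod.snd_add, Prod.fst_add, Prod.smul_snd, Prod.smul_fst, LinearMap.add_apply,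
        LinearMap.smul_apply, Pi.add_apply, Pi.smul_apply, om_add_right, om_smul_right, Eb_apply,
        Option.some.injEq, Sum.inr.injEq, this, Finset.sum_add_distrib, ← Finset.mul_sum,
        Finset.sum_ite_eq', Finset.mem_univ, if_true]
      simp only [Eb, LinearMap.zero_apply, smul_zero]
      ring
    unfold Tst at h1 ⊢
    rw [e] at h1
    have h2 : (2 : ℤ_[2]) ^ (j + 2) ∣ 2 ^ (j + 1) * (t * om (w b) (ν (some (.inr c)))) ↔ 2 ∣ t := by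
      rw [pow_succ _ (j + 1), mul_dvd_mul_iff_left (by simp),
        (unit_of_odd (hC ν hν)).dvd_mul_right]
    rw [← h2]
    exact ⟨fun e => by simpa using dvd_sub e h1, fun e => by simpa using dvd_add h1 e⟩
  obtain ⟨⟨ν, hν⟩, h2⟩ := hev
  refine ⟨⟨ν, (hok ν).1 hν⟩, fun h3 => (hts ν hν.1 (h2 ν hν)).1 (h3 ν ((hok ν).1 hν)),
    fun h3 μ hμ => (hts μ hμ.1 (h2 μ ((hok μ).2 hμ))).2 h3⟩

end

end Pool.Agent.Lib.MP_16ef92_ag.GF
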