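import Mathlib
import Pool.Agent.Lib.MP_16ef92_ag.GF.FXaff
import Pool.Agent.Lib.MP_16ef92_ag.GF.FXev

set_option autoImplicit false
set_option linter.unusedSectionVars false
set_option linter.unusedVariables false

namespace Pool.Agent.Lib.MP_16ef92_ag.GF

open Polynomial Finset
open scoped Classical

noncomputable section

theorem exists_half {f : EV} (hf : ∀ x, f x - x ∈ Dv 1) {c : ℤ_[2]} (hc : c * c = 1) :
    ∃ H : EV, c • f - 1 = (2 : ℤ_[2]) • H := by
  have h1 : ∀ x, ∃ y, c • f x - x = (2 : ℤ_[2]) • y := fun x => by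
    obtain ⟨y, hy⟩ := mem_Dv_iff.1 (hf x)
    rw [pow_one, sub_eq_iff_eq_add] at hy
    rcases mul_self_eq_one_iff.1 hc with rfl | rfl
    · exact ⟨y, by rw [hy]; module⟩
    · exact ⟨-y - x, by rw [hy]; module⟩
  obtain ⟨y₁, e₁⟩ := h1 (1, 0)
  obtain ⟨y₂, e₂⟩ := h1 (0, 1)
  refine ⟨(LinearMap.fst _ _ _).smulRight y₁ + (LinearMap.snd _ _ _).smulRight y₂,
    LinearMap.ext fun x => ?_⟩
  rw [end_apply (c • f - 1) x]
  simp only [LinearMap.sub_apply, LinearMap.smul_apply, Module.End.one_apply, e₁, e₂,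
    LinearMap.add_apply, LinearMap.smulRight_apply, LinearMap.fst_apply, LinearMap.snd_apply]
  module

theorem dt_smul (c : ℤ_[2]) (f : EV) : dt (c • f) = c * c * dt f := by
  simp only [dt, LinearMap.smul_apply, om_smul_left, om_smul_right, mul_assoc]

/-- The pairing of two families of vectors. -/
def cb (M : Type) [AddCommGroup M] [Module ℤ_[2] M] :
    (M →ₗ[ℤ_[2]] V) →ₗ[ℤ_[2]] (M →ₗ[ℤ_[2]] V) →ₗ[ℤ_[2]] M →ₗ[ℤ_[2]] M →ₗ[ℤ_[2]] ℤ_[2] :=
  LinearMap.mk₂ _ (fun n n' => omL.compl₁₂ n n') (fun _ _ _ => by ext; simp)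
    (fun _ _ _ => by ext; simp) (fun _ _ _ => by ext; simp [om_add_right])
    (fun _ _ _ => by ext; simp)

section
variable {S J A : Type} [Fintype S] [AddCommGroup A] [Module ℤ_[2] A] {T U : Finset S}
  {f g : (S → J) → A}

theorem Lat.add (hf : f ∈ Lat A T U) (hg : g ∈ Lat A T U) : (fun x => f x + g x) ∈ Lat A T U :=
  add_mem hf hg

theorem Lat.sub (hf : f ∈ Lat A T U) (hg : g ∈ Lat A T U) : (fun x => f x - g x) ∈ Lat A T U :=
  sub_mem hf hg

theorem Lat.neg (hf : f ∈ Lat A T U) : (fun x => -f x) ∈ Lat A T U := neg_mem hf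

theorem Lat.smc (c : ℤ_[2]) (hf : f ∈ Lat A T U) : (fun x => c • f x) ∈ Lat A T U :=
  Submodule.smul_mem _ c hf

theorem Lat.dbl {a : S} (hf : f ∈ Lat A T {a}) : (fun x => (2 : ℤ_[2]) • f x) ∈ Lat A T ∅ :=
  Lat.two' hf

theorem Lat.congr (hf : f ∈ Lat A T U) (h : ∀ x, g x = f x) : g ∈ Lat A T U := by
  rwa [funext h]

theorem Lat.emp (hf : f ∈ Lat A T ∅) : f ∈ Lat A T U := Lat.mono subset_rfl (empty_subset _) hf

end

/-- Families of vectors. -/
abbrev LV (Λ I : Type) : Type := Prs Λ I →ₗ[ℤ_[2]] V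

/-- Bilinear forms in the parameters. -/
abbrev BL (Λ I : Type) : Type := Prs Λ I →ₗ[ℤ_[2]] Prs Λ I →ₗ[ℤ_[2]] ℤ_[2]

theorem split_poly {S J A : Type} [Fintype S] [AddCommGroup A] [Module ℤ_[2] A] {U : Finset S}
    {f : (S → J) → A} (hf : f ∈ Lat A univ U) :
    ∃ l ∈ Poly A, ∀ x, ∃ t, f x = l x + (2 : ℤ_[2]) ^ (Fintype.card S - U.card) • t := by
  obtain ⟨l, hl, t, _, rfl⟩ := Lat.split hf
  exact ⟨l, PolyT.le_poly hl, fun x => ⟨t x, by rw [card_univ_sdiff]; rfl⟩⟩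

variable {F : Type} [Field F] [Clos F] [Fintype F] [hq : Fact (Odd (Fintype.card F))]
  {Λ I S J : Type} [Fintype Λ] [Fintype I] [Fintype S]

/-- The family of primes at a point of the grid. -/
def gp (e : S → I) (z : S → J → F[X]) (x₀ : I → F[X]) (x : S → J) : I → F[X] :=
  Function.extend e (fun s => z s (x s)) x₀

/-- The parameters that are even at the positions `e s`, `s ≠ a`. -/
def kp (e : S → I) (a : S) : Prs Λ I →ₗ[ℤ_[2]] Prs Λ I :=
  LinearMap.pi fun k => (if ∃ s, s ≠ a ∧ k = some (.inr (e s)) then (2 : ℤ_[2]) else 1) • pj k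

variable {e : S → I} {a b : S} (z : S → J → F[X]) (x₀ : I → F[X])

theorem pj_kp (k : Option (Λ ⊕ I)) : pj k ∘ₗ kp (Λ := Λ) e a =
    (if ∃ s, s ≠ a ∧ k = some (.inr (e s)) then (2 : ℤ_[2]) else 1) • pj k := rfl

theorem pj_kp_a (he : Function.Injective e) :
    pj (some (.inr (e a))) ∘ₗ kp (Λ := Λ) e a = pj (some (.inr (e a))) := by
  rw [pj_kp, if_neg, one_smul]
  rintro ⟨s, h1, h2⟩
  exact h1 (he (by simpa using h2)).symm

theorem pj_kp_ne {s : S} (h : s ≠ a) :
    pj (some (.inr (e s))) ∘ₗ kp (Λ := Λ) e a = (2 : ℤ_[2]) • pj (some (.inr (e s))) := by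
  rw [pj_kp, if_pos ⟨s, h, rfl⟩]

theorem kp_surj {μ : Prs Λ I} (h : ∀ s, s ≠ a → μ (some (.inr (e s))) ∈ Dv 1) :
    ∃ ν, kp e a ν = μ := by
  have : ∀ k, ∃ y, (if ∃ s, s ≠ a ∧ k = some (.inr (e s)) then (2 : ℤ_[2]) else 1) • y = μ k := by
    intro k
    split_ifs with hk
    · obtain ⟨s, h1, rfl⟩ := hk
      obtain ⟨y, hy⟩ := mem_Dv_iff.1 (h s h1)
      exact ⟨y, by rw [hy, pow_one]⟩
    · exact ⟨_, one_smul _ _⟩
  choose ν hν using this
  exact ⟨ν, funext hν⟩

theorem gp_e (he : Function.Injective e) (x : S → J) (s : S) : gp e z x₀ x (e s) = z s (x s) :=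
  he.extend_apply _ _ _

theorem gp_off (x : S → J) {i : I} (h : ¬ ∃ s, e s = i) : gp e z x₀ x i = x₀ i :=
  Function.extend_apply' _ _ _ h

theorem chs_sq (pr : I → F[X]) (g : Gam F) : chs pr g * chs pr g = 1 := chT_sq univ pr g

theorem chs_gp (he : Function.Injective e) (b : S) (g : Gam F) : ∃ c : J → ℤ_[2],
    (∀ k, c k * c k = 1) ∧ ∀ x, chs (gp e z x₀ x) g =
      chT (univ.erase b) (fun s => z s (x s)) g * c (x b) := by
  refine ⟨fun k => chi (z b k) g * chT (univ.image e)ᶜ x₀ g, fun k => ?_, fun x => ?_⟩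
  · linear_combination (chT (univ.image e)ᶜ x₀ g * chT (univ.image e)ᶜ x₀ g) * chi_sq (z b k) g +
      chT_sq (univ.image e)ᶜ x₀ g
  · rw [chs_apply, ← prod_mul_prod_compl (univ.image e), prod_image he.injOn,
      ← prod_erase_mul _ _ (mem_univ b), chT_apply, chT_apply, mul_assoc]
    simp only [gp_e z x₀ he]
    congr 2
    exact prod_congr rfl fun i hi => by rw [gp_off z x₀ x (by simpa using hi)]

theorem lat_PP (he : Function.Injective e) (b : S) (ρ : Gam F →* EV) (g : Gam F) :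
    (fun x => PP ρ (gp e z x₀ x) g) ∈ Lat EV univ ∅ := by
  obtain ⟨c, h1, h2⟩ := chs_gp z x₀ he b g
  simp only [PP_apply, h2]
  have := Lat.smul (Lat.mul0 (Lat.mono (subset_univ _) subset_rfl (lat_chT (univ.erase b) z g))
    (Lat.sign (mem_univ b) fun k => mul_self_eq_one_iff.1 (h1 k))) (Lat.const (J := ∅) (ρ g))
  rwa [empty_union] at this

theorem lat_PP_sub (he : Function.Injective e) (b : S) (A : Par F Λ) (g : Gam F) :
    ∃ G ∈ Lat EV univ {b}, ∀ x, PP A.ρ (gp e z x₀ x) g =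
      chT (univ.erase b) (fun s => z s (x s)) g • 1 + (2 : ℤ_[2]) • G x := by
  obtain ⟨c, h1, h2⟩ := chs_gp z x₀ he b g
  choose H hH using fun k => exists_half (A.triv g) (h1 k)
  refine ⟨fun x => chT (univ.erase b) (fun s => z s (x s)) g • H (x b), ?_, fun x => ?_⟩
  · have := Lat.smul (Lat.mono (subset_univ _) subset_rfl (lat_chT (univ.erase b) z g))
      (Lat.one (mem_univ b) (mem_singleton_self b) H)
    rwa [empty_union] at this
  · rw [PP_apply, h2, mul_smul, sub_eq_iff_eq_add.1 (hH (x b))]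
    module

theorem Lat.cmp {M : Type} [AddCommGroup M] [Module ℤ_[2] M] {U : Finset S} {f : (S → J) → EV}
    {n : (S → J) → M →ₗ[ℤ_[2]] V} (hf : f ∈ Lat EV univ ∅) (hn : n ∈ Lat _ univ U) :
    (fun x => f x ∘ₗ n x) ∈ Lat (M →ₗ[ℤ_[2]] V) univ U := by
  have := Lat.bil (LinearMap.llcomp ℤ_[2] M V V) hf hn
  rwa [empty_union] at this

variable [Fro F] {Z : Finset F[X]} {bd : ℕ} (R : Pres Z bd) (A : Par F Λ)

theorem EU_val (pr : I → F[X]) (w : Wd Z) : (EU R A pr w).g.1 = PP A.ρ pr (evw Z R.σ w) := by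
  rw [EU_g, MonoidHom.coe_toHomUnits]

theorem EU_inv (pr : I → F[X]) (w : Wd Z) : (EU R A pr w).g⁻¹.1 = PP A.ρ pr (evw Z R.σ w⁻¹) := by
  rw [← HsU.inv_g, ← map_inv, EU_val]

theorem dt_PP (pr : I → F[X]) (g : Gam F) : dt (PP A.ρ pr g) = dt (A.ρ g) := by
  rw [PP_apply, dt_smul, chs_sq, one_mul]

/-- The cocycle on the even parameters. -/
def NN (e : S → I) (a : S) (pr : I → F[X]) (w : Wd Z) : Prs Λ I →ₗ[ℤ_[2]] V :=
  (EU R A pr w).n ∘ₗ kp e a

theorem NN_mul (pr : I → F[X]) (v w : Wd Z) : NN R A e a pr (v * w) =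
    NN R A e a pr v + PP A.ρ pr (evw Z R.σ v) ∘ₗ NN R A e a pr w := by
  rw [NN, map_mul, HsU.mul_n, EU_val]; rfl

theorem NN_inv (pr : I → F[X]) (v : Wd Z) : NN R A e a pr v⁻¹ =
    -(PP A.ρ pr (evw Z R.σ v⁻¹) ∘ₗ NN R A e a pr v) := by
  rw [NN, map_inv (EU R A pr), HsU.inv_n, EU_inv]; rfl

theorem NN_gen (he : Function.Injective e) (v : Option Z) (T : Finset S) :
    (fun x => NN R A e a (gp e z x₀ x) (.of v) - (DU R T a (fun s => z s (x s)) (.of v)).a •
      pj (some (.inr (e a)))) ∈ Lat (LV Λ I) univ ∅ := by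
  rcases v with _ | p
  · simp only [NN, EU, FreeGroup.lift_apply_of, Option.elim, DU_none]
    exact Lat.const _
  have : ∀ x, NN R A e a (gp e z x₀ x) (.of (some p)) -
      (DU R T a (fun s => z s (x s)) (.of (some p))).a • pj (some (.inr (e a))) =
      (∑ l, if A.lp l = p then A.Hl l ∘ₗ pj (some (.inl l)) else 0) ∘ₗ kp e a +
      ∑ i ∈ univ.erase (e a), (if gp e z x₀ x i = p then pj (some (.inr i)) else 0) ∘ₗ kp e a := by
    intro x
    simp only [NN, EU, FreeGroup.lift_apply_of, Option.elim, DU_some]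
    rw [LinearMap.add_comp, ← sum_erase_add _ _ (mem_univ (e a)), LinearMap.add_comp,
      gp_e z x₀ he, add_sub_assoc, add_sub_assoc]
    have h0 : (if z a (x a) = p then pj (Λ := Λ) (some (.inr (e a))) else 0) ∘ₗ kp e a -
        (if z a (x a) = p then (1 : ℤ_[2]) else 0) • pj (some (.inr (e a))) = 0 := by
      split_ifs
      · rw [pj_kp_a he, one_smul, sub_self]
      · simp
    rw [h0, add_zero]
    congr 1
    exact LinearMap.ext fun ν => by simp only [LinearMap.comp_apply, LinearMap.sum_apply]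
  refine Lat.congr (Lat.add (Lat.const _) (Lat.sum _ fun i hi => ?_)) this
  by_cases h : ∃ s, e s = i
  · obtain ⟨s, rfl⟩ := h
    have hs : s ≠ a := fun h => (mem_erase.1 hi).1 (by rw [h])
    refine Lat.congr (Lat.two_one (U := ∅) (mem_univ s)
      fun k => if z s k = p then pj (Λ := Λ) (some (.inr (e s))) else 0) fun x => ?_
    rw [gp_e z x₀ he]
    split_ifs
    · exact pj_kp_ne hs
    · simp
  · simp only [gp_off z x₀ _ h]
    exact Lat.const _

theorem lat_NN (he : Function.Injective e) (w : Wd Z) :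
    (fun x => NN R A e a (gp e z x₀ x) w) ∈ Lat (LV Λ I) univ {a} := by
  induction w using FreeGroup.induction_on with
  | C1 => simp only [NN, map_one]; exact Lat.const _
  | of v =>
    have h1 := Lat.smul (lat_DU R univ a (mem_univ a) z (.of v))
      (Lat.const (J := ∅) (pj (Λ := Λ) (some (.inr (e a)))))
    rw [union_empty] at h1
    exact Lat.congr (Lat.add (Lat.emp (NN_gen (a := a) z x₀ R A he v univ)) h1)
      fun x => (sub_add_cancel _ _).symm
  | inv_of v h => exact Lat.congr (Lat.neg (Lat.cmp (lat_PP z x₀ he a _ _) h)) fun x => NN_inv ..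
  | mul v w hv hw =>
    exact Lat.congr (Lat.add hv (Lat.cmp (lat_PP z x₀ he a _ _) hw)) fun x => NN_mul ..

theorem lat_UU (he : Function.Injective e) (hab : a ≠ b) (w : Wd Z) :
    (fun x => NN R A e a (gp e z x₀ x) w - (DU R (univ.erase b) a (fun s => z s (x s)) w).a •
      pj (some (.inr (e a)))) ∈ Lat (LV Λ I) univ {b} := by
  have key : ∀ (G : (S → J) → EV) (w : Wd Z), G ∈ Lat EV univ {b} →
      (fun x => (2 : ℤ_[2]) • (DU R (univ.erase b) a (fun s => z s (x s)) w).a •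
        (G x ∘ₗ pj (Λ := Λ) (some (.inr (e a))))) ∈ Lat (LV Λ I) univ {b} := fun G w hG => by
    have h1 : (fun x => G x ∘ₗ pj (Λ := Λ) (some (.inr (e a)))) ∈ Lat (LV Λ I) univ {b} :=
      Lat.map (A := EV) (B := LV Λ I) ((LinearMap.llcomp ℤ_[2] _ V V).flip (pj _)) hG
    have h2 := Lat.smul (Lat.mono (subset_univ _) subset_rfl
      (lat_DU R _ a (mem_erase.2 ⟨hab, mem_univ a⟩) z w)) h1
    rw [← insert_eq] at h2
    exact Lat.two h2
  induction w using FreeGroup.induction_on with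
  | C1 => simp only [NN, map_one]; exact Lat.const _
  | of v => exact Lat.emp (NN_gen z x₀ R A he v _)
  | inv_of v h =>
    obtain ⟨G, hG, h2⟩ := lat_PP_sub z x₀ he b A (evw Z R.σ (FreeGroup.of v)⁻¹)
    refine Lat.congr (Lat.sub (Lat.neg (Lat.cmp
      (lat_PP z x₀ he a A.ρ (evw Z R.σ (FreeGroup.of v)⁻¹)) h)) (key G (.of v) hG)) fun x => ?_
    have h3 : (DU R (univ.erase b) a (fun s => z s (x s)) (.of v)).u =
      chT (univ.erase b) (fun s => z s (x s)) (evw Z R.σ (FreeGroup.of v)⁻¹) := by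
      rw [← DU_u, map_inv, Aff.inv_u]
    simp only [NN_inv, map_inv (DU R _ a _), Aff.inv_a, h3, h2,
      LinearMap.comp_sub, LinearMap.add_comp, LinearMap.smul_comp, LinearMap.comp_smul,
      Module.End.one_eq_id, LinearMap.id_comp]
    module
  | mul v w hv hw =>
    obtain ⟨G, hG, h2⟩ := lat_PP_sub z x₀ he b A (evw Z R.σ v)
    refine Lat.congr (Lat.add (Lat.add hv (Lat.cmp (lat_PP z x₀ he a A.ρ (evw Z R.σ v)) hw))
      (key G w hG)) fun x => ?_
    simp only [NN_mul, map_mul (DU R _ a _), Aff.mul_a, DU_u, h2,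
      LinearMap.comp_sub, LinearMap.add_comp, LinearMap.smul_comp, LinearMap.comp_smul,
      Module.End.one_eq_id, LinearMap.id_comp]
    module

theorem lat_QQ (he : Function.Injective e) (w : Wd Z) :
    (fun x => (EU R A (gp e z x₀ x) w).z.compl₁₂ (kp e a) (kp e a)) ∈ Lat (BL Λ I) univ ∅ := by
  have key : ∀ {n n' : (S → J) → LV Λ I}, n ∈ Lat _ univ {a} → n' ∈ Lat _ univ {a} →
      (fun x => (2 : ℤ_[2]) • cb _ (n x) (n' x)) ∈ Lat (BL Λ I) univ ∅ := fun h h' => by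
    have := Lat.bil (C := BL Λ I) (cb (Prs Λ I)) h h'
    rw [union_self] at this
    exact Lat.dbl this
  induction w using FreeGroup.induction_on with
  | C1 => simp only [map_one]; exact Lat.const _
  | of v =>
    rcases v with _ | p <;> simp only [EU, FreeGroup.lift_apply_of, Option.elim] <;>
      exact Lat.const _
  | inv_of v h =>
    refine Lat.congr (Lat.smc (dt (A.ρ (evw Z R.σ (FreeGroup.of v)⁻¹)))
      (Lat.sub (key (lat_NN z x₀ R A he (.of v)) (lat_NN z x₀ R A he (.of v))) h)) fun x => ?_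
    rw [map_inv (EU R A _), HsU.inv_z, EU_inv, dt_PP]
    rfl
  | mul v w hv hw =>
    refine Lat.congr (Lat.add (Lat.add hv (Lat.smc (dt (A.ρ (evw Z R.σ v))) hw))
      (key (lat_NN z x₀ R A he v) (Lat.cmp (lat_PP z x₀ he a A.ρ (evw Z R.σ v))
        (lat_NN z x₀ R A he w)))) fun x => ?_
    rw [map_mul, HsU.mul_z, EU_val, dt_PP]
    rfl

theorem lat_rw0 (he : Function.Injective e) (p : F[X]) (k : Option (Λ ⊕ I)) :
    (fun x => rw0 R A (gp e z x₀ x) p k ∘ₗ kp e a) ∈ Lat (LV Λ I) univ ∅ := by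
  refine Lat.congr (Lat.add (Lat.dbl (lat_NN (a := a) z x₀ R A he (R.wd (R.f p))))
    (Lat.cmp (Lat.sub (lat_PP z x₀ he a A.ρ (R.f p)) (Lat.const 1))
      (Lat.const (pj k ∘ₗ kp e a)))) fun x => ?_
  rw [rw0, LinearMap.add_comp, LinearMap.smul_comp, LinearMap.comp_assoc, NN]

theorem lat_row [Fintype J] (he : Function.Injective e) (hab : a ≠ b) (k : Option (Λ ⊕ I)) :
    ∃ U : Finset S, (U = ∅ ∨ ∃ s, s ≠ b ∧ k = some (.inr (e s)) ∧ U = {s}) ∧
    (fun x => rws R A (gp e z x₀ x) k ∘ₗ kp e a - if k = some (.inr (e b)) then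
      (2 * (DU R (univ.erase b) a (fun s => z s (x s)) (R.wd (R.f (z b (x b))))).a) •
        pj (some (.inr (e a))) else 0) ∈ Lat (LV Λ I) univ U := by
  rcases k with _ | l | i
  · refine ⟨∅, Or.inl rfl, Lat.congr (Lat.add (Lat.const ((A.E1 ∘ₗ pj none) ∘ₗ kp e a))
      (Lat.dbl (Lat.cmp (Lat.const A.E2) (lat_NN (a := a) z x₀ R A he (R.wd (sI F)))))) fun x => ?_⟩
    rw [if_neg (by simp), sub_zero, rws, LinearMap.add_comp, LinearMap.smul_comp,
      LinearMap.comp_assoc _ _ A.E2, NN]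
  · refine ⟨∅, Or.inl rfl, Lat.congr (Lat.cmp (Lat.const (A.Hl' l))
      (lat_rw0 (a := a) z x₀ R A he (A.lp l) (some (.inl l)))) fun x => ?_⟩
    rw [if_neg (by simp), sub_zero, rws, LinearMap.comp_assoc]
  by_cases h : ∃ s, e s = i
  · obtain ⟨s, rfl⟩ := h
    by_cases hs : s = b
    · subst hs
      refine ⟨∅, Or.inl rfl, Lat.congr (Lat.dbl (Lat.glue (mem_univ s) (mem_singleton_self s)
        fun k => Lat.add (lat_UU z x₀ R A he hab (R.wd (R.f (z s k))))
        (Lat.cmp (Lat.sub (lat_PP z x₀ he a A.ρ (R.f (z s k))) (Lat.const 1))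
          (Lat.const (pj (Λ := Λ) (some (.inr (e s)))))))) fun x => ?_⟩
      simp only [rws, rw0, gp_e z x₀ he, if_true, LinearMap.add_comp, LinearMap.comp_assoc,
        pj_kp_ne hab.symm, LinearMap.comp_smul, LinearMap.smul_comp, NN]
      module
    · refine ⟨{s}, Or.inr ⟨s, hs, rfl, rfl⟩, Lat.congr (Lat.glue (mem_univ s) (mem_singleton_self s)
        fun k => Lat.emp (lat_rw0 (a := a) z x₀ R A he (z s k) (some (.inr (e s))))) fun x => ?_⟩
      rw [if_neg (by simp [he.eq_iff, hs]), sub_zero, rws, gp_e z x₀ he]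
  · refine ⟨∅, Or.inl rfl, Lat.congr (lat_rw0 (a := a) z x₀ R A he (x₀ i) (some (.inr i)))
      fun x => ?_⟩
    have : i ≠ e b := fun h' => h ⟨b, h'.symm⟩
    rw [if_neg (by simp [this]), sub_zero, rws, gp_off z x₀ _ h]

/-- On a grid the data are low up to one scalar entry. -/
theorem low_dat [Fintype J] (he : Function.Injective e) (hab : a ≠ b) {j : ℕ}
    (hS : Fintype.card S = j + 2) {w : I → V} (hw : ∀ s, s ≠ b → w (e s) = 0) :
    ∃ l ∈ Poly (Dat Λ I), ∀ x : S → J, Cl w j ((dat R A (gp e z x₀ x)).cmp (kp e a))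
      (l x + (2 * (DU R (univ.erase b) a (fun s => z s (x s)) (R.wd (R.f (z b (x b))))).a) •
        Eb (e b) (e a)) := by
  choose U hU hL using lat_row z x₀ R A he hab
  choose l hl ht using fun k => split_poly (hL k)
  obtain ⟨lq, hq1, hq2⟩ := split_poly (lat_QQ (a := a) z x₀ R A he (R.wd (sI F)))
  refine ⟨fun x => (LinearMap.pi fun k => l k x, lq x), ?_, fun x => ?_⟩
  · have := add_mem (Submodule.sum_mem _ fun k (_ : k ∈ univ) => Poly.map
      (A := LV Λ I) (B := Dat Λ I) ((LinearMap.inl ℤ_[2] _ (BL Λ I)) ∘ₗ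
        LinearMap.llcomp ℤ_[2] _ _ _ (LinearMap.single ℤ_[2] (fun _ => V) k)) (hl k))
      (Poly.map (A := BL Λ I) (B := Dat Λ I) (LinearMap.inr ℤ_[2] _ (BL Λ I)) hq1)
    convert this using 1
    ext1 x
    refine Prod.ext (LinearMap.ext fun ν => funext fun k => ?_) ?_
    · simp [Prod.fst_sum, Pi.single_apply, -Fintype.sum_option]
    · simp [Prod.snd_sum]
  have key : ∀ ν k, ((dat R A (gp e z x₀ x)).cmp (kp e a)).1 ν k - ((LinearMap.pi fun k => l k x,
      lq x) + (2 * (DU R (univ.erase b) a (fun s => z s (x s)) (R.wd (R.f (z b (x b))))).a) •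
        Eb (e b) (e a)).1 ν k ∈ Dv (j + 2 - (U k).card) := fun ν k => by
    obtain ⟨t, ht⟩ := ht k x
    have h1 := LinearMap.congr_fun ht ν
    rw [hS] at h1
    refine mem_Dv_iff.2 ⟨t ν, ?_⟩
    simp only [Prod.fst_add, Prod.smul_fst, LinearMap.add_apply, LinearMap.smul_apply,
      Pi.add_apply, Pi.smul_apply, Eb_apply, LinearMap.pi_apply, LinearMap.sub_apply] at h1 ⊢
    rw [← sub_eq_iff_eq_add'] at h1
    rw [← h1, sub_add_eq_sub_sub_swap]
    congr 2
    split_ifs <;> simp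
  refine ⟨fun ν p => Dv_mono ?_ (key ν _), fun ν p hp => Dv_mono ?_ (key ν _),
    fun ν l => Dv_mono ?_ (key ν _), fun ν => Dv_mono ?_ (key ν _), fun ν => ?_⟩
  · rcases hU (some (.inr p)) with h | ⟨s, _, _, h⟩ <;> simp [h]
  · rcases hU (some (.inr p)) with h | ⟨s, h1, h2, h⟩
    · simp [h]
    · exact (hp (by rw [show p = e s by simpa using h2, hw s h1])).elim
  · rcases hU (some (.inl l)) with h | ⟨s, _, h, _⟩ <;> simp_all
  · rcases hU none with h | ⟨s, _, h, _⟩ <;> simp_all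
  · obtain ⟨t, ht⟩ := hq2 x
    refine ⟨t ν ν, ?_⟩
    simp only [Dat.cmp, dat, ht, hS]
    simp [Eb]

end

end Pool.Agent.Lib.MP_16ef92_ag.GF
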