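import Mathlib
import Pool.Agent.Lib.MP_16ef92_ag.GF.FXlat

set_option autoImplicit false
set_option linter.unusedSectionVars false
set_option linter.unusedVariables false

namespace Pool.Agent.Lib.MP_16ef92_ag.GF

open Polynomial Finset
open scoped Classical

noncomputable section

section
variable {S J : Type} [Fintype S] {T U : Finset S} {a : S}

theorem lat_of_dvd {f : (S → J) → ℤ_[2]} (hf : f ∈ Dep ℤ_[2] T) (h : ∀ x, 2 ^ T.card ∣ f x) :
    f ∈ Lat ℤ_[2] T U := by
  choose c hc using h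
  rw [show f = (2 : ℤ_[2]) ^ T.card • c from funext hc]
  refine Lat.gen subset_rfl (fun x y exy => ?_) (card_le_card sdiff_subset)
  have h3 := hf x y exy
  rw [hc, hc] at h3
  exact mul_left_cancel₀ (pow_ne_zero T.card two_ne_zero) h3

/-- The translation by a top term. -/
def trn (ha : a ∈ T) (h : Dep (I := J) ℤ_[2] T) : Og J T a :=
  ⟨⟨(2 : ℤ_[2]) ^ (T.card - 1) • h.1, 1, mul_one _⟩,
    Lat.gen subset_rfl h.2 (by rw [sdiff_singleton_eq_erase, card_erase_of_mem ha]), Lat.const 1⟩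

theorem trn_add (ha : a ∈ T) (h h' : Dep (I := J) ℤ_[2] T) :
    trn ha (h + h') = trn ha h * trn ha h' :=
  Subtype.ext (Aff.ext (by simp [trn]) (by simp [trn]))

theorem trn_zero (ha : a ∈ T) : trn (J := J) ha 0 = 1 :=
  Subtype.ext (Aff.ext (by simp [trn]) (by simp [trn]))

theorem trn_two (ha : a ∈ T) (h : Dep (I := J) ℤ_[2] T) :
    (trn ha ((2 : ℤ_[2]) • h) : Bg J T a) = 1 := by
  refine (QuotientGroup.eq_one_iff _).2 ⟨?_, rfl⟩
  change (2 : ℤ_[2]) ^ (T.card - 1) • (2 : ℤ_[2]) • h.1 ∈ _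
  rw [smul_comm]
  exact Lat.two' (trn ha h).2.1

/-- The indicator function of a point of the grid. -/
def dlt (T : Finset S) (i : S → J) : Dep (I := J) ℤ_[2] T :=
  ⟨fun x => if ∀ s ∈ T, x s = i s then 1 else 0, fun x y e =>
    if_congr (forall₂_congr fun s hs => by rw [e s hs]) rfl rfl⟩

theorem trn_mem [Fintype J] (ha : a ∈ T) (H : Subgroup (Bg J T a))
    (hH : ∀ i : S → J, (trn ha (dlt T i) : Bg J T a) ∈ H) (h : Dep (I := J) ℤ_[2] T) :
    (trn ha h : Bg J T a) ∈ H := by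
  rcases isEmpty_or_nonempty (S → J) with h0 | ⟨⟨x₀⟩⟩
  · rw [show h = 0 from Subtype.ext (Subsingleton.elim _ _), trn_zero]
    exact one_mem _
  have e : h = ∑ c ∈ univ.filter fun c : S → J => ∀ s, s ∉ T → c s = x₀ s, h.1 c • dlt T c := by
    refine Subtype.ext (funext fun x => ?_)
    rw [Submodule.coe_sum, Finset.sum_apply,
      sum_eq_single_of_mem fun s => if s ∈ T then x s else x₀ s]
    · simp only [dlt, SetLike.val_smul, Pi.smul_apply, smul_eq_mul]
      rw [if_pos fun s hs => by rw [if_pos hs], mul_one]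
      exact h.2 _ _ fun s hs => by rw [if_pos hs]
    · exact mem_filter.2 ⟨mem_univ _, fun s hs => if_neg hs⟩
    · intro c hc hne
      simp only [dlt, SetLike.val_smul, Pi.smul_apply, smul_eq_mul]
      rw [if_neg, mul_zero]
      refine fun e => hne (funext fun s => ?_)
      split_ifs with hs
      · exact (e s hs).symm
      · exact (mem_filter.1 hc).2 s hs
  rw [e]
  refine sum_induction _ (fun h : Dep (I := J) ℤ_[2] T => (trn ha h : Bg J T a) ∈ H)
    (fun h h' h1 h2 => ?_) ?_ fun c _ => ?_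
  · simp only [trn_add, QuotientGroup.mk_mul]
    exact mul_mem h1 h2
  · simp only [trn_zero]
    exact one_mem _
  · obtain ⟨m, hm | hm⟩ := parity (h.1 c)
    · simp only [hm, mul_smul, trn_two]
      exact one_mem _
    · simp only [hm, add_smul, mul_smul, one_smul, trn_add, QuotientGroup.mk_mul, trn_two, one_mul]
      exact hH c

end

variable {F : Type} [Field F] [Clos F] [Fintype F] [hq : Fact (Odd (Fintype.card F))] [Fro F]
  {Z : Finset F[X]} {bd : ℕ} (R : Pres Z bd) {S J : Type} [Fintype S] {T : Finset S} {a : S}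
  {z : S → J → F[X]}

theorem chi_dec {r p : F[X]} (hr : r ∈ Z) (hp : p ∈ Z) :
    chi r (R.σ p) = if r = p then -1 else 1 := by
  rw [chi_eq (R.prm r hr).ne, sg_dec (R.prm r hr) (R.prm p hp) (R.dec p hp)]
  split_ifs
  exacts [sgz_one, sgz_zero]

variable (T z) in
/-- A grid of distinct primes. -/
structure Grd (Z : Finset F[X]) : Prop where
  mem : ∀ s ∈ T, ∀ k, z s k ∈ Z
  inj : ∀ s ∈ T, ∀ s' ∈ T, ∀ k k', z s k = z s' k' → s = s' ∧ k = k'

theorem eta_on (hz : Grd T z Z) {s : S} (hs : s ∈ T) (k : J) (x : S → J) :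
    chT T (fun s => z s (x s)) (R.σ (z s k)) = if x s = k then -1 else 1 := by
  rw [chT_apply, prod_eq_single_of_mem s hs, chi_dec R (hz.mem s hs _) (hz.mem s hs _)]
  · exact if_congr ⟨fun e => (hz.inj s hs s hs _ _ e).2, fun e => by rw [e]⟩ rfl rfl
  · intro s' hs' hne
    rw [chi_dec R (hz.mem s' hs' _) (hz.mem s hs _), if_neg fun e => hne (hz.inj _ hs' _ hs _ _ e).1]

theorem eta_off (hz : Grd T z Z) {p : F[X]} (hp : p ∈ Z) (h : ¬ ∃ s ∈ T, ∃ k, z s k = p)
    (x : S → J) : chT T (fun s => z s (x s)) (R.σ p) = 1 := by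
  rw [chT_apply]
  exact prod_eq_one fun s hs => by
    rw [chi_dec R (hz.mem s hs _) hp, if_neg fun e => h ⟨s, hs, _, e⟩]

theorem omg_off (ha : a ∈ T) (hz : Grd T z Z) (p : Z) (h : ¬ ∃ s ∈ T, ∃ k, z s k = p) :
    omg R T a ha z (.of (some p)) = 1 := by
  refine Subtype.ext (Aff.ext (funext fun x => ?_) (funext fun x => ?_))
  · rw [omg_a, DU_some, if_neg fun e => h ⟨a, ha, _, e⟩]; rfl
  · rw [omg_u, evw_some, eta_off R hz p.2 h]; rfl

theorem omg_rel (ha : a ∈ T) (hz : Grd T z Z)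
    (hc : ∀ s ∈ T, ∃ c, ∀ x : S → J,
      2 ^ T.card ∣ (DU R T a (fun s => z s (x s)) (R.wd (R.f (z s (x s))))).a - c)
    (hχ : ∃ c, ∀ x : S → J,
      1 - chT T (fun s => z s (x s)) (evw Z R.σ (R.wd (R.f (z a (x a))))) = 2 * c) (p : Z) :
    ((omg R T a ha z (R.wd (R.f p)) * omg R T a ha z (.of (some p)) *
      (omg R T a ha z (R.wd (R.f p)))⁻¹ : Og J T a) : Bg J T a) =
      (omg R T a ha z (.of (some p)) ^ Fintype.card F ^ p.1.natDegree : Og J T a) := by
  by_cases h : ∃ s ∈ T, ∃ k, z s k = p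
  swap
  · rw [omg_off R ha hz p h]; simp
  obtain ⟨s, hs, k, hk⟩ := h
  set W := omg R T a ha z (R.wd (R.f p)) with hW
  set σ := omg R T a ha z (.of (some p)) with hσ
  have hβ : ∀ x, σ.1.a x = if z a (x a) = p then 1 else 0 := fun x => by rw [hσ, omg_a, DU_some]
  have hη : ∀ x, σ.1.u x = if x s = k then -1 else 1 := fun x => by
    rw [hσ, omg_u, evw_some, ← hk, eta_on R hz hs]
  have h1 : σ ^ Fintype.card F ^ p.1.natDegree = σ := Subtype.ext (by
    rw [Subgroup.coe_pow]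
    refine Aff.pow_odd _ (_root_.funext fun x => ?_) hq.out.pow
    simp only [Pi.mul_apply, Pi.add_apply, Pi.one_apply, Pi.zero_apply, hβ, hη]
    by_cases e : z a (x a) = p
    · obtain ⟨rfl, e'⟩ := hz.inj a ha s hs _ _ (e.trans hk.symm)
      simp [e']
    · simp [e])
  rw [h1]
  refine bg_eq.2 ⟨?_, ?_⟩
  swap
  · simp only [Subgroup.coe_mul, Subgroup.coe_inv, Aff.mul_u, Aff.inv_u]
    linear_combination σ.1.u * W.1.uu
  obtain ⟨c, hc⟩ := hc s hs
  obtain ⟨c', hc'⟩ := hχ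
  have h2 : σ.1.a - (W * σ * W⁻¹).1.a = (1 - W.1.u) * σ.1.a - (1 - σ.1.u) * W.1.a := by
    simp only [Subgroup.coe_mul, Subgroup.coe_inv, Aff.mul_u, Aff.mul_a, Aff.inv_a]
    linear_combination (σ.1.u * W.1.a) * W.1.uu
  rw [h2]
  refine sub_mem (Lat.congr (Lat.two_one ha fun k => if z a k = p then c' else 0) fun x => ?_) ?_
  · simp only [Pi.mul_apply, Pi.sub_apply, Pi.one_apply, hβ, smul_eq_mul]
    split_ifs with e
    · rw [mul_one, ← hc' x, e, hW, omg_u]
    · simp
  · have h3 := Lat.two_one (U := ∅) hs fun k' => if k' = k then c else 0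
    rw [← sub_add_cancel ((1 - σ.1.u) * W.1.a) fun x => (2 : ℤ_[2]) • if x s = k then c else 0]
    refine add_mem (lat_of_dvd (sub_mem (Lat.le_dep (Lat.mul0 (sub_mem (Lat.const 1) σ.2.2) W.2.1))
      (Lat.le_dep h3)) fun x => ?_) h3
    simp only [Pi.mul_apply, Pi.sub_apply, Pi.one_apply, hη, smul_eq_mul]
    split_ifs with e
    · have := hc x
      rw [e, hk] at this
      convert this.mul_left 2 using 1
      rw [hW, omg_a]; ring
    · simp

theorem omg_comm (ha : a ∈ T) (hz : Grd T z Z) (i : S → J) (U : Finset S) (hU : U ⊆ T.erase a) :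
    ∃ w : Wd Z, evw Z R.σ w ∈ Geo F ∧ (∀ x, (omg R T a ha z w).1.a x =
      2 ^ U.card * if ∀ s ∈ insert a U, x s = i s then 1 else 0) ∧
      (U ≠ ∅ → (omg R T a ha z w).1.u = 1) := by
  induction U using Finset.induction_on with
  | empty =>
    refine ⟨.of (some ⟨_, hz.mem a ha (i a)⟩), ?_, fun x => ?_, fun h => (h rfl).elim⟩
    · rw [evw_some]; exact (R.dec _ (hz.mem a ha _)).geo
    · rw [omg_a, DU_some, card_empty, pow_zero, one_mul]
      refine if_congr ?_ rfl rfl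
      simp only [insert_empty_eq, mem_singleton, forall_eq]
      exact ⟨fun e => (hz.inj a ha a ha _ _ e).2, fun e => by rw [e]⟩
  | insert s U hsU ih =>
    obtain ⟨w, h1, h2, _⟩ := ih ((subset_insert _ _).trans hU)
    obtain ⟨hsa, hs⟩ := mem_erase.1 (hU (mem_insert_self _ _))
    let v : Wd Z := .of (some ⟨_, hz.mem s hs (i s)⟩)
    have hv : evw Z R.σ v ∈ Geo F := by rw [evw_some]; exact (R.dec _ (hz.mem s hs _)).geo
    have ha0 : (omg R T a ha z v).1.a = 0 := funext fun x => by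
      rw [omg_a, DU_some, if_neg fun e => hsa (hz.inj a ha s hs _ _ e).1.symm]; rfl
    have hu : ∀ x, (omg R T a ha z v).1.u x = if x s = i s then -1 else 1 := fun x => by
      rw [omg_u, evw_some, eta_on R hz hs]
    refine ⟨w * v * w⁻¹ * v⁻¹, ?_, fun x => ?_, fun _ => ?_⟩
    · simp only [map_mul, map_inv]
      exact mul_mem (mul_mem (mul_mem h1 hv) (inv_mem h1)) (inv_mem hv)
    · have h3 : (omg R T a ha z (w * v * w⁻¹ * v⁻¹)).1.a =
          (1 - (omg R T a ha z v).1.u) * (omg R T a ha z w).1.a := by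
        simp only [map_mul, map_inv, Subgroup.coe_mul, Subgroup.coe_inv, Aff.mul_u, Aff.mul_a,
          Aff.inv_a, Aff.inv_u, ha0]
        linear_combination (-(omg R T a ha z v).1.u * (omg R T a ha z w).1.a) *
          (omg R T a ha z w).1.uu
      rw [h3, Pi.mul_apply, Pi.sub_apply, hu, h2, card_insert_of_notMem hsU, insert_comm,
        Pi.one_apply]
      simp only [forall_mem_insert s]
      by_cases e : x s = i s
      · simp only [e, if_true, true_and]; ring
      · simp [e]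
    · simp only [map_mul, map_inv, Subgroup.coe_mul, Subgroup.coe_inv, Aff.mul_u, Aff.inv_u]
      linear_combination ((omg R T a ha z v).1.u * (omg R T a ha z v).1.u) *
        (omg R T a ha z w).1.uu + (omg R T a ha z v).1.uu

/-- The governing extension of a monochromatic grid. -/
theorem exists_omega [Fintype J] (ha : a ∈ T) (hT : 2 ≤ T.card) (hz : Grd T z Z)
    (hc : ∀ s ∈ T, ∃ c, ∀ x : S → J,
      2 ^ T.card ∣ (DU R T a (fun s => z s (x s)) (R.wd (R.f (z s (x s))))).a - c)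
    (hχ : ∃ c, ∀ x : S → J,
      1 - chT T (fun s => z s (x s)) (evw Z R.σ (R.wd (R.f (z a (x a))))) = 2 * c)
    (hbd : 2 ^ ((T.card + 1) * Fintype.card (S → J)) ≤ bd) :
    ∃ φ : Gam F → Bg J T a, Hm (WW F) φ ∧ Unr φ {p | ∃ s ∈ T, ∃ k, z s k = p} ∧
      (∀ g ∈ WW F, φ g = omg R T a ha z (R.wd g)) ∧
      ∀ h : Dep (I := J) ℤ_[2] T, ∃ g ∈ Geo F, φ g = trn ha h := by
  obtain ⟨hfin, hcard⟩ := bg_card (J := J) (T := T) (a := a)
  obtain ⟨φ, h1, h2, h3⟩ := R.descend bg_two (hcard.trans hbd)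
    ((QuotientGroup.mk' _).comp (omg R T a ha z)) fun p => omg_rel R ha hz hc hχ p
  refine ⟨φ, h1, R.shrink bg_two h1 h2 fun p hp h => ?_, fun g hg => ?_, fun h => ?_⟩
  · have := h3 (.of (some ⟨p, hp⟩))
    rwa [evw_some, MonoidHom.comp_apply, omg_off R ha hz ⟨p, hp⟩ h, map_one] at this
  · rw [← R.good _ bg_two (hcard.trans hbd) φ h1 h2 g hg, h3]; rfl
  · suffices h4 : ∀ i : S → J, (trn ha (dlt T i) : Bg J T a) ∈ (h1.mono geo_le).hom.range by
      obtain ⟨g, hg⟩ := trn_mem ha _ h4 h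
      exact ⟨g, g.2, hg⟩
    intro i
    obtain ⟨w, e1, e2, e3⟩ := omg_comm R ha hz i (T.erase a) subset_rfl
    refine ⟨⟨_, e1⟩, (h3 w).trans (congrArg (QuotientGroup.mk' _)
      (Subtype.ext (Aff.ext (_root_.funext fun x => ?_) (e3 ?_))))⟩
    · rw [e2, insert_erase ha, card_erase_of_mem ha]; rfl
    · rw [Ne, ← card_eq_zero, card_erase_of_mem ha]; omega

end

end Pool.Agent.Lib.MP_16ef92_ag.GF
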