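import Mathlib
import Pool.Agent.Lib.MP_16ef92_ag.GF.Lat

set_option autoImplicit false
set_option linter.unusedSectionVars false
set_option linter.unusedVariables false

namespace Pool.Agent.Lib.MP_16ef92_ag.GF

open Finset
open scoped Classical

noncomputable section

variable {S Idx : Type} [Fintype S] [Fintype Idx] {E : ℕ}

/-- `h` is uncorrelated with every test that is computed from low data. -/
def Generic (Pr : (Idx → ℤ_[2]) → Prop) (τ : (Idx → ℤ_[2]) → ZMod (2 ^ 1)) (ε : ℝ)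
    (h : (S → Fin E) → ZMod (2 ^ 1)) : Prop :=
  ∀ l : (S → Fin E) → Idx → ℤ_[2], (∀ c, (fun x => l x c) ∈ Poly ℤ_[2]) →
    ((univ.filter fun x => Pr (l x) ∧ τ (l x) = h x).card : ℝ) ≤
      (univ.filter fun x => Pr (l x)).card / 2 + ε * (E : ℝ) ^ Fintype.card S

/-- Hoeffding's inequality on the cube (exponential moment with parameter `4 ε`,
`Real.cosh_le_exp_half_sq`). -/
theorem hoeffding {X : Type} [Fintype X] (A : Finset X) (τ : X → ZMod (2 ^ 1)) {ε : ℝ} (hε : 0 < ε) :
    ((univ.filter fun h : X → ZMod (2 ^ 1) => (A.card : ℝ) / 2 + ε * Fintype.card X <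
      (A.filter fun x => τ x = h x).card).card : ℝ) ≤
      2 ^ Fintype.card X * Real.exp (-(2 * ε ^ 2 * Fintype.card X)) := by
  let g : X → ZMod (2 ^ 1) → ℝ := fun x y => if x ∈ A then if τ x = y then 2 * ε else -(2 * ε) else 0
  have h1 : ∀ x, ∑ y, Real.exp (g x y) ≤ 2 * Real.exp (2 * ε ^ 2) := fun x => by
    by_cases hx : x ∈ A
    · have e := Real.cosh_le_exp_half_sq (2 * ε)
      rw [Real.cosh_eq, show (2 * ε) ^ 2 / 2 = 2 * ε ^ 2 by ring] at e
      simp only [g, if_pos hx, apply_ite Real.exp, sum_ite, filter_eq, filter_ne, mem_univ, if_true,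
        sum_const, card_singleton, card_erase_of_mem, card_univ, ZMod.card]
      norm_num
      linarith
    · simpa [g, hx] using sq_nonneg ε
  have h2 : ∀ h : X → ZMod (2 ^ 1),
      ∑ x, g x (h x) = 4 * ε * ((A.filter fun x => τ x = h x).card - A.card / 2) := fun h => by
    rw [sum_ite_mem, univ_inter, sum_ite, sum_const, sum_const, ← card_filter_add_card_filter_not
      (s := A) fun x => τ x = h x]
    simp only [nsmul_eq_mul, Nat.cast_add]
    ring
  have h3 : ∑ h : X → ZMod (2 ^ 1), Real.exp (∑ x, g x (h x)) ≤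
      (2 * Real.exp (2 * ε ^ 2)) ^ Fintype.card X := by
    simp only [Real.exp_sum]
    rw [← Fintype.piFinset_univ, ← prod_univ_sum (f := fun x y => Real.exp (g x y)), ← card_univ,
      ← prod_const]
    exact prod_le_prod (fun x _ => by positivity) fun x _ => h1 x
  refine le_of_mul_le_mul_right ?_ (Real.exp_pos (4 * ε ^ 2 * Fintype.card X))
  rw [mul_assoc (2 ^ _), ← Real.exp_add, ← nsmul_eq_mul, ← sum_const]
  refine (sum_le_sum fun h hh => Real.exp_le_exp.2 ?_).trans ((sum_le_sum_of_subset_of_nonneg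
    (subset_univ _) fun _ _ _ => (Real.exp_pos _).le).trans (h3.trans_eq ?_))
  · rw [h2]
    nlinarith [(mem_filter.1 hh).2]
  · rw [mul_pow, ← Real.exp_nat_mul]
    congr 2
    ring

theorem hoef_set {X : Type} [Fintype X] (A : Finset X) (τ : X → ZMod (2 ^ 1)) {ε : ℝ} (hε : 0 < ε)
    {B : Finset (X → ZMod (2 ^ 1))} (hB : ∀ h ∈ B, (A.card : ℝ) / 2 + ε * Fintype.card X <
      (A.filter fun x => τ x = h x).card) :
    (B.card : ℝ) ≤ 2 ^ Fintype.card X * Real.exp (-(2 * ε ^ 2 * Fintype.card X)) :=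
  (Nat.cast_le.2 (card_le_card fun h hh => mem_filter.2 ⟨mem_univ _, hB h hh⟩)).trans
    (hoeffding A τ hε)

theorem hoef_poly (M : ℕ) {f : (S → Fin E) → ℤ_[2]} (hf : f ∈ Poly ℤ_[2]) :
    ∃ d : (s : S) → ({t // t ≠ s} → Fin E) → ZMod (2 ^ M),
      ∀ x, 2 ^ M ∣ f x - ∑ s, ((d s fun t => x t).val : ℤ_[2]) := by
  suffices h : ∃ d : (s : S) → ({t // t ≠ s} → Fin E) → ZMod (2 ^ M),
      ∀ x, PadicInt.toZModPow M (f x) = ∑ s, d s fun t => x t by
    refine h.imp fun d hd x => Ideal.mem_span_singleton.1 ?_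
    have := PadicInt.ker_toZModPow (p := 2) M
    rw [Nat.cast_ofNat] at this
    rw [← this, RingHom.mem_ker]
    simp only [map_sub, map_sum, map_natCast, ZMod.natCast_zmod_val, hd, sub_self]
  induction hf using Submodule.iSup_induction' with
  | mem s₀ f hf =>
    refine ⟨fun s => Function.extend (fun (x : S → Fin E) (t : {t // t ≠ s}) => x t)
      (fun x => if s = s₀ then PadicInt.toZModPow M (f x) else 0) 0, fun x => ?_⟩
    rw [sum_congr rfl fun s _ => Function.FactorsThrough.extend_apply (fun x y e => ?_) _ x]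
    · simp
    · split_ifs with h
      · rw [hf x y fun t ht => congrFun e ⟨t, h ▸ ne_of_mem_erase ht⟩]
      · rfl
  | zero => exact ⟨0, by simp⟩
  | add f g _ _ h h' =>
    obtain ⟨d, hd⟩ := h
    obtain ⟨d', hd'⟩ := h'
    exact ⟨d + d', fun x => by simp [hd, hd', sum_add_distrib]⟩

/-- Union bound: modulo `2 ^ M` a member of `Poly` is a sum over `s` of functions that factor
through `{t // t ≠ s} → Fin E`, with values in `ZMod (2 ^ M)` (`PadicInt.toZModPow`). -/
theorem count_nongeneric (M : ℕ) (Pr : (Idx → ℤ_[2]) → Prop) (τ : (Idx → ℤ_[2]) → ZMod (2 ^ 1))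
    (hinv : ∀ l l' : Idx → ℤ_[2], (∀ c, 2 ^ M ∣ l c - l' c) → (Pr l ↔ Pr l') ∧ τ l = τ l')
    {ε : ℝ} (hε : 0 < ε) :
    ((univ.filter fun h : (S → Fin E) → ZMod (2 ^ 1) => ¬ Generic Pr τ ε h).card : ℝ) ≤
      2 ^ (E ^ Fintype.card S) *
        (2 ^ (M * Fintype.card Idx * Fintype.card S * E ^ (Fintype.card S - 1)) *
          Real.exp (-(2 * ε ^ 2 * (E : ℝ) ^ Fintype.card S))) := by
  obtain ⟨T, hT, hL⟩ : ∃ T : Finset ((S → Fin E) → Idx → ℤ_[2]),
      T.card ≤ 2 ^ (M * Fintype.card Idx * Fintype.card S * E ^ (Fintype.card S - 1)) ∧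
      ∀ l : (S → Fin E) → Idx → ℤ_[2], (∀ c, (fun x => l x c) ∈ Poly ℤ_[2]) →
        ∃ L ∈ T, ∀ x c, 2 ^ M ∣ l x c - L x c := by
    refine ⟨univ.image fun (d : Idx → (s : S) → ({t // t ≠ s} → Fin E) → ZMod (2 ^ M)) x c =>
      ∑ s, ((d c s fun t => x t).val : ℤ_[2]), card_image_le.trans_eq ?_, fun l hl => ?_⟩
    · simp only [Fintype.card_pi, prod_const, card_univ, ZMod.card, Fintype.card_fin,
        Fintype.card_subtype_compl, Fintype.card_unique, ← pow_mul]
      congr 1
      ring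
    · choose d hd using fun c => hoef_poly M (hl c)
      exact ⟨_, mem_image_of_mem _ (mem_univ d), fun x c => hd c x⟩
  have hs : (univ.filter fun h : (S → Fin E) → ZMod (2 ^ 1) => ¬ Generic Pr τ ε h) ⊆
      T.biUnion fun L => univ.filter fun h : (S → Fin E) → ZMod (2 ^ 1) =>
        ((univ.filter fun x => Pr (L x)).card : ℝ) / 2 + ε * Fintype.card (S → Fin E) <
          ((univ.filter fun x => Pr (L x)).filter fun x => τ (L x) = h x).card := by
    intro h hh
    obtain ⟨l, hl⟩ := not_forall.1 (mem_filter.1 hh).2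
    obtain ⟨hl, hlt⟩ := Classical.not_imp.1 hl
    obtain ⟨L, hL, e⟩ := hL l hl
    refine mem_biUnion.2 ⟨L, hL, mem_filter.2 ⟨mem_univ _, ?_⟩⟩
    simpa only [filter_filter, fun x => (hinv _ _ (e x)).1, fun x => (hinv _ _ (e x)).2,
      Fintype.card_fun, Fintype.card_fin, Nat.cast_pow] using not_le.1 hlt
  refine (Nat.cast_le.2 ((card_le_card hs).trans card_biUnion_le)).trans ?_
  rw [Nat.cast_sum]
  refine (sum_le_sum fun L _ => hoef_set (univ.filter fun x => Pr (L x)) (fun x => τ (L x)) hε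
    fun h hh => (mem_filter.1 hh).2).trans ?_
  rw [sum_const, nsmul_eq_mul, Fintype.card_fun, Fintype.card_fin, Nat.cast_pow, mul_left_comm]
  gcongr
  exact_mod_cast hT

end

end Pool.Agent.Lib.MP_16ef92_ag.GF
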