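import Mathlib
import Pool.Agent.Lib.MP_16ef92_ag.GF.FXom
import Pool.Agent.Lib.MP_16ef92_ag.GF.Hoef

set_option autoImplicit false
set_option linter.unusedSectionVars false
set_option linter.unusedVariables false

namespace Pool.Agent.Lib.MP_16ef92_ag.GF

open Finset
open scoped Classical

noncomputable section

variable {S : Type} [Fintype S] {E : ℕ} {A B : Type} [AddCommGroup A] [Module ℤ_[2] A]
  [AddCommGroup B] [Module ℤ_[2] B]

theorem Poly.prod {J : Type} {f : (S → J) → A} {g : (S → J) → B} (hf : f ∈ Poly A)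
    (hg : g ∈ Poly B) : (fun x => (f x, g x)) ∈ Poly (A × B) := by
  have := add_mem (Poly.map (B := A × B) (LinearMap.inl ℤ_[2] A B) hf)
    (Poly.map (B := A × B) (LinearMap.inr ℤ_[2] A B) hg)
  convert this using 1
  ext1 x
  simp

theorem Poly.sum {J ι : Type} (t : Finset ι) {f : ι → (S → J) → A} (h : ∀ i ∈ t, f i ∈ Poly A) :
    (fun x => ∑ i ∈ t, f i x) ∈ Poly A := by
  have := Submodule.sum_mem _ h
  rwa [show ∑ i ∈ t, f i = fun x => ∑ i ∈ t, f i x from funext fun x => Finset.sum_apply _ _ _]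
    at this

theorem Poly.pi {J K : Type} [Fintype K] {f : K → (S → J) → A} (h : ∀ k, f k ∈ Poly A) :
    (fun x k => f k x) ∈ Poly (K → A) := by
  have := Poly.sum univ fun k _ => Poly.map (B := K → A) (LinearMap.single ℤ_[2] (fun _ => A) k) (h k)
  convert this using 1
  ext x k
  simp [Pi.single_apply]

/-- `h` is uncorrelated with the test `τ` on all low data with values in `A`. -/
def GenA (Pr : A → Prop) (τ : A → ZMod (2 ^ 1)) (ε : ℝ) (h : (S → Fin E) → ZMod (2 ^ 1)) : Prop :=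
  ∀ l ∈ Poly A, ((univ.filter fun x => Pr (l x) ∧ τ (l x) = h x).card : ℝ) ≤
    (univ.filter fun x => Pr (l x)).card / 2 + ε * (E : ℝ) ^ Fintype.card S

theorem count_genA [Module.Free ℤ_[2] A] [Module.Finite ℤ_[2] A] (M : ℕ) (Pr : A → Prop)
    (τ : A → ZMod (2 ^ 1)) (hinv : ∀ a c : A, (Pr (a + (2 : ℤ_[2]) ^ M • c) ↔ Pr a) ∧
      τ (a + (2 : ℤ_[2]) ^ M • c) = τ a) {ε : ℝ} (hε : 0 < ε) :
    ((univ.filter fun h : (S → Fin E) → ZMod (2 ^ 1) => ¬ GenA Pr τ ε h).card : ℝ) ≤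
      2 ^ (E ^ Fintype.card S) *
        (2 ^ (M * Module.finrank ℤ_[2] A * Fintype.card S * E ^ (Fintype.card S - 1)) *
          Real.exp (-(2 * ε ^ 2 * (E : ℝ) ^ Fintype.card S))) := by
  let bs := (Module.finBasis ℤ_[2] A).equivFun
  have := count_nongeneric (S := S) (E := E) M (fun c => Pr (bs.symm c)) (fun c => τ (bs.symm c))
    (fun l l' h => by
      choose c hc using h
      have : bs.symm l = bs.symm l' + (2 : ℤ_[2]) ^ M • bs.symm c := by
        rw [← map_smul, ← map_add]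
        exact congrArg _ (funext fun i => eq_add_of_sub_eq' (hc i))
      rw [this]
      exact hinv _ _) hε
  rw [Fintype.card_fin] at this
  refine le_trans (Nat.cast_le.2 (card_le_card fun h hh => ?_)) this
  rw [mem_filter] at hh ⊢
  refine ⟨hh.1, fun hg => hh.2 fun l hl => ?_⟩
  simpa using hg (fun x => bs (l x)) fun c => Poly.map (LinearMap.proj c ∘ₗ bs.toLinearMap) hl

/-- The formula that recovers a Fox derivative from its conjugate. -/
def FF (c : Fin 5 → ℤ_[2]) : ℤ_[2] := c 0 * (c 1 - c 4 - (1 - c 2) * c 3)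

theorem FF_add (M : ℕ) (c d : Fin 5 → ℤ_[2]) :
    ∃ t, FF (c + (2 : ℤ_[2]) ^ M • d) = FF c + 2 ^ M * t :=
  ⟨d 0 * ((c 1 + 2 ^ M * d 1) - (c 4 + 2 ^ M * d 4) - (1 - (c 2 + 2 ^ M * d 2)) *
    (c 3 + 2 ^ M * d 3)) + c 0 * (d 1 - d 4 - (1 - c 2) * d 3 + d 2 * (c 3 + 2 ^ M * d 3)), by
    simp only [FF, Pi.add_apply, Pi.smul_apply, smul_eq_mul]; ring⟩

theorem top_low {J : Type} {T : Finset S} {a : S} (ha : a ∈ T) {j : ℕ} (hT : T.card = j + 1)
    {W G L : Og J T a} (h : ((G * W * G⁻¹ : Og J T a) : Bg J T a) = L) {l t : (S → J) → ℤ_[2]}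
    (hl : l ∈ PolyT ℤ_[2] T) (hL : ∀ x, L.1.a x = l x + 2 ^ j * t x) :
    ∃ c : Fin 5 → (S → J) → ℤ_[2], (∀ i, c i ∈ PolyT ℤ_[2] T) ∧
      ∀ x, 2 ^ (j + 1) ∣ W.1.a x - (FF (fun i => c i x) + 2 ^ j * t x) := by
  obtain ⟨r₀, hr₀, r₁, -, hr⟩ := Lat.split (bg_eq.1 h).1
  obtain ⟨ψ₀, hψ₀, ψ₁, -, hψ⟩ := Lat.split G.2.2
  obtain ⟨υ₀, hυ₀, υ₁, -, hυ⟩ := Lat.split W.2.2
  obtain ⟨γ₀, hγ₀, γ₁, -, hγ⟩ := Lat.split G.2.1
  rw [sdiff_empty, hT] at hr hψ hυ
  rw [sdiff_singleton_eq_erase, card_erase_of_mem ha, hT, Nat.add_sub_cancel] at hγ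
  refine ⟨![ψ₀, l, υ₀, γ₀, r₀], fun i => by fin_cases i <;> assumption, fun x => ?_⟩
  have e1 := congrFun hr x
  have e2 := congrFun hψ x
  have e3 := congrFun hυ x
  have e4 := congrFun hγ x
  have e5 := congrFun G.1.uu x
  have e6 := congrFun W.1.uu x
  simp only [Subgroup.coe_mul, Subgroup.coe_inv, Aff.mul_a, Aff.mul_u, Aff.inv_a, Pi.add_apply,
    Pi.sub_apply, Pi.mul_apply, Pi.neg_apply, Pi.smul_apply, smul_eq_mul, Pi.one_apply, hL]
    at e1 e2 e3 e4 e5 e6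
  obtain ⟨u, hu⟩ : ∃ u, G.1.u x = 1 + 2 * u := by
    rcases mul_self_eq_one_iff.1 e5 with e | e
    exacts [⟨0, by simp [e]⟩, ⟨-1, by rw [e]; ring⟩]
  obtain ⟨v, hv⟩ : ∃ v, W.1.u x = 1 + 2 * v := by
    rcases mul_self_eq_one_iff.1 e6 with e | e
    exacts [⟨0, by simp [e]⟩, ⟨-1, by rw [e]; ring⟩]
  have e7 : W.1.a x = G.1.u x * (l x + 2 ^ j * t x - (r₀ x + 2 ^ (j + 1) * r₁ x) -
      (1 - W.1.u x) * G.1.a x) := by
    linear_combination (-G.1.u x) * e1 - (W.1.a x - G.1.u x * W.1.u x * G.1.a x) * e5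
  refine ⟨u * t x + ψ₁ x * (l x - r₀ x - (1 - υ₀ x) * γ₀ x) +
    G.1.u x * (v * γ₁ x + υ₁ x * γ₀ x - r₁ x), ?_⟩
  simp only [FF, Matrix.cons_val]
  rw [e7, e4, show ψ₀ x = G.1.u x - 2 ^ (j + 1) * ψ₁ x by rw [e2]; ring]
  linear_combination (2 ^ j * t x) * hu + (G.1.u x * 2 ^ j * γ₁ x) * hv + (G.1.u x * γ₀ x) * e3

/-- A tuple of elements of the grid group with a generic top part. -/
def GdT {a : S} (b : S) (j : ℕ) (Gn : ((S → Fin E) → ZMod (2 ^ 1)) → Prop)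
    (β : Fin E → Bg (Fin E) (univ.erase b) a) : Prop :=
  ∃ (L : Fin E → Og (Fin E) (univ.erase b) a) (l t : Fin E → (S → Fin E) → ℤ_[2]),
    (∀ k, β k = L k ∧ l k ∈ PolyT ℤ_[2] (univ.erase b) ∧ ∀ x, (L k).1.a x = l k x + 2 ^ j * t k x) ∧
    Gn fun x => red 1 (t (x b) x)

/-- A slice of a function on the grid. -/
def slc (b : S) (H : (S → Fin E) → ZMod (2 ^ 1)) (k : Fin E) :
    Dep (I := Fin E) ℤ_[2] (univ.erase b) :=
  ⟨fun x => ((H (Function.update x b k)).val : ℤ_[2]), fun x y e => by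
    have : Function.update x b k = Function.update y b k := funext fun s => by
      by_cases h : s = b
      · subst h; simp
      · simp [h, e s (mem_erase.2 ⟨h, mem_univ s⟩)]
    simp only [this]⟩

theorem gdT_count {a b : S} (ha : a ∈ univ.erase b) {j : ℕ} (hT : (univ.erase b).card = j + 1)
    (Gn : ((S → Fin E) → ZMod (2 ^ 1)) → Prop) (β : Fin E → Bg (Fin E) (univ.erase b) a) :
    (univ.filter fun H => ¬ GdT b j Gn fun k => (trn ha (slc b H k) : Bg _ _ a) * β k).card ≤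
      (univ.filter fun H => ¬ Gn H).card := by
  choose l hl t _ ht using fun k => Lat.split (β k).out.2.1
  simp only [sdiff_singleton_eq_erase, card_erase_of_mem ha, hT, Nat.add_sub_cancel] at ht
  refine card_le_card_of_injOn (fun H => H + fun x => red 1 (t (x b) x)) (fun H hH => ?_)
    (add_left_injective _).injOn
  rw [mem_coe, mem_filter] at hH ⊢
  refine ⟨mem_univ _, fun hG => hH.2 ⟨fun k => trn ha (slc b H k) * (β k).out, l,
    fun k => (slc b H k).1 + t k, fun k => ⟨?_, hl k, fun x => ?_⟩, ?_⟩⟩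
  · rw [QuotientGroup.mk_mul, QuotientGroup.out_eq']
  · simp only [Subgroup.coe_mul, Aff.mul_a, ht, trn, hT, Nat.add_sub_cancel, Pi.add_apply,
      Pi.mul_apply, Pi.smul_apply, smul_eq_mul, Pi.one_apply]
    ring
  · convert hG using 2 with x
    simp [slc]

end

end Pool.Agent.Lib.MP_16ef92_ag.GF
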