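import Mathlib
import Pool.Agent.Lib.MP_16ef92_ag.GF.FXgen
import Pool.Agent.Lib.MP_16ef92_ag.GF.FXcnt
import Pool.Agent.Lib.MP_16ef92_ag.GF.Box
import Pool.Agent.Lib.MP_16ef92_ag.GF.Cell
import Pool.Agent.Lib.MP_16ef92_ag.GF.Hoef

set_option autoImplicit false
set_option linter.unusedSectionVars false
set_option linter.unusedVariables false

namespace Pool.Agent.Lib.MP_16ef92_ag.GF

open Polynomial Finset
open scoped Classical

noncomputable section

variable {F : Type} [Field F] [Clos F] [Fintype F] [hq : Fact (Odd (Fintype.card F))] [Fro F]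
  {Z : Finset F[X]} {bd : ℕ} {Λ I S K : Type} [Fintype Λ] [Fintype I] [Fintype S] [Fintype K]

/-- A system of conditions, each a sum of functions of two primes. -/
def Bs (G : K → I → I → F[X] → F[X] → ZMod (2 ^ 1)) (tg : K → ZMod (2 ^ 1)) (x : I → F[X]) :
    Prop := ∀ k, ∑ i, ∑ i', G k i i' (x i) (x i') = tg k

/-- The base conditions together with the events of the levels in `Ls`. -/
def Evs (R : Pres Z bd) (A : Par F Λ) (Cg : Prs Λ I → Prop) (w : I → V) (θ : ℤ_[2])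
    (G : K → I → I → F[X] → F[X] → ZMod (2 ^ 1)) (tg : K → ZMod (2 ^ 1)) (Ls : Finset ℕ)
    (x : I → F[X]) : Prop := Bs G tg x ∧ ∀ i ∈ Ls, Ev Cg w θ i (dat R A x)

variable (Λ I K) in
/-- The low data. -/
abbrev Low : Type := Dat Λ I × (K → ℤ_[2]) × (Fin 5 → ℤ_[2])

theorem finrank_low : Module.finrank ℤ_[2] (Low Λ I K) =
    8 * (Fintype.card Λ + Fintype.card I + 1) ^ 2 + Fintype.card K + 5 := by
  have h : Module.finrank ℤ_[2] (Prs Λ I) = 2 * (Fintype.card Λ + Fintype.card I + 1) := by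
    simp [Module.finrank_pi_fintype, mul_comm]
  simp only [Module.finrank_prod, Module.finrank_linearMap, h, Module.finrank_self,
    Module.finrank_fintype_fun_eq_card, Fintype.card_fin]
  ring

/-- The data rebuilt from low data. -/
def rcd (b a : I) (c : Low Λ I K) : Dat Λ I := c.1 + (2 * FF c.2.2) • Eb b a

/-- The old events, read off the low data. -/
def PrL (Cg : Prs Λ I → Prop) (w : I → V) (θ : ℤ_[2]) (tg : K → ZMod (2 ^ 1)) (Ls : Finset ℕ)
    (j : ℕ) (b a : I) (c : Low Λ I K) : Prop :=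
  (∀ k, red 1 (c.2.1 k) = tg k) ∧ (∀ i ∈ Ls, Ev Cg w θ i (rcd b a c)) ∧ ∃ ν, Ok Cg j (rcd b a c) ν

/-- The new test, read off the low data. -/
def tauL (Cg : Prs Λ I → Prop) (w : I → V) (θ : ℤ_[2]) (j : ℕ) (b a : I) (c : Low Λ I K) :
    ZMod (2 ^ 1) := if ∀ ν, Ok Cg j (rcd b a c) ν → Tst w θ j (rcd b a c) ν then 0 else 1

theorem low_inv (Cg : Prs Λ I → Prop) (w : I → V) (θ : ℤ_[2]) (tg : K → ZMod (2 ^ 1))
    {Ls : Finset ℕ} {j : ℕ} (hLs : ∀ i ∈ Ls, i < j) (b a : I) (c d c' : Low Λ I K)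
    (h : c' = c + (2 : ℤ_[2]) ^ (j + 2) • d) :
    (PrL Cg w θ tg Ls j b a c' ↔ PrL Cg w θ tg Ls j b a c) ∧
      tauL Cg w θ j b a c' = tauL Cg w θ j b a c := by
  subst h
  obtain ⟨t, ht⟩ := FF_add (j + 2) c.2.2 d.2.2
  have h1 : Cl w j (rcd b a (c + (2 : ℤ_[2]) ^ (j + 2) • d)) (rcd b a c) := by
    have := cl_smul (w := w) (i := j) (rcd b a c) (d.1 + (2 * t) • Eb b a)
    convert this using 1
    simp only [rcd, Prod.fst_add, Prod.snd_add, Prod.smul_fst, Prod.smul_snd, ht]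
    module
  have h2 : ∀ k, red 1 ((c + (2 : ℤ_[2]) ^ (j + 2) • d).2.1 k) = red 1 (c.2.1 k) := fun k =>
    red_eq.2 (by simpa using (dvd_pow_self 2 (Nat.succ_ne_zero (j + 1))).mul_right _)
  refine ⟨and_congr (by simp only [h2]) (and_congr (forall₂_congr fun i hi =>
    (h1.mono (hLs i hi).le).ev) (by simp only [h1.ok])), ?_⟩
  simp only [tauL, h1.ok, h1.tst]

theorem poly_pair {J : Type} {e : S → I} (he : Function.Injective e) (hS : 2 < Fintype.card S)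
    (z : S → J → F[X]) (x₀ : I → F[X]) (i i' : I) (g : F[X] → F[X] → ℤ_[2]) :
    (fun x => g (gp e z x₀ x i) (gp e z x₀ x i')) ∈ Poly ℤ_[2] := by
  have h1 : (univ.filter fun s => e s ∈ ({i, i'} : Finset I)).card < Fintype.card S :=
    ((card_le_card_of_injOn e (fun s hs => (mem_filter.1 hs).2) he.injOn).trans
      card_le_two).trans_lt hS
  obtain ⟨s, -, hs⟩ := exists_mem_notMem_of_card_lt_card (t := univ) h1
  have h2 : ∀ (x y : S → J) (k : I), (∀ s, e s = k → x s = y s) → gp e z x₀ x k = gp e z x₀ y k := by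
    intro x y k h
    by_cases hk : ∃ s, e s = k
    · obtain ⟨s, rfl⟩ := hk
      rw [gp_e z x₀ he, gp_e z x₀ he, h s rfl]
    · rw [gp_off z x₀ _ hk, gp_off z x₀ _ hk]
  refine Dep.le_poly hs fun x y h => ?_
  simp only [h2 x y i fun s hs => h s (by simp [hs]), h2 x y i' fun s hs => h s (by simp [hs])]

theorem grid_bound (R : Pres Z bd) (A : Par F Λ) {e : S → I} (he : Function.Injective e)
    {a b : S} (hab : a ≠ b) {j : ℕ} (hj : 1 ≤ j) (hS : Fintype.card S = j + 2) (x₀ : I → F[X])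
    {Cg : Prs Λ I → Prop} {w : I → V} (θ : ℤ_[2])
    (G : K → I → I → F[X] → F[X] → ZMod (2 ^ 1)) (tg : K → ZMod (2 ^ 1))
    {Ls : Finset ℕ} (hLs : ∀ i ∈ Ls, i < j) (hw : ∀ s, s ≠ b → w (e s) = 0)
    (hC₁ : ∀ μ, Cg μ → ∀ s, s ≠ a → μ (some (.inr (e s))) ∈ Dv 1)
    (hC₂ : ∀ μ, Cg μ → ¬ 2 ∣ om (w (e b)) (μ (some (.inr (e a))))) {E : ℕ} {ε : ℝ}
    (z : S → Fin E → F[X]) {c : Fin 5 → (S → Fin E) → ℤ_[2]} (hc : ∀ i, c i ∈ Poly ℤ_[2])
    {t : (S → Fin E) → ℤ_[2]} (ht : ∀ x, 2 ^ (j + 1) ∣ (DU R (univ.erase b) a (fun s => z s (x s))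
      (R.wd (R.f (z b (x b))))).a - (FF (fun i => c i x) + 2 ^ j * t x))
    (hG : GenA (PrL (fun ν => Cg (kp e a ν)) w θ tg Ls j (e b) (e a))
      (tauL (fun ν => Cg (kp e a ν)) w θ j (e b) (e a)) ε fun x => red 1 (t x)) :
    ∑ x, ((if Evs R A Cg w θ G tg (insert j Ls) (gp e z x₀ x) then (1 : ℝ) else 0) -
      (if Evs R A Cg w θ G tg Ls (gp e z x₀ x) then (1 : ℝ) else 0) / 2) ≤ ε * E ^ (j + 2) := by
  obtain ⟨l, hl, hcl⟩ := low_dat z x₀ R A he hab hS hw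
  let L : (S → Fin E) → Low Λ I K := fun x => (l x, fun k => ∑ i, ∑ i',
    ((G k i i' (gp e z x₀ x i) (gp e z x₀ x i')).val : ℤ_[2]), fun i => c i x)
  have hL : L ∈ Poly (Low Λ I K) := Poly.prod hl (Poly.prod (Poly.pi fun k => Poly.sum _ fun i _ =>
    Poly.sum _ fun i' _ => poly_pair he (by omega) z x₀ i i' fun p r => (G k i i' p r).val)
    (Poly.pi hc))
  have h1 := hG L hL
  rw [hS, card_filter, card_filter, ← sub_le_iff_le_add'] at h1
  push_cast at h1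
  rw [sum_div, ← sum_sub_distrib] at h1
  refine le_trans (sum_le_sum fun x _ => ?_) h1
  obtain ⟨u, hu⟩ := ht x
  have h2 : Cl w j ((dat R A (gp e z x₀ x)).cmp (kp e a))
      (rcd (e b) (e a) (L x) + ((2 : ℤ_[2]) ^ (j + 1) * t x) • Eb (e b) (e a)) := by
    refine (hcl x).trans ?_
    have := cl_smul (w := w) (i := j) (rcd (e b) (e a) (L x) +
      ((2 : ℤ_[2]) ^ (j + 1) * t x) • Eb (e b) (e a)) (u • Eb (e b) (e a))
    convert this using 1
    rw [eq_add_of_sub_eq hu]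
    simp only [rcd, L]
    module
  obtain ⟨h3, h4⟩ := ev_top (Cg := fun ν => Cg (kp e a ν)) (θ := θ) h2 fun ν hν => by
    have := hC₂ _ hν
    rwa [show kp e a ν (some (.inr (e a))) = ν (some (.inr (e a))) from
      LinearMap.congr_fun (pj_kp_a he) ν] at this
  have h5 : ∀ i, Ev Cg w θ i (dat R A (gp e z x₀ x)) ↔ _ := fun i =>
    ev_cmp (κ := kp e a) fun μ hμ => kp_surj (hC₁ μ hμ)
  have h6 : Bs G tg (gp e z x₀ x) ↔ ∀ k, red 1 ((L x).2.1 k) = tg k := by simp [Bs, L]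
  have h7 : PrL (fun ν => Cg (kp e a ν)) w θ tg Ls j (e b) (e a) (L x) →
      Evs R A Cg w θ G tg Ls (gp e z x₀ x) := fun h =>
    ⟨h6.2 h.1, fun i hi => (h5 i).2 ((h3 i (hLs i hi)).2 (h.2.1 i hi))⟩
  by_cases h : Evs R A Cg w θ G tg (insert j Ls) (gp e z x₀ x)
  · obtain ⟨h8, h9⟩ := h4 ((h5 j).1 (h.2 j (mem_insert_self _ _)))
    have h10 : PrL (fun ν => Cg (kp e a ν)) w θ tg Ls j (e b) (e a) (L x) := ⟨h6.1 h.1,
      fun i hi => (h3 i (hLs i hi)).1 ((h5 i).1 (h.2 i (mem_insert_of_mem hi))), h8⟩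
    have h11 : tauL (fun ν => Cg (kp e a ν)) w θ j (e b) (e a) (L x) = red 1 (t x) := by
      rw [tauL, if_congr h9 rfl rfl]
      split_ifs with h12
      · exact (red_eq_zero.2 (by rwa [pow_one])).symm
      · exact ((z2_cases _).resolve_left fun e => h12 (by simpa using red_eq_zero.1 e)).symm
    rw [if_pos h, if_pos (h7 h10), if_pos ⟨h10, h11⟩, if_pos h10]
  · rw [if_neg h]
    by_cases h10 : PrL (fun ν => Cg (kp e a ν)) w θ tg Ls j (e b) (e a) (L x)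
    · rw [if_pos (h7 h10), if_pos h10]
      split_ifs <;> norm_num
    · simp only [h10, false_and, if_false]
      split_ifs <;> norm_num

/-- The positions other than `b`. -/
def Sb (b : S) : Type := {s // s ≠ b}

instance (b : S) : Fintype (Sb b) := Subtype.fintype _

/-- Insert a value at the position `b`. -/
def exd {Y : Type} (b : S) (p : Y) (y : Sb b → Y) : S → Y :=
  fun s => if h : s = b then p else y ⟨s, h⟩

theorem exd_b {Y : Type} (b : S) (p : Y) (y : Sb b → Y) : exd b p y b = p := dif_pos rfl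

theorem exd_ne {Y : Type} {b s : S} (h : s ≠ b) (p : Y) (y : Sb b → Y) :
    exd b p y s = y ⟨s, h⟩ := dif_neg h

theorem exd_self {Y : Type} (b : S) (y : S → Y) : exd b (y b) (fun s => y s.1) = y :=
  _root_.funext fun s => by
    by_cases h : s = b
    · rw [h, exd_b]
    · rw [exd_ne h]

theorem split_bij (Y : Type) (b : S) :
    Function.Bijective fun y : S → Y => ((fun s : Sb b => y s.1), y b) :=
  ((Equiv.funSplitAt b Y).trans (Equiv.prodComm _ _)).bijective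

theorem sum_split {Y : Type} (b : S) (X : S → Finset Y) (φ : (S → Y) → ℝ) :
    ∑ y ∈ Fintype.piFinset X, φ y =
      ∑ y ∈ Fintype.piFinset fun s : Sb b => X s.1, ∑ p ∈ X b, φ (exd b p y) := by
  rw [← sum_product' (f := fun y p => φ (exd b p y))]
  refine sum_bijective _ (split_bij Y b) (fun y => ?_) fun y _ => by rw [exd_self]
  simp only [mem_product, Fintype.mem_piFinset]
  refine ⟨fun h => ⟨fun s => h s.1, h b⟩, fun h s => ?_⟩
  by_cases hs : s = b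
  · exact hs ▸ h.2
  · exact h.1 ⟨s, hs⟩

theorem exc_le {E N P Xb : ℕ} {c ε ϑ Ex : ℝ} (hE : 0 < E) (hε : 0 < ε) (hϑ : 0 < ϑ) (hc : 0 ≤ c)
    (h : Ex * (((2 ^ 1) ^ N : ℕ) : ℝ) ≤ 2 ^ N * c * ((1 + 1 / (E : ℝ)) * P) ^ E)
    (hun : 3 * c ≤ ε * ϑ ^ E) (hXb : ϑ * P ≤ Xb) : Ex ≤ ε * (Xb : ℝ) ^ E := by
  have h1 : (1 + 1 / (E : ℝ)) ^ E ≤ 3 := by
    rw [one_div]
    exact Real.one_add_inv_pow_le_exp.trans Real.exp_one_lt_three.le
  push_cast at h
  rw [mul_comm, mul_assoc, mul_le_mul_iff_right₀ (by positivity), mul_pow] at h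
  calc Ex ≤ c * (3 * (P : ℝ) ^ E) := h.trans (by gcongr)
    _ = 3 * c * (P : ℝ) ^ E := by ring
    _ ≤ ε * ϑ ^ E * (P : ℝ) ^ E := by gcongr
    _ ≤ _ := by rw [mul_assoc, ← mul_pow]; gcongr

/-- Almost all tuples of primes have conjugates of their Frobenius elements with a generic top. -/
theorem exc_small (R : Pres Z bd) {a b : S} (ha : a ∈ univ.erase b) {j : ℕ}
    (hS : Fintype.card S = j + 2) {n : S → ℕ} (hn : Function.Injective n) (X : S → Finset F[X])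
    (hX : ∀ s, X s ⊆ Pn F (n s)) (hXZ : ∀ s, X s ⊆ Z) {E d : ℕ} (hE : 0 < E) (hd : ∀ s, n s ≤ d)
    (hch : 40 * (((2 : ℝ) ^ ((j + 2) * E ^ (j + 2))) ^ 2 * ((j + 1) * E * d + 1)) * E ≤
      (Fintype.card F : ℝ) ^ (n b / 2)) {z : S → Fin E → F[X]}
    (hz : ∀ s ∈ univ.erase b, ∀ k, z s k ∈ X s) {ω : Gam F → Bg (Fin E) (univ.erase b) a}
    (hω : Hm (WW F) ω) (hωu : Unr ω {p | ∃ s ∈ univ.erase b, ∃ k, z s k = p})
    (hωt : ∀ h : Dep (I := Fin E) ℤ_[2] (univ.erase b), ∃ g ∈ Geo F, ω g = trn ha h)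
    (Gn : ((S → Fin E) → ZMod (2 ^ 1)) → Prop) {NG : ℝ}
    (hG : ((univ.filter fun H => ¬ Gn H).card : ℝ) ≤ NG) :
    (((Fintype.piFinset fun _ : Fin E => X b).filter fun p => ∀ g : Fin E → Gam F,
      (∀ k, g k ∈ WW F) → ¬ GdT b j Gn fun k => ω (g k * R.f (p k) * (g k)⁻¹)).card : ℝ) *
      (((2 ^ 1) ^ E ^ (j + 2) : ℕ) : ℝ) ≤ NG * ((1 + 1 / (E : ℝ)) * (Pn F (n b)).card) ^ E := by
  have hT : (univ.erase b).card = j + 1 := by simp [hS]
  have hE' : (1 : ℝ) ≤ E := by exact_mod_cast hE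
  have hdeg : ∀ s, ∀ p ∈ X s, p.natDegree = n s := fun s p hp => (mem_Pn.1 (hX s hp)).2
  obtain ⟨hfin, hcard⟩ := bg_card (J := Fin E) (T := univ.erase b) (a := a)
  rw [hT, Fintype.card_fun, Fintype.card_fin, hS] at hcard
  let Z' := (univ.erase b ×ˢ (univ : Finset (Fin E))).image fun y => z y.1 y.2
  have hZ' : ∀ p ∈ Z', ∃ s ∈ univ.erase b, p ∈ X s := fun p hp => by
    obtain ⟨y, hy, rfl⟩ := mem_image.1 hp
    exact ⟨_, (mem_product.1 hy).1, hz _ (mem_product.1 hy).1 _⟩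
  have hq1 : (1 : ℝ) < (Fintype.card F : ℝ) ^ (n b / 2) := lt_of_lt_of_le (by
    have : (1 : ℝ) ≤ (2 ^ ((j + 2) * E ^ (j + 2))) ^ 2 * ((j + 1) * E * d + 1) * E :=
      one_le_mul_of_one_le_of_one_le (one_le_mul_of_one_le_of_one_le
        (one_le_pow₀ (one_le_pow₀ one_le_two)) (le_add_of_nonneg_left (by positivity))) hE'
    linarith) hch
  have h1 : ∀ p ∈ Z', Prm p := fun p hp => by
    obtain ⟨s, _, h⟩ := hZ' p hp
    exact R.prm p (hXZ s h)
  have h2 : Unr ω Z' := by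
    convert hωu using 1
    ext p
    simp [Z']
  have h3 : ∑ p ∈ Z', p.natDegree + 1 ≤ (j + 1) * E * d + 1 := by
    refine Nat.add_le_add_right ((sum_le_card_nsmul _ _ d fun p hp => ?_).trans ?_) 1
    · obtain ⟨s, _, h⟩ := hZ' p hp
      rw [hdeg s p h]; exact hd s
    · exact Nat.mul_le_mul_right d (card_image_le.trans_eq (by simp [hT]))
  have h4 : 0 < n b := Nat.pos_of_ne_zero fun h => by simp [h] at hq1
  have h5 : 40 * ((Nat.card (Bg (Fin E) (univ.erase b) a) : ℝ) ^ 2 * ((j + 1) * E * d + 1 : ℕ)) ≤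
      1 / E * (Fintype.card F : ℝ) ^ (n b / 2) := by
    rw [one_div_mul_eq_div, le_div_iff₀ (by positivity)]
    refine le_trans ?_ hch
    push_cast
    gcongr
    exact_mod_cast hcard
  have h6 : ∀ p ∈ X b, p ∈ Pn F (n b) ∧ p ∉ Z' ∧ Dec p (R.σ p) (R.f p) := fun p hp =>
    ⟨hX b hp, fun h => by
      obtain ⟨s, hs, h'⟩ := hZ' p h
      exact (mem_erase.1 hs).1 (hn ((hdeg s p h').symm.trans (hdeg b p hp))), R.dec p (hXZ b hp)⟩
  have hexc := exc_count (H := (S → Fin E) → ZMod (2 ^ 1)) bg_two hω Z' h1 h2 h3 h4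
    (by positivity) (by rw [div_le_one (by positivity)]; exact hE') h5 (X b) R.σ R.f h6 (E := E)
    (fun H k => (trn ha (slc b H k) : Bg (Fin E) (univ.erase b) a)) (fun H k => hωt _) (GdT b j Gn)
    (NG := NG) fun β => by convert (Nat.cast_le.2 (gdT_count ha hT Gn β)).trans hG
  rwa [Fintype.card_fun, Fintype.card_fun, ZMod.card, Fintype.card_fin, hS] at hexc

theorem halve_abs (R : Pres Z bd) (e : S → I) {a b : S} (hab : a ≠ b) {j : ℕ} (hj : 1 ≤ j)
    (hS : Fintype.card S = j + 2) {n : S → ℕ} (hn : Function.Injective n) (X : S → Finset F[X])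
    (hX : ∀ s, X s ⊆ Pn F (n s)) (hXZ : ∀ s, X s ⊆ Z) (x₀ : I → F[X])
    {E d : ℕ} {ε ϑ cc : ℝ} (hE : 0 < E) (hε : 0 < ε) (hε' : 3 * ε ≤ 1) (hϑ : 0 < ϑ)
    (hd : ∀ s, n s ≤ d) (hbd : 2 ^ ((j + 2) * E ^ (j + 2)) ≤ bd)
    (hbox : ∀ s, (E : ℝ) ^ 2 * (2 * 2 ^ ((j + 1) ^ 2 + 1) / ε) ^ ((E + 1) ^ (j + 1)) ≤ (X s).card)
    (hXb : ϑ * (Pn F (n b)).card ≤ (X b).card)
    (hch : 40 * (((2 : ℝ) ^ ((j + 2) * E ^ (j + 2))) ^ 2 * ((j + 1) * E * d + 1)) * E ≤
      (Fintype.card F : ℝ) ^ (n b / 2)) (hcc : 0 ≤ cc) (hun : 3 * cc ≤ ε * ϑ ^ E)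
    (φ : (I → F[X]) → ℝ) (hφ1 : ∀ y, φ y ≤ 1) (Gn : ((S → Fin E) → ZMod (2 ^ 1)) → Prop)
    (hGn : ((univ.filter fun H => ¬ Gn H).card : ℝ) ≤ 2 ^ E ^ (j + 2) * cc)
    (hgb : ∀ (z : S → Fin E → F[X]) (c : Fin 5 → (S → Fin E) → ℤ_[2]), (∀ i, c i ∈ Poly ℤ_[2]) →
      ∀ t : (S → Fin E) → ℤ_[2], (∀ x, 2 ^ (j + 1) ∣ (DU R (univ.erase b) a (fun s => z s (x s))
        (R.wd (R.f (z b (x b))))).a - (FF (fun i => c i x) + 2 ^ j * t x)) →
      Gn (fun x => red 1 (t x)) → ∑ x, φ (gp e z x₀ x) ≤ ε * E ^ (j + 2)) :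
    ∑ y ∈ Fintype.piFinset X, φ (Function.extend e y x₀) ≤ 6 * ε * ∏ s, ((X s).card : ℝ) := by
  have hS' : Fintype.card (Sb b) = j + 1 := by simp [Sb, hS]
  have hT : (univ.erase b).card = j + 1 := by simp [hS]
  have ha : a ∈ univ.erase b := mem_erase.2 ⟨hab, mem_univ a⟩
  have hXE : (E : ℝ) ^ 2 ≤ ε * (X b).card := by
    have h1 : 1 / ε ≤ 2 * 2 ^ ((j + 1) ^ 2 + 1) / ε := by
      gcongr
      exact one_le_mul_of_one_le_of_one_le one_le_two (one_le_pow₀ one_le_two)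
    have h2 : 1 ≤ 1 / ε := by rw [le_div_iff₀ hε]; linarith
    have h3 := (mul_le_mul_of_nonneg_left (h1.trans (le_self_pow₀ (h2.trans h1)
      (n := (E + 1) ^ (j + 1)) (by positivity))) (sq_nonneg (E : ℝ))).trans (hbox b)
    rwa [mul_one_div, div_le_iff₀' hε] at h3
  have hX0 : (0 : ℝ) < (X b).card :=
    (mul_pos_iff_of_pos_left hε).1 (lt_of_lt_of_le (by positivity) hXE)
  have key := box_cover (fun s : Sb b => X s.1) hE (ε := 3 * ε) (by positivity) hε'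
    (fun y => ((fun s : Sb b => red (j + 1)
      (DU R (univ.erase b) a (exd b 0 y) (R.wd (R.f (y s)))).a),
      decide (chT (univ.erase b) (exd b 0 y) (evw Z R.σ (R.wd (R.f (y ⟨a, hab⟩)))) = 1)))
    (fun y => (∑ p ∈ X b, φ (Function.extend e (exd b p y) x₀)) / (X b).card) (fun y => by
      rw [div_le_one hX0]
      simpa using sum_le_card_nsmul (X b) _ 1 fun p _ => hφ1 _) (fun s => by
      refine le_trans ?_ (hbox s.1)
      rw [hS', Fintype.card_prod, Fintype.card_fun, ZMod.card, Fintype.card_bool, hS', ← pow_mul,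
        ← pow_succ, ← sq]
      push_cast
      gcongr
      linarith) ?_
  · rw [← sum_div, div_le_iff₀ hX0] at key
    rw [sum_split b, Fintype.prod_eq_mul_prod_subtype_ne _ b]
    refine key.trans_eq ?_
    change _ = 6 * ε * (_ * ∏ s : Sb b, ((X s.1).card : ℝ))
    ring
  rintro z hzX hzi ⟨col, hcol⟩
  let z₀ : S → Fin E → F[X] := fun s k => exd b 0 (fun s => z s k) s
  have hz₀ : ∀ s (h : s ≠ b) k, z₀ s k = z ⟨s, h⟩ k := fun s h k => exd_ne h _ _
  have hz₁ : ∀ s ∈ univ.erase b, ∀ k, z₀ s k ∈ X s := fun s hs k => by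
    rw [hz₀ s (mem_erase.1 hs).1]; exact hzX _ _
  have hdeg : ∀ s, ∀ p ∈ X s, p.natDegree = n s := fun s p hp => (mem_Pn.1 (hX s hp)).2
  have hex : ∀ x : S → Fin E, (fun s => z₀ s (x s)) = exd b 0 fun s => z s (x s.1) := fun x =>
    _root_.funext fun s => by
      by_cases h : s = b
      · subst h; simp only [z₀, exd_b]
      · rw [hz₀ s h, exd_ne h]
  obtain ⟨ω, hω, hωu, hωw, hωt⟩ := exists_omega R (z := z₀) ha (by omega)
    ⟨fun s hs k => hXZ s (hz₁ s hs k), fun s hs s' hs' k k' h => by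
      obtain rfl : s = s' := hn (by rw [← hdeg s _ (hz₁ s hs k), h, hdeg s' _ (hz₁ s' hs' k')])
      rw [hz₀ s (mem_erase.1 hs).1, hz₀ s (mem_erase.1 hs).1] at h
      exact ⟨rfl, hzi _ h⟩⟩
    (fun s hs => by
      obtain ⟨c, hc⟩ := red_surj (col.1 ⟨s, (mem_erase.1 hs).1⟩)
      refine ⟨c, fun x => ?_⟩
      rw [hT, ← red_eq, hc, hex, hz₀ s (mem_erase.1 hs).1, ← hcol fun s => x s.1])
    ⟨if col.2 then 0 else 1, fun x => by
      rw [hex, hz₀ a hab, ← hcol fun s => x s.1]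
      rcases mul_self_eq_one_iff.1 (chT_sq (univ.erase b) (exd b 0 fun s => z s (x s.1))
        (evw Z R.σ (R.wd (R.f (z ⟨a, hab⟩ (x a)))))) with h | h
      · simp [h]
      · simp only [h, decide_eq_true_eq]
        rw [if_neg (by norm_num)]; ring⟩
    (by rwa [hT, Fintype.card_fun, Fintype.card_fin, hS])
  have hexc := exc_le hE hε hϑ hcc
    (exc_small R ha hS hn X hX hXZ hE hd hch hz₁ hω hωu hωt Gn hGn) hun hXb
  rw [← sum_div, div_le_iff₀ hX0, sum_comm, hS']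
  refine tuple_avg hE (X b) (fun p => ∑ i : Sb b → Fin E,
    φ (Function.extend e (exd b p fun s => z s (i s)) x₀)) (by positivity) hε.le (fun p => ?_) _
    hexc hXE fun p hp hpi hpe => ?_
  · simpa [hS'] using sum_le_card_nsmul univ _ 1 fun (i : Sb b → Fin E) _ =>
      hφ1 (Function.extend e (exd b p fun s => z s (i s)) x₀)
  · simp only [mem_filter, hp, true_and, not_forall, not_not] at hpe
    obtain ⟨g, hg, L, l, t, hL, hGen⟩ := hpe
    have hp' := Fintype.mem_piFinset.1 hp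
    have hf : ∀ k, R.f (p k) ∈ WW F := fun k => (R.dec _ (hXZ b (hp' k))).memF
    choose c hc hc' using fun k => top_low ha hT (W := omg R _ a ha z₀ (R.wd (R.f (p k))))
      (G := omg R _ a ha z₀ (R.wd (g k))) (L := L k) (by
        refine Eq.trans ?_ (hL k).1
        beta_reduce
        rw [hω.conj (hg k) (hf k), hωw _ (hg k), hωw _ (hf k)]; rfl)
      (hL k).2.1 (hL k).2.2
    have := hgb (fun s k => exd b (p k) (fun s => z s k) s) (fun i x => c (x b) i x)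
      (fun i => PolyT.glue (notMem_erase b univ) fun k => hc k i) _ (fun x => by
        have := hc' (x b) x
        rw [omg_a] at this
        rw [exd_b, DU_congr R _ a ha (y' := fun s => z₀ s (x s)) fun s hs => by
          rw [exd_ne (mem_erase.1 hs).1, hz₀ s (mem_erase.1 hs).1]]
        exact this) hGen
    rw [mul_assoc, ← pow_succ', sum_comm, ← Fintype.sum_prod_type']
    refine le_of_eq_of_le ?_ this
    refine (Fintype.sum_bijective _ (split_bij (Fin E) b) _ _ fun x => congrArg φ ?_).symm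
    refine congrArg (fun y => Function.extend e y x₀) (_root_.funext fun s => ?_)
    by_cases h : s = b
    · subst h; simp only [exd_b]
    · simp only [exd_ne h]

/-- One more level halves the count on every large cell. -/
theorem halve_cell (R : Pres Z bd) (A : Par F Λ) {e : S → I} (he : Function.Injective e)
    {a b : S} (hab : a ≠ b) {j : ℕ} (hj : 1 ≤ j) (hS : Fintype.card S = j + 2)
    {n : S → ℕ} (hn : Function.Injective n) (X : S → Finset F[X]) (hX : ∀ s, X s ⊆ Pn F (n s))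
    (hXZ : ∀ s, X s ⊆ Z) (x₀ : I → F[X]) {Cg : Prs Λ I → Prop} {w : I → V} (θ : ℤ_[2])
    (G : K → I → I → F[X] → F[X] → ZMod (2 ^ 1)) (tg : K → ZMod (2 ^ 1))
    {Ls : Finset ℕ} (hLs : ∀ i ∈ Ls, i < j) (hw : ∀ s, s ≠ b → w (e s) = 0)
    (hC₁ : ∀ μ, Cg μ → ∀ s, s ≠ a → μ (some (.inr (e s))) ∈ Dv 1)
    (hC₂ : ∀ μ, Cg μ → ¬ 2 ∣ om (w (e b)) (μ (some (.inr (e a)))))
    {E d : ℕ} {ε ϑ : ℝ} (hE : 0 < E) (hε : 0 < ε) (hε' : 3 * ε ≤ 1) (hϑ : 0 < ϑ)
    (hd : ∀ s, n s ≤ d) (hbd : 2 ^ ((j + 2) * E ^ (j + 2)) ≤ bd)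
    (hbox : ∀ s, (E : ℝ) ^ 2 * (2 * 2 ^ ((j + 1) ^ 2 + 1) / ε) ^ ((E + 1) ^ (j + 1)) ≤ (X s).card)
    (hXb : ϑ * (Pn F (n b)).card ≤ (X b).card)
    (hch : 40 * (((2 : ℝ) ^ ((j + 2) * E ^ (j + 2))) ^ 2 * ((j + 1) * E * d + 1)) * E ≤
      (Fintype.card F : ℝ) ^ (n b / 2))
    (hun : 3 * (2 ^ ((j + 2) * (8 * (Fintype.card Λ + Fintype.card I + 1) ^ 2 + Fintype.card K + 5) *
      (j + 2) * E ^ (j + 1)) * Real.exp (-(2 * ε ^ 2 * (E : ℝ) ^ (j + 2)))) ≤ ε * ϑ ^ E) :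
    ∑ y ∈ Fintype.piFinset X,
      ((if Evs R A Cg w θ G tg (insert j Ls) (Function.extend e y x₀) then (1 : ℝ) else 0) -
        (if Evs R A Cg w θ G tg Ls (Function.extend e y x₀) then (1 : ℝ) else 0) / 2) ≤
      6 * ε * ∏ s, ((X s).card : ℝ) := by
  have hGn := count_genA (S := S) (E := E) (A := Low Λ I K) (j + 2)
    (PrL (fun ν => Cg (kp e a ν)) w θ tg Ls j (e b) (e a))
    (tauL (fun ν => Cg (kp e a ν)) w θ j (e b) (e a))
    (fun c d => low_inv _ w θ tg hLs (e b) (e a) c d _ rfl) hε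
  rw [finrank_low, hS, show j + 2 - 1 = j + 1 from rfl] at hGn
  exact halve_abs R e hab hj hS hn X hX hXZ x₀ hE hε hε' hϑ hd hbd hbox hXb hch (by positivity) hun
    (fun y => (if Evs R A Cg w θ G tg (insert j Ls) y then (1 : ℝ) else 0) -
      (if Evs R A Cg w θ G tg Ls y then (1 : ℝ) else 0) / 2)
    (fun y => by split_ifs <;> norm_num)
    (GenA (PrL (fun ν => Cg (kp e a ν)) w θ tg Ls j (e b) (e a))
      (tauL (fun ν => Cg (kp e a ν)) w θ j (e b) (e a)) ε) hGn fun z c hc t ht hG =>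
    grid_bound R A he hab hj hS x₀ θ G tg hLs hw hC₁ hC₂ z hc ht hG

end

end Pool.Agent.Lib.MP_16ef92_ag.GF
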