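import Mathlib

set_option autoImplicit false
set_option linter.unusedSectionVars false
set_option linter.unusedVariables false

namespace Pool.Agent.Lib.MP_16ef92_ag.GF

open Filter
open scoped Classical

noncomputable section

/-- The inequalities between the parameters, for `L` the binary length of the degree. -/
structure Num (lm dN jm : ℕ) (ε ζ : ℝ) (c L : ℕ) : Prop where
  pos : 0 < L
  big : 16 ≤ L ^ c ∧ dN < L ^ c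
  box : ∀ j ≤ jm, ∀ n, L ^ c ≤ n → ((L ^ 6 : ℕ) : ℝ) ^ 2 * (2 * 2 ^ ((j + 1) ^ 2 + 1) / ε) ^
    ((L ^ 6 + 1) ^ (j + 1)) ≤ (1 / 2) ^ (8 * L ^ 2) * 2 ^ (n / 2)
  ch : ∀ j ≤ jm, ∀ n, L ^ c ≤ n → ∀ d < 2 ^ L, 40 * (((2 : ℝ) ^ ((j + 2) * (L ^ 6) ^ (j + 2))) ^ 2 *
    ((j + 1) * (L ^ 6 : ℕ) * d + 1)) * (L ^ 6 : ℕ) ≤ 2 ^ (n / 2)
  un : ∀ j ≤ jm, ∀ r ≤ L ^ 2, 3 * (2 ^ ((j + 2) * (8 * (lm + r + 1) ^ 2 + r * 2 * 2 + 5) * (j + 2) *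
    (L ^ 6) ^ (j + 1)) * Real.exp (-(2 * ε ^ 2 * ((L ^ 6 : ℕ) : ℝ) ^ (j + 2)))) ≤
      ε * ((1 / 2) ^ (8 * L ^ 2)) ^ L ^ 6
  cell : ∀ r ≤ L ^ 2, (2 : ℝ) ^ (lm + r) * 16 ^ (lm + r + 1) * (1 / 2) ^ (8 * L ^ 2) ≤ ζ
  sym : ∀ n, L ^ c ≤ n → ∀ d < 2 ^ L, ∀ r ≤ L ^ 2,
    40 * (((2 : ℝ) ^ (lm + r)) ^ 2 * (dN + d + 1 : ℕ)) ≤ 1 / (2 * L ^ 2) * 2 ^ (n / 2)

theorem num_six (L : ℕ) : L ^ 6 ≤ 2 ^ (6 * L) := by
  rw [mul_comm, pow_mul]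
  exact Nat.pow_le_pow_left Nat.lt_two_pow_self.le 6

theorem num_box {L j a e Q : ℕ} {ε : ℝ} (ha : (1 / 2 : ℝ) ^ a ≤ ε) (h1 : (j + 1) ^ 2 + 2 + a ≤ L)
    (h2 : (L ^ 6 + 1) ^ (j + 1) ≤ Q) (h3 : L ≤ Q) (he : 50 * (L * Q) ≤ e) :
    ((L ^ 6 : ℕ) : ℝ) ^ 2 * (2 * 2 ^ ((j + 1) ^ 2 + 1) / ε) ^ ((L ^ 6 + 1) ^ (j + 1)) ≤
      (1 / 2) ^ (8 * L ^ 2) * 2 ^ e := by
  have h0 : (0 : ℝ) < ε := lt_of_lt_of_le (by positivity) ha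
  have a1 : ((L ^ 6 : ℕ) : ℝ) ≤ 2 ^ (6 * L) := by exact_mod_cast num_six L
  have a2 : (2 * 2 ^ ((j + 1) ^ 2 + 1) / ε : ℝ) ≤ 2 ^ L := by
    rw [div_le_iff₀ h0]
    calc (2 * 2 ^ ((j + 1) ^ 2 + 1) : ℝ) = 2 ^ ((j + 1) ^ 2 + 2 + a) * (1 / 2) ^ a := by
          rw [pow_add _ _ a, mul_assoc, ← mul_pow]; norm_num; ring
      _ ≤ 2 ^ L * ε := by gcongr; norm_num
  rw [one_div, inv_pow, inv_mul_eq_div, le_div_iff₀ (by positivity)]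
  calc _ ≤ ((2 : ℝ) ^ (6 * L)) ^ 2 * (2 ^ L) ^ ((L ^ 6 + 1) ^ (j + 1)) * 2 ^ (8 * L ^ 2) := by
        gcongr
    _ = 2 ^ (6 * L * 2 + L * (L ^ 6 + 1) ^ (j + 1) + 8 * L ^ 2) := by
        rw [← pow_mul, ← pow_mul, ← pow_add, ← pow_add]
    _ ≤ 2 ^ e := pow_le_pow_right₀ one_le_two (by
        linarith [Nat.mul_le_mul_left L h2, Nat.mul_le_mul_left L h3, Nat.le_mul_self L,
          Nat.zero_le (L * Q)])

theorem num_ch {L j e Q : ℕ} (h1 : j + 2 ≤ L) (h2 : (L ^ 6) ^ (j + 2) ≤ Q) (h3 : L ≤ Q)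
    (he : 50 * (L * Q) ≤ e) : 40 * ((2 ^ ((j + 2) * (L ^ 6) ^ (j + 2))) ^ 2 *
      ((j + 1) * L ^ 6 * 2 ^ L + 1)) * L ^ 6 ≤ 2 ^ e := by
  have a1 := num_six L
  have a2 : j + 1 ≤ 2 ^ L := by have := Nat.lt_two_pow_self (n := L); omega
  have a3 : (j + 1) * L ^ 6 * 2 ^ L + 1 ≤ 2 ^ (8 * L + 1) :=
    calc _ ≤ 2 ^ L * 2 ^ (6 * L) * 2 ^ L + 2 ^ (8 * L) := by
          gcongr
          exact Nat.one_le_two_pow
      _ = _ := by ring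
  calc _ ≤ 2 ^ 6 * ((2 ^ ((j + 2) * (L ^ 6) ^ (j + 2))) ^ 2 * 2 ^ (8 * L + 1)) * 2 ^ (6 * L) := by
        gcongr; norm_num
    _ = 2 ^ (6 + ((j + 2) * (L ^ 6) ^ (j + 2) * 2 + (8 * L + 1)) + 6 * L) := by
        rw [← pow_mul, ← pow_add, ← pow_add, ← pow_add]
    _ ≤ 2 ^ e := Nat.pow_le_pow_right two_pos (by
        linarith [Nat.mul_le_mul h1 h2, Nat.mul_le_mul_left L h3, Nat.le_mul_self L,
          Nat.zero_le j])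

theorem num_sym {L l N d r e Q : ℕ} (h1 : l + N + 2 ≤ L) (h3 : L ≤ Q) (he : 50 * (L * Q) ≤ e)
    (hd : d < 2 ^ L) (hr : r ≤ L ^ 2) :
    40 * ((2 ^ (l + r)) ^ 2 * (N + d + 1)) * (2 * L ^ 2) ≤ 2 ^ e := by
  have a1 := Nat.lt_two_pow_self (n := L)
  have a2 : N + d + 1 ≤ 2 ^ (L + 1) := by rw [pow_succ]; omega
  calc _ ≤ 2 ^ 6 * ((2 ^ (l + r)) ^ 2 * 2 ^ (L + 1)) * (2 ^ 1 * (2 ^ L) ^ 2) := by
        gcongr <;> norm_num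
    _ = 2 ^ (6 + ((l + r) * 2 + (L + 1)) + (1 + L * 2)) := by
        rw [← pow_mul, ← pow_mul, ← pow_add, ← pow_add, ← pow_add, ← pow_add]
    _ ≤ 2 ^ e := Nat.pow_le_pow_right two_pos (by
        linarith [Nat.mul_le_mul_left L h3, Nat.le_mul_self L, Nat.zero_le l, Nat.zero_le N])

theorem num_exp {L l j r a : ℕ} (h1 : 41 * (j + 2) ^ 2 + 9 ≤ L) (h2 : l + a + 2 ≤ L)
    (hr : r ≤ L ^ 2) : 2 + a + (j + 2) * (8 * (l + r + 1) ^ 2 + r * 2 * 2 + 5) * (j + 2) *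
      (L ^ 6) ^ (j + 1) + 8 * L ^ 2 * L ^ 6 ≤ L * (L ^ 4 * (L ^ 6) ^ (j + 1)) := by
  have h0 : 1 ≤ L := by omega
  have p1 : L ≤ L ^ 2 := Nat.le_self_pow two_ne_zero L
  have p2 : L ^ 2 ≤ L ^ 4 := Nat.pow_le_pow_right h0 (by norm_num)
  have p3 : L ^ 6 ≤ (L ^ 6) ^ (j + 1) := Nat.le_self_pow j.succ_ne_zero _
  have p4 : 1 ≤ (L ^ 6) ^ (j + 1) := Nat.one_le_pow _ _ (by positivity)
  have p5 : (l + r + 1) ^ 2 ≤ (2 * L ^ 2) ^ 2 := Nat.pow_le_pow_left (by omega) 2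
  have p6 : 8 * (l + r + 1) ^ 2 + r * 2 * 2 + 5 ≤ 41 * L ^ 4 := by linarith
  calc _ ≤ L ^ 4 * (L ^ 6) ^ (j + 1) + (j + 2) * (41 * L ^ 4) * (j + 2) * (L ^ 6) ^ (j + 1) +
        8 * L ^ 4 * (L ^ 6) ^ (j + 1) := by
        gcongr
        exact le_trans (by omega) (Nat.le_mul_of_pos_right _ p4)
    _ = (41 * (j + 2) ^ 2 + 9) * (L ^ 4 * (L ^ 6) ^ (j + 1)) := by ring
    _ ≤ _ := Nat.mul_le_mul_right _ h1

theorem num_un {X Y a : ℕ} {ε y : ℝ} (ha : (1 / 2 : ℝ) ^ a ≤ ε) (h : ((2 + a + X + Y : ℕ) : ℝ) ≤ y) :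
    3 * (2 ^ X * Real.exp (-y)) ≤ ε * (1 / 2) ^ Y := by
  have a1 : Real.exp (-y) ≤ (1 / 2) ^ (2 + a + X + Y) := by
    refine (Real.exp_le_exp.2 (neg_le_neg h)).trans ?_
    rw [← mul_neg_one, Real.exp_nat_mul, Real.exp_neg, one_div]
    gcongr
    linarith [Real.add_one_le_exp 1]
  calc _ ≤ 4 * (2 ^ X * (1 / 2 : ℝ) ^ (2 + a + X + Y)) := by gcongr; norm_num
    _ = (1 / 2) ^ a * (1 / 2) ^ Y * (2 * (1 / 2)) ^ X := by rw [mul_pow]; ring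
    _ ≤ _ := by
        rw [mul_one_div_cancel two_ne_zero, one_pow, mul_one]
        gcongr

/-- Every factor is bounded by a power of two. -/
theorem num_ev (lm dN jm : ℕ) {ε ζ : ℝ} (hε : 0 < ε) (hε1 : ε ≤ 1) (hζ : 0 < ζ) :
    ∃ c, 0 < c ∧ ∀ᶠ L in atTop, Num lm dN jm ε ζ c L := by
  obtain ⟨a, ha⟩ := exists_pow_lt_of_lt_one hε one_half_lt_one
  obtain ⟨b, hb⟩ := exists_pow_lt_of_lt_one hζ one_half_lt_one
  refine ⟨7 * (jm + 2) + 2, by omega, ?_⟩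
  filter_upwards [eventually_ge_atTop (100 + 41 * (jm + 2) ^ 2 + a + b + 5 * lm + dN),
    (tendsto_natCast_atTop_atTop (R := ℝ)).eventually_ge_atTop (1 / (2 * ε ^ 2))] with L hL hE
  have h0 : 1 ≤ L := by omega
  have q1 : L ≤ L ^ (7 * (jm + 2)) := Nat.le_self_pow (by omega) L
  have q2 : L ≤ L ^ (7 * (jm + 2) + 2) := Nat.le_self_pow (by omega) L
  have q3 : ∀ n, L ^ (7 * (jm + 2) + 2) ≤ n → 50 * (L * L ^ (7 * (jm + 2))) ≤ n / 2 := fun n hn => by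
    refine (Nat.le_div_iff_mul_le two_pos).2 (le_trans ?_ hn)
    calc _ = 100 * (L * L ^ (7 * (jm + 2))) := by ring
      _ ≤ L * (L * L ^ (7 * (jm + 2))) := Nat.mul_le_mul_right _ (by omega)
      _ = _ := by ring
  have q4 : ∀ j ≤ jm, (L ^ 6 + 1) ^ (j + 2) ≤ L ^ (7 * (jm + 2)) := fun j hj => by
    have : L ^ 6 + 1 ≤ L ^ 7 := by
      linarith [Nat.one_le_pow 6 L h0, Nat.mul_le_mul_left (L ^ 6) (show 2 ≤ L by omega)]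
    rw [pow_mul]
    exact (Nat.pow_le_pow_left this _).trans (Nat.pow_le_pow_right (by omega) (by omega))
  have q5 : ∀ j ≤ jm, (j + 1) ^ 2 + 2 + a ≤ L ∧ j + 2 ≤ L ∧ 41 * (j + 2) ^ 2 + 9 ≤ L :=
    fun j hj => by
      have := Nat.pow_le_pow_left (show j + 2 ≤ jm + 2 by omega) 2
      have := Nat.pow_le_pow_left (show j + 1 ≤ j + 2 by omega) 2
      have := Nat.le_self_pow two_ne_zero (j + 2)
      omega
  refine ⟨h0, ⟨by omega, by omega⟩, fun j hj n hn => num_box ha.le (q5 j hj).1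
    ((Nat.pow_le_pow_right (by omega) (by omega)).trans (q4 j hj)) q1 (q3 n hn),
    fun j hj n hn d hd => ?_, fun j hj r hr => ?_, fun r hr => ?_, fun n hn d hd r hr => ?_⟩
  · calc _ ≤ 40 * (((2 : ℝ) ^ ((j + 2) * (L ^ 6) ^ (j + 2))) ^ 2 *
          ((j + 1) * (L ^ 6 : ℕ) * 2 ^ L + 1)) * (L ^ 6 : ℕ) := by gcongr
      _ ≤ _ := by
        exact_mod_cast num_ch (q5 j hj).2.1
          ((Nat.pow_le_pow_left (Nat.le_succ _) _).trans (q4 j hj)) q1 (q3 n hn)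
  · rw [← pow_mul (1 / 2 : ℝ)]
    refine num_un ha.le ((Nat.cast_le.2 (num_exp (l := lm) (q5 j hj).2.2 (by omega) hr)).trans ?_)
    rw [div_le_iff₀ (by positivity)] at hE
    push_cast
    calc _ = 1 * ((L : ℝ) * (L ^ 4 * (L ^ 6) ^ (j + 1))) := (one_mul _).symm
      _ ≤ L * (2 * ε ^ 2) * (L * (L ^ 4 * (L ^ 6) ^ (j + 1))) := by gcongr
      _ = _ := by ring
  · refine le_trans ?_ hb.le
    obtain ⟨t, ht⟩ : ∃ t, 8 * L ^ 2 = lm + r + 4 * (lm + r + 1) + (b + t) :=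
      ⟨8 * L ^ 2 - (lm + r + 4 * (lm + r + 1) + b), by
        have := Nat.le_self_pow two_ne_zero L
        omega⟩
    rw [ht, show (16 : ℝ) = 2 ^ 4 by norm_num, ← pow_mul, ← pow_add, pow_add (1 / 2 : ℝ),
      ← mul_assoc, ← mul_pow, mul_one_div_cancel two_ne_zero, one_pow, one_mul]
    exact pow_le_pow_of_le_one (by norm_num) (by norm_num) (Nat.le_add_right _ _)
  · rw [one_div, inv_mul_eq_div, le_div_iff₀ (by positivity)]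
    exact_mod_cast num_sym (by omega) q1 (q3 n hn) hd hr

end

end Pool.Agent.Lib.MP_16ef92_ag.GF
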