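import Mathlib
import Pool.Agent.Lib.MP_16ef92_ag.GF.FXd
import Pool.Agent.Lib.MP_16ef92_ag.GF.Symb
import Pool.Agent.Lib.MP_16ef92_ag.GF.HBd
import Pool.Agent.Lib.MP_16ef92_ag.GF.Good

set_option autoImplicit false
set_option linter.unusedSectionVars false
set_option linter.unusedVariables false

namespace Pool.Agent.Lib.MP_16ef92_ag.GF

open Polynomial
open scoped Classical

noncomputable section

/-- Reduction modulo two. -/
def rb (x : V) : Vb := (red 1 x.1, red 1 x.2)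

/-- The standard lift. -/
def lf (a : Vb) : V := ((a.1.val : ℤ_[2]), (a.2.val : ℤ_[2]))

theorem rb_lf (a : Vb) : rb (lf a) = a := by simp [rb, lf]

theorem lf_zero : lf 0 = 0 := by simp [lf]

theorem rb_eq_zero {x : V} : rb x = 0 ↔ x ∈ Dv 1 := by
  simp only [rb, Prod.mk_eq_zero, red_eq_zero, mem_Dv]

theorem red_om (x y : V) : red 1 (om x y) = eb (rb x) (rb y) := by simp [om, eb, rb]

/-- The parameters with prescribed values modulo two on the generators. -/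
def Cg {Λ I : Type} (H : Λ → EV) (v : Option (Λ ⊕ I) → Vb) (μ : Prs Λ I) : Prop :=
  rb (μ none) = v none ∧ (∀ l, rb (H l (μ (some (.inl l)))) = v (some (.inl l))) ∧
    ∀ i, rb (μ (some (.inr i))) = v (some (.inr i))

/-- The coefficient of the quadratic form in the test. -/
def thv {k : ℕ} (o : Option (Fin (k + 1))) : ℤ_[2] := o.elim 0 fun e => 2 ^ e.val

/-- The first level of the tests. -/
def stv {k : ℕ} (o : Option (Fin (k + 1))) : ℕ := o.elim 1 fun _ => 2 * k + 2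

variable {F : Type} [Field F] [Clos F] [Fintype F] [hq : Fact (Odd (Fintype.card F))]
  {Λ I₀ : Type} [Fintype Λ] [Fintype I₀] {m j : ℕ}

/-- The symbol of `r` at the Frobenius element of `p`. -/
def sy (f : F[X] → Gam F) (r p : F[X]) : Z2 := sg (ev r) (f p)

/-- The conditions modulo two. -/
def Rows (f : F[X] → Gam F) (lp : Λ → F[X]) (t : Λ → Vb) (v : Ty Λ I₀ m j)
    (tg : I₀ ⊕ Fin m → Fin j → Vb) (x : I₀ ⊕ Fin m → F[X]) : Prop :=
  ∀ i c, row t (fun i i' => sy f (x i') (x i)) (fun i l => sy f (lp l) (x i)) v i c = tg i c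

variable [Fro F]

/-- The alternatives for a twist that is not good. -/
def Alt {Z : Finset F[X]} {bd : ℕ} (R : Pres Z bd) (P : Par F Λ) (t : Λ → Vb) (k : ℕ)
    (n : I₀ ⊕ Fin m → ℕ) (tg₁ : Ty Λ I₀ m 1 → I₀ ⊕ Fin m → Fin 1 → Vb)
    (tg₂ : Option (Fin (k + 1)) → Ty Λ I₀ m 2 → I₀ ⊕ Fin m → Fin 2 → Vb)
    (x : I₀ ⊕ Fin m → F[X]) : Prop :=
  (∃ v : Ty Λ I₀ m 1, Indep t v ∧ (∃ r, ∀ i, Odd (n i) → v (some (.inr i)) 0 = r) ∧
    Rows R.f P.lp t v (tg₁ v) x) ∨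
  ∃ (o : Option (Fin (k + 1))) (v : Ty Λ I₀ m 2), Indep t v ∧ Rows R.f P.lp t v (tg₂ o v) x ∧
    ∀ i ∈ Finset.Ico (stv o) (stv o + k), Ev (Cg P.Hl fun a => v a 0)
      (fun i => lf (v (some (.inr i)) 1)) (thv o) i (dat R P x)

/-- The output of the descent. -/
def Redu (A B : F[X]) (lp : Λ → F[X]) (t : Λ → Vb) : Prop :=
  ∀ k : ℕ, ∃ bd₀ : ℕ, ∀ (Z : Finset F[X]) (bd : ℕ) (R : Pres Z bd), bd₀ ≤ bd → (∀ l, lp l ∈ Z) →
    ∀ (u : F), u ≠ 0 → ∀ d : ℕ, ∃ P : Par F Λ, P.lp = lp ∧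
      ∀ (I₀ : Type) [Fintype I₀] (m : ℕ) (n : I₀ ⊕ Fin m → ℕ), ∑ i, n i = d → (∃ i, Odd (n i)) →
        ∃ tg₁ tg₂, ∀ x : I₀ ⊕ Fin m → F[X], (∀ i, x i ∈ Z ∧ (x i).natDegree = n i) →
          Squarefree (A * B * (A - B) * (C u * ∏ i, x i)) →
          ¬ Good (Om F) (curve A B (C u * ∏ i, x i)) → Alt R P t k n tg₁ tg₂ x

end

end Pool.Agent.Lib.MP_16ef92_ag.GF
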