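import Mathlib
import Pool.Agent.Lib.MP_16ef92_ag.GF.ASd
import Pool.Agent.Lib.MP_16ef92_ag.GF.Step
import Pool.Agent.Lib.MP_16ef92_ag.GF.Cell

set_option autoImplicit false
set_option linter.unusedSectionVars false
set_option linter.unusedVariables false

namespace Pool.Agent.Lib.MP_16ef92_ag.GF

open Polynomial
open scoped Classical

noncomputable section

variable {F : Type} [Field F] [Clos F] [Fintype F] [hq : Fact (Odd (Fintype.card F))] [Fro F]

/-- Equidistribution of the symbols at a family of distinct primes. -/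
theorem cheb_sym {J : Type} [Fintype J] {y : J → F[X]} (hy : Function.Injective y)
    (hp : ∀ j, Prm (y j)) {n δ : ℕ} (hn : 0 < n) (hd : ∀ j, (y j).natDegree ≠ n)
    (hδ : ∑ j, (y j).natDegree + 1 ≤ δ) {η : ℝ} (hη : 0 < η) (hη1 : η ≤ 1)
    (h : 40 * (((2 : ℝ) ^ Fintype.card J) ^ 2 * δ) ≤ η * (Fintype.card F : ℝ) ^ (n / 2))
    {σ f : F[X] → Gam F} (hf : ∀ p ∈ Pn F n, Dec p (σ p) (f p)) (κ : J → Z2) :
    (((Pn F n).filter fun p => ∀ j, sy f (y j) p = κ j).card : ℝ) * 2 ^ Fintype.card J ≤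
      (1 + η) * (Pn F n).card := by
  let u : Gam F → J → Z2 := fun g j => sg (ev (y j)) g
  have hu : ∀ H : Subgroup (Gam F), Ch H u := fun H =>
    ⟨fun g hg l hl => funext fun j => (ch_ev (hp j).ne).mul g hg l hl,
      (near_all fun j => near_sg (ev_ne (hp j).ne)).mono fun g hg _ _ => funext hg⟩
  have hc : Fintype.card (Multiplicative (J → Z2)) = 2 ^ Fintype.card J := by simp
  have hB : IsPGroup 2 (Multiplicative (J → Z2)) :=
    IsPGroup.of_card (Nat.card_eq_fintype_card.trans hc)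
  have hs : ∀ a : J → Z2, ∃ g ∈ Geo F, u g = a := fun a => by
    refine Pi.single_induction (fun a => ∃ g ∈ Geo F, u g = a) a ⟨1, one_mem _, (hu ⊤).one⟩ ?_ ?_
    · rintro _ _ ⟨g, hg, rfl⟩ ⟨l, hl, rfl⟩
      exact ⟨g * l, mul_mem hg hl, (hu _).mul g hg l hl⟩
    · intro j c
      rcases (by decide : ∀ c : Z2, c = 0 ∨ c = 1) c with rfl | rfl
      · exact ⟨1, one_mem _, (hu ⊤).one.trans (Pi.single_zero j).symm⟩
      · obtain ⟨s, g, hd⟩ := (hp j).exists_dec
        refine ⟨s, hd.geo, funext fun j' => ?_⟩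
        rw [Pi.single_apply]
        exact (sg_dec (hp j') (hp j) hd).trans (if_congr hy.eq_iff rfl rfl)
  have h1 := cheb hB (hu (WW F)).hm (Finset.univ.image y)
    (fun p hp' => by obtain ⟨j, -, rfl⟩ := Finset.mem_image.1 hp'; exact hp j)
    (fun c O hO hc g hg => congrArg Multiplicative.ofAdd (funext fun j => unr_ev
      (Finset.mem_coe.2 (Finset.mem_image_of_mem y (Finset.mem_univ j))) c O hO hc g hg))
    (δ := δ) (by rwa [Finset.sum_image hy.injOn]) Finset.univ
    (fun b => ⟨fun _ => (hs b.toAdd).imp fun g hg => ⟨hg.1, congrArg Multiplicative.ofAdd hg.2⟩,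
      fun _ => Finset.mem_univ _⟩) (n := n) hη hη1
    (by rw [Finset.card_univ, hc]; exact_mod_cast h)
    ((Pn F n).filter fun p => ∀ j, sy f (y j) p = κ j) σ f
    (fun p hp' => by
      have h2 := (Finset.mem_filter.1 hp').1
      refine ⟨h2, fun h3 => ?_, hf p h2⟩
      obtain ⟨j, -, rfl⟩ := Finset.mem_image.1 h3
      exact hd j (mem_Pn.1 h2).2) (Multiplicative.ofAdd κ)
  rw [@Finset.filter_true_of_mem _ _ (_) _ fun z hz => by
    have h2 := Finset.mem_filter.1 (Finset.mem_product.1 hz).1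
    rw [inv_mul_cancel_comm, (hu (WW F)).conj (pow_mem ss_mem _) (hf _ h2.1).memF]
    exact congrArg Multiplicative.ofAdd (funext h2.2), Finset.card_product, Finset.card_product,
    Finset.card_range, Finset.card_univ, hc] at h1
  push_cast at h1
  have h2 : (0 : ℝ) < n := by exact_mod_cast hn
  refine le_of_mul_le_mul_left ?_ h2
  linarith

variable {Λ I₀ : Type} [Fintype Λ] [Fintype I₀] {m : ℕ}

/-- The fixed primes and the degrees of the large primes. -/
structure Cfg (Z : Finset F[X]) (lp : Λ → F[X]) (y : I₀ → F[X]) (n : Fin m → ℕ) (T : ℕ) : Prop where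
  inj : Function.Injective (Sum.elim lp y)
  lpZ : ∀ l, lp l ∈ Z
  yZ : ∀ i, y i ∈ Z
  xZ : ∀ i, Pn F (n i) ⊆ Z
  lt : ∀ j, (Sum.elim lp y j).natDegree < T
  le : ∀ i, T ≤ n i
  ninj : Function.Injective n

variable {Z : Finset F[X]} {lp : Λ → F[X]} {y : I₀ → F[X]} {n : Fin m → ℕ} {T : ℕ}
  {σ f : F[X] → Gam F}

theorem symi_deg {x : Fin m → F[X]} (hx : x ∈ Fintype.piFinset fun i => Pn F (n i)) (i : Fin m) :
    (x i).natDegree = n i := (mem_Pn.1 (Fintype.mem_piFinset.1 hx i)).2

theorem symi_inj (h : Cfg Z lp y n T) {x : Fin m → F[X]}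
    (hx : x ∈ Fintype.piFinset fun i => Pn F (n i)) :
    Function.Injective (Sum.elim (Sum.elim lp y) x) :=
  h.inj.sumElim (fun a b e => h.ninj (by rw [← symi_deg hx, e, symi_deg hx])) fun a b e =>
    ((h.lt a).trans_le (h.le b)).ne (by rw [e, symi_deg hx])

theorem symi_two {η : ℝ} (hη : 0 < η) (hm : η * m ≤ 1 / 2) : (1 + η) ^ m ≤ 2 := by
  have h1 : (1 + η) ^ m ≤ Real.exp η ^ m := by
    rw [add_comm]
    exact pow_le_pow_left₀ (by positivity) (Real.add_one_le_exp η) m
  have h2 := Real.exp_bound_div_one_sub_of_interval (x := 1 / 2) (by norm_num) (by norm_num)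
  rw [← Real.exp_nat_mul, mul_comm] at h1
  exact h1.trans ((Real.exp_le_exp.2 hm).trans (h2.trans (by norm_num)))

theorem Cfg.inj' (h : Cfg Z lp y n T) {x : Fin m → F[X]}
    (hx : x ∈ Fintype.piFinset fun i => Pn F (n i)) : Function.Injective (Sum.elim y x) := by
  have e : Sum.elim y x = Sum.elim (Sum.elim lp y) x ∘ Sum.map Sum.inr id :=
    funext fun i => by cases i <;> rfl
  rw [e]
  exact (symi_inj h hx).comp (Sum.inr_injective.sumMap Function.injective_id)

theorem Cfg.mem (h : Cfg Z lp y n T) {x : Fin m → F[X]}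
    (hx : x ∈ Fintype.piFinset fun i => Pn F (n i)) (i : I₀ ⊕ Fin m) : Sum.elim y x i ∈ Z := by
  cases i with
  | inl i => exact h.yZ i
  | inr i => exact h.xZ i (Fintype.mem_piFinset.1 hx i)

/-- The symbols obey reciprocity and are almost equidistributed. -/
theorem Cfg.sym (h : Cfg Z lp y n T) (hL : Lp Z σ f) {δ : ℕ}
    (hδ : ∑ l, (lp l).natDegree + (∑ i, (y i).natDegree + ∑ i, n i) + 1 ≤ δ) {η : ℝ} (hη : 0 < η)
    (hη1 : η ≤ 1) (hm : η * m ≤ 1 / 2) (hT : 0 < T)
    (hn : ∀ i, 40 * (((2 : ℝ) ^ (Fintype.card Λ + (Fintype.card I₀ + m))) ^ 2 * δ) ≤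
      η * (Fintype.card F : ℝ) ^ (n i / 2)) :
    Sym (Fintype.piFinset fun i => Pn F (n i))
      (fun x i i' => sy f (Sum.elim y x i') (Sum.elim y x i))
      (fun x i l => sy f (lp l) (Sum.elim y x i)) := by
  refine ⟨fun _ _ _ _ _ _ => rfl, fun _ _ _ _ _ _ => rfl, fun x hx x' hx' i i' hi => ?_,
    fun κ₀ κ => ?_⟩
  · have h1 : ∀ x ∈ Fintype.piFinset fun i => Pn F (n i), ∀ i,
        (Sum.elim y x i).natDegree = Sum.elim (fun i => (y i).natDegree) n i := fun x hx i => by
      cases i with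
      | inl i => rfl
      | inr i => exact symi_deg hx i
    have h2 := fun x (hx : x ∈ Fintype.piFinset fun i => Pn F (n i)) =>
      sg_recip (hL.prm _ (h.mem hx i)) (hL.prm _ (h.mem hx i')) ((h.inj' hx).ne hi)
        (hL.dec _ (h.mem hx i)) (hL.dec _ (h.mem hx i'))
    refine (h2 x hx).trans (Eq.trans ?_ (h2 x' hx').symm)
    rw [h1 x hx, h1 x hx, h1 x' hx', h1 x' hx']
  have h1 := seq_count (fun i => Pn F (n i)) (sy f) (Sum.elim lp y) hη.le
    (fun i x hx κ₀ κ => by
      have hc : Fintype.card ((Λ ⊕ I₀) ⊕ Finset.Iio i) = Fintype.card (Λ ⊕ I₀) + i.val := by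
        rw [Fintype.card_sum, Fintype.card_coe, Fin.card_Iio]
      have h2 := cheb_sym (J := (Λ ⊕ I₀) ⊕ Finset.Iio i)
        (y := Sum.elim (Sum.elim lp y) x ∘ Sum.map id Subtype.val)
        ((symi_inj h hx).comp (Function.injective_id.sumMap Subtype.val_injective))
        (by
          rintro ((l | l) | l)
          · exact hL.prm _ (h.lpZ l)
          · exact hL.prm _ (h.yZ l)
          · exact (mem_Pn.1 (Fintype.mem_piFinset.1 hx l)).1)
        (hT.trans_le (h.le i))
        (by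
          rintro (l | l)
          · exact ((h.lt l).trans_le (h.le i)).ne
          · exact fun e => (Finset.mem_Iio.1 l.2).ne (h.ninj ((symi_deg hx l).symm.trans e)))
        (δ := δ)
        (by
          refine le_trans ?_ hδ
          rw [Fintype.sum_sum_type, Fintype.sum_sum_type, add_assoc (∑ l, _)]
          refine Nat.succ_le_succ (add_le_add le_rfl (add_le_add le_rfl ?_))
          refine le_trans (le_of_eq ?_)
            (Finset.sum_le_sum_of_subset (Finset.subset_univ (Finset.Iio i)))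
          exact (Finset.sum_congr rfl fun l _ => symi_deg hx l.1).trans (Finset.sum_coe_sort _ n))
        hη hη1
        (by
          refine le_trans ?_ (hn i)
          rw [hc, Fintype.card_sum, add_assoc]
          gcongr
          · norm_num
          · exact i.2.le)
        (fun p hp => hL.dec p (h.xZ i hp)) (Sum.elim κ₀ fun l => κ l)
      rw [hc] at h2
      refine le_trans (mul_le_mul_of_nonneg_right (Nat.cast_le.2 (Finset.card_le_card
        fun p hp => ?_)) (by positivity)) h2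
      rw [Finset.mem_filter] at hp ⊢
      refine ⟨hp.1, ?_⟩
      rintro (l | l)
      · exact hp.2.1 l
      · exact hp.2.2 l (Finset.mem_Iio.1 l.2)) κ₀ κ
  rw [Fintype.card_piFinset, Nat.cast_prod]
  refine le_trans (mul_le_mul_of_nonneg_right (Nat.cast_le.2 (Finset.card_le_card
    fun x hx => ?_)) (by positivity)) (h1.trans (mul_le_mul_of_nonneg_right (symi_two hη hm)
      (by positivity)))
  rw [Finset.mem_filter] at hx ⊢
  exact ⟨hx.1, fun i => ⟨Sum.forall.2 (hx.2 i).1, (hx.2 i).2⟩⟩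

end

end Pool.Agent.Lib.MP_16ef92_ag.GF
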