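import Mathlib
import Pool.Agent.Lib.MP_16ef92_ag.GF.Rep
import Pool.Agent.Lib.MP_16ef92_ag.GF.Symb
import Pool.Agent.Lib.MP_16ef92_ag.GF.Orb
import Pool.Agent.Lib.MP_16ef92_ag.GF.Lift
import Pool.Agent.Lib.MP_16ef92_ag.GF.HBd

set_option autoImplicit false
set_option linter.unusedSectionVars false
set_option linter.unusedVariables false

namespace Pool.Agent.Lib.MP_16ef92_ag.GF

open Polynomial
open scoped Classical

noncomputable section

variable {F : Type} [Field F] [Clos F] [Fintype F] [hq : Fact (Odd (Fintype.card F))] [Fro F]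
  {Z : Finset F[X]} {bd : ℕ} {Λ I : Type} [Fintype Λ] [Fintype I]

variable (F) in
/-- The value at the Frobenius element of the character of a product of monic polynomials of total
degree `d`. -/
def sd (d : ℕ) : ℤ_[2] := sgz (d * sg (tt F) (ss F))

/-- The constant data attached to the curve, the leading coefficient `u` and the degree `d`. -/
structure Cst (A B : F[X]) (T₁ : TD fun i => ev (EE A B 1 i)) (R : Pres Z bd) (Ap : Par F Λ)
    (u : F) (d : ℕ) : Prop where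
  rho : ∀ g x, Ap.ρ g x = chi (C u) g • T₁.ro g x
  lpZ : ∀ l, Ap.lp l ∈ Z
  lpI : Function.Injective Ap.lp
  lpN : ∀ p, Prm p → (p ∣ A * B * (A - B) ↔ ∃ l, Ap.lp l = p)
  Hl : ∀ l x, (2 : ℤ_[2]) • Ap.Hl l x = x - Ap.ρ (R.σ (Ap.lp l)) x
  Hl' : ∀ l x, (2 : ℤ_[2]) • Ap.Hl' l x =
    x - Ap.ρ (R.f (Ap.lp l) * R.σ (Ap.lp l) * (R.f (Ap.lp l))⁻¹) x
  ev : Even (A.natDegree + d) → Ap.E1 = 0 ∧ Ap.E2 = 1
  od : ¬ Even (A.natDegree + d) → Ap.E1 = 2 ∧
    ∀ x, (2 : ℤ_[2]) • Ap.E2 x = sd F d • Ap.ρ (ss F) x - x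

theorem smul_triv {c : ℤ_[2]} (hc : c = 1 ∨ c = -1) {x y : V} (h : y - x ∈ Dv 1) :
    c • y - x ∈ Dv 1 := by
  rcases hc with rfl | rfl
  · rwa [one_smul]
  · have := sub_mem (neg_mem h) (two_smul_Dv x)
    convert this using 1
    module

theorem sgz_cases (a : Z2) : sgz a = 1 ∨ sgz a = -1 := by
  rcases z2_cases a with rfl | rfl
  exacts [Or.inl sgz_zero, Or.inr sgz_one]

theorem exists_hf (P : EV) (h : ∀ x, P x - x ∈ Dv 1) :
    ∃ H : EV, ∀ x, (2 : ℤ_[2]) • H x = x - P x := by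
  have : ∀ x, ∃ y : V, (2 : ℤ_[2]) • y = x - P x := fun x => by
    obtain ⟨z, hz⟩ := mem_Dv_iff.1 (neg_mem (h x))
    exact ⟨z, by rw [← pow_one (2 : ℤ_[2]), ← hz, neg_sub]⟩
  choose H hH using this
  exact ⟨⟨⟨H, fun x y => two_smul_inj (by rw [smul_add, hH, hH, hH, map_add]; abel)⟩,
    fun c x => two_smul_inj (by
      rw [RingHom.id_apply, smul_comm, hH, hH, map_smul, smul_sub])⟩, hH⟩

theorem exists_cst (A B : F[X]) (T₁ : TD fun i => ev (EE A B 1 i)) (R : Pres Z bd) (u : F) (d : ℕ)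
    {lp : Λ → F[X]} (h1 : ∀ l, lp l ∈ Z) (h2 : Function.Injective lp)
    (h3 : ∀ p, Prm p → (p ∣ A * B * (A - B) ↔ ∃ l, lp l = p)) :
    ∃ Ap : Par F Λ, Ap.lp = lp ∧ Cst A B T₁ R Ap u d := by
  let ρ : Gam F →* EV :=
    { toFun := fun g => chi (C u) g • T₁.ro g
      map_one' := by simp
      map_mul' := fun g l => by rw [map_mul, map_mul, smul_mul_smul_comm] }
  have ht : ∀ g x, ρ g x - x ∈ Dv 1 := fun g x => smul_triv (chi_cases _ g) (T₁.triv g x)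
  choose H hH using fun g => exists_hf (ρ g) (ht g)
  obtain ⟨E, hE⟩ := exists_hf (sd F d • ρ (ss F)) fun x => smul_triv (sgz_cases _) (ht _ x)
  refine ⟨⟨ρ, ht, lp, fun l => H (R.σ (lp l)), fun l => H (R.f (lp l) * R.σ (lp l) * (R.f (lp l))⁻¹),
    if Even (A.natDegree + d) then 0 else 2, if Even (A.natDegree + d) then 1 else -E⟩, rfl,
    fun _ _ => rfl, h1, h2, h3, fun l => hH _, fun l => hH _, fun h => ⟨if_pos h, if_pos h⟩,
    fun h => ⟨if_neg h, fun x => ?_⟩⟩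
  simp only [if_neg h, LinearMap.neg_apply, smul_neg, hE, neg_sub, LinearMap.smul_apply]

/-- The action of half of `1 - P` on the points of order two. -/
def nsv (P : EV) (x : Vb) : Vb :=
  if h : ∃ y : V, (2 : ℤ_[2]) • y = lb x - P (lb x) then rh h.choose else 0

/-- The symbols between the primes of the twist. -/
def sa (R : Pres Z bd) (pr : I → F[X]) (i i' : I) : Z2 := sg (ev (pr i')) (R.f (pr i))

/-- The symbols with the multiplicative primes. -/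
def sb (R : Pres Z bd) (Ap : Par F Λ) (pr : I → F[X]) (i : I) (l : Λ) : Z2 :=
  sg (ev (Ap.lp l)) (R.f (pr i))

/-- One row of the descent matrix modulo two. -/
def row1 (t : Λ → Vb) (a : I → I → Z2) (b : I → Λ → Z2) (v : Option (Λ ⊕ I) → Vb) (i : I) : Vb :=
  ∑ i', a i i' • (v (some (.inr i')) + v (some (.inr i))) +
    ∑ l, b i l • (v (some (.inl l)) + nu (t l) (v (some (.inr i))))

/-- The target of a row; it depends on the degrees `dI` only. -/
def tg1 (Ap : Par F Λ) (t : Λ → Vb) (dI : I → ℕ) (v : Option (Λ ⊕ I) → Vb) (i : I) : Vb :=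
  v none + nsv (sd F (∑ i', dI i') • Ap.ρ (ss F)) (v (some (.inr i))) +
    sg (tt F) (ss F) • (∑ l, ((Ap.lp l).natDegree : Z2) •
      (v (some (.inl l)) + nu (t l) (v (some (.inr i)))) +
      ∑ i', (dI i' : Z2) • (v (some (.inr i')) + v (some (.inr i))))

/-- The congruence condition attached to the type `v`. -/
def Cgv (Ap : Par F Λ) (v : Option (Λ ⊕ I) → Vb) (μ : Prs Λ I) : Prop :=
  rh (μ none) = v none ∧ (∀ l, rh (Ap.Hl l (μ (some (.inl l)))) = v (some (.inl l))) ∧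
    ∀ i, rh (μ (some (.inr i))) = v (some (.inr i))

/-- The bad primes. -/
def pk (Ap : Par F Λ) (pr : I → F[X]) : Λ ⊕ I → F[X] := Sum.elim Ap.lp pr

variable {e : Fin 3 → Om F}

/-- The local structure of the twist by the family `pr`. -/
structure St2 (T : TD e) (R : Pres Z bd) (Ap : Par F Λ) (pr : I → F[X]) (t : Λ → Vb) : Prop where
  rp : Rp T
  ro : T.ro = PP Ap.ρ pr
  det : dt (T.ro (ss F)) = Fintype.card F
  inj : Function.Injective (pk Ap pr)
  mem : ∀ k, pk Ap pr k ∈ Z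
  good : ∀ c, (∀ k, aeval c (pk Ap pr k) ≠ 0) → ∀ O, Over O (some c) → GoodAt T O
  tw : ∀ i c, aeval c (pr i) = 0 → ∀ O, Over O (some c) → TwistAt T O (some c)
  Hl : ∀ l, Ap.Hl l = hL T (R.σ (Ap.lp l))
  Hl' : ∀ l, Ap.Hl' l = hL T (R.f (Ap.lp l) * R.σ (Ap.lp l) * (R.f (Ap.lp l))⁻¹)
  mult : ∀ l x, rh (Ap.Hl l x) = nu (t l) (rh x)
  inf : (GoodAt T Fro.O ∧ Ap.E1 = 0 ∧ Ap.E2 = 1) ∨
    (TwistAt T Fro.O none ∧ Ap.E1 = 2 ∧ Ap.E2 = -hL T (ss F))
  ros : T.ro (ss F) = sd F (∑ i, (pr i).natDegree) • Ap.ρ (ss F)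
  odd : ∃ i, Odd (pr i).natDegree

variable {T : TD e}

/-- The cocycle `a` is invariant up to the coboundary of `t` and `2 ^ m • U`. -/
def Ai (T : TD e) (m : ℕ) (a : Ad T) (t : V) (U : Ad T) : Prop :=
  ∀ g ∈ Geo F, tw T (ss F) a.1 g = a.1 g + (T.ro g t - t) + (2 : ℤ_[2]) ^ m • U.1 g

/-- Cocycles that are invariant modulo two. -/
def I2 (T : TD e) : Submodule ℤ_[2] (Ad T) where
  carrier := {a | ∀ g ∈ Geo F, tw T (ss F) a.1 g - a.1 g ∈ Dv 1}
  add_mem' := fun {a b} ha hb g hg => by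
    have := add_mem (ha g hg) (hb g hg)
    convert this using 1
    simp only [tw, Submodule.coe_add, Pi.add_apply, map_add]
    abel
  zero_mem' := fun g _ => by simp [tw]
  smul_mem' := fun c a ha g hg => by
    have := Submodule.smul_mem _ c (ha g hg)
    convert this using 1
    simp only [tw, Submodule.coe_smul, Pi.smul_apply, map_smul, smul_sub]

theorem mem_I2 {a : Ad T} : a ∈ I2 T ↔ ∀ g ∈ Geo F, tw T (ss F) a.1 g - a.1 g ∈ Dv 1 := Iff.rfl

theorem Ai.i2 {m : ℕ} {a U : Ad T} {t : V} (h : Ai T m a t U) (hm : 1 ≤ m) : a ∈ I2 T :=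
  fun g hg => by
    rw [h g hg, add_assoc, add_sub_cancel_left]
    exact add_mem (T.triv g t) (Dv_mono hm (smul_mem_Dv _ _))

theorem Ai.ff {m : ℕ} {a U : Ad T} {t : V} (h : Ai T m a t U) :
    FM T (ss F) ((Nu T).mkQ a) = (Nu T).mkQ a + (2 : ℤ_[2]) ^ m • (Nu T).mkQ U := by
  rw [FF_mk, ← map_smul, ← map_add, mk_eq_mk]
  refine ⟨-((2 : ℤ_[2]) • t), fun g hg => (h g hg).trans ?_⟩
  rw [map_neg, map_smul, two_hL]
  simp only [Submodule.coe_add, Submodule.coe_smul, Pi.add_apply, Pi.smul_apply]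
  abel

theorem Ai.down {m j : ℕ} {a U : Ad T} {t : V} (h : Ai T (m + j) a t U) :
    Ai T m a t ((2 : ℤ_[2]) ^ j • U) := fun g hg => by
  rw [h g hg, pow_add, mul_smul]
  rfl

theorem tw_og (a : Gam F → V) (σ : Gam F) (j : ℕ) :
    tw T (ss F) a (og σ (j + 1)) = T.ro (ss F) (a (og σ j)) := by
  rw [tw, og_succ, show (ss F)⁻¹ * (ss F * og σ j * (ss F)⁻¹) * ss F = og σ j by group]

theorem i2_og {a : Ad T} (h : a ∈ I2 T) {σ : Gam F} (hσ : σ ∈ Geo F) (j : ℕ) :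
    rh (a.1 (og σ j)) = rh (a.1 σ) := by
  induction j with
  | zero => rw [og_zero]
  | succ j ih => rw [← rb_eq.2 (h _ (og_geo hσ (j + 1))), tw_og, rb_ro, ih]

theorem i2_hb (r : V) : hb T r ∈ I2 T := fun g hg => by
  have := hL_conj T ((ss F)⁻¹ * g * ss F) (ss F) r
  rw [show ss F * ((ss F)⁻¹ * g * ss F) * (ss F)⁻¹ = g by group] at this
  rw [tw, hb_apply, hb_apply, ← this, ← map_sub]
  exact map_Dv _ (T.triv _ r)

/-- The type of an almost invariant cocycle. -/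
def ty (R : Pres Z bd) (Ap : Par F Λ) (pr : I → F[X]) (a : Ad T) (t : V) :
    Option (Λ ⊕ I) → Vb := fun o => o.elim (rh t) fun k => rh (a.1 (R.σ (pk Ap pr k)))

theorem Dec.pair {p : F[X]} {σ f : Gam F} (hp : Prm p) (h : Dec p σ f) :
    ∃ c O, aeval c p = 0 ∧ Over O (some c) ∧ σ ∈ Ine O ∧ sg (pl (some c)) σ = 1 ∧
      f * σ * f⁻¹ ∈ Ine O ∧ sg (pl (some c)) (f * σ * f⁻¹) = 1 := by
  obtain ⟨c, O, h1, h2, h3, h4, h5, h6⟩ := h
  refine ⟨c, O, h1, h2, h3, h4, st_conj h5 h3, ?_⟩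
  rw [← (fr_of h6).pl (congrArg Subtype.val (hp.fix h1)), gam_pl, sg_conj h3.1, h4]

theorem inf_pair : ss F * sI F * (ss F)⁻¹ ∈ Ine (Fro.O (F := F)) ∧
    sg (pl none) (ss F * sI F * (ss F)⁻¹) = 1 :=
  ⟨st_conj Fro.st Fro.ine, (sg_conj Fro.ine.1 (ss F) none).trans Fro.sg1⟩

variable {R : Pres Z bd} {Ap : Par F Λ} {pr : I → F[X]} {t : Λ → Vb}

theorem St2.prm (h : St2 T R Ap pr t) (k : Λ ⊕ I) : Prm (pk Ap pr k) := R.prm _ (h.mem k)

theorem St2.dec (h : St2 T R Ap pr t) (k : Λ ⊕ I) :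
    Dec (pk Ap pr k) (R.σ (pk Ap pr k)) (R.f (pk Ap pr k)) := R.dec _ (h.mem k)

theorem St2.hL_gen (h : St2 T R Ap pr t) (i : I) {c : kk F} (hc : aeval c (pr i) = 0) {γ : Gam F}
    (hγ : Gen (some c) γ) (x : V) : hL T γ x = x := by
  obtain ⟨O, h1, h2, h3⟩ := hγ
  exact hL_twist (h.tw i c hc O h1) h2 h3 x

theorem St2.hL_og (h : St2 T R Ap pr t) (i : I) (j : ℕ) (x : V) :
    hL T (og (R.σ (pr i)) j) x = x := by
  obtain ⟨c, h1, h2⟩ := (h.dec (.inr i)).root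
  exact h.hL_gen i (root_ck.2 h1) (h2 j) x

theorem St2.hL_s (h : St2 T R Ap pr t) (i : I) (x : V) : hL T (R.σ (pr i)) x = x := by
  simpa only [og_zero] using h.hL_og i 0 x

theorem St2.hL_f (h : St2 T R Ap pr t) (i : I) (x : V) :
    hL T (R.f (pr i) * R.σ (pr i) * (R.f (pr i))⁻¹) x = x := by
  obtain ⟨c, O, h1, h2, -, -, h3, h4⟩ := (h.dec (.inr i)).pair (h.prm _)
  exact h.hL_gen i h1 ⟨O, h2, h3, h4⟩ x

theorem St2.goodZ (h : St2 T R Ap pr t) (c : kk F) (hc : ∀ p ∈ Z, aeval c p ≠ 0)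
    (O : ValuationSubring (Om F)) (hO : Over O (some c)) : GoodAt T O :=
  h.good c (fun k => hc _ (h.mem k)) O hO

theorem St2.good_of (h : St2 T R Ap pr t) {p : F[X]} (hp : Prm p) (hn : p ∉ Set.range (pk Ap pr))
    {c : kk F} (hc : aeval c p = 0) (O : ValuationSubring (Om F)) (hO : Over O (some c)) :
    GoodAt T O := h.good c (fun k e => hn ⟨k, (h.prm k).root_unique hp e hc⟩) O hO

theorem ad_good (a : Ad T) {O : ValuationSubring (Om F)} {x : Option (kk F)} (hO : Over O x)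
    (h : GoodAt T O) {g : Gam F} (hg : g ∈ Ine O) : a.1 g = 0 := loc_good a.2.2 hO h hg

theorem St2.off (h : St2 T R Ap pr t) {p : F[X]} (hp : p ∈ Z) (hn : p ∉ Set.range (pk Ap pr)) :
    (∀ x, T.ro (R.σ p) x = x) ∧ (∀ x, hL T (R.σ p) x = 0) ∧ ∀ a : Ad T, a.1 (R.σ p) = 0 := by
  obtain ⟨c, O, h1, h2, h3, -⟩ := R.dec p hp
  have h4 := h.good_of (R.prm p hp) hn h1 O h2
  exact ⟨h4 _ h3, hL_good h4 h3, fun a => ad_good a h2 h4 h3⟩

/-- The universal cocycle evaluated at the parameter `μ`. -/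
def EM (h : St2 T R Ap pr t) (μ : Prs Λ I) : Wd Z →* Hs :=
  MonoidHom.mk' (fun w => ⟨(EU R Ap pr w).n μ, (EU R Ap pr w).z μ μ, PG T (evw Z R.σ w)⟩)
    fun a b => by
      have : (EU R Ap pr a).g.1 = T.ro (evw Z R.σ a) := by rw [EU_g, h.ro]; rfl
      refine Hs.ext ?_ ?_ (by simp only [map_mul, Hs.mul_g])
      · simp only [map_mul, HsU.mul_n, Hs.mul_n, this, LinearMap.add_apply, LinearMap.comp_apply,
          PG_app]
      · simp only [map_mul, HsU.mul_z, Hs.mul_z, this, LinearMap.add_apply, LinearMap.comp_apply,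
          LinearMap.smul_apply, LinearMap.compl₁₂_apply, omL_apply, smul_eq_mul, PG_val]

theorem EM_n (h : St2 T R Ap pr t) (μ : Prs Λ I) (w : Wd Z) :
    (EM h μ w).n = (EU R Ap pr w).n μ := rfl

theorem EM_z (h : St2 T R Ap pr t) (μ : Prs Λ I) (w : Wd Z) :
    (EM h μ w).z = (EU R Ap pr w).z μ μ := rfl

theorem EM_g (h : St2 T R Ap pr t) (μ : Prs Λ I) (w : Wd Z) :
    (EM h μ w).g = PG T (evw Z R.σ w) := rfl

theorem EM_none (h : St2 T R Ap pr t) (μ : Prs Λ I) :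
    EM h μ (.of none) = ⟨μ none, 0, PG T (ss F)⟩ :=
  Hs.ext (by simp [EM_n, EU]) (by simp [EM_z, EU]) (by rw [EM_g, evw_none])

theorem EM_pk (h : St2 T R Ap pr t) (μ : Prs Λ I) (k : Λ ⊕ I) :
    EM h μ (.of (some ⟨_, h.mem k⟩)) = th (μ (some k)) (PG T (R.σ (pk Ap pr k))) := by
  have h1 : ∀ l, (Ap.lp l = pk Ap pr k) = (.inl l = k) := fun l =>
    propext (h.inj.eq_iff (a := .inl l))
  have h2 : ∀ i, (pr i = pk Ap pr k) = (.inr i = k) := fun i =>
    propext (h.inj.eq_iff (a := .inr i))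
  refine Hs.ext ?_ ?_ (by rw [EM_g, evw_some, th_g])
  · rw [EM_n, th_n, EU, FreeGroup.lift_apply_of]
    simp only [Option.elim, h1, h2]
    rcases k with l | i
    · simp [h.Hl, hL, pk]
    · simpa [hL, pk] using (h.hL_s i _).symm
  · rw [EM_z, th_z, EU, FreeGroup.lift_apply_of]
    simp only [Option.elim, h1]
    rcases k with l | i
    · simp [h.Hl, hL, pk]
    · have : hlf (PG T (R.σ (pr i))) (μ (some (.inr i))) = _ := h.hL_s i _
      simp [pk, this, om_self]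

theorem EM_off (h : St2 T R Ap pr t) (μ : Prs Λ I) {p : F[X]} (hp : p ∈ Z)
    (hn : p ∉ Set.range (pk Ap pr)) : EM h μ (.of (some ⟨p, hp⟩)) = 1 := by
  have h1 : ∀ l, Ap.lp l ≠ p := fun l e => hn ⟨.inl l, e⟩
  have h2 : ∀ i, pr i ≠ p := fun i e => hn ⟨.inr i, e⟩
  refine Hs.ext (by simp [EM_n, EU, h1, h2, Hs.one_n]) (by simp [EM_z, EU, h1, Hs.one_z]) ?_
  rw [EM_g, evw_some]
  exact Subtype.ext (Units.ext (LinearMap.ext (h.off hp hn).1))

end

end Pool.Agent.Lib.MP_16ef92_ag.GF
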