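import Mathlib
import Pool.Agent.Lib.MP_16ef92_ag.GF.Stg

set_option autoImplicit false
set_option linter.unusedSectionVars false
set_option linter.unusedVariables false

namespace Pool.Agent.Lib.MP_16ef92_ag.GF

open Polynomial
open scoped Classical

noncomputable section

variable {F : Type} [Field F] [Clos F] [Fintype F] [hq : Fact (Odd (Fintype.card F))] [Fro F]
  {Z : Finset F[X]} {bd : ℕ} {Λ I : Type} [Fintype Λ] [Fintype I] {e : Fin 3 → Om F} {T : TD e}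
  {R : Pres Z bd} {Ap : Par F Λ} {pr : I → F[X]} {t : Λ → Vb}

theorem Rp.hL_gen (h : Rp T) {O : ValuationSubring (Om F)} {x : Option (kk F)} (hO : Over O x)
    {γ γ' : Gam F} (h1 : γ ∈ Ine O) (h2 : sg (pl x) γ = 1) (h3 : γ' ∈ Ine O)
    (h4 : sg (pl x) γ' = 1) {m : ℕ} {d : V} (hd : hL T γ d ∈ Dv m) :
    hL T γ' d - hL T γ d ∈ Dv (m + 1) := by
  obtain ⟨Dp, hD⟩ := h.cls
  rcases hD x with h5 | ⟨-, h5⟩ | ⟨-, i, j, k, h5⟩
  · rw [hL_good (h5 O hO) h1, hL_good (h5 O hO) h3, sub_self]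
    exact zero_mem _
  · rw [hL_twist (h5 O hO) h1 h2, hL_twist (h5 O hO) h3 h4, sub_self]
    exact zero_mem _
  · obtain ⟨r, b, ht⟩ := (h5 O hO).exists_tv h.geo (T := T)
    have e1 := (ht.par (h5 O hO) h1).trans h2
    have e2 := (ht.par (h5 O hO) h3).trans h4
    obtain ⟨u, hu⟩ := (unit_of_red e1).exists_right_inv
    obtain ⟨v, hv⟩ := red_eq.1 (e2.trans e1.symm)
    have h6 : ∀ g ∈ Ine O, hL T g d = (-(b g * om r d)) • r :=
      fun g hg => hL_eq (by rw [ht.hb g hg]; module)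
    have h7 : hL T γ' d - hL T γ d = (2 * v * u) • hL T γ d := by
      rw [h6 _ h1, h6 _ h3, smul_smul, ← sub_smul]
      refine congrArg (· • r) ?_
      linear_combination (-om r d) * hv + 2 * v * om r d * hu
    obtain ⟨z, hz⟩ := mem_Dv_iff.1 hd
    rw [h7, hz]
    exact mem_Dv_iff.2 ⟨(v * u) • z, by rw [pow_succ]; module⟩

theorem rows_two {m : ℕ} {x : V} (h : x ∈ Dv m) : (2 : ℤ_[2]) • x ∈ Dv (m + 1) := by
  obtain ⟨z, rfl⟩ := mem_Dv_iff.1 h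
  rw [smul_smul, ← pow_succ']
  exact smul_mem_Dv _ _

theorem rows_loc (h : Rp T) {m : ℕ} {n : Gam F → V} (hn : CyL T (WW F) m n) {δ U : Ad T}
    (h1 : ∀ g ∈ Geo F, δ.1 g - n g ∈ Dv m) (h2 : Ai T m δ (n (ss F)) U)
    {O : ValuationSubring (Om F)} {x : Option (kk F)} (hO : Over O x) {σ f : Gam F} {d : ℕ}
    (a1 : σ ∈ Ine O) (a2 : sg (pl x) σ = 1) (a3 : f * σ * f⁻¹ ∈ Ine O)
    (a4 : sg (pl x) (f * σ * f⁻¹) = 1) (hf : f * ss F ^ (-(d : ℤ)) ∈ Geo F) {μ N : V}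
    (h3 : δ.1 σ - hL T σ μ ∈ Dv m) (h4 : n f - N ∈ Dv m) :
    hL T (f * σ * f⁻¹) ((2 : ℤ_[2]) • N + (T.ro f μ - μ)) -
      (2 : ℤ_[2]) ^ m • ∑ i ∈ Finset.range d, U.1 (og σ (i + 1)) ∈ Dv (m + 1) := by
  obtain ⟨ν, hν⟩ := h.adm δ hO
  have b1 := orb_cy (U := U.1) hn δ.2.1 h1
    (fun g hg => by rw [h2 g hg, sub_self]; exact zero_mem _) a1.1 hf (hν _ a1) (hν _ a3)
  rw [hν _ a1, ← map_sub] at h3
  have b2 := ro_dv T f h3
  have b3 := h.hL_gen hO a1 a2 a3 a4 h3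
  have b4 := map_Dv (hL T (f * σ * f⁻¹)) (rows_two h4)
  rw [← hL_conj] at b2
  simp only [map_add, map_sub, smul_sub] at b1 b2 b3 b4 ⊢
  refine (congrArg (· ∈ Dv (m + 1)) ?_).mp (sub_mem (sub_mem b1 b4) (sub_mem b2 b3))
  abel

/-- The rows of the descent matrix as sums over orbits. -/
theorem St2.rows_orb (h : St2 T R Ap pr t) {m : ℕ} {n : Gam F → V} (hn : CyL T (WW F) m n)
    {δ U : Ad T} (h1 : ∀ g ∈ Geo F, δ.1 g - n g ∈ Dv m) (h2 : Ai T m δ (n (ss F)) U) {μ : Prs Λ I}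
    (h3 : ∀ g ∈ WW F, n g - (EU R Ap pr (R.wd g)).n μ ∈ Dv m) (h4 : n (ss F) - μ none ∈ Dv m)
    (h5 : ∀ k, δ.1 (R.σ (pk Ap pr k)) - hL T (R.σ (pk Ap pr k)) (μ (some k)) ∈ Dv m) :
    rws R Ap pr none μ - (2 : ℤ_[2]) ^ m • U.1 (og (sI F) 1) ∈ Dv (m + 1) ∧
    ∀ k, rws R Ap pr (some k) μ - (2 : ℤ_[2]) ^ m •
      ∑ j ∈ Finset.range (pk Ap pr k).natDegree, U.1 (og (R.σ (pk Ap pr k)) (j + 1)) ∈
        Dv (m + 1) := by
  have hs : sI F ∈ Geo F := (Fro.ine (F := F)).1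
  have h6 := add_mem (h1 _ hs) (h3 _ (geo_le hs))
  rw [sub_add_sub_cancel] at h6
  refine ⟨?_, fun k => ?_⟩
  · rcases h.inf with ⟨hg, e1, e2⟩ | ⟨hg, e1, e2⟩
    · have b1 : δ.1 (sI F) = 0 := ad_good δ Fro.ov hg Fro.ine
      rw [b1, zero_sub, neg_mem_iff] at h6
      rw [og_succ, og_zero, ad_good U Fro.ov hg inf_pair.1, smul_zero, sub_zero, rws, e1, e2,
        LinearMap.zero_comp, zero_add]
      exact rows_two h6
    · have b1 := rows_loc h.rp hn h1 h2 Fro.ov (σ := sI F) (d := 1) Fro.ine Fro.sg1 inf_pair.1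
        inf_pair.2 (by simp [one_mem]) (μ := (EU R Ap pr (R.wd (sI F))).n μ)
        (by rw [hL_twist (g := sI F) hg Fro.ine Fro.sg1]; exact h6) h4
      rw [hL_twist hg inf_pair.1 inf_pair.2, Finset.sum_range_one] at b1
      rw [rws, e1, e2]
      simp only [LinearMap.add_apply, LinearMap.smul_apply, LinearMap.comp_apply,
        LinearMap.neg_apply, smul_neg, two_hL, neg_sub, LinearMap.proj_apply,
        Module.End.ofNat_apply, ← Nat.cast_smul_eq_nsmul ℤ_[2]]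
      exact b1
  · obtain ⟨c, O, -, hO, a1, a2, a3, a4⟩ := (h.dec k).pair (h.prm k)
    obtain ⟨_, _, _, _, _, _, _, hf⟩ := h.dec k
    have b1 := rows_loc h.rp hn h1 h2 hO a1 a2 a3 a4 hf (h5 k) (h3 _ (h.dec k).memF)
    rcases k with l | i
    · rw [rws, h.Hl', rw0, ← h.ro]
      exact b1
    · rw [rws, rw0, ← h.ro]
      exact (congrArg (fun y => y - _ ∈ Dv (m + 1)) (h.hL_f i _)).mp b1

end

end Pool.Agent.Lib.MP_16ef92_ag.GF
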