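import Mathlib
import Pool.Agent.Lib.MP_16ef92_ag.GF.Qd

set_option autoImplicit false
set_option linter.unusedSectionVars false
set_option linter.unusedVariables false

namespace Pool.Agent.Lib.MP_16ef92_ag.GF

open Polynomial
open scoped Classical

noncomputable section

variable {M : Type} [AddCommGroup M] [Module ℤ_[2] M]

theorem tri_tf (hM : Lt M) (k : ℕ) {x y : M} (h : (2 : ℤ_[2]) ^ k • x = (2 : ℤ_[2]) ^ k • y) :
    x = y := by
  induction k with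
  | zero => simpa using h
  | succ k ih =>
    refine ih (sub_eq_zero.1 (hM.tf _ ?_))
    rw [smul_sub, smul_smul, smul_smul, ← pow_succ', h, sub_self]

theorem tri_prim (hM : Lt M) {x : M} (hx : x ≠ 0) :
    ∃ (k : ℕ) (y : M), x = (2 : ℤ_[2]) ^ k • y ∧ ¬ ∃ b : M, y = (2 : ℤ_[2]) • b := by
  by_contra h
  refine hx (hM.sep x fun k => ?_)
  induction k with
  | zero => exact ⟨x, by simp⟩
  | succ k ih =>
    obtain ⟨y, hy⟩ := ih
    by_contra h'
    refine h ⟨k, y, hy, ?_⟩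
    rintro ⟨b, rfl⟩
    exact h' ⟨b, by rw [hy, smul_smul, pow_succ]⟩

theorem tri_ind {a y : M} (ha : ¬ ∃ b : M, a = (2 : ℤ_[2]) • b)
    (hy : ¬ ∃ (l : ℤ_[2]) (b : M), y = l • a + (2 : ℤ_[2]) • b) : Ind2 a y := by
  rintro α β ⟨z, hz⟩
  have hβ : 2 ∣ β := by
    by_contra h
    obtain ⟨γ, hγ⟩ := (unit_of_odd h).exists_left_inv
    refine hy ⟨-(γ * α), γ • z, ?_⟩
    linear_combination (norm := skip) γ • hz - hγ • y
    module
  refine ⟨?_, hβ⟩
  obtain ⟨β', rfl⟩ := hβ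
  by_contra h
  obtain ⟨γ, hγ⟩ := (unit_of_odd h).exists_left_inv
  refine ha ⟨γ • (z - β' • y), ?_⟩
  linear_combination (norm := skip) γ • hz - hγ • a
  module

/-- The trichotomy. -/
theorem trichotomy (hM : Lt M) (F : M →ₗ[ℤ_[2]] M) (m₀ : ℕ)
    (h : (∃ c, F (F c - c) = F c - c ∧ F c ≠ c) ∨ ∃ c₁ c₂, F c₁ = c₁ ∧ F c₂ = c₂ ∧
      ∀ α β : ℤ_[2], α • c₁ + β • c₂ = 0 → α = 0 ∧ β = 0) :
    (∃ a y, (¬ ∃ b : M, a = (2 : ℤ_[2]) • b) ∧ F a = a ∧ F y = y + a) ∨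
    (∃ v w v' w', Ind2 v w ∧ F v = v + (2 : ℤ_[2]) ^ m₀ • v' ∧ F w = w + (2 : ℤ_[2]) ^ m₀ • w') ∨
    ∃ a y, ∃ k : ℕ, k + 1 < m₀ ∧ Ind2 a y ∧ F a = a ∧ F y = y + (2 : ℤ_[2]) ^ (k + 1) • a ∧
      ∀ x x', F x = x + (2 : ℤ_[2]) ^ m₀ • x' → ∃ (l : ℤ_[2]) (b : M), x = l • a + (2 : ℤ_[2]) • b := by
  rcases h with ⟨c, h1, h2⟩ | ⟨c₁, c₂, h1, h2, h3⟩
  · have hex : ∃ k : ℕ, ∃ a y : M, (¬ ∃ b : M, a = (2 : ℤ_[2]) • b) ∧ F a = a ∧
        F y = y + (2 : ℤ_[2]) ^ k • a := by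
      obtain ⟨k, a, ha, hp⟩ := tri_prim hM (sub_ne_zero.2 h2)
      refine ⟨k, a, c, hp, tri_tf hM k ?_, by rw [← ha, add_sub_cancel]⟩
      rw [← map_smul, ← ha, h1]
    obtain ⟨a, y, hp, ha, hy⟩ := Nat.find_spec hex
    have hmin := fun j => Nat.find_min hex (m := j)
    generalize Nat.find hex = k at hy hmin
    rcases k with _ | k
    · exact Or.inl ⟨a, y, hp, ha, by simpa using hy⟩
    have hi : Ind2 a y := by
      refine tri_ind hp ?_
      rintro ⟨l, b, rfl⟩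
      refine hmin k (Nat.lt_succ_self k) ⟨a, b, hp, ha, tri_tf hM 1 ?_⟩
      rw [map_add, map_smul, map_smul, ha] at hy
      linear_combination (norm := skip) hy
      module
    refine Or.inr ?_
    rcases Nat.lt_or_ge (k + 1) m₀ with hk | hk
    · by_cases hx : ∀ x x', F x = x + (2 : ℤ_[2]) ^ m₀ • x' →
          ∃ (l : ℤ_[2]) (b : M), x = l • a + (2 : ℤ_[2]) • b
      · exact Or.inr ⟨a, y, k, hk, hi, ha, hy, hx⟩
      · obtain ⟨x, hx⟩ := not_forall.1 hx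
        obtain ⟨x', hx⟩ := not_forall.1 hx
        obtain ⟨hx, hx'⟩ := Classical.not_imp.1 hx
        exact Or.inl ⟨a, x, 0, x', tri_ind hp hx', by rw [ha, smul_zero, add_zero], hx⟩
    · obtain ⟨e, he⟩ := Nat.exists_eq_add_of_le hk
      refine Or.inl ⟨a, y, 0, (2 : ℤ_[2]) ^ e • a, hi, by rw [ha, smul_zero, add_zero], ?_⟩
      rw [hy, he, smul_smul, pow_add]
  · have h0 : c₁ ≠ 0 := by
      rintro rfl
      exact one_ne_zero (h3 1 0 (by simp)).1
    obtain ⟨i, a, rfl, hp⟩ := tri_prim hM h0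
    have ha : F a = a := tri_tf hM i (by rw [← map_smul, h1])
    obtain ⟨φ, hφ⟩ := hM.fn a hp
    have hb : c₂ - φ c₂ • a ≠ 0 := by
      intro hb
      refine pow_ne_zero i two_ne_zero (h3 (-φ c₂) (2 ^ i) ?_).2
      linear_combination (norm := skip) (2 : ℤ_[2]) ^ i • hb
      module
    obtain ⟨k, w, hw, hq⟩ := tri_prim hM hb
    have hw1 : F w = w := tri_tf hM k (by rw [← map_smul, ← hw, map_sub, map_smul, h2, ha])
    have hw2 : φ w = 0 := by
      have := congrArg φ hw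
      rw [map_sub, map_smul, map_smul, hφ, smul_eq_mul, smul_eq_mul, mul_one, sub_self] at this
      exact (mul_eq_zero.1 this.symm).resolve_left (pow_ne_zero k two_ne_zero)
    refine Or.inr (Or.inl ⟨a, w, 0, 0, tri_ind hp ?_, by rw [ha, smul_zero, add_zero],
      by rw [hw1, smul_zero, add_zero]⟩)
    rintro ⟨l, b, rfl⟩
    rw [map_add, map_smul, map_smul, hφ, smul_eq_mul, smul_eq_mul, mul_one] at hw2
    refine hq ⟨b - φ b • a, ?_⟩
    linear_combination (norm := skip) hw2 • a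
    module

variable {F : M →ₗ[ℤ_[2]] M} {B : M →ₗ[ℤ_[2]] M →ₗ[ℤ_[2]] ℤ_[2]}

/-- The test in the second case. -/
theorem test_two (hB : ∀ x y, B (F x) (F y) = B x y) {w w' δ U : M} {m m₀ : ℕ} (hm : m + 1 ≤ m₀)
    (hw : F w = w + (2 : ℤ_[2]) ^ m₀ • w') (hδ : F δ = δ + (2 : ℤ_[2]) ^ m • U) : 2 ∣ B U w := by
  obtain ⟨e, rfl⟩ := Nat.exists_eq_add_of_le hm
  have h := hB δ w
  simp only [hw, hδ, map_add, map_smul, LinearMap.add_apply, LinearMap.smul_apply,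
    smul_eq_mul] at h
  refine ⟨-(2 ^ e * B δ w' + 2 ^ (m + e) * B U w'),
    mul_left_cancel₀ (pow_ne_zero m (two_ne_zero : (2 : ℤ_[2]) ≠ 0)) ?_⟩
  linear_combination h

/-- The test in the third case. -/
theorem test_three (hM : Lt M) (hs : ∀ x y, B x y = B y x) (hB : ∀ x y, B (F x) (F y) = B x y)
    {a y δ U d : M} {k m m₀ : ℕ} (hk : k + 1 < m₀) (hm : 2 * m₀ ≤ m + 1) (hi : Ind2 a y)
    (ha : F a = a) (hy : F y = y + (2 : ℤ_[2]) ^ (k + 1) • a)
    (hx : ∀ x x', F x = x + (2 : ℤ_[2]) ^ m₀ • x' →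
      ∃ (l : ℤ_[2]) (b : M), x = l • a + (2 : ℤ_[2]) • b)
    (hδ : F δ = δ + (2 : ℤ_[2]) ^ m • U) (hd : δ = a + (2 : ℤ_[2]) • d) (u : ℤ_[2]) :
    2 ^ (m + 1) ∣ 2 ^ k * ((2 * u + 1) * B δ δ) - 2 ^ m * B U y := by
  have haa : B a a = 0 := by
    have h := hB a y
    simp only [ha, hy, map_add, map_smul, smul_eq_mul] at h
    refine mul_left_cancel₀ (pow_ne_zero (k + 1) (two_ne_zero : (2 : ℤ_[2]) ≠ 0)) ?_
    linear_combination h
  have key : ∀ r : ℕ, r + m₀ ≤ m + 1 →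
      ∃ (l : ℤ_[2]) (b : M), δ = l • a + (2 : ℤ_[2]) ^ r • b := by
    intro r
    induction r with
    | zero => exact fun _ => ⟨0, δ, by simp⟩
    | succ r ih =>
      intro hr
      obtain ⟨l, b, hb⟩ := ih (by omega)
      obtain ⟨e, he⟩ := Nat.exists_eq_add_of_le (show r + m₀ ≤ m by omega)
      obtain ⟨l', b', hb'⟩ := hx b ((2 : ℤ_[2]) ^ e • U) (tri_tf hM r (by
        rw [hb, map_add, map_smul, map_smul, ha, he] at hδ
        linear_combination (norm := skip) hδ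
        module))
      refine ⟨l + 2 ^ r * l', b', ?_⟩
      rw [hb, hb']
      module
  obtain ⟨r, hr⟩ := Nat.exists_eq_add_of_le (show m₀ ≤ m by omega)
  obtain ⟨e, he⟩ := Nat.exists_eq_add_of_le (show m + 1 ≤ 2 * (r + 1) by omega)
  obtain ⟨l, b, hb⟩ := key (r + 1) (by omega)
  obtain ⟨l', hl⟩ := (hi (l - 1) 0 ⟨d - (2 : ℤ_[2]) ^ r • b, by
    linear_combination (norm := skip) hd - hb
    module⟩).1
  have h1 := hB δ y
  simp only [hy, hδ, map_add, map_smul, LinearMap.add_apply, LinearMap.smul_apply,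
    smul_eq_mul] at h1
  have h2 : B δ δ = 2 * l * B δ a + 2 ^ (2 * (r + 1)) * B b b := by
    rw [hb]
    simp only [map_add, map_smul, LinearMap.add_apply, LinearMap.smul_apply, smul_eq_mul, haa,
      hs a b]
    ring
  rw [he] at h2
  refine ⟨(2 * u + 1) * (2 ^ (k + e) * B b b - l * 2 ^ k * B U a) -
    (1 + u + l' + 2 * u * l') * B U y, ?_⟩
  linear_combination 2 ^ k * (2 * u + 1) * h2 + (2 * u + 1) * l * h1 -
    (2 * u + 1) * 2 ^ m * B U y * hl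

end

end Pool.Agent.Lib.MP_16ef92_ag.GF
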