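import Mathlib
import Pool.Agent.Lib.MP_16ef92_ag.GF.Fin
import Pool.Agent.Lib.MP_16ef92_ag.GF.Simple
import Pool.Agent.Lib.MP_16ef92_ag.GF.Adm

set_option autoImplicit false
set_option linter.unusedSectionVars false
set_option linter.unusedVariables false

namespace Pool.Agent.Lib.MP_16ef92_ag.GF

open Polynomial Filter
open scoped Classical

noncomputable section

section
variable {F : Type} [Field F] [Clos F] [Fintype F] [hq : Fact (Odd (Fintype.card F))]
  {W : WeierstrassCurve (RatFunc F)}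

theorem null_of_zsm {c : Gam F → ℕ → Pt W} (hc : IsClass c) {b : ℤ_[2]} (hb : b ≠ 0)
    (h : IsNull (zsm b c)) : IsNull c := by
  obtain ⟨j, m, hm, h1⟩ := isNull_iff.1 h
  obtain ⟨u, i, hu⟩ : ∃ (u : ℤ_[2]) (i : ℕ), u * b = 2 ^ i :=
    ⟨(PadicInt.unitCoeff hb)⁻¹.1, b.valuation, by
      rw [Units.inv_mul_eq_iff_eq_mul]
      exact PadicInt.unitCoeff_spec hb⟩
  refine isNull_iff.2 ⟨j + i, pe m hm.1 hm.2 u, ⟨by
    rw [pe_eq m hm.1 hm.2 (m := 0) (by simp), zero_smul], pe_two m hm.1 hm.2 u⟩,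
    fun g hg => funext fun n => ?_⟩
  have h2 := congrArg (fun P => (red n u).val • P n) (h1 g hg)
  have h3 := hc.mem g hg
  have h4 : (red n (u * b)).val • c g n = ((red n u).val * (red n b).val) • c g n :=
    val_smul_eq _ h3.1 h3.2 (red_eq.1 (by simp))
  rw [val_smul_eq _ h3.1 h3.2 (m := 2 ^ i) (by simp [hu])] at h4
  simp only [Pi.smul_apply, Pi.sub_apply, act_apply, zsm, smul_sub, ← map_nsmul] at h2 ⊢
  rw [pow_add, mul_smul, h4, mul_smul, smul_comm]
  exact h2

theorem Good.simple (h : Good (Om F) W) : Simple (Om F) W := fun s hs => by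
  by_cases e : ∃ c₀ : Gam F → ℕ → Pt W, IsClass c₀ ∧ IsNull (subOne s c₀) ∧ ¬ IsNull c₀
  · obtain ⟨c₀, h1, h2, h3⟩ := e
    refine ⟨c₀, h1, h2, fun c hc h4 => ?_⟩
    obtain ⟨a, b, h5, h6⟩ := (h s hs).2 c c₀ hc h1 ((h s hs).1 c hc h4) h2
    refine ⟨a, b, fun e => h3 (null_of_zsm h1 (h5.resolve_left fun e' => e' e) ?_), h6⟩
    convert h6
    funext g n
    simp [zsm, e]
  · have h0 : ∀ g : Gam F, act g (0 : ℕ → Pt W) = 0 := fun g => funext fun n => map_zero (pm g)
    have h1 : InTate (0 : ℕ → Pt W) := ⟨rfl, fun n => smul_zero _⟩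
    refine ⟨0, ⟨fun _ _ => h1, fun g _ _ _ => by simp [h0], fun n => IsLocallyConstant.const _,
      fun O _ => ⟨0, 0, h1, fun g _ _ => by simp [h0]⟩⟩,
      ⟨0, 0, h1, fun g _ => by simp [subOne, h0]⟩, fun c hc h2 => ⟨1, 0, one_ne_zero, ?_⟩⟩
    obtain ⟨j, m, h3, h4⟩ := isNull_iff.1
      (not_not.1 fun e' => e ⟨c, hc, (h s hs).1 c hc h2, e'⟩ : IsNull c)
    refine isNull_iff.2 ⟨j, m, h3, fun g hg => ?_⟩
    rw [← h4 g hg]
    funext n
    have h5 := val_smul_eq _ (hc.mem g hg).1 (hc.mem g hg).2 (n := n) (m := 1) (a := 1) (by simp)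
    simp only [Pi.smul_apply, Pi.add_apply, zsm, h5, Pi.zero_apply, smul_zero, add_zero, one_smul]

/-- Almost all admissible twists are simple. -/
theorem final {A B : F[X]} (hsq : Squarefree (A * B * (A - B))) (hA : 0 < A.natDegree)
    (hB : B.natDegree = A.natDegree) (hC : (A - B).natDegree = A.natDegree) :
    Tendsto (fun d : ℕ => (({D : F[X] | D.natDegree = d ∧ Squarefree (A * B * (A - B) * D) ∧
      Simple (Om F) (curve A B D)}.ncard : ℝ)) /
      ({D : F[X] | D.natDegree = d ∧ Squarefree (A * B * (A - B) * D)}.ncard : ℝ))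
      atTop (nhds 1) := by
  have h1 : Tendsto (fun d : ℕ => (({D : F[X] | D.natDegree = d ∧ Bad A B D}.ncard : ℝ)) /
      (Fintype.card F : ℝ) ^ d) atTop (nhds 0) := by
    by_cases e : ∃ s : Gam F, Fr s (Fintype.card F)
    · obtain ⟨s, hs⟩ := e
      obtain ⟨Z, -⟩ := exists_fro hs
      exact main hsq hA hB hC
    · have : ∀ D, ¬ Bad A B D := fun D hD => hD.2 fun s hs => (e ⟨s, fun c => hs c (kk_alg c)⟩).elim
      simp [this]
  obtain ⟨κ, h2, h3⟩ := adm_lower hq.out hsq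
  have h4 := (h1.div_const κ).const_sub 1
  rw [zero_div, sub_zero] at h4
  refine tendsto_of_tendsto_of_tendsto_of_le_of_le' h4 tendsto_const_nhds
    (h3.mono fun d hd => ?_) (.of_forall fun d => div_le_one_of_le₀ (Nat.cast_le.2
      (Set.ncard_le_ncard (fun D hD => ⟨hD.1, hD.2.1⟩)
        ((finite_deg d).subset fun D hD => hD.1))) (Nat.cast_nonneg _))
  have h5 : (0 : ℝ) < (Fintype.card F : ℝ) ^ d := by
    have := Fintype.card_pos (α := F)
    positivity
  have h6 := (Set.ncard_le_ncard (s := {D : F[X] | D.natDegree = d ∧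
      Squarefree (A * B * (A - B) * D)}) (t := {D : F[X] | D.natDegree = d ∧
      Squarefree (A * B * (A - B) * D) ∧ Simple (Om F) (curve A B D)} ∪
      {D : F[X] | D.natDegree = d ∧ Bad A B D}) (fun D hD => by
      by_cases e : Good (Om F) (curve A B D)
      exacts [Or.inl ⟨hD.1, hD.2, e.simple⟩, Or.inr ⟨hD.1, hD.2, e⟩])
    ((finite_deg d).subset fun D hD => hD.elim And.left And.left)).trans (Set.ncard_union_le _ _)
  have h7 := (Nat.cast_le (α := ℝ)).2 h6
  have h8 := (mul_pos h2 h5).trans_le hd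
  rw [le_div_iff₀ h8, div_div, mul_comm _ κ, sub_mul, one_mul]
  have h9 := mul_le_mul_of_nonneg_left hd (div_nonneg (Nat.cast_nonneg
    {D : F[X] | D.natDegree = d ∧ Bad A B D}.ncard) (mul_pos h2 h5).le)
  rw [div_mul_cancel₀ _ (mul_pos h2 h5).ne'] at h9
  push_cast at h7
  linarith

end

end

end Pool.Agent.Lib.MP_16ef92_ag.GF
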